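import Pool.Agent.Lib.MP_cc0c1a_nt.Sub.SpecM

/-!
# MP_cc0c1a_nt / Sub: M5, the weighted `ℓ¹` norm
-/

namespace MPcc0c1aSub

open MvPolynomial

/-- The sum may be extended to any finset containing the support. -/
theorem m5_eq_sum {σ : Type} [Fintype σ] (w : σ → ℝ) (f : MvPolynomial σ ℤ)
    (s : Finset (σ →₀ ℕ)) (hs : f.support ⊆ s) :
    wl1 w f = ∑ a ∈ s, |((coeff a f : ℤ) : ℝ)| * ∏ i, w i ^ a i := by
  unfold wl1
  apply Finset.sum_subset hs
  intro a _ ha
  rw [MvPolynomial.notMem_support_iff.1 ha]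
  simp

theorem m5_prod_nonneg {σ : Type} [Fintype σ] {w : σ → ℝ} (hw : ∀ i, 0 ≤ w i) (a : σ →₀ ℕ) :
    0 ≤ ∏ i, w i ^ a i :=
  Finset.prod_nonneg fun i _ => pow_nonneg (hw i) _

theorem m5_nonneg {σ : Type} [Fintype σ] {w : σ → ℝ} (hw : ∀ i, 0 ≤ w i)
    (f : MvPolynomial σ ℤ) : 0 ≤ wl1 w f :=
  Finset.sum_nonneg fun a _ => mul_nonneg (abs_nonneg _) (m5_prod_nonneg hw a)

theorem m5_add {σ : Type} [Fintype σ] {w : σ → ℝ} (hw : ∀ i, 0 ≤ w i)
    (f g : MvPolynomial σ ℤ) : wl1 w (f + g) ≤ wl1 w f + wl1 w g := by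
  classical
  rw [m5_eq_sum w (f + g) (f.support ∪ g.support) MvPolynomial.support_add,
    m5_eq_sum w f (f.support ∪ g.support) Finset.subset_union_left,
    m5_eq_sum w g (f.support ∪ g.support) Finset.subset_union_right, ← Finset.sum_add_distrib]
  apply Finset.sum_le_sum
  intro a _
  rw [← add_mul]
  apply mul_le_mul_of_nonneg_right _ (m5_prod_nonneg hw a)
  rw [coeff_add, Int.cast_add]
  exact abs_add_le _ _

theorem m5_zero {σ : Type} [Fintype σ] (w : σ → ℝ) : wl1 w (0 : MvPolynomial σ ℤ) = 0 := by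
  unfold wl1
  simp

theorem m5_monomial {σ : Type} [Fintype σ] (w : σ → ℝ) (a : σ →₀ ℕ) (c : ℤ) :
    wl1 w (monomial a c) = |(c : ℝ)| * ∏ i, w i ^ a i := by
  classical
  rw [m5_eq_sum w _ {a} support_monomial_subset, Finset.sum_singleton, coeff_monomial,
    if_pos rfl]

theorem m5_sum {σ ι : Type} [Fintype σ] {w : σ → ℝ} (hw : ∀ i, 0 ≤ w i) (s : Finset ι)
    (F : ι → MvPolynomial σ ℤ) : wl1 w (∑ i ∈ s, F i) ≤ ∑ i ∈ s, wl1 w (F i) := by
  classical
  induction s using Finset.induction_on with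
  | empty => simp [m5_zero]
  | insert i s hi ih =>
    rw [Finset.sum_insert hi, Finset.sum_insert hi]
    exact (m5_add hw _ _).trans (by linarith)

theorem m5_mul {σ : Type} [Fintype σ] {w : σ → ℝ} (hw : ∀ i, 0 ≤ w i)
    (f g : MvPolynomial σ ℤ) : wl1 w (f * g) ≤ wl1 w f * wl1 w g := by
  have h : f * g = ∑ a ∈ f.support, ∑ b ∈ g.support, monomial (a + b) (coeff a f * coeff b g) := by
    conv_lhs => rw [f.as_sum, g.as_sum]
    rw [Finset.sum_mul_sum]
    apply Finset.sum_congr rfl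
    intro a _
    apply Finset.sum_congr rfl
    intro b _
    rw [monomial_mul]
  have h2 : wl1 w f * wl1 w g = ∑ a ∈ f.support, ∑ b ∈ g.support,
      wl1 w (monomial (a + b) (coeff a f * coeff b g)) := by
    unfold wl1
    rw [Finset.sum_mul_sum]
    apply Finset.sum_congr rfl
    intro a _
    apply Finset.sum_congr rfl
    intro b _
    have h3 := m5_monomial w (a + b) (coeff a f * coeff b g)
    unfold wl1 at h3
    rw [h3]
    have h4 : ∏ i, w i ^ (a + b) i = (∏ i, w i ^ a i) * ∏ i, w i ^ b i := by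
      rw [← Finset.prod_mul_distrib]
      apply Finset.prod_congr rfl
      intro i _
      rw [Finsupp.add_apply, pow_add]
    rw [h4, Int.cast_mul, abs_mul]
    ring
  rw [h, h2]
  refine (m5_sum hw _ _).trans (Finset.sum_le_sum fun a _ => ?_)
  exact m5_sum hw _ _

/-- **M5**, the weighted `ℓ¹` norm. -/
theorem normCalc : NormCalc := by
  intro σ _ w hw
  refine ⟨m5_nonneg hw, m5_add hw, m5_mul hw, ?_, ?_, ?_⟩
  · intro c
    have h := m5_monomial w 0 c
    simpa using h
  · classical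
    intro i
    have h := m5_monomial w (Finsupp.single i 1) 1
    have h2 : ∏ j, w j ^ (Finsupp.single i 1 : σ →₀ ℕ) j = w i := by
      rw [Finset.prod_eq_single i]
      · simp
      · intro j _ hj
        rw [Finsupp.single_eq_of_ne hj, pow_zero]
      · intro h
        exact absurd (Finset.mem_univ i) h
    rw [h2] at h
    simpa [X] using h
  · intro f a
    by_cases ha : a ∈ f.support
    · exact Finset.single_le_sum (f := fun a => |((coeff a f : ℤ) : ℝ)| * ∏ i, w i ^ a i)
        (fun b _ => mul_nonneg (abs_nonneg _) (m5_prod_nonneg hw b)) ha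
    · rw [MvPolynomial.notMem_support_iff.1 ha]
      simp only [Int.cast_zero, abs_zero, zero_mul]
      exact m5_nonneg hw f

end MPcc0c1aSub
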