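import Pool.Agent.Lib.MP_cc0c1a_nt.Sub.SpecD

/-!
# MP_cc0c1a_nt / Sub: assembly (Roth's lemma for all `m`, the final theorem)
-/

namespace MPcc0c1aSub

open MvPolynomial

theorem rothAll (h : RothStep) : RothAll := by
  intro m
  induction m with
  | zero =>
    intro ε hε
    refine ⟨1, 1, one_pos, le_rfl, ?_⟩
    intro r p q R P _ _ _ _ hP _ _
    refine ⟨0, ?_, ?_⟩
    · simp only [wt, Finset.univ_eq_empty, Finset.sum_empty]
      exact hε.le
    · obtain ⟨a, rfl⟩ : ∃ a, P = C a := ⟨_, MvPolynomial.eq_C_of_isEmpty P⟩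
      have ha : a ≠ 0 := by
        rintro rfl
        exact hP C_0
      unfold toQ sh
      rw [map_C, aeval_C, MvPolynomial.algebraMap_eq, coeff_C]
      simpa using ha
  | succ m ih => exact h m ih

/-- Separation for columns, for words of length `l`. -/
lemma colSep' (h : ColSep) (x : Config) (hx : IsFin x) (hx0 : x ≠ 0) (j : ℤ) (ε : ℝ)
    (hε : 0 < ε) : ∃ N₀ : ℕ, ∀ m ≥ N₀, ∀ n < m, ∀ l : ℕ, ε * m ≤ l →
      colWord x j l n ≠ colWord x j l m := by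
  obtain ⟨N₀, hN₀⟩ := h x hx hx0 j (ε / 2) (by positivity)
  obtain ⟨N₁, hN₁⟩ := exists_nat_ge (2 / ε)
  refine ⟨max N₀ N₁, ?_⟩
  intro m hm n hn l hl
  have hm0 : N₀ ≤ m := le_trans (le_max_left _ _) hm
  have hm1 : (N₁ : ℝ) ≤ m := by exact_mod_cast le_trans (le_max_right _ _) hm
  have h2 : 2 ≤ ε * m := by
    have : 2 / ε ≤ m := hN₁.trans hm1
    rwa [div_le_iff₀ hε, mul_comm] at this
  have hl2 : (2 : ℝ) ≤ l := h2.trans hl
  obtain ⟨l', rfl⟩ : ∃ l', l = l' + 1 := by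
    refine ⟨l - 1, ?_⟩
    have : 2 ≤ l := by exact_mod_cast hl2
    omega
  refine hN₀ m hm0 n hn l' ?_
  push_cast at hl hl2
  linarith

theorem final (h1 : RowSep) (h2 : ColSep) (h3 : Count) : Final := by
  intro x hx hx0 j
  have hc := colSep' h2 x hx hx0 j
  have hr := h1 x hx hx0 j
  refine ⟨?_, ?_⟩
  · intro ε hε
    obtain ⟨N₀, hN₀⟩ := hr ε hε
    obtain ⟨N₁, hN₁⟩ := hc ε hε
    refine ⟨max N₀ N₁, fun m hm n hn l hl => ⟨?_, ?_⟩⟩
    · exact hN₀ m (le_trans (le_max_left _ _) hm) n hn l hl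
    · exact hN₁ m (le_trans (le_max_right _ _) hm) n hn l hl
  · intro C
    obtain ⟨l₀, hl₀⟩ := h3 (rowWord x j) hr C
    obtain ⟨l₁, hl₁⟩ := h3 (colWord x j) hc C
    exact ⟨max l₀ l₁, fun l hl => ⟨hl₀ l (le_trans (le_max_left _ _) hl),
      hl₁ l (le_trans (le_max_right _ _) hl)⟩⟩

end MPcc0c1aSub
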