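import Pool.Agent.Lib.MP_cc0c1a_nt.Sub.SpecD

/-!
# D1: dichotomy for a plane lattice
-/

namespace MPcc0c1aSub

theorem dichotomy : Dichotomy := by
  classical
  intro θ S T hS hST
  have hT : 1 ≤ T := hS.trans hST
  have hT0 : 0 < T := by linarith
  have hfl : 0 < ⌊T⌋₊ := Nat.floor_pos.mpr hT
  have hex : ∃ k : ℕ, 0 < k ∧ (∃ t : ℤ, |θ * k - t| ≤ 1 / T) ∧ (k : ℝ) ≤ T := by
    obtain ⟨k, hk, hkn, h⟩ := Real.exists_nat_abs_mul_sub_round_le θ hfl
    refine ⟨k, hk, ⟨round ((k : ℝ) * θ), ?_⟩, ?_⟩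
    · rw [mul_comm θ]
      refine h.trans ?_
      exact one_div_le_one_div_of_le hT0 (Nat.lt_floor_add_one T).le
    · exact (Nat.cast_le.mpr hkn).trans (Nat.floor_le hT0.le)
  obtain ⟨hs0, ⟨t₁, ht₁⟩, hsT⟩ := Nat.find_spec hex
  have hmin : ∀ k : ℕ, k < Nat.find hex → 0 < k → ¬ ∃ t : ℤ, |θ * k - t| ≤ 1 / T := by
    intro k hk hk0 ht
    refine Nat.find_min hex hk ⟨hk0, ht, ?_⟩
    exact (Nat.cast_le.mpr hk.le).trans hsT
  generalize Nat.find hex = s₁ at hs0 ht₁ hsT hmin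
  by_cases hsS : (s₁ : ℝ) ≤ S
  · left
    refine ⟨(s₁ : ℤ), t₁, by exact_mod_cast hs0, by exact_mod_cast hsS, by exact_mod_cast ht₁⟩
  right
  push Not at hsS
  have hs1 : 1 < s₁ := by
    have : (1 : ℝ) < s₁ := lt_of_le_of_lt hS hsS
    exact_mod_cast this
  have hs1r : (0 : ℝ) < s₁ := by exact_mod_cast hs0
  obtain ⟨s₀, hk0, hkn, h⟩ := Real.exists_nat_abs_mul_sub_round_le θ
    (n := s₁ - 1) (by omega)
  have hcast : ((s₁ - 1 : ℕ) : ℝ) + 1 = s₁ := by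
    have : s₁ - 1 + 1 = s₁ := by omega
    exact_mod_cast this
  rw [hcast, mul_comm (s₀ : ℝ) θ] at h
  set t₀ : ℤ := round (θ * (s₀ : ℝ)) with ht₀
  refine ⟨(s₀ : ℤ), t₀, (s₁ : ℤ), t₁, by exact_mod_cast hk0, by omega, by exact_mod_cast hsS,
    by exact_mod_cast hsT, by rw [Int.cast_natCast, Int.cast_natCast]; exact h, ?_, ?_⟩
  · have h1 : |θ * ((s₁ : ℤ) : ℝ) - t₁| ≤ 1 / T := by exact_mod_cast ht₁
    refine h1.trans ?_
    have h2 : ((s₁ : ℤ) : ℝ) = (s₁ : ℝ) := by norm_cast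
    rw [h2]
    exact one_div_le_one_div_of_le hs1r hsT
  · intro heq
    -- the gcd of `s₁` and `t₁`
    have hg0 : (s₁ : ℤ) ≠ 0 := by exact_mod_cast hs0.ne'
    set g : ℕ := Int.gcd (s₁ : ℤ) t₁ with hg
    have hgpos : 0 < g := Int.gcd_pos_of_ne_zero_left _ hg0
    obtain ⟨g', s', t', hg'0, hcop, hs', ht'⟩ := Int.exists_gcd_one' (m := (s₁ : ℤ)) (n := t₁) hgpos
    have hdiv : s' ∣ (s₀ : ℤ) := by
      have e1 : (s₀ : ℤ) * t' = s' * t₀ := by
        have e2 : ((s₀ : ℤ) * t') * (g' : ℤ) = (s' * t₀) * (g' : ℤ) := by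
          have e3 : (s₀ : ℤ) * (t' * g') = (s' * g') * t₀ := by
            rw [← hs', ← ht']
            exact heq
          linarith
        exact mul_right_cancel₀ (by exact_mod_cast hg'0.ne') e2
      have e4 : s' ∣ (s₀ : ℤ) * t' := ⟨t₀, e1⟩
      exact IsCoprime.dvd_of_dvd_mul_right (Int.isCoprime_iff_gcd_eq_one.mpr hcop) e4
    have hs'pos : 0 < s' := by
      by_contra hneg
      push Not at hneg
      have : (s₁ : ℤ) ≤ 0 := by
        rw [hs']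
        exact mul_nonpos_of_nonpos_of_nonneg hneg (by positivity)
      omega
    have hs'le : s' ≤ (s₀ : ℤ) := Int.le_of_dvd (by exact_mod_cast hk0) hdiv
    have hs'lt : s' < (s₁ : ℤ) := by omega
    refine hmin s'.toNat (by omega) (by omega) ⟨t', ?_⟩
    have hc1 : ((s'.toNat : ℕ) : ℝ) = (s' : ℝ) := by
      have : ((s'.toNat : ℕ) : ℤ) = s' := Int.toNat_of_nonneg hs'pos.le
      exact_mod_cast this
    rw [hc1]
    have hgr : (1 : ℝ) ≤ (g' : ℝ) := by exact_mod_cast hg'0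
    have e5 : θ * (s₁ : ℝ) - t₁ = (θ * s' - t') * g' := by
      have e6 : ((s₁ : ℤ) : ℝ) = (s' : ℝ) * g' := by
        rw [hs']
        push_cast
        ring
      have e7 : (t₁ : ℝ) = (t' : ℝ) * g' := by
        rw [ht']
        push_cast
        ring
      have e8 : ((s₁ : ℤ) : ℝ) = (s₁ : ℝ) := by norm_cast
      rw [← e8, e6, e7]
      ring
    rw [e5, abs_mul, abs_of_pos (by linarith : (0 : ℝ) < g')] at ht₁
    have h9 : 0 ≤ |θ * s' - t'| := abs_nonneg _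
    nlinarith

end MPcc0c1aSub
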