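import Pool.Agent.Lib.MP_cc0c1a_nt.Sub.SpecD

/-!
# MP_cc0c1a_nt / Sub: D10, separation of rows
-/

namespace MPcc0c1aSub

theorem rowSep (h1 : TwoPow) (h2 : Digits) (h3 : RowEq) : RowSep := by
  intro x hx hx0 j ε hε
  obtain ⟨n₀, r₀, hn₀, hdig⟩ := h2 x hx hx0
  -- a common positive denominator
  set ξ : ℝ := (6 : ℝ) ^ (j - 1) * ((n₀ : ℝ) / 6 ^ r₀) with hξ
  have hξ0 : 0 < ξ := by
    have : (0 : ℝ) < n₀ := by exact_mod_cast hn₀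
    positivity
  obtain ⟨a, b, ha, hb, hab⟩ : ∃ a b : ℤ, a ≠ 0 ∧ 0 < b ∧ ξ = (a : ℝ) / b := by
    refine ⟨((6 : ℚ) ^ (j - 1) * ((n₀ : ℚ) / 6 ^ r₀)).num,
      ((6 : ℚ) ^ (j - 1) * ((n₀ : ℚ) / 6 ^ r₀)).den, ?_, ?_, ?_⟩
    · rw [Rat.num_ne_zero]
      have : (n₀ : ℚ) ≠ 0 := by exact_mod_cast hn₀.ne'
      positivity
    · exact_mod_cast Rat.den_pos _
    · have := Rat.num_div_den ((6 : ℚ) ^ (j - 1) * ((n₀ : ℚ) / 6 ^ r₀))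
      have h' : (((((6 : ℚ) ^ (j - 1) * ((n₀ : ℚ) / 6 ^ r₀)).num : ℚ) /
        (((6 : ℚ) ^ (j - 1) * ((n₀ : ℚ) / 6 ^ r₀)).den : ℚ) : ℚ) : ℝ) = ξ := by
        rw [this, hξ]; push_cast; rfl
      rw [← h']
      push_cast
      rfl
  obtain ⟨M₀, hM₀⟩ := h1 a a b (ε * Real.log 6) ha hb (by positivity)
  -- growth
  obtain ⟨M₁, hM₁⟩ : ∃ M₁ : ℕ, ∀ m ≥ M₁, 6 ≤ ξ * (3 / 2) ^ m := by
    have ht : Filter.Tendsto (fun m : ℕ => ξ * (3 / 2 : ℝ) ^ m) Filter.atTop Filter.atTop :=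
      (tendsto_pow_atTop_atTop_of_one_lt (by norm_num)).const_mul_atTop hξ0
    obtain ⟨M₁, h⟩ := Filter.eventually_atTop.1 (ht.eventually_ge_atTop 6)
    exact ⟨M₁, h⟩
  refine ⟨max M₀ M₁, ?_⟩
  intro m hm n hnm l hl heq
  have hmM₀ : M₀ ≤ m := le_trans (le_max_left _ _) hm
  have hmM₁ : M₁ ≤ m := le_trans (le_max_right _ _) hm
  have hy : ∀ k : ℕ, 0 ≤ ξ * (3 / 2 : ℝ) ^ k := fun k => by positivity
  have hd : ∀ (k i : ℕ), ((F^[k] x (j + (i : ℕ)) : Fin 6) : ℕ)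
      = ⌊(6 : ℝ) ^ (i + 1) * (ξ * (3 / 2) ^ k)⌋₊ % 6 := by
    intro k i
    rw [hdig, hξ]
    congr 2
    have : (6 : ℝ) ^ (j + (i : ℤ)) = 6 ^ (i + 1) * 6 ^ (j - 1) := by
      rw [← zpow_natCast, ← zpow_add₀ (by norm_num)]
      congr 1
      push_cast
      ring
    rw [this]
    ring
  have hrow : ∀ i < l, ⌊(6 : ℝ) ^ (i + 1) * (ξ * (3 / 2) ^ m)⌋₊ % 6
      = ⌊(6 : ℝ) ^ (i + 1) * (ξ * (3 / 2) ^ n)⌋₊ % 6 := by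
    intro i hi
    rw [← hd, ← hd]
    have := congrFun heq ⟨i, hi⟩
    simp only [rowWord] at this
    rw [this]
  have h4 := h3 _ _ l (hy m) (hy n) hrow
  set c : ℤ := (⌊ξ * (3 / 2 : ℝ) ^ m⌋₊ : ℤ) - ⌊ξ * (3 / 2 : ℝ) ^ n⌋₊ with hc
  have hcR : (c : ℝ) = (⌊ξ * (3 / 2 : ℝ) ^ m⌋₊ : ℝ) - ⌊ξ * (3 / 2 : ℝ) ^ n⌋₊ := by
    rw [hc]; push_cast; ring
  have hgap : 2 ≤ ξ * (3 / 2 : ℝ) ^ m - ξ * (3 / 2) ^ n := by
    have h6 := hM₁ m hmM₁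
    obtain ⟨k, rfl⟩ : ∃ k, m = n + 1 + k := ⟨m - n - 1, by omega⟩
    have e1 : ξ * (3 / 2 : ℝ) ^ (n + 1 + k) = (3 / 2) * (ξ * (3 / 2) ^ n * (3 / 2) ^ k) := by
      rw [pow_add, pow_succ]; ring
    have e2 : (1 : ℝ) ≤ (3 / 2) ^ k := one_le_pow₀ (by norm_num)
    have e3 : ξ * (3 / 2 : ℝ) ^ n ≤ ξ * (3 / 2) ^ n * (3 / 2) ^ k :=
      le_mul_of_one_le_right (hy n) e2
    rw [e1] at h6 ⊢
    linarith
  have hc0 : c ≠ 0 := by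
    intro h0
    rw [h0] at hcR
    have a1 := Nat.floor_le (hy m)
    have a2 := Nat.lt_floor_add_one (ξ * (3 / 2 : ℝ) ^ m)
    have b1 := Nat.floor_le (hy n)
    have b2 := Nat.lt_floor_add_one (ξ * (3 / 2 : ℝ) ^ n)
    push_cast at hcR
    linarith
  have h5 := hM₀ m hmM₀ n hnm.le 0 c hc0
  rw [← hab] at h5
  simp only [pow_zero, one_mul] at h5
  rw [hcR] at h5
  have h6 : (1 : ℝ) / 6 ^ l ≤ Real.exp (-(ε * Real.log 6) * m) := by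
    have e1 : (6 : ℝ) ^ l = Real.exp (Real.log 6 * l) := by
      rw [mul_comm, ← Real.log_rpow (by norm_num), Real.exp_log (by positivity), Real.rpow_natCast]
    rw [e1, one_div, ← Real.exp_neg]
    apply Real.exp_le_exp.2
    have hl6 : 0 < Real.log 6 := Real.log_pos (by norm_num)
    nlinarith
  linarith

end MPcc0c1aSub
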