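import Pool.Agent.Lib.MP_cc0c1a_nt.Sub.SpecD

/-!
# MP_cc0c1a_nt / Sub: D11, separation of columns
-/

namespace MPcc0c1aSub

theorem colSep (h1 : TwoPow) (h2 : Digits) (h3 : ColEq) : ColSep := by
  intro x hfin hx j ε hε
  obtain ⟨n₀, r₀, hn₀, hdig⟩ := h2 x hfin hx
  -- the rational number `ξ`
  set q : ℚ := (6 : ℚ) ^ j * ((n₀ : ℚ) / 6 ^ r₀) with hq
  have hqpos : 0 < q := by
    have : (0 : ℚ) < n₀ := by exact_mod_cast hn₀
    positivity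
  have hqR : (q : ℝ) = (6 : ℝ) ^ j * ((n₀ : ℝ) / 6 ^ r₀) := by
    rw [hq]; push_cast; rfl
  have hnum : 0 < q.num := Rat.num_pos.2 hqpos
  have hden : (0 : ℤ) < (q.den : ℤ) := by exact_mod_cast q.den_pos
  have hqnd : ((q.num : ℤ) : ℝ) / ((q.den : ℤ) : ℝ) = (q : ℝ) := by
    rw [Rat.cast_def]; push_cast; rfl
  set ξ : ℝ := (q : ℝ) with hξ
  have hξpos : 0 < ξ := by rw [hξ]; exact_mod_cast hqpos
  set y : ℕ → ℝ := fun n => ξ * (3 / 2) ^ n with hy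
  have hydig : ∀ n : ℕ, ((F^[n] x j : Fin 6) : ℕ) = ⌊y n⌋₊ % 6 := by
    intro n
    rw [hdig n j, hy, hqR]
    congr 2
    ring
  have hy0 : ∀ n, 0 ≤ y n := fun n => by
    change 0 ≤ ξ * (3 / 2) ^ n
    positivity
  have hyadd : ∀ n k, y (n + k) = y n * (3 / 2) ^ k := fun n k => by
    change ξ * (3 / 2) ^ (n + k) = ξ * (3 / 2) ^ n * (3 / 2) ^ k
    rw [pow_add]; ring
  have hlog : 0 < Real.log 3 := Real.log_pos (by norm_num)
  obtain ⟨M₀, hM₀⟩ := h1 q.num q.num q.den (ε * Real.log 3) hnum.ne' hden (by positivity)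
  obtain ⟨N₁, hN₁⟩ := pow_unbounded_of_one_lt (3 / ξ) (by norm_num : (1 : ℝ) < 3 / 2)
  refine ⟨max M₀ N₁, ?_⟩
  intro m hm n hnm l hl heq
  have hmM : M₀ ≤ m := (le_max_left _ _).trans hm
  have hmN : N₁ ≤ m := (le_max_right _ _).trans hm
  -- equal digits
  have hcol : ∀ k ≤ l, ⌊y m * (3 / 2) ^ k⌋₊ % 6 = ⌊y n * (3 / 2) ^ k⌋₊ % 6 := by
    intro k hk
    have h4 := congrFun heq ⟨k, by omega⟩
    unfold colWord at h4
    simp only at h4
    rw [← hyadd, ← hyadd, ← hydig, ← hydig, h4]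
  obtain ⟨c, hc1, hc2⟩ := h3 (y m) (y n) l (hy0 m) (hy0 n) hcol
  -- `c ≠ 0`
  have hbig : 3 ≤ y m := by
    have h5 : (3 / 2 : ℝ) ^ N₁ ≤ (3 / 2) ^ m := pow_le_pow_right₀ (by norm_num) hmN
    have h6 : 3 / ξ < (3 / 2 : ℝ) ^ m := hN₁.trans_le h5
    rw [div_lt_iff₀ hξpos] at h6
    change 3 ≤ ξ * (3 / 2) ^ m
    linarith
  have hstep : y n + 1 ≤ y m := by
    obtain ⟨k, rfl⟩ : ∃ k, m = n + 1 + k := ⟨m - (n + 1), by omega⟩
    have h5 : y (n + 1 + k) = y n * (3 / 2) * (3 / 2) ^ k := by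
      rw [hyadd, hyadd, pow_one]
    have h6 : (1 : ℝ) ≤ (3 / 2) ^ k := one_le_pow₀ (by norm_num)
    have h7 : y n * (3 / 2) ≤ y (n + 1 + k) := by
      rw [h5]
      exact le_mul_of_one_le_right (by have := hy0 n; positivity) h6
    linarith
  have hc0 : c ≠ 0 := by
    rintro rfl
    rw [mul_zero, sub_eq_zero] at hc1
    have h5 : ⌊y n⌋₊ + 1 ≤ ⌊y m⌋₊ := by
      rw [← Nat.floor_add_one (hy0 n)]
      exact Nat.floor_le_floor hstep
    omega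
  -- the contradiction
  have hmain := hM₀ m hmM n hnm.le l c hc0
  have hident : ((q.num : ℤ) : ℝ) / ((q.den : ℤ) : ℝ) * (3 / 2) ^ m -
      ((q.num : ℤ) : ℝ) / ((q.den : ℤ) : ℝ) * (3 / 2) ^ n - 2 ^ l * c =
      y m - y n - 2 ^ l * c := by
    rw [hqnd]
  rw [hident] at hmain
  have hle : Real.exp (-(ε * Real.log 3) * m) ≥ Real.exp (-(Real.log 3 * l)) := by
    apply Real.exp_le_exp.2
    nlinarith
  have hexp : Real.exp (-(Real.log 3 * l)) = (1 / 3 : ℝ) ^ l := by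
    rw [Real.exp_neg, mul_comm, Real.exp_nat_mul, Real.exp_log (by norm_num), one_div, inv_pow]
  have h23 : (2 / 3 : ℝ) ^ l = 2 ^ l * (1 / 3) ^ l := by
    rw [← mul_pow]; norm_num
  have h2l : (0 : ℝ) < 2 ^ l := by positivity
  rw [h23, ← hexp] at hc2
  have := mul_le_mul_of_nonneg_left hle h2l.le
  linarith

end MPcc0c1aSub
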