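import Pool.Agent.Lib.MP_cc0c1a_nt.Sub.SpecD

/-!
# MP_cc0c1a_nt / Sub: D12, superlinear complexity from separation
-/

namespace MPcc0c1aSub

theorem count : Count := by
  classical
  intro w hw C
  obtain ⟨K, hK⟩ := exists_nat_ge C
  have hK2 : (0 : ℝ) < (K : ℝ) + 2 := by positivity
  obtain ⟨N₀, hN⟩ := hw (1 / ((K : ℝ) + 2)) (by positivity)
  refine ⟨N₀ + 1, fun l hl => ?_⟩
  have hinj : Set.InjOn (w l) (Finset.Icc N₀ ((K + 2) * l) : Finset ℕ) := by
    have key : ∀ n m : ℕ, N₀ ≤ n → m ≤ (K + 2) * l → n < m → w l n ≠ w l m := by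
      intro n m hn hm hnm
      apply hN m (by omega) n hnm l
      have h1 : (m : ℝ) ≤ ((K : ℝ) + 2) * l := by
        have : ((m : ℕ) : ℝ) ≤ (((K + 2) * l : ℕ) : ℝ) := by exact_mod_cast hm
        push_cast at this
        exact this
      rw [one_div, inv_mul_le_iff₀ hK2]
      exact h1
    intro n hn m hm he
    rw [Finset.coe_Icc, Set.mem_Icc] at hn hm
    rcases lt_trichotomy n m with h | h | h
    · exact absurd he (key n m hn.1 hm.2 h)
    · exact h
    · exact absurd he.symm (key m n hm.1 hn.2 h)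
  have h1 : ((Finset.Icc N₀ ((K + 2) * l)).image (w l)).card = (K + 2) * l + 1 - N₀ := by
    rw [Finset.card_image_of_injOn hinj, Nat.card_Icc]
  have h2 : ((Finset.Icc N₀ ((K + 2) * l)).image (w l)).card ≤ (Set.range (w l)).ncard := by
    rw [← Set.ncard_coe_finset]
    apply Set.ncard_le_ncard _ (Set.toFinite _)
    intro v hv
    rw [Finset.coe_image] at hv
    obtain ⟨n, _, hn⟩ := hv
    exact ⟨n, hn⟩
  have h3 : K * l ≤ (Set.range (w l)).ncard := by
    rw [h1] at h2
    have e : (K + 2) * l = K * l + 2 * l := by ring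
    rw [e] at h2
    omega
  calc C * l ≤ (K : ℝ) * l := mul_le_mul_of_nonneg_right hK (Nat.cast_nonneg l)
    _ ≤ _ := by exact_mod_cast h3

end MPcc0c1aSub
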