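import Pool.Agent.Lib.MP_cc0c1a_nt.Sub.SpecD

/-!
# MP_cc0c1a_nt / Sub: bound for `κ`
-/

namespace MPcc0c1aSub

theorem kappaBound : KappaBound := by
  intro a₁ a₂ b ε ha₁ hb hε
  have hbR : (0 : ℝ) < b := by exact_mod_cast hb
  have ha : (0 : ℝ) < |(a₁ : ℝ)| := abs_pos.2 (by exact_mod_cast ha₁)
  have ha2 : (0 : ℝ) ≤ |(a₂ : ℝ)| := abs_nonneg _
  set K : ℝ := 2 * (|(a₁ : ℝ)| + |(a₂ : ℝ)|) / b with hK
  have hKpos : 0 < K := by positivity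
  obtain ⟨n₁, hn₁⟩ := exists_nat_ge (1 / ε)
  obtain ⟨n₂, hn₂⟩ := pow_unbounded_of_one_lt K (by norm_num : (1 : ℝ) < 4 / 3)
  refine ⟨K, max n₁ n₂, hKpos, ?_⟩
  intro M hM N κ c hExc
  obtain ⟨hNM, hc, hlt⟩ := hExc
  have hM1 : n₁ ≤ M := le_trans (le_max_left _ _) hM
  have hM2 : n₂ ≤ M := le_trans (le_max_right _ _) hM
  have hexp : Real.exp (-ε * M) ≤ 1 / 2 := by
    have h1 : 1 ≤ ε * M := by
      have : (1 / ε) ≤ M := hn₁.trans (by exact_mod_cast hM1)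
      rw [div_le_iff₀ hε] at this
      linarith
    have h2 : Real.exp (-ε * M) ≤ Real.exp (-1) := Real.exp_le_exp.2 (by linarith)
    have h3 : Real.exp (-1) ≤ 1 / 2 := by
      rw [Real.exp_neg, one_div]
      exact inv_anti₀ (by norm_num) (by
        have := Real.add_one_le_exp (1 : ℝ)
        linarith)
    exact h2.trans h3
  have h2κ : (0 : ℝ) < 2 ^ κ := by positivity
  have hc1 : (1 : ℝ) ≤ |(c : ℝ)| := by
    have : 1 ≤ |c| := Int.one_le_abs hc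
    exact_mod_cast this
  have h32 : (0 : ℝ) < (3 / 2) ^ M := by positivity
  have hN : ((3 : ℝ) / 2) ^ N ≤ (3 / 2) ^ M := pow_le_pow_right₀ (by norm_num) hNM
  have hmain : (2 : ℝ) ^ κ ≤ K * (3 / 2) ^ M := by
    have e1 : (2 : ℝ) ^ κ * |(c : ℝ)| = |(2 : ℝ) ^ κ * c| := by
      rw [abs_mul, abs_of_pos h2κ]
    have e2 : |(2 : ℝ) ^ κ * c| ≤ |(a₁ / b : ℝ) * (3 / 2) ^ M| + |(a₂ / b : ℝ) * (3 / 2) ^ N| +
        |(a₁ / b : ℝ) * (3 / 2) ^ M - (a₂ / b : ℝ) * (3 / 2) ^ N - 2 ^ κ * c| := by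
      have e3 : (2 : ℝ) ^ κ * c = (a₁ / b : ℝ) * (3 / 2) ^ M - (a₂ / b : ℝ) * (3 / 2) ^ N -
          ((a₁ / b : ℝ) * (3 / 2) ^ M - (a₂ / b : ℝ) * (3 / 2) ^ N - 2 ^ κ * c) := by ring
      nth_rewrite 1 [e3]
      refine (abs_sub _ _).trans ?_
      gcongr
      exact abs_sub _ _
    have e4 : |(a₁ / b : ℝ) * (3 / 2) ^ M| = |(a₁ : ℝ)| / b * (3 / 2) ^ M := by
      rw [abs_mul, abs_div, abs_of_pos hbR, abs_of_pos h32]
    have e5 : |(a₂ / b : ℝ) * (3 / 2) ^ N| ≤ |(a₂ : ℝ)| / b * (3 / 2) ^ M := by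
      rw [abs_mul, abs_div, abs_of_pos hbR, abs_of_pos (by positivity : (0 : ℝ) < (3 / 2) ^ N)]
      exact mul_le_mul_of_nonneg_left hN (by positivity)
    have e6 : (2 : ℝ) ^ κ ≤ 2 ^ κ * |(c : ℝ)| := le_mul_of_one_le_right h2κ.le hc1
    have e7 : (2 : ℝ) ^ κ * Real.exp (-ε * M) ≤ 2 ^ κ * (1 / 2) :=
      mul_le_mul_of_nonneg_left hexp h2κ.le
    have e8 : K * (3 / 2) ^ M = 2 * (|(a₁ : ℝ)| / b * (3 / 2) ^ M + |(a₂ : ℝ)| / b * (3 / 2) ^ M) := by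
      rw [hK]; ring
    rw [e8]
    linarith
  refine ⟨hmain, ?_⟩
  have h1 : K * (3 / 2) ^ M ≤ 2 ^ M := by
    have h2 : K ≤ (4 / 3 : ℝ) ^ M := hn₂.le.trans (pow_le_pow_right₀ (by norm_num) hM2)
    calc K * (3 / 2) ^ M ≤ (4 / 3 : ℝ) ^ M * (3 / 2) ^ M := mul_le_mul_of_nonneg_right h2 h32.le
      _ = 2 ^ M := by rw [← mul_pow]; norm_num
  have h3 : (2 : ℝ) ^ κ ≤ 2 ^ M := hmain.trans h1
  exact (pow_le_pow_iff_right₀ (by norm_num : (1 : ℝ) < 2)).1 h3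

end MPcc0c1aSub
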