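import Pool.Agent.Lib.MP_cc0c1a_nt.Sub.SpecD

/-!
# MP_cc0c1a_nt / Sub / D3: primitive normals
-/

set_option autoImplicit false

namespace MPcc0c1aSub

/-- two independent vectors have a nonzero minor -/
theorem D3.cross_ne {x x' : Fin 3 → ℤ} (h : Indep x x')
    (h0 : x 1 * x' 2 - x 2 * x' 1 = 0) (h1 : x 2 * x' 0 - x 0 * x' 2 = 0)
    (h2 : x 0 * x' 1 - x 1 * x' 0 = 0) : False := by
  have hm : ∀ i j : Fin 3, x i * x' j = x j * x' i := by
    intro i j
    fin_cases i <;> fin_cases j <;> simp only [Fin.zero_eta, Fin.mk_one, Fin.reduceFinMk] <;>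
      linarith
  unfold Indep at h
  rw [LinearIndependent.pair_iff] at h
  by_cases hx' : ∀ j, x' j = 0
  · have h3 := h 0 1 (by
      ext i
      simp [hx' i])
    exact one_ne_zero h3.2
  · push Not at hx'
    obtain ⟨j, hj⟩ := hx'
    have h3 := h (x' j) (-(x j : ℚ)) (by
      ext i
      simp only [Pi.add_apply, Pi.smul_apply, smul_eq_mul, Pi.zero_apply]
      have h4 : (x i : ℚ) * x' j = x j * x' i := by exact_mod_cast hm i j
      linarith)
    exact hj (by exact_mod_cast h3.1)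

theorem existsNormal : ExistsNormal := by
  intro x x' h
  set w : Fin 3 → ℤ := ![x 1 * x' 2 - x 2 * x' 1, x 2 * x' 0 - x 0 * x' 2,
    x 0 * x' 1 - x 1 * x' 0] with hw
  obtain ⟨u, hu, hu1⟩ := Finset.extract_gcd (s := Finset.univ) w ⟨0, Finset.mem_univ _⟩
  set g := Finset.univ.gcd w with hg
  have e0 : x 1 * x' 2 - x 2 * x' 1 = g * u 0 := hu 0 (Finset.mem_univ _)
  have e1 : x 2 * x' 0 - x 0 * x' 2 = g * u 1 := hu 1 (Finset.mem_univ _)
  have e2 : x 0 * x' 1 - x 1 * x' 0 = g * u 2 := hu 2 (Finset.mem_univ _)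
  have hg0 : g ≠ 0 := by
    intro h0
    rw [h0, zero_mul] at e0 e1 e2
    exact D3.cross_ne h e0 e1 e2
  refine ⟨u, g, ⟨?_, ?_, ?_⟩, hg0, e0, e1, e2⟩
  · intro d hd
    apply isUnit_of_dvd_one
    rw [← hu1]
    exact Finset.dvd_gcd (fun i _ => hd i)
  · apply mul_left_cancel₀ hg0
    rw [Fin.sum_univ_three, mul_zero]
    have : g * (u 0 * x 0 + u 1 * x 1 + u 2 * x 2) =
        (g * u 0) * x 0 + (g * u 1) * x 1 + (g * u 2) * x 2 := by ring
    rw [this, ← e0, ← e1, ← e2]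
    ring
  · apply mul_left_cancel₀ hg0
    rw [Fin.sum_univ_three, mul_zero]
    have : g * (u 0 * x' 0 + u 1 * x' 1 + u 2 * x' 2) =
        (g * u 0) * x' 0 + (g * u 1) * x' 1 + (g * u 2) * x' 2 := by ring
    rw [this, ← e0, ← e1, ← e2]
    ring

end MPcc0c1aSub
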