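import Pool.Agent.Lib.MP_cc0c1a_nt.Sub.SpecD

set_option autoImplicit false

/-!
# MP_cc0c1a_nt / Sub: D4, the case of a small vector
-/

namespace MPcc0c1aSub

theorem d4_two_pow (n : ℕ) : (2 : ℝ) ^ n = Real.exp (n * Real.log 2) := by
  rw [mul_comm, Real.exp_mul, Real.exp_log (by norm_num), Real.rpow_natCast]

theorem d4_three_pow (n : ℕ) : (3 : ℝ) ^ n = Real.exp (n * Real.log 3) := by
  rw [mul_comm, Real.exp_mul, Real.exp_log (by norm_num), Real.rpow_natCast]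

/-- `3^M (2^N/3^N) = ...`: scaling of the exceptional inequality -/
theorem d4_scale (a₁ a₂ b : ℤ) (hb : 0 < b) (M N κ : ℕ) (hN : N ≤ M) (c : ℤ) :
    (a₁ : ℝ) * 3 ^ M - a₂ * (3 ^ N * 2 ^ (M - N)) - b * (2 ^ (M + κ) * c) =
      b * 2 ^ M * ((a₁ / b : ℝ) * (3 / 2) ^ M - (a₂ / b : ℝ) * (3 / 2) ^ N - 2 ^ κ * c) := by
  have hb' : (b : ℝ) ≠ 0 := by exact_mod_cast hb.ne'
  have h2 : (2 : ℝ) ^ M = 2 ^ N * 2 ^ (M - N) := by rw [← pow_add, Nat.add_sub_cancel' hN]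
  have e1 : (b : ℝ) * 2 ^ M * ((a₁ / b : ℝ) * (3 / 2) ^ M) = a₁ * 3 ^ M := by
    rw [div_pow]
    field_simp
  have e2 : (b : ℝ) * 2 ^ M * ((a₂ / b : ℝ) * (3 / 2) ^ N) = a₂ * (3 ^ N * 2 ^ (M - N)) := by
    rw [h2, div_pow]
    field_simp
  have e3 : (b : ℝ) * 2 ^ M * (2 ^ κ * c) = b * (2 ^ (M + κ) * c) := by
    rw [pow_add]
    ring
  rw [mul_sub, mul_sub, e1, e2, e3]

theorem d4_scale' (a₁ b : ℤ) (hb : 0 < b) (M κ : ℕ) (s t : ℤ) :
    (a₁ : ℝ) * (3 ^ M * s) - b * (2 ^ (M + κ) * t) =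
      b * 2 ^ (M + κ) * (thet a₁ b M κ * s - t) := by
  have hb' : (b : ℝ) ≠ 0 := by exact_mod_cast hb.ne'
  unfold thet
  rw [pow_add, div_pow]
  field_simp

theorem d4_indep (x x' : Fin 3 → ℤ) (h0 : x 1 ≠ 0) (h1 : x' 1 = 0) (h2 : x' 0 ≠ 0) :
    Indep x x' := by
  unfold Indep
  rw [LinearIndependent.pair_iff]
  intro p q h
  have e1 := congrFun h 1
  have e0 := congrFun h 0
  simp only [Pi.add_apply, Pi.smul_apply, smul_eq_mul, Pi.zero_apply] at e0 e1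
  rw [h1, Int.cast_zero, mul_zero, add_zero] at e1
  have hp : p = 0 := by
    rcases mul_eq_zero.1 e1 with h | h
    · exact h
    · exact absurd (by exact_mod_cast h) h0
  rw [hp, zero_mul, zero_add] at e0
  refine ⟨hp, ?_⟩
  rcases mul_eq_zero.1 e0 with h | h
  · exact h
  · exact absurd (by exact_mod_cast h) h2

/-- the height of the normal -/
theorem d4_height (D₁ D₂ D₃ s t g u₀ u₂ : ℤ) (hco : IsCoprime D₁ D₃) (h1 : D₁ ≠ 0)
    (h2 : D₂ ≠ 0) (hs : s ≠ 0) (ht : t ≠ 0)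
    (e0 : D₂ * (D₃ * t) = g * u₀) (e2 : D₂ * (D₁ * s) = g * u₂) : |D₃| ≤ |u₀| * |s| := by
  have hg : g ∣ D₂ * (s * t) := by
    obtain ⟨v, w, hvw⟩ := hco
    have e : D₂ * (s * t) = v * t * (D₂ * (D₁ * s)) + w * s * (D₂ * (D₃ * t)) := by
      linear_combination (-(D₂ * (s * t))) * hvw
    rw [e, e0, e2]
    exact ⟨v * t * u₂ + w * s * u₀, by ring⟩
  have hle : |g| ≤ |D₂ * (s * t)| := by
    apply Int.le_of_dvd (abs_pos.2 (mul_ne_zero h2 (mul_ne_zero hs ht)))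
    rw [abs_dvd, dvd_abs]
    exact hg
  have hpos : 0 < |D₂| * |t| := mul_pos (abs_pos.2 h2) (abs_pos.2 ht)
  have h3 : |D₂| * |t| * |D₃| ≤ |D₂| * |t| * (|u₀| * |s|) := by
    have e : |D₂| * |t| * |D₃| = |g| * |u₀| := by
      rw [← abs_mul, ← abs_mul, ← abs_mul, ← e0]
      congr 1
      ring
    rw [e]
    calc |g| * |u₀| ≤ |D₂ * (s * t)| * |u₀| := mul_le_mul_of_nonneg_right hle (abs_nonneg _)
      _ = |D₂| * |t| * (|u₀| * |s|) := by
        rw [abs_mul, abs_mul]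
        ring
  exact le_of_mul_le_mul_left h3 hpos

theorem caseTwo (h1 : KappaBound) (h2 : ExistsNormal) : CaseTwo := by
  intro a₁ a₂ b ε ε' ha₁ hb hε hε1 hε'
  obtain ⟨K, M₁, hK, hκ⟩ := h1 a₁ a₂ b ε ha₁ hb hε
  obtain ⟨M₂, hM₂⟩ := exists_nat_ge (4 * Real.log b / ε')
  obtain ⟨M₃, hM₃⟩ := exists_nat_gt (K * b / (|(a₁ : ℝ)| * (2 * (ε / 3))))
  have hbR : (0 : ℝ) < b := by exact_mod_cast hb
  have haR : (0 : ℝ) < |(a₁ : ℝ)| := abs_pos.2 (by exact_mod_cast ha₁)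
  have l2 : Real.log 2 < 1 := by have := Real.log_two_lt_d9; linarith
  have l2' : 2 / 3 < Real.log 2 := by have := Real.log_two_gt_d9; linarith
  have l3 : Real.log 3 - Real.log 2 ≤ 1 := by
    rw [← Real.log_div (by norm_num) (by norm_num)]
    have := Real.log_le_sub_one_of_pos (show (0 : ℝ) < 3 / 2 by norm_num)
    linarith
  have l3' : 0 ≤ Real.log 3 - Real.log 2 := by
    have := Real.log_le_log (show (0 : ℝ) < 2 by norm_num) (show (2 : ℝ) ≤ 3 by norm_num)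
    linarith
  refine ⟨max M₁ (max M₂ M₃), fun M hM N κ c s t ν lam hE hs hsS hθ hN hκl => ?_⟩
  have hM1 : M₁ ≤ M := le_trans (le_max_left _ _) hM
  have hM2 : (M₂ : ℝ) ≤ M := by
    exact_mod_cast le_trans (le_trans (le_max_left _ _) (le_max_right _ _)) hM
  have hM3 : (M₃ : ℝ) ≤ M := by
    exact_mod_cast le_trans (le_trans (le_max_right _ _) (le_max_right _ _)) hM
  have hM0 : (0 : ℝ) ≤ M := Nat.cast_nonneg M
  obtain ⟨hNM, hc, hex⟩ := hE
  have hκ' := (hκ M hM1 N κ c ⟨hNM, hc, hex⟩).1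
  have hsR : (1 : ℝ) ≤ s := by exact_mod_cast hs
  have hN1 := (abs_le.1 hN).2
  have hκ1 := (abs_le.1 hκl).2
  -- the size of `b`
  have hlogb : Real.log b ≤ ε' / 4 * M := by
    have h := hM₂.trans hM2
    rw [div_le_iff₀ hε'] at h
    linarith
  -- `b D₃`
  have hbD : (b : ℝ) * 2 ^ (M + κ) ≤ Real.exp (((1 + lam) * Real.log 2 + ε') * M) := by
    rw [d4_two_pow]
    conv_lhs => rw [← Real.exp_log hbR]
    rw [← Real.exp_add]
    apply Real.exp_le_exp.2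
    push_cast
    have e1 : (κ : ℝ) * Real.log 2 ≤ (lam * M + ε' / 2 * M) * Real.log 2 :=
      mul_le_mul_of_nonneg_right (by linarith) (by linarith)
    have e2 : ε' / 2 * M * Real.log 2 ≤ ε' / 2 * M * 1 :=
      mul_le_mul_of_nonneg_left l2.le (by positivity)
    have e3 : 0 ≤ ε' * M := by positivity
    nlinarith
  -- `t ≠ 0`
  have ht : t ≠ 0 := by
    rintro rfl
    rw [Int.cast_zero, sub_zero, abs_mul, abs_of_pos (by linarith : (0 : ℝ) < s)] at hθ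
    have hth : |thet a₁ b M κ| = |(a₁ : ℝ)| / b * (3 / 2) ^ M / 2 ^ κ := by
      unfold thet
      rw [abs_div, abs_mul, abs_div, abs_of_pos hbR, abs_of_pos (by positivity : (0 : ℝ) < (3 / 2) ^ M),
        abs_of_pos (by positivity : (0 : ℝ) < 2 ^ κ)]
    have h3 : |(a₁ : ℝ)| / b / K ≤ |thet a₁ b M κ| := by
      rw [hth, div_le_div_iff₀ hK (by positivity)]
      have : |(a₁ : ℝ)| / b * 2 ^ κ ≤ |(a₁ : ℝ)| / b * (K * (3 / 2) ^ M) :=
        mul_le_mul_of_nonneg_left hκ' (by positivity)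
      linarith
    have h4 : |(a₁ : ℝ)| / b / K ≤ 1 / Real.exp (2 * (ε / 3) * M) := by
      refine h3.trans (le_trans ?_ hθ)
      exact le_mul_of_one_le_right (abs_nonneg _) hsR
    have h5 : Real.exp (2 * (ε / 3) * M) ≤ K * b / |(a₁ : ℝ)| := by
      rw [le_div_iff₀ haR]
      rw [div_div, div_le_div_iff₀ (by positivity) (Real.exp_pos _)] at h4
      linarith
    have h6 := Real.add_one_le_exp (2 * (ε / 3) * M)
    have h7 : K * b / |(a₁ : ℝ)| < 2 * (ε / 3) * M := by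
      have h8 := lt_of_lt_of_le hM₃ hM3
      rw [div_lt_iff₀ (by positivity)] at h8
      rw [div_lt_iff₀ haR]
      linarith
    linarith
  have hD1 : (3 : ℤ) ^ M ≠ 0 := pow_ne_zero _ (by norm_num)
  have hD2 : (3 : ℤ) ^ N * 2 ^ (M - N) ≠ 0 :=
    mul_ne_zero (pow_ne_zero _ (by norm_num)) (pow_ne_zero _ (by norm_num))
  have hs0 : s ≠ 0 := by omega
  have hind : Indep ![3 ^ M, 3 ^ N * 2 ^ (M - N), 2 ^ (M + κ) * c]
      ![3 ^ M * s, 0, 2 ^ (M + κ) * t] :=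
    d4_indep _ _ hD2 rfl (mul_ne_zero hD1 hs0)
  obtain ⟨u, g, hu, -, g0, -, g2⟩ := h2 _ _ hind
  refine ⟨![0, M - N, M + κ], ![M, N, 0], ![3 ^ M, 3 ^ N * 2 ^ (M - N), 2 ^ (M + κ) * c],
    ![3 ^ M * s, 0, 2 ^ (M + κ) * t], u, ?_, ?_, ?_, ?_, hind, hu, 0, ?_⟩
  · intro i
    fin_cases i
    · show |((0 : ℕ) : ℝ) - 0 * M| ≤ ε' * M
      rw [Nat.cast_zero, zero_mul, sub_zero, abs_zero]
      positivity
    · show |((M - N : ℕ) : ℝ) - (1 - ν) * M| ≤ ε' * M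
      rw [Nat.cast_sub hNM]
      have e : (M : ℝ) - N - (1 - ν) * M = -((N : ℝ) - ν * M) := by ring
      rw [e, abs_neg]
      have : 0 ≤ ε' * M := by positivity
      linarith
    · show |((M + κ : ℕ) : ℝ) - (1 + lam) * M| ≤ ε' * M
      push_cast
      have e : (M : ℝ) + κ - (1 + lam) * M = (κ : ℝ) - lam * M := by ring
      rw [e]
      have : 0 ≤ ε' * M := by positivity
      linarith
  · intro i
    fin_cases i
    · show |(M : ℝ) - 1 * M| ≤ ε' * M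
      rw [one_mul, sub_self, abs_zero]
      positivity
    · show |(N : ℝ) - ν * M| ≤ ε' * M
      have : 0 ≤ ε' * M := by positivity
      linarith
    · show |((0 : ℕ) : ℝ) - 0 * M| ≤ ε' * M
      rw [Nat.cast_zero, zero_mul, sub_zero, abs_zero]
      positivity
  · intro i
    fin_cases i
    · refine ⟨?_, ?_, ?_, ?_⟩
      · exact one_dvd _
      · exact dvd_rfl
      · exact one_dvd _
      · exact dvd_mul_right _ _
    · refine ⟨?_, ?_, ?_, ?_⟩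
      · exact dvd_mul_left _ _
      · exact dvd_mul_right _ _
      · exact dvd_zero _
      · exact dvd_zero _
    · refine ⟨?_, ?_, ?_, ?_⟩
      · exact dvd_mul_right _ _
      · exact one_dvd _
      · exact dvd_mul_right _ _
      · exact one_dvd _
  · intro i
    fin_cases i
    · have e1 : app (Mp a₁ a₂ b) ![3 ^ M, 3 ^ N * 2 ^ (M - N), 2 ^ (M + κ) * c] 0 = 3 ^ M := by
        simp [app, Mp, Fin.sum_univ_three]
      have e2 : app (Mp a₁ a₂ b) ![3 ^ M * s, 0, 2 ^ (M + κ) * t] 0 = 3 ^ M * s := by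
        simp [app, Mp, Fin.sum_univ_three]
      show |((app (Mp a₁ a₂ b) ![3 ^ M, 3 ^ N * 2 ^ (M - N), 2 ^ (M + κ) * c] 0 : ℤ) : ℝ)| ≤
          Real.exp ((Real.log 3 + ε / 3 + ε') * M) ∧
        |((app (Mp a₁ a₂ b) ![3 ^ M * s, 0, 2 ^ (M + κ) * t] 0 : ℤ) : ℝ)| ≤
          Real.exp ((Real.log 3 + ε / 3 + ε') * M)
      rw [e1, e2]
      push_cast
      have h3 : (3 : ℝ) ^ M * s ≤ Real.exp ((Real.log 3 + ε / 3 + ε') * M) := by
        calc (3 : ℝ) ^ M * s ≤ 3 ^ M * Real.exp (ε / 3 * M) :=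
              mul_le_mul_of_nonneg_left hsS (by positivity)
          _ = Real.exp (M * Real.log 3 + ε / 3 * M) := by rw [d4_three_pow, Real.exp_add]
          _ ≤ _ := by
            apply Real.exp_le_exp.2
            have : 0 ≤ ε' * M := by positivity
            nlinarith
      have h3' : (3 : ℝ) ^ M ≤ 3 ^ M * s := le_mul_of_one_le_right (by positivity) hsR
      rw [abs_of_pos (by positivity : (0 : ℝ) < 3 ^ M),
        abs_of_pos (by positivity : (0 : ℝ) < 3 ^ M * s)]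
      exact ⟨h3'.trans h3, h3⟩
    · have e1 : app (Mp a₁ a₂ b) ![3 ^ M, 3 ^ N * 2 ^ (M - N), 2 ^ (M + κ) * c] 1 =
          3 ^ N * 2 ^ (M - N) := by
        simp [app, Mp, Fin.sum_univ_three]
      have e2 : app (Mp a₁ a₂ b) ![3 ^ M * s, 0, 2 ^ (M + κ) * t] 1 = 0 := by
        simp [app, Mp, Fin.sum_univ_three]
      show |((app (Mp a₁ a₂ b) ![3 ^ M, 3 ^ N * 2 ^ (M - N), 2 ^ (M + κ) * c] 1 : ℤ) : ℝ)| ≤
          Real.exp ((ν * Real.log 3 + (1 - ν) * Real.log 2 + ε') * M) ∧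
        |((app (Mp a₁ a₂ b) ![3 ^ M * s, 0, 2 ^ (M + κ) * t] 1 : ℤ) : ℝ)| ≤
          Real.exp ((ν * Real.log 3 + (1 - ν) * Real.log 2 + ε') * M)
      rw [e1, e2]
      push_cast
      rw [abs_zero, abs_of_pos (by positivity : (0 : ℝ) < 3 ^ N * 2 ^ (M - N))]
      refine ⟨?_, (Real.exp_pos _).le⟩
      rw [d4_three_pow, d4_two_pow, ← Real.exp_add, Nat.cast_sub hNM]
      apply Real.exp_le_exp.2
      have e3 : ((N : ℝ) - ν * M) * (Real.log 3 - Real.log 2) ≤ ε' / 2 * M * 1 := by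
        calc ((N : ℝ) - ν * M) * (Real.log 3 - Real.log 2) ≤
              ε' / 2 * M * (Real.log 3 - Real.log 2) := mul_le_mul_of_nonneg_right hN1 l3'
          _ ≤ _ := mul_le_mul_of_nonneg_left l3 (by positivity)
      have : 0 ≤ ε' * M := by positivity
      nlinarith
    · have e1 : ((app (Mp a₁ a₂ b) ![3 ^ M, 3 ^ N * 2 ^ (M - N), 2 ^ (M + κ) * c] 2 : ℤ) : ℝ) =
          (a₁ : ℝ) * 3 ^ M - a₂ * (3 ^ N * 2 ^ (M - N)) - b * (2 ^ (M + κ) * c) := by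
        simp [app, Mp, Fin.sum_univ_three]
        ring
      have e2 : ((app (Mp a₁ a₂ b) ![3 ^ M * s, 0, 2 ^ (M + κ) * t] 2 : ℤ) : ℝ) =
          (a₁ : ℝ) * (3 ^ M * s) - b * (2 ^ (M + κ) * t) := by
        simp [app, Mp, Fin.sum_univ_three]
        ring
      show |((app (Mp a₁ a₂ b) ![3 ^ M, 3 ^ N * 2 ^ (M - N), 2 ^ (M + κ) * c] 2 : ℤ) : ℝ)| ≤
          Real.exp (((1 + lam) * Real.log 2 - 2 * (ε / 3) + ε') * M) ∧
        |((app (Mp a₁ a₂ b) ![3 ^ M * s, 0, 2 ^ (M + κ) * t] 2 : ℤ) : ℝ)| ≤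
          Real.exp (((1 + lam) * Real.log 2 - 2 * (ε / 3) + ε') * M)
      rw [e1, e2, d4_scale a₁ a₂ b hb M N κ hNM c, d4_scale' a₁ b hb M κ s t]
      have hE2 : Real.exp (((1 + lam) * Real.log 2 - 2 * (ε / 3) + ε') * M) =
          Real.exp (((1 + lam) * Real.log 2 + ε') * M) * (1 / Real.exp (2 * (ε / 3) * M)) := by
        rw [one_div, ← Real.exp_neg, ← Real.exp_add]
        congr 1
        ring
      rw [hE2]
      constructor
      · rw [abs_mul, abs_of_pos (by positivity : (0 : ℝ) < b * 2 ^ M)]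
        have h3 : (b : ℝ) * 2 ^ M * |(a₁ / b : ℝ) * (3 / 2) ^ M - (a₂ / b : ℝ) * (3 / 2) ^ N -
            2 ^ κ * c| ≤ b * 2 ^ M * (2 ^ κ * Real.exp (-ε * M)) :=
          mul_le_mul_of_nonneg_left hex.le (by positivity)
        refine h3.trans ?_
        have h4 : (b : ℝ) * 2 ^ M * (2 ^ κ * Real.exp (-ε * M)) =
            b * 2 ^ (M + κ) * Real.exp (-ε * M) := by
          rw [pow_add]
          ring
        rw [h4]
        apply mul_le_mul hbD _ (Real.exp_pos _).le (Real.exp_pos _).le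
        rw [one_div, ← Real.exp_neg]
        apply Real.exp_le_exp.2
        have : 0 ≤ ε * M := by positivity
        nlinarith
      · rw [abs_mul, abs_of_pos (by positivity : (0 : ℝ) < b * 2 ^ (M + κ))]
        exact mul_le_mul hbD hθ (abs_nonneg _) (Real.exp_pos _).le
  · have e0 : (3 : ℤ) ^ N * 2 ^ (M - N) * (2 ^ (M + κ) * t) = g * u 0 := by
      have h : (3 : ℤ) ^ N * 2 ^ (M - N) * (2 ^ (M + κ) * t) - 2 ^ (M + κ) * c * 0 =
        g * u 0 := g0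
      rw [mul_zero, sub_zero] at h
      exact h
    have e2 : (3 : ℤ) ^ N * 2 ^ (M - N) * (3 ^ M * s) = g * (-(u 2)) := by
      have h : (3 : ℤ) ^ M * 0 - 3 ^ N * 2 ^ (M - N) * (3 ^ M * s) = g * u 2 := g2
      linear_combination -h
    have hco : IsCoprime ((3 : ℤ) ^ M) (2 ^ (M + κ)) := by
      apply IsCoprime.pow
      exact ⟨1, -1, by norm_num⟩
    have hh := d4_height _ _ _ s t g (u 0) (-(u 2)) hco hD1 hD2 hs0 ht e0 e2
    have hh' : (2 : ℝ) ^ (M + κ) ≤ |(u 0 : ℝ)| * s := by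
      have h3 : ((|(2 : ℤ) ^ (M + κ)| : ℤ) : ℝ) ≤ ((|u 0| * |s| : ℤ) : ℝ) := by exact_mod_cast hh
      push_cast at h3
      rw [abs_of_pos (by positivity : (0 : ℝ) < 2 ^ (M + κ)),
        abs_of_pos (by linarith : (0 : ℝ) < s)] at h3
      exact h3
    have h4 : (2 : ℝ) ^ M ≤ |(u 0 : ℝ)| * Real.exp (ε / 3 * M) := by
      calc (2 : ℝ) ^ M ≤ 2 ^ (M + κ) := pow_le_pow_right₀ (by norm_num) (Nat.le_add_right _ _)
        _ ≤ |(u 0 : ℝ)| * s := hh'
        _ ≤ _ := mul_le_mul_of_nonneg_left hsS (abs_nonneg _)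
    have h5 : Real.exp (Real.log 2 / 2 * M) * Real.exp (ε / 3 * M) ≤
        |(u 0 : ℝ)| * Real.exp (ε / 3 * M) := by
      refine le_trans ?_ h4
      rw [← Real.exp_add, d4_two_pow]
      apply Real.exp_le_exp.2
      nlinarith
    exact le_of_mul_le_mul_right h5 (Real.exp_pos _)

end MPcc0c1aSub
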