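import Pool.Agent.Lib.MP_cc0c1a_nt.Sub.SpecD

/-!
# MP_cc0c1a_nt / Sub: D5, the balanced case
-/

set_option autoImplicit false

namespace MPcc0c1aSub

namespace D5

/-- a primitive vector proportional to a given one -/
theorem exists_prim (e : Fin 3 → ℤ) (h : e 0 ≠ 0) : ∃ (g : ℤ) (u : Fin 3 → ℤ), 0 < g ∧
    (∀ i, e i = g * u i) ∧ ∀ d : ℤ, (∀ i, d ∣ u i) → IsUnit d := by
  have hd : ∀ i, ((Int.gcd (e 0) (Int.gcd (e 1) (e 2)) : ℕ) : ℤ) ∣ e i := by
    intro i
    fin_cases i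
    · exact Int.gcd_dvd_left _ _
    · exact (Int.gcd_dvd_right _ _).trans (Int.gcd_dvd_left _ _)
    · exact (Int.gcd_dvd_right _ _).trans (Int.gcd_dvd_right _ _)
  have hg : 0 < Int.gcd (e 0) (Int.gcd (e 1) (e 2)) := Int.gcd_pos_of_ne_zero_left _ h
  choose u hu using hd
  refine ⟨_, u, by exact_mod_cast hg, hu, ?_⟩
  intro d hdu
  have h1 : ((Int.gcd (e 0) (Int.gcd (e 1) (e 2)) : ℕ) : ℤ) * d ∣
      ((Int.gcd (e 0) (Int.gcd (e 1) (e 2)) : ℕ) : ℤ) := by
    have h2 : ∀ i, ((Int.gcd (e 0) (Int.gcd (e 1) (e 2)) : ℕ) : ℤ) * d ∣ e i := by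
      intro i
      rw [hu i]
      exact mul_dvd_mul_left _ (hdu i)
    exact Int.dvd_coe_gcd (h2 0) (Int.dvd_coe_gcd (h2 1) (h2 2))
  have h3 : ((Int.gcd (e 0) (Int.gcd (e 1) (e 2)) : ℕ) : ℤ) ≠ 0 := by exact_mod_cast hg.ne'
  obtain ⟨k, hk⟩ := h1
  have h4 : d * k = 1 := by
    have : ((Int.gcd (e 0) (Int.gcd (e 1) (e 2)) : ℕ) : ℤ) * (d * k) =
        ((Int.gcd (e 0) (Int.gcd (e 1) (e 2)) : ℕ) : ℤ) * 1 := by
      rw [mul_one, ← mul_assoc]; exact hk.symm
    exact mul_left_cancel₀ h3 this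
  exact IsUnit.of_mul_eq_one _ h4

theorem two_pow_exp (n : ℕ) : (2 : ℝ) ^ n = Real.exp (n * Real.log 2) := by
  rw [Real.exp_nat_mul, Real.exp_log (by norm_num)]

theorem three_pow_exp (n : ℕ) : (3 : ℝ) ^ n = Real.exp (n * Real.log 3) := by
  rw [Real.exp_nat_mul, Real.exp_log (by norm_num)]

/-- the vector `e × (D₁ s, 0, D₃ t)` -/
def yv (M N κ : ℕ) (c s t : ℤ) : Fin 3 → ℤ :=
  ![3 ^ N * 2 ^ (M - N) * 2 ^ (M + κ) * t, 3 ^ M * 2 ^ (M + κ) * (c * s - t),
    -(3 ^ M * (3 ^ N * 2 ^ (M - N)) * s)]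

end D5

open D5

theorem caseOne : CaseOne := by
  intro a₁ a₂ b ε ε' ha₁ hb hε hε1 hε'
  obtain ⟨M₀, hM₀⟩ := exists_nat_ge (4 * Real.log (2 * b) / ε')
  refine ⟨M₀, ?_⟩
  intro M hM N κ c s₀ t₀ s₁ t₁ ν lam z hexc hs0 hs01 hs1 hs1' h0 h1 hind hN hκ hz
  obtain ⟨hNM, hc, hδ⟩ := hexc
  have hbR : (1 : ℝ) ≤ b := by exact_mod_cast hb
  have hb0 : (b : ℝ) ≠ 0 := by positivity
  have hMR : (M₀ : ℝ) ≤ M := by exact_mod_cast hM
  have hlog2b : Real.log (2 * b) ≤ ε' / 4 * M := by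
    have h2 : 4 * Real.log (2 * b) / ε' ≤ M := hM₀.trans hMR
    rw [div_le_iff₀ hε'] at h2
    linarith
  have hL2 : 0 < Real.log 2 := Real.log_pos (by norm_num)
  have hL2' : Real.log 2 < 0.7 := by
    have := Real.log_two_lt_d9
    linarith
  have hL23 : Real.log 2 < Real.log 3 := Real.log_lt_log (by norm_num) (by norm_num)
  have hL3 : Real.log 3 < 1.4 := by
    have h3 : Real.log 3 < Real.log 4 := Real.log_lt_log (by norm_num) (by norm_num)
    have h4 : Real.log 4 = 2 * Real.log 2 := by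
      rw [show (4 : ℝ) = 2 ^ 2 by norm_num, Real.log_pow]; norm_num
    linarith
  have hlogb : Real.log b ≤ Real.log (2 * b) := Real.log_le_log (by linarith) (by linarith)
  have hM0 : (0 : ℝ) ≤ M := Nat.cast_nonneg _
  have hs1pos : (0 : ℝ) < s₁ := lt_trans (Real.exp_pos _) hs1
  have hs0pos : (0 : ℝ) < s₀ := by exact_mod_cast (by omega : 0 < s₀)
  have hs01' : (s₀ : ℝ) ≤ s₁ := by exact_mod_cast hs01.le
  obtain ⟨hN1, hN2⟩ := abs_le.1 hN
  obtain ⟨hκ1, hκ2⟩ := abs_le.1 hκ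
  obtain ⟨hz1, hz2⟩ := abs_le.1 hz
  have hcast : ((M - N : ℕ) : ℝ) = M - N := Nat.cast_sub hNM
  -- the products
  have hp1 : ((N : ℝ) - ν * M) * (Real.log 3 - Real.log 2) ≤ ε' / 4 * M * (Real.log 3 - Real.log 2) :=
    mul_le_mul_of_nonneg_right hN2 (by linarith)
  have hp2 : ((κ : ℝ) - lam * M) * Real.log 2 ≤ ε' / 4 * M * Real.log 2 :=
    mul_le_mul_of_nonneg_right hκ2 hL2.le
  have hεM : 0 ≤ ε' / 4 * M := by positivity
  have hp3 : ε' / 4 * M * Real.log 3 ≤ ε' / 4 * M * 1.4 := mul_le_mul_of_nonneg_left hL3.le hεM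
  have hp4 : ε' / 4 * M * Real.log 2 ≤ ε' / 4 * M * 0.7 := mul_le_mul_of_nonneg_left hL2'.le hεM
  have hp5 : 0 ≤ ε' / 4 * M * Real.log 2 := mul_nonneg hεM hL2.le
  -- the three sizes for a good pair
  have hθ : ∀ s t : ℤ, |thet a₁ b M κ * s - t| ≤ 1 / s₁ → 0 < (s : ℝ) → (s : ℝ) ≤ s₁ →
      ∀ i, |((app (Md a₁ a₂ b) (yv M N κ c s t) i : ℤ) : ℝ)| ≤
        Real.exp ((![(1 - ν) * Real.log 2 + ν * Real.log 3 + (1 + lam) * Real.log 2 - z,
          Real.log 3 + (1 + lam) * Real.log 2 - ε / 3,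
          Real.log 3 + (1 - ν) * Real.log 2 + ν * Real.log 3 + z] i + ε') * M) := by
    intro s t hst hs hss
    have h2M : (2 : ℝ) ^ M ≠ 0 := by positivity
    have hθe : (b : ℝ) * 2 ^ (M + κ) * thet a₁ b M κ = a₁ * 3 ^ M := by
      unfold thet
      rw [div_pow, pow_add]
      field_simp
    have hδe : (b : ℝ) * 2 ^ M * ((a₁ / b : ℝ) * (3 / 2) ^ M - (a₂ / b : ℝ) * (3 / 2) ^ N - 2 ^ κ * c) =
        a₁ * 3 ^ M - a₂ * (3 ^ N * 2 ^ (M - N)) - b * 2 ^ (M + κ) * c := by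
      have h5 : (2 : ℝ) ^ M = 2 ^ (M - N) * 2 ^ N := by rw [← pow_add, Nat.sub_add_cancel hNM]
      have e1 : (2 : ℝ) ^ M * (3 / 2) ^ M = 3 ^ M := by rw [← mul_pow]; norm_num
      have e2 : (2 : ℝ) ^ N * (3 / 2) ^ N = 3 ^ N := by rw [← mul_pow]; norm_num
      have e3 : (b : ℝ) * (a₁ / b) = a₁ := by field_simp
      have e4 : (b : ℝ) * (a₂ / b) = a₂ := by field_simp
      calc (b : ℝ) * 2 ^ M * ((a₁ / b : ℝ) * (3 / 2) ^ M - (a₂ / b : ℝ) * (3 / 2) ^ N - 2 ^ κ * c)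
          = (b * (a₁ / b)) * (2 ^ M * (3 / 2) ^ M) - (b * (a₂ / b)) * (2 ^ M * (3 / 2) ^ N)
            - b * (2 ^ M * 2 ^ κ) * c := by ring
        _ = a₁ * 3 ^ M - a₂ * (2 ^ (M - N) * (2 ^ N * (3 / 2) ^ N)) - b * 2 ^ (M + κ) * c := by
            rw [e1, e3, e4, h5, pow_add 2 M κ, h5]; ring
        _ = _ := by rw [e2]; ring
    intro i
    fin_cases i
    · -- first form
      have e : (((app (Md a₁ a₂ b) (yv M N κ c s t) 0 : ℤ)) : ℝ) =
          -((3 ^ N * 2 ^ (M - N)) * (b * 2 ^ (M + κ)) * (thet a₁ b M κ * s - t)) := by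
        have : (((app (Md a₁ a₂ b) (yv M N κ c s t) 0 : ℤ)) : ℝ) =
            b * (3 ^ N * 2 ^ (M - N) * 2 ^ (M + κ) * t) - a₁ * (3 ^ M * (3 ^ N * 2 ^ (M - N)) * s) := by
          simp [app, Md, yv, Fin.sum_univ_three]
          ring
        rw [this]
        linear_combination (3 ^ N * 2 ^ (M - N)) * (s : ℝ) * hθe
      have hbd : |(((app (Md a₁ a₂ b) (yv M N κ c s t) 0 : ℤ)) : ℝ)| ≤
          (3 ^ N * 2 ^ (M - N)) * (b * 2 ^ (M + κ)) * (1 / s₁) := by
        rw [e, abs_neg, abs_mul, abs_of_nonneg (by positivity : (0:ℝ) ≤ (3 ^ N * 2 ^ (M - N)) * (b * 2 ^ (M + κ)))]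
        exact mul_le_mul_of_nonneg_left hst (by positivity)
      refine hbd.trans ?_
      have hexp : (3 ^ N * 2 ^ (M - N)) * ((b : ℝ) * 2 ^ (M + κ)) * (1 / s₁) =
          Real.exp (N * Real.log 3 + (M - N : ℕ) * Real.log 2 + Real.log b +
            (M + κ : ℕ) * Real.log 2 - Real.log s₁) := by
        rw [Real.exp_sub, Real.exp_add, Real.exp_add, Real.exp_add, Real.exp_log hs1pos,
          Real.exp_log (by linarith), ← two_pow_exp, ← two_pow_exp, ← three_pow_exp]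
        ring
      rw [hexp]
      apply Real.exp_le_exp.2
      simp only [Fin.zero_eta, Matrix.cons_val_zero]
      rw [hcast]
      push_cast
      linarith [hp1, hp2, hp3, hp4, hz1, hlogb, hlog2b]
    · -- second form
      have e : (((app (Md a₁ a₂ b) (yv M N κ c s t) 1 : ℤ)) : ℝ) =
          3 ^ M * ((b * 2 ^ (M + κ)) * (thet a₁ b M κ * s - t) -
            (b * 2 ^ M * ((a₁ / b : ℝ) * (3 / 2) ^ M - (a₂ / b : ℝ) * (3 / 2) ^ N - 2 ^ κ * c)) * s) := by
        have : (((app (Md a₁ a₂ b) (yv M N κ c s t) 1 : ℤ)) : ℝ) =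
            b * (3 ^ M * 2 ^ (M + κ) * (c * s - t)) + a₂ * (3 ^ M * (3 ^ N * 2 ^ (M - N)) * s) := by
          simp [app, Md, yv, Fin.sum_univ_three]
        rw [this, hδe]
        linear_combination (-(3 ^ M) * (s : ℝ)) * hθe
      have hbd : |(((app (Md a₁ a₂ b) (yv M N κ c s t) 1 : ℤ)) : ℝ)| ≤
          3 ^ M * ((b * 2 ^ (M + κ)) * (1 / s₁) + (b * 2 ^ M * (2 ^ κ * Real.exp (-ε * M))) * s₁) := by
        rw [e, abs_mul, abs_of_nonneg (by positivity : (0:ℝ) ≤ 3 ^ M)]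
        refine mul_le_mul_of_nonneg_left ((abs_sub _ _).trans (add_le_add ?_ ?_)) (by positivity)
        · rw [abs_mul, abs_of_nonneg (by positivity : (0:ℝ) ≤ (b : ℝ) * 2 ^ (M + κ))]
          exact mul_le_mul_of_nonneg_left hst (by positivity)
        · rw [abs_mul, abs_mul, abs_of_nonneg (by positivity : (0:ℝ) ≤ (b : ℝ) * 2 ^ M),
            abs_of_nonneg hs.le]
          refine mul_le_mul (mul_le_mul_of_nonneg_left hδ.le (by positivity)) hss hs.le ?_
          positivity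
      refine hbd.trans ?_
      have hinv : 1 / (s₁ : ℝ) ≤ Real.exp (-(ε / 3 * M)) := by
        rw [Real.exp_neg, one_div]
        exact inv_anti₀ (Real.exp_pos _) hs1.le
      have hmul : Real.exp (-ε * M) * s₁ ≤ Real.exp (-(ε / 3 * M)) := by
        calc Real.exp (-ε * M) * s₁ ≤ Real.exp (-ε * M) * Real.exp (2 * (ε / 3) * M) :=
              mul_le_mul_of_nonneg_left hs1' (Real.exp_pos _).le
          _ = Real.exp (-(ε / 3 * M)) := by rw [← Real.exp_add]; congr 1; ring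
      have hle : 3 ^ M * (((b : ℝ) * 2 ^ (M + κ)) * (1 / s₁) + (b * 2 ^ M * (2 ^ κ * Real.exp (-ε * M))) * s₁)
          ≤ 2 * b * 3 ^ M * 2 ^ (M + κ) * Real.exp (-(ε / 3 * M)) := by
        have h7 : ((b : ℝ) * 2 ^ (M + κ)) * (1 / s₁) ≤ b * 2 ^ (M + κ) * Real.exp (-(ε / 3 * M)) :=
          mul_le_mul_of_nonneg_left hinv (by positivity)
        have h8 : (b * 2 ^ M * (2 ^ κ * Real.exp (-ε * M))) * s₁ ≤
            b * 2 ^ (M + κ) * Real.exp (-(ε / 3 * M)) := by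
          calc (b * 2 ^ M * (2 ^ κ * Real.exp (-ε * M))) * s₁
              = b * 2 ^ (M + κ) * (Real.exp (-ε * M) * s₁) := by rw [pow_add]; ring
            _ ≤ _ := mul_le_mul_of_nonneg_left hmul (by positivity)
        calc 3 ^ M * (((b : ℝ) * 2 ^ (M + κ)) * (1 / s₁) + (b * 2 ^ M * (2 ^ κ * Real.exp (-ε * M))) * s₁)
            ≤ 3 ^ M * (b * 2 ^ (M + κ) * Real.exp (-(ε / 3 * M)) +
              b * 2 ^ (M + κ) * Real.exp (-(ε / 3 * M))) :=
              mul_le_mul_of_nonneg_left (add_le_add h7 h8) (by positivity)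
          _ = _ := by ring
      refine hle.trans ?_
      have hexp : 2 * (b : ℝ) * 3 ^ M * 2 ^ (M + κ) * Real.exp (-(ε / 3 * M)) =
          Real.exp (Real.log (2 * b) + M * Real.log 3 + (M + κ : ℕ) * Real.log 2 + -(ε / 3 * M)) := by
        rw [Real.exp_add, Real.exp_add, Real.exp_add, Real.exp_log (by linarith), ← two_pow_exp,
          ← three_pow_exp]
      rw [hexp]
      apply Real.exp_le_exp.2
      simp only [Fin.mk_one, Matrix.cons_val_one, Matrix.cons_val_zero]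
      push_cast
      linarith [hp2, hp4, hlog2b]
    · -- third form
      have e : |(((app (Md a₁ a₂ b) (yv M N κ c s t) 2 : ℤ)) : ℝ)| =
          3 ^ M * (3 ^ N * 2 ^ (M - N)) * s := by
        have : (((app (Md a₁ a₂ b) (yv M N κ c s t) 2 : ℤ)) : ℝ) =
            -(3 ^ M * (3 ^ N * 2 ^ (M - N)) * s) := by
          simp [app, Md, yv, Fin.sum_univ_three]
        rw [this, abs_neg, abs_of_nonneg (by positivity)]
      have hle : 3 ^ M * (3 ^ N * 2 ^ (M - N)) * (s : ℝ) ≤ 3 ^ M * (3 ^ N * 2 ^ (M - N)) * s₁ :=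
        mul_le_mul_of_nonneg_left hss (by positivity)
      have hexp : 3 ^ M * (3 ^ N * 2 ^ (M - N)) * (s₁ : ℝ) =
          Real.exp (M * Real.log 3 + N * Real.log 3 + (M - N : ℕ) * Real.log 2 + Real.log s₁) := by
        rw [Real.exp_add, Real.exp_add, Real.exp_add, Real.exp_log hs1pos, ← two_pow_exp,
          ← three_pow_exp, ← three_pow_exp]
        ring
      change |(((app (Md a₁ a₂ b) (yv M N κ c s t) 2 : ℤ)) : ℝ)| ≤ _
      rw [e]
      refine hle.trans ?_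
      rw [hexp]
      apply Real.exp_le_exp.2
      simp only [Fin.reduceFinMk, Matrix.cons_val]
      rw [hcast]
      linarith [hp1, hp3, hz2, hp5]
  -- the primitive normal
  obtain ⟨g, u, hg, hu, hprim⟩ := exists_prim ![(3 : ℤ) ^ M, 3 ^ N * 2 ^ (M - N), 2 ^ (M + κ) * c]
    (by simp)
  have hu0 : (3 : ℤ) ^ M = g * u 0 := by simpa using hu 0
  have hu1 : (3 : ℤ) ^ N * 2 ^ (M - N) = g * u 1 := by simpa using hu 1
  have hu2 : (2 : ℤ) ^ (M + κ) * c = g * u 2 := by simpa using hu 2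
  have horth : ∀ s t : ℤ, ∑ i, u i * yv M N κ c s t i = 0 := by
    intro s t
    have h2 : g * ∑ i, u i * yv M N κ c s t i = 0 := by
      rw [Fin.sum_univ_three]
      simp only [yv, Matrix.cons_val_zero, Matrix.cons_val_one, Matrix.cons_val]
      calc g * (u 0 * (3 ^ N * 2 ^ (M - N) * 2 ^ (M + κ) * t) +
            u 1 * (3 ^ M * 2 ^ (M + κ) * (c * s - t)) +
            u 2 * -(3 ^ M * (3 ^ N * 2 ^ (M - N)) * s))
          = (g * u 0) * (3 ^ N * 2 ^ (M - N) * 2 ^ (M + κ) * t) +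
            (g * u 1) * (3 ^ M * 2 ^ (M + κ) * (c * s - t)) +
            (g * u 2) * -(3 ^ M * (3 ^ N * 2 ^ (M - N)) * s) := by ring
        _ = 0 := by rw [← hu0, ← hu1, ← hu2]; ring
    exact (mul_eq_zero.1 h2).resolve_left hg.ne'
  refine ⟨![(M - N) + (M + κ), M + κ, M - N], ![N, M, M + N], yv M N κ c s₀ t₀, yv M N κ c s₁ t₁, u,
    ?_, ?_, ?_, ?_, ?_, ⟨hprim, horth _ _, horth _ _⟩, ?_⟩
  · intro i
    fin_cases i
    · simp only [Fin.zero_eta, Matrix.cons_val_zero]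
      push_cast
      rw [hcast, abs_le]
      constructor <;> linarith
    · simp only [Fin.mk_one, Matrix.cons_val_one, Matrix.cons_val_zero]
      push_cast
      rw [abs_le]
      constructor <;> linarith
    · simp only [Fin.reduceFinMk, Matrix.cons_val]
      rw [hcast, abs_le]
      constructor <;> linarith
  · intro i
    fin_cases i
    · simp only [Fin.zero_eta, Matrix.cons_val_zero]
      rw [abs_le]
      constructor <;> linarith
    · simp only [Fin.mk_one, Matrix.cons_val_one, Matrix.cons_val_zero]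
      rw [one_mul, sub_self, abs_zero]
      positivity
    · simp only [Fin.reduceFinMk, Matrix.cons_val]
      push_cast
      rw [abs_le]
      constructor <;> linarith
  · have hdiv : ∀ s t : ℤ, ∀ i, (2 : ℤ) ^ (![(M - N) + (M + κ), M + κ, M - N] i) ∣ yv M N κ c s t i ∧
        (3 : ℤ) ^ (![N, M, M + N] i) ∣ yv M N κ c s t i := by
      intro s t i
      fin_cases i
      · simp only [yv, Fin.zero_eta, Matrix.cons_val_zero]
        constructor
        · rw [pow_add]; exact ⟨3 ^ N * t, by ring⟩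
        · exact ⟨2 ^ (M - N) * 2 ^ (M + κ) * t, by ring⟩
      · simp only [yv, Fin.mk_one, Matrix.cons_val_one, Matrix.cons_val_zero]
        constructor
        · exact ⟨3 ^ M * (c * s - t), by ring⟩
        · exact ⟨2 ^ (M + κ) * (c * s - t), by ring⟩
      · simp only [yv, Fin.reduceFinMk, Matrix.cons_val]
        constructor
        · exact ⟨-(3 ^ M * 3 ^ N * s), by ring⟩
        · rw [pow_add 3 M N]; exact ⟨-(2 ^ (M - N) * s), by ring⟩
    intro i
    exact ⟨(hdiv s₀ t₀ i).1, (hdiv s₀ t₀ i).2, (hdiv s₁ t₁ i).1, (hdiv s₁ t₁ i).2⟩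
  · intro i
    exact ⟨hθ s₀ t₀ h0 hs0pos hs01' i, hθ s₁ t₁ h1 hs1pos le_rfl i⟩
  · -- independence
    unfold Indep
    rw [LinearIndependent.pair_iff]
    intro x y hxy
    have e0 := congrFun hxy 0
    have e2 := congrFun hxy 2
    simp only [yv, Pi.add_apply, Pi.smul_apply, smul_eq_mul, Matrix.cons_val_zero, Matrix.cons_val,
      Pi.zero_apply] at e0 e2
    push_cast at e0 e2
    have k0 : x * t₀ + y * t₁ = 0 := by
      have : ((3 : ℚ) ^ N * 2 ^ (M - N) * 2 ^ (M + κ)) * (x * t₀ + y * t₁) = 0 := by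
        linear_combination e0
      exact (mul_eq_zero.1 this).resolve_left (by positivity)
    have k2 : x * s₀ + y * s₁ = 0 := by
      have : ((3 : ℚ) ^ M * (3 ^ N * 2 ^ (M - N))) * (x * s₀ + y * s₁) = 0 := by
        linear_combination -e2
      exact (mul_eq_zero.1 this).resolve_left (by positivity)
    have hd : ((s₀ * t₁ - s₁ * t₀ : ℤ) : ℚ) ≠ 0 := by
      exact_mod_cast sub_ne_zero.2 hind
    push_cast at hd
    have hx : x = 0 := by
      have : ((s₀ : ℚ) * t₁ - s₁ * t₀) * x = 0 := by linear_combination t₁ * k2 - s₁ * k0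
      exact (mul_eq_zero.1 this).resolve_left hd
    refine ⟨hx, ?_⟩
    have : ((s₀ : ℚ) * t₁ - s₁ * t₀) * y = 0 := by linear_combination s₀ * k0 - t₀ * k2
    exact (mul_eq_zero.1 this).resolve_left hd
  · -- the height
    refine ⟨2, ?_⟩
    have hgc : g ∣ c := by
      have h3 : IsCoprime g ((2 : ℤ) ^ (M + κ)) := by
        have h4 : IsCoprime ((3 : ℤ) ^ M) ((2 : ℤ) ^ (M + κ)) :=
          IsCoprime.pow (by rw [Int.isCoprime_iff_gcd_eq_one]; rfl)
        exact h4.of_isCoprime_of_dvd_left ⟨u 0, hu0⟩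
      exact h3.dvd_of_dvd_mul_left ⟨u 2, hu2⟩
    obtain ⟨c', hc'⟩ := hgc
    have hu2' : u 2 = 2 ^ (M + κ) * c' := by
      have : g * u 2 = g * (2 ^ (M + κ) * c') := by rw [← hu2, hc']; ring
      exact mul_left_cancel₀ hg.ne' this
    have hc0 : c' ≠ 0 := by
      rintro rfl
      exact hc (by rw [hc', mul_zero])
    have habs : (1 : ℝ) ≤ |(c' : ℝ)| := by
      have : (1 : ℤ) ≤ |c'| := Int.one_le_abs hc0
      exact_mod_cast this
    rw [hu2']
    push_cast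
    rw [abs_mul, abs_of_nonneg (by positivity : (0 : ℝ) ≤ 2 ^ (M + κ))]
    calc Real.exp (Real.log 2 / 2 * M) ≤ Real.exp (M * Real.log 2) := by
          apply Real.exp_le_exp.2
          nlinarith
      _ = 2 ^ M := (two_pow_exp M).symm
      _ ≤ 2 ^ (M + κ) := pow_le_pow_right₀ (by norm_num) (by omega)
      _ = 2 ^ (M + κ) * 1 := (mul_one _).symm
      _ ≤ 2 ^ (M + κ) * |(c' : ℝ)| := mul_le_mul_of_nonneg_left habs (by positivity)

end MPcc0c1aSub
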