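import Pool.Agent.Lib.MP_cc0c1a_nt.Sub.SpecD

/-!
# MP_cc0c1a_nt / Sub: D6, the two-power theorem
-/

namespace MPcc0c1aSub

open Filter Topology

private lemma det_Mp (a₁ a₂ b : ℤ) : (Mp a₁ a₂ b).det = -b := by
  simp [Mp, Matrix.det_fin_three]

private lemma det_Md (a₁ a₂ b : ℤ) : (Md a₁ a₂ b).det = b * b := by
  simp [Md, Matrix.det_fin_three]

/-- Compactness of the unit cube. -/
private lemma compact_seq (P : ℕ → (Fin 3 → ℝ) → Prop)
    (h : ∀ M₀ : ℕ, ∃ M ≥ M₀, ∃ v : Fin 3 → ℝ, (∀ i, 0 ≤ v i ∧ v i ≤ 1) ∧ P M v) :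
    ∃ w : Fin 3 → ℝ, (∀ i, 0 ≤ w i ∧ w i ≤ 1) ∧
      ∀ δ : ℝ, 0 < δ → ∀ M₀ : ℕ, ∃ M ≥ M₀, ∃ v : Fin 3 → ℝ, (∀ i, |v i - w i| ≤ δ) ∧ P M v := by
  choose f hf v hv hP using h
  have hc : IsCompact (Set.Icc (0 : Fin 3 → ℝ) 1) := isCompact_Icc
  have hm : ∀ n, v n ∈ Set.Icc (0 : Fin 3 → ℝ) 1 := fun n =>
    ⟨fun i => (hv n i).1, fun i => (hv n i).2⟩
  obtain ⟨w, hw, φ, hφ, hlim⟩ := hc.tendsto_subseq hm
  refine ⟨w, fun i => ⟨hw.1 i, hw.2 i⟩, fun δ hδ M₀ => ?_⟩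
  have hev : ∀ᶠ n in atTop, dist ((v ∘ φ) n) w < δ := by
    have := (Metric.tendsto_nhds.1 hlim) δ hδ
    exact this
  obtain ⟨n₁, hn₁⟩ := eventually_atTop.1 hev
  let n := max n₁ M₀
  have h1 := hn₁ n (le_max_left _ _)
  have h2 : M₀ ≤ φ n := le_trans (le_max_right n₁ M₀) (hφ.id_le n)
  refine ⟨f (φ n), le_trans h2 (hf (φ n)), v (φ n), fun i => ?_, hP (φ n)⟩
  have h3 : dist (v (φ n) i) (w i) ≤ dist (v (φ n)) w := dist_le_pi_dist _ _ i
  have h4 : dist (v (φ n)) w < δ := h1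
  rw [Real.dist_eq] at h3
  linarith

/-- Scaling of a distance. -/
private lemma scale_abs {x y M : ℝ} {δ : ℝ} (hM : 0 < M) (h : |x / M - y| ≤ δ) :
    |x - y * M| ≤ δ * M := by
  have h1 : x - y * M = (x / M - y) * M := by field_simp
  rw [h1, abs_mul, abs_of_pos hM]
  exact mul_le_mul_of_nonneg_right h hM.le

/-- Main case `ε ≤ 1`. -/
private lemma twoPow_aux (h1 : Machine) (h2 : Dichotomy) (h3 : KappaBound) (h4 : CaseTwo)
    (h5 : CaseOne) (a₁ a₂ b : ℤ) (ε : ℝ) (ha : a₁ ≠ 0) (hb : 0 < b) (hε : 0 < ε) (hε1 : ε ≤ 1) :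
    ∃ M₀ : ℕ, ∀ M ≥ M₀, ∀ (N κ : ℕ) (c : ℤ), ¬ Exc a₁ a₂ b ε M N κ c := by
  by_contra hcon
  have hex : ∀ M₀ : ℕ, ∃ M ≥ M₀, ∃ (N κ : ℕ) (c : ℤ), Exc a₁ a₂ b ε M N κ c := by
    intro M₀
    by_contra hM
    apply hcon
    refine ⟨M₀, fun M hM' N κ c hE => hM ⟨M, hM', N, κ, c, hE⟩⟩
  obtain ⟨K, MK, hK, hKM⟩ := h3 a₁ a₂ b ε ha hb hε
  -- the two cases
  let P : ℕ → (Fin 3 → ℝ) → Prop := fun M v => ∃ (N κ : ℕ) (c s t : ℤ),
    Exc a₁ a₂ b ε M N κ c ∧ 1 ≤ s ∧ (s : ℝ) ≤ Real.exp (ε / 3 * M) ∧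
      |thet a₁ b M κ * s - t| ≤ 1 / Real.exp (2 * (ε / 3) * M) ∧
      v 0 = N / M ∧ v 1 = κ / M
  let Q : ℕ → (Fin 3 → ℝ) → Prop := fun M v => ∃ (N κ : ℕ) (c s₀ t₀ s₁ t₁ : ℤ),
    Exc a₁ a₂ b ε M N κ c ∧ 1 ≤ s₀ ∧ s₀ < s₁ ∧
      Real.exp (ε / 3 * M) < s₁ ∧ (s₁ : ℝ) ≤ Real.exp (2 * (ε / 3) * M) ∧
      |thet a₁ b M κ * s₀ - t₀| ≤ 1 / s₁ ∧ |thet a₁ b M κ * s₁ - t₁| ≤ 1 / s₁ ∧
      s₀ * t₁ ≠ s₁ * t₀ ∧ v 0 = N / M ∧ v 1 = κ / M ∧ v 2 = Real.log s₁ / M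
  have key : ∀ M₀ : ℕ, ∃ M ≥ M₀, ∃ v : Fin 3 → ℝ, (∀ i, 0 ≤ v i ∧ v i ≤ 1) ∧ (P M v ∨ Q M v) := by
    intro M₀
    obtain ⟨M, hM, N, κ, c, hE⟩ := hex (max M₀ (max MK 1))
    have hM0 : M₀ ≤ M := le_trans (le_max_left _ _) hM
    have hMK : MK ≤ M := le_trans (le_trans (le_max_left _ _) (le_max_right _ _)) hM
    have hM1 : 1 ≤ M := le_trans (le_trans (le_max_right _ _) (le_max_right _ _)) hM
    have hMr : (0 : ℝ) < M := by exact_mod_cast hM1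
    obtain ⟨-, hκ⟩ := hKM M hMK N κ c hE
    have hN : N ≤ M := hE.1
    have hNr : (N : ℝ) / M ≤ 1 := by
      rw [div_le_one hMr]; exact_mod_cast hN
    have hκr : (κ : ℝ) / M ≤ 1 := by
      rw [div_le_one hMr]; exact_mod_cast hκ
    have hN0 : 0 ≤ (N : ℝ) / M := by positivity
    have hκ0 : 0 ≤ (κ : ℝ) / M := by positivity
    have hS1 : 1 ≤ Real.exp (ε / 3 * M) := Real.one_le_exp (by positivity)
    have hST : Real.exp (ε / 3 * M) ≤ Real.exp (2 * (ε / 3) * M) := by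
      apply Real.exp_le_exp.2
      nlinarith [mul_pos hε hMr]
    rcases h2 (thet a₁ b M κ) _ _ hS1 hST with ⟨s, t, hs1, hsS, hst⟩ |
      ⟨s₀, t₀, s₁, t₁, hs0, hs01, hSs, hsT, hst0, hst1, hne⟩
    · refine ⟨M, hM0, ![N / M, κ / M, 0], ?_, Or.inl ?_⟩
      · intro i
        fin_cases i
        · exact ⟨hN0, hNr⟩
        · exact ⟨hκ0, hκr⟩
        · exact ⟨le_refl _, zero_le_one⟩
      · exact ⟨N, κ, c, s, t, hE, hs1, hsS, hst, rfl, rfl⟩
    · refine ⟨M, hM0, ![N / M, κ / M, Real.log s₁ / M], ?_, Or.inr ?_⟩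
      · have hs1pos : (1 : ℝ) ≤ s₁ := by
          have : (1 : ℤ) ≤ s₁ := by omega
          exact_mod_cast this
        intro i
        fin_cases i
        · exact ⟨hN0, hNr⟩
        · exact ⟨hκ0, hκr⟩
        · refine ⟨?_, ?_⟩
          · exact div_nonneg (Real.log_nonneg hs1pos) hMr.le
          · change Real.log s₁ / M ≤ 1
            rw [div_le_one hMr]
            have h6 : Real.log s₁ ≤ 2 * (ε / 3) * M := by
              rw [Real.log_le_iff_le_exp (by linarith)]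
              exact hsT
            nlinarith [mul_pos hε hMr]
      · exact ⟨N, κ, c, s₀, t₀, s₁, t₁, hE, hs0, hs01, hSs, hsT, hst0, hst1, hne, rfl, rfl, rfl⟩
  have hdich : (∀ M₀ : ℕ, ∃ M ≥ M₀, ∃ v : Fin 3 → ℝ, (∀ i, 0 ≤ v i ∧ v i ≤ 1) ∧ P M v) ∨
      (∀ M₀ : ℕ, ∃ M ≥ M₀, ∃ v : Fin 3 → ℝ, (∀ i, 0 ≤ v i ∧ v i ≤ 1) ∧ Q M v) := by
    by_contra hno
    rw [not_or] at hno
    obtain ⟨hnP, hnQ⟩ := hno
    obtain ⟨A, hA⟩ := not_forall.1 hnP
    obtain ⟨B, hB⟩ := not_forall.1 hnQ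
    obtain ⟨M, hM, v, hv, hPQ⟩ := key (max A B)
    rcases hPQ with hp | hq
    · exact hA ⟨M, le_trans (le_max_left _ _) hM, v, hv, hp⟩
    · exact hB ⟨M, le_trans (le_max_right _ _) hM, v, hv, hq⟩
  have hlog2 : 0 < Real.log 2 := Real.log_pos (by norm_num)
  rcases hdich with hP | hQ
  · obtain ⟨w, hw, hw'⟩ := compact_seq P hP
    have hν := hw 0
    have hlam := hw 1
    refine h1 (Mp a₁ a₂ b)
        ![Real.log 3 + ε / 3, w 0 * Real.log 3 + (1 - w 0) * Real.log 2,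
          (1 + w 1) * Real.log 2 - 2 * (ε / 3)]
        ![0, 1 - w 0, 1 + w 1] ![1, w 0, 0] (ε / 3) (Real.log 2 / 2) ?_ (by positivity)
        (by positivity) ?_ ?_ ?_ ?_
    · rw [det_Mp]
      omega
    · intro i
      fin_cases i
      · exact le_refl _
      · change 0 ≤ 1 - w 0
        linarith
      · change 0 ≤ 1 + w 1
        linarith
    · intro i
      fin_cases i
      · exact zero_le_one
      · exact hν.1
      · exact le_refl _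
    · simp only [Fin.sum_univ_three, Matrix.cons_val_zero, Matrix.cons_val_one, Matrix.cons_val]
      apply le_of_eq
      ring
    · intro ε' hε' l₀
      obtain ⟨M₀, hM₀⟩ := h4 a₁ a₂ b ε ε' ha hb hε hε1 hε'
      obtain ⟨M, hM, v, hv, N, κ, c, s, t, hE, hs1, hsS, hst, hv0, hv1⟩ :=
        hw' (ε' / 2) (by positivity) (max M₀ (max l₀ 1))
      have hM0 : M₀ ≤ M := le_trans (le_max_left _ _) hM
      have hl0 : l₀ ≤ M := le_trans (le_trans (le_max_left _ _) (le_max_right _ _)) hM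
      have hM1 : 1 ≤ M := le_trans (le_trans (le_max_right _ _) (le_max_right _ _)) hM
      have hMr : (0 : ℝ) < M := by exact_mod_cast hM1
      refine ⟨M, hl0, hM₀ M hM0 N κ c s t (w 0) (w 1) hE hs1 hsS hst ?_ ?_⟩
      · apply scale_abs hMr
        rw [← hv0]
        exact hv 0
      · apply scale_abs hMr
        rw [← hv1]
        exact hv 1
  · obtain ⟨w, hw, hw'⟩ := compact_seq Q hQ
    have hν := hw 0
    have hlam := hw 1
    refine h1 (Md a₁ a₂ b)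
        ![(1 - w 0) * Real.log 2 + w 0 * Real.log 3 + (1 + w 1) * Real.log 2 - w 2,
          Real.log 3 + (1 + w 1) * Real.log 2 - ε / 3,
          Real.log 3 + (1 - w 0) * Real.log 2 + w 0 * Real.log 3 + w 2]
        ![(1 - w 0) + (1 + w 1), 1 + w 1, 1 - w 0] ![w 0, 1, 1 + w 0] (ε / 3) (Real.log 2 / 2)
        ?_ (by positivity) (by positivity) ?_ ?_ ?_ ?_
    · rw [det_Md]
      have : 0 < b * b := mul_pos hb hb
      omega
    · intro i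
      fin_cases i
      · change 0 ≤ (1 - w 0) + (1 + w 1)
        linarith
      · change 0 ≤ 1 + w 1
        linarith
      · change 0 ≤ 1 - w 0
        linarith
    · intro i
      fin_cases i
      · exact hν.1
      · exact zero_le_one
      · change 0 ≤ 1 + w 0
        linarith
    · simp only [Fin.sum_univ_three, Matrix.cons_val_zero, Matrix.cons_val_one, Matrix.cons_val]
      apply le_of_eq
      ring
    · intro ε' hε' l₀
      obtain ⟨M₀, hM₀⟩ := h5 a₁ a₂ b ε ε' ha hb hε hε1 hε'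
      obtain ⟨M, hM, v, hv, N, κ, c, s₀, t₀, s₁, t₁, hE, hs0, hs01, hSs, hsT, hst0, hst1, hne,
        hv0, hv1, hv2⟩ := hw' (ε' / 4) (by positivity) (max M₀ (max l₀ 1))
      have hM0 : M₀ ≤ M := le_trans (le_max_left _ _) hM
      have hl0 : l₀ ≤ M := le_trans (le_trans (le_max_left _ _) (le_max_right _ _)) hM
      have hM1 : 1 ≤ M := le_trans (le_trans (le_max_right _ _) (le_max_right _ _)) hM
      have hMr : (0 : ℝ) < M := by exact_mod_cast hM1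
      refine ⟨M, hl0, hM₀ M hM0 N κ c s₀ t₀ s₁ t₁ (w 0) (w 1) (w 2) hE hs0 hs01 hSs hsT hst0 hst1
        hne ?_ ?_ ?_⟩
      · apply scale_abs hMr
        rw [← hv0]
        exact hv 0
      · apply scale_abs hMr
        rw [← hv1]
        exact hv 1
      · apply scale_abs hMr
        rw [← hv2]
        exact hv 2

/-- **D6.** -/
theorem twoPow (h1 : Machine) (h2 : Dichotomy) (h3 : KappaBound) (h4 : CaseTwo)
    (h5 : CaseOne) : TwoPow := by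
  intro a₁ a₂ b ε ha hb hε
  have hm : 0 < min ε 1 := lt_min hε one_pos
  obtain ⟨M₀, hM₀⟩ := twoPow_aux h1 h2 h3 h4 h5 a₁ a₂ b (min ε 1) ha hb hm (min_le_right _ _)
  refine ⟨M₀, fun M hM N hN κ c hc => ?_⟩
  by_contra hlt
  rw [not_le] at hlt
  apply hM₀ M hM N κ c
  refine ⟨hN, hc, lt_of_lt_of_le hlt ?_⟩
  apply mul_le_mul_of_nonneg_left _ (by positivity)
  apply Real.exp_le_exp.2
  have : min ε 1 * (M : ℝ) ≤ ε * M := mul_le_mul_of_nonneg_right (min_le_left _ _) (by positivity)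
  linarith

end MPcc0c1aSub
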