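import Pool.Agent.Lib.MP_cc0c1a_nt.Sub.SpecD

/-!
# MP_cc0c1a_nt / Sub: D7, digits
-/

namespace MPcc0c1aSub

/-- Digit configuration of a nonnegative real number. -/
private noncomputable def dig (z : ℝ) : Config :=
  fun i => ⟨⌊(6 : ℝ) ^ i * z⌋₊ % 6, Nat.mod_lt _ (by norm_num)⟩

private lemma rightShift_dig (z : ℝ) : rightShift (dig z) = dig (z / 6) := by
  funext i
  unfold rightShift dig
  apply Fin.ext
  simp only
  congr 2
  rw [zpow_sub_one₀ (by norm_num : (6:ℝ) ≠ 0)]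
  ring

private lemma Fx3_dig (z : ℝ) : Fx3 (dig z) = dig (3 * z) := by
  funext i
  unfold Fx3 dig localRule
  apply Fin.ext
  simp only
  set u := ⌊(6 : ℝ) ^ (i + 1) * z⌋₊ with hu
  have h1 : ⌊(6 : ℝ) ^ i * z⌋₊ = u / 6 := by
    rw [hu, ← Nat.floor_div_natCast]
    congr 1
    rw [zpow_add_one₀ (by norm_num : (6:ℝ) ≠ 0)]
    push_cast
    ring
  have h2 : ⌊(6 : ℝ) ^ i * (3 * z)⌋₊ = u / 2 := by
    rw [hu, ← Nat.floor_div_natCast]
    congr 1
    rw [zpow_add_one₀ (by norm_num : (6:ℝ) ≠ 0)]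
    push_cast
    ring
  rw [h1, h2]
  omega

private lemma F_dig (z : ℝ) : F (dig z) = dig (z * (3 / 2)) := by
  unfold F
  rw [rightShift_dig, Fx3_dig, Fx3_dig]
  congr 1
  ring

private lemma iter_F_dig (z : ℝ) (n : ℕ) : F^[n] (dig z) = dig (z * (3 / 2) ^ n) := by
  induction n with
  | zero => simp
  | succ n ih =>
    rw [Function.iterate_succ_apply', ih, F_dig]
    congr 1
    ring

/-- Every word is the word of base-6 digits of a natural number. -/
private lemma exists_digits (a : ℕ → Fin 6) (n : ℕ) :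
    ∃ N : ℕ, N < 6 ^ n ∧ ∀ k, k < n → N / 6 ^ k % 6 = (a k : ℕ) := by
  induction n with
  | zero => exact ⟨0, by simp, by intro k hk; omega⟩
  | succ n ih =>
    obtain ⟨N, hN, h⟩ := ih
    refine ⟨N + 6 ^ n * (a n : ℕ), ?_, ?_⟩
    · have := (a n).isLt
      calc N + 6 ^ n * (a n : ℕ) < 6 ^ n + 6 ^ n * (a n : ℕ) := by omega
        _ = 6 ^ n * ((a n : ℕ) + 1) := by ring
        _ ≤ 6 ^ n * 6 := Nat.mul_le_mul_left _ (by omega)
        _ = 6 ^ (n + 1) := by ring
    · intro k hk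
      rcases Nat.lt_succ_iff_lt_or_eq.mp hk with hk' | rfl
      · rw [← h k hk']
        have : 6 ^ n = 6 ^ k * (6 * 6 ^ (n - k - 1)) := by
          rw [← pow_succ', ← pow_add]
          congr 1
          omega
        rw [this, mul_assoc, Nat.add_mul_div_left _ _ (by positivity), mul_assoc,
          Nat.add_mul_mod_self_left]
      · rw [Nat.add_mul_div_left _ _ (by positivity), Nat.div_eq_of_lt hN, zero_add,
          Nat.mod_eq_of_lt (a k).isLt]

private lemma floor_zpow_neg (N : ℕ) (k : ℕ) : ⌊(6 : ℝ) ^ (-(k : ℤ)) * N⌋₊ = N / 6 ^ k := by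
  have : (6 : ℝ) ^ (-(k : ℤ)) * N = (N : ℝ) / ((6 ^ k : ℕ) : ℝ) := by
    rw [zpow_neg, zpow_natCast]
    push_cast
    field_simp
  rw [this, Nat.floor_div_natCast, Nat.floor_natCast]

/-- Every finite configuration is the digit configuration of some `N / 6 ^ r`. -/
private lemma fin_eq_dig {x : Config} (hx : IsFin x) : ∃ N r : ℕ, x = dig ((N : ℝ) / 6 ^ r) := by
  obtain ⟨B, hB⟩ : ∃ B : ℕ, ∀ i : ℤ, x i ≠ 0 → |i| ≤ B := by
    obtain ⟨b, hb⟩ := (hx.image (fun i : ℤ => |i|)).bddAbove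
    refine ⟨b.toNat, fun i hi => ?_⟩
    have : |i| ≤ b := hb ⟨i, hi, rfl⟩
    have h2 := Int.self_le_toNat b
    omega
  obtain ⟨N, hN, h⟩ := exists_digits (fun k => x ((B : ℤ) - k)) (2 * B + 1)
  refine ⟨N, B, ?_⟩
  funext i
  apply Fin.ext
  unfold dig
  simp only
  have hre : (6 : ℝ) ^ i * ((N : ℝ) / 6 ^ B) = (6 : ℝ) ^ (i - B) * N := by
    rw [zpow_sub₀ (by norm_num : (6:ℝ) ≠ 0), zpow_natCast]
    ring
  rw [hre]
  rcases le_or_gt i B with hi | hi
  · obtain ⟨k, hk⟩ : ∃ k : ℕ, (B : ℤ) - i = k := ⟨((B : ℤ) - i).toNat, by omega⟩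
    have hi' : i - B = -(k : ℤ) := by omega
    rw [hi', floor_zpow_neg]
    rcases lt_or_ge k (2 * B + 1) with hk2 | hk2
    · rw [h k hk2]
      congr 2
      omega
    · have h0 : x i = 0 := by
        by_contra hne
        have := hB i hne
        rw [abs_le] at this
        omega
      rw [h0, Nat.div_eq_of_lt (lt_of_lt_of_le hN (Nat.pow_le_pow_right (by norm_num) hk2))]
      rfl
  · have h0 : x i = 0 := by
      by_contra hne
      have := hB i hne
      rw [abs_le] at this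
      omega
    obtain ⟨k, hk⟩ : ∃ k : ℕ, i - (B : ℤ) = (k : ℤ) + 1 := ⟨(i - (B : ℤ) - 1).toNat, by omega⟩
    rw [hk, h0]
    have : (6 : ℝ) ^ ((k : ℤ) + 1) * N = ((6 * (6 ^ k * N) : ℕ) : ℝ) := by
      rw [zpow_add_one₀ (by norm_num : (6:ℝ) ≠ 0), zpow_natCast]
      push_cast
      ring
    rw [this, Nat.floor_natCast, Nat.mul_mod_right]
    rfl

theorem digits : Digits := by
  intro x hx hx0
  obtain ⟨N, r, rfl⟩ := fin_eq_dig hx
  refine ⟨N, r, ?_, ?_⟩
  · apply Nat.pos_of_ne_zero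
    rintro rfl
    apply hx0
    funext i
    unfold dig
    apply Fin.ext
    simp
  · intro n j
    rw [iter_F_dig]
    rfl

end MPcc0c1aSub
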