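import Pool.Agent.Lib.MP_cc0c1a_nt.Sub.SpecD

/-!
# MP_cc0c1a_nt / Sub: D8, equal rows
-/

namespace MPcc0c1aSub

theorem rowEq : RowEq := by
  intro y y' l hy hy' h
  have e1 : ∀ (k : ℕ) (z : ℝ), ⌊(6 : ℝ) ^ (k + 1) * z⌋₊ / 6 = ⌊(6 : ℝ) ^ k * z⌋₊ := by
    intro k z
    have := Nat.floor_div_natCast ((6 : ℝ) ^ (k + 1) * z) 6
    rw [← this]
    congr 1
    push_cast
    rw [pow_succ]
    ring
  have key : ∀ k ≤ l, ((⌊(6 : ℝ) ^ k * y⌋₊ : ℤ) - 6 ^ k * ⌊y⌋₊)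
      = (⌊(6 : ℝ) ^ k * y'⌋₊ : ℤ) - 6 ^ k * ⌊y'⌋₊ := by
    intro k
    induction k with
    | zero => intro _; simp
    | succ k ih =>
      intro hk
      have ih := ih (by omega)
      have d1 := Nat.div_add_mod ⌊(6 : ℝ) ^ (k + 1) * y⌋₊ 6
      have d2 := Nat.div_add_mod ⌊(6 : ℝ) ^ (k + 1) * y'⌋₊ 6
      rw [e1] at d1 d2
      have d3 := h k (by omega)
      rw [d3] at d1
      have d1' : (⌊(6 : ℝ) ^ (k + 1) * y⌋₊ : ℤ) = 6 * (⌊(6 : ℝ) ^ k * y⌋₊ : ℤ)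
          + (⌊(6 : ℝ) ^ (k + 1) * y'⌋₊ % 6 : ℕ) := by
        exact_mod_cast d1.symm
      have d2' : (⌊(6 : ℝ) ^ (k + 1) * y'⌋₊ : ℤ) = 6 * (⌊(6 : ℝ) ^ k * y'⌋₊ : ℤ)
          + (⌊(6 : ℝ) ^ (k + 1) * y'⌋₊ % 6 : ℕ) := by
        exact_mod_cast d2.symm
      rw [pow_succ (6 : ℤ)]
      linarith
  have hk := key l le_rfl
  have hkR : ((⌊(6 : ℝ) ^ l * y⌋₊ : ℝ) - 6 ^ l * ⌊y⌋₊)
      = (⌊(6 : ℝ) ^ l * y'⌋₊ : ℝ) - 6 ^ l * ⌊y'⌋₊ := by exact_mod_cast hk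
  have p6 : (0 : ℝ) < 6 ^ l := by positivity
  have a1 := Nat.floor_le (mul_nonneg p6.le hy)
  have a2 := Nat.lt_floor_add_one ((6 : ℝ) ^ l * y)
  have b1 := Nat.floor_le (mul_nonneg p6.le hy')
  have b2 := Nat.lt_floor_add_one ((6 : ℝ) ^ l * y')
  rw [lt_div_iff₀ p6]
  have e2 : |y - y' - ((⌊y⌋₊ : ℝ) - ⌊y'⌋₊)| * 6 ^ l = |(y - y' - ((⌊y⌋₊ : ℝ) - ⌊y'⌋₊)) * 6 ^ l| := by
    rw [abs_mul, abs_of_pos p6]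
  rw [e2, abs_lt]
  constructor <;> nlinarith

end MPcc0c1aSub
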