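import Pool.Agent.Lib.MP_cc0c1a_nt.Sub.SpecD

/-!
# MP_cc0c1a_nt / Sub: D9, equal columns
-/

namespace MPcc0c1aSub

theorem colEq : ColEq := by
  intro y y' l hy hy' h
  -- facts for one number
  have fact : ∀ (z : ℝ), 0 ≤ z → ∀ k : ℕ,
      -2 < (2 * (⌊z * (3 / 2) ^ (k + 1)⌋₊ : ℤ) - 3 * (⌊z * (3 / 2) ^ k⌋₊ : ℤ)) ∧
      (2 * (⌊z * (3 / 2) ^ (k + 1)⌋₊ : ℤ) - 3 * (⌊z * (3 / 2) ^ k⌋₊ : ℤ)) < 3 := by
    intro z hz k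
    have p : (0 : ℝ) ≤ z * (3 / 2) ^ k := by positivity
    have p' : (0 : ℝ) ≤ z * (3 / 2) ^ (k + 1) := by positivity
    have a1 := Nat.floor_le p
    have a2 := Nat.lt_floor_add_one (z * (3 / 2) ^ k)
    have b1 := Nat.floor_le p'
    have b2 := Nat.lt_floor_add_one (z * (3 / 2) ^ (k + 1))
    have e : 2 * (z * (3 / 2) ^ (k + 1)) = 3 * (z * (3 / 2) ^ k) := by
      rw [pow_succ]; ring
    constructor
    · have : (-2 : ℝ) < (2 * (⌊z * (3 / 2) ^ (k + 1)⌋₊ : ℝ) - 3 * (⌊z * (3 / 2) ^ k⌋₊ : ℝ)) := by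
        linarith
      exact_mod_cast this
    · have : (2 * (⌊z * (3 / 2) ^ (k + 1)⌋₊ : ℝ) - 3 * (⌊z * (3 / 2) ^ k⌋₊ : ℝ)) < 3 := by
        linarith
      exact_mod_cast this
  have step : ∀ k < l, 2 * ((⌊y * (3 / 2) ^ (k + 1)⌋₊ : ℤ) - ⌊y' * (3 / 2) ^ (k + 1)⌋₊)
      = 3 * ((⌊y * (3 / 2) ^ k⌋₊ : ℤ) - ⌊y' * (3 / 2) ^ k⌋₊) := by
    intro k hk
    obtain ⟨c1, c2⟩ := fact y hy k
    obtain ⟨c3, c4⟩ := fact y' hy' k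
    have h1 := h k hk.le
    have h2 := h (k + 1) hk
    omega
  have key : ∀ k ≤ l, 2 ^ k * ((⌊y * (3 / 2) ^ k⌋₊ : ℤ) - ⌊y' * (3 / 2) ^ k⌋₊)
      = 3 ^ k * ((⌊y⌋₊ : ℤ) - ⌊y'⌋₊) := by
    intro k
    induction k with
    | zero => intro _; simp
    | succ k ih =>
      intro hk
      have ih := ih (by omega)
      have s := step k (by omega)
      rw [pow_succ (2 : ℤ), pow_succ (3 : ℤ), mul_assoc, s, mul_left_comm, ih]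
      ring
  have hl := key l le_rfl
  have hdvd : (2 : ℤ) ^ l ∣ ((⌊y⌋₊ : ℤ) - ⌊y'⌋₊) := by
    have h1 : (2 : ℤ) ^ l ∣ 3 ^ l * ((⌊y⌋₊ : ℤ) - ⌊y'⌋₊) := ⟨_, hl.symm⟩
    have h2 : IsCoprime ((2 : ℤ) ^ l) (3 ^ l) := by
      apply IsCoprime.pow
      rw [Int.isCoprime_iff_gcd_eq_one]
      norm_num
    exact h2.dvd_of_dvd_mul_left h1
  obtain ⟨c, hc⟩ := hdvd
  refine ⟨c, hc, ?_⟩
  have hcR : ((⌊y⌋₊ : ℝ) - ⌊y'⌋₊) = 2 ^ l * c := by exact_mod_cast hc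
  have hlR : (2 : ℝ) ^ l * ((⌊y * (3 / 2) ^ l⌋₊ : ℝ) - ⌊y' * (3 / 2) ^ l⌋₊)
      = 3 ^ l * ((⌊y⌋₊ : ℝ) - ⌊y'⌋₊) := by exact_mod_cast hl
  have p2 : (0 : ℝ) < 2 ^ l := by positivity
  have hM : ((⌊y * (3 / 2) ^ l⌋₊ : ℝ) - ⌊y' * (3 / 2) ^ l⌋₊) = (3 / 2) ^ l * (2 ^ l * c) := by
    rw [hcR] at hlR
    have : (2 : ℝ) ^ l * (((⌊y * (3 / 2) ^ l⌋₊ : ℝ) - ⌊y' * (3 / 2) ^ l⌋₊))
        = 2 ^ l * ((3 / 2) ^ l * (2 ^ l * c)) := by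
      rw [hlR, div_pow]
      field_simp
    exact mul_left_cancel₀ p2.ne' this
  have q : (0 : ℝ) < (3 / 2) ^ l := by positivity
  have p : (0 : ℝ) ≤ y * (3 / 2) ^ l := by positivity
  have p' : (0 : ℝ) ≤ y' * (3 / 2) ^ l := by positivity
  have a1 := Nat.floor_le p
  have a2 := Nat.lt_floor_add_one (y * (3 / 2) ^ l)
  have b1 := Nat.floor_le p'
  have b2 := Nat.lt_floor_add_one (y' * (3 / 2) ^ l)
  have e : ((2 : ℝ) / 3) ^ l = 1 / (3 / 2) ^ l := by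
    rw [one_div, ← inv_pow]
    norm_num
  rw [e, lt_div_iff₀ q]
  have e2 : |y - y' - 2 ^ l * (c : ℝ)| * (3 / 2) ^ l = |(y - y' - 2 ^ l * (c : ℝ)) * (3 / 2) ^ l| := by
    rw [abs_mul, abs_of_pos q]
  rw [e2, abs_lt]
  constructor <;> nlinarith

end MPcc0c1aSub
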