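import Mathlib

/-!
# MP_cc0c1a_nt / Sub: definitions

`ξ (3/2)^M - ξ' (3/2)^N` is not too close to a multiple `≠ 0` of `2^κ`; superlinear complexity of
the orbits of finite configurations at every position.  The proof is the case `n = 3` of Schmidt's
theorem on the next-to-last minimum (Schlickewei's version with the places `∞, 2, 3`), with
rational forms: auxiliary polynomial (Siegel) and Roth's lemma (generalised Wronskians).
-/

namespace MPcc0c1aSub

open MvPolynomial

/-! ## Roth's lemma -/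
section Roth

variable {m : ℕ} {R : Type} [CommRing R]

/-- The shift `P(t) ↦ P(τ + t)`. -/
noncomputable def sh (τ : Fin m → R) : MvPolynomial (Fin m) R →ₐ[R] MvPolynomial (Fin m) R :=
  aeval fun i => C (τ i) + X i

/-- Divided (Hasse) derivative of order `k`: `t^a ↦ ∏ binom(a_i, k_i) t^(a - k)`. -/
noncomputable def hasse (k : Fin m →₀ ℕ) (P : MvPolynomial (Fin m) R) : MvPolynomial (Fin m) R :=
  ∑ a ∈ P.support, monomial (a - k) (P.coeff a * ∏ i, ((a i).choose (k i) : R))

/-- The polynomials in the variable `0`. -/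
noncomputable def ι₀ (ψ : Polynomial R) : MvPolynomial (Fin (m + 1)) R :=
  Polynomial.aeval (X 0) ψ

/-- The polynomials in the variables `1, …, m`. -/
noncomputable def ι₁ (φ : MvPolynomial (Fin m) R) : MvPolynomial (Fin (m + 1)) R :=
  rename Fin.succ φ

/-- The weight `∑ k_h / r_h` of a multi-index. -/
noncomputable def wt (r : Fin m → ℕ) (k : Fin m →₀ ℕ) : ℝ := ∑ h, (k h : ℝ) / r h

/-- The index of `P` at `τ` with respect to `r` is at least `θ`. -/
def IndexGE (r : Fin m → ℕ) (τ : Fin m → ℚ) (θ : ℝ) (P : MvPolynomial (Fin m) ℚ) : Prop :=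
  ∀ k : Fin m →₀ ℕ, wt r k < θ → coeff k (sh τ P) = 0

/-- Polynomials with integer coefficients as polynomials with rational coefficients. -/
noncomputable def toQ {σ : Type} (P : MvPolynomial σ ℤ) : MvPolynomial σ ℚ :=
  map (Int.castRingHom ℚ) P

end Roth

/-! ## Multihomogeneous polynomials in `m` blocks of three variables -/
section Blocks

variable {m : ℕ}

/-- Exponent arrays `j` with `∑ i, j h i = r h` for every block `h`. -/
noncomputable def JJ (r : Fin m → ℕ) : Finset (Fin m → Fin 3 → ℕ) :=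
  Fintype.piFinset fun h => Finset.piAntidiag (Finset.univ : Finset (Fin 3)) (r h)

/-- The value at `v` of the multihomogeneous polynomial with coefficients `p`. -/
noncomputable def val {A : Type} [CommRing A] (r : Fin m → ℕ) (p : (Fin m → Fin 3 → ℕ) → ℤ)
    (v : Fin m → Fin 3 → A) : A :=
  ∑ j ∈ JJ r, (p j : A) * ∏ h, ∏ i, v h i ^ j h i

/-- Balanced exponent arrays: all three averages are close to `1/3`. -/
def Balanced (ε : ℝ) (r : Fin m → ℕ) (j : Fin m → Fin 3 → ℕ) : Prop :=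
  ∀ i : Fin 3, |∑ h, (j h i : ℝ) / r h - m / 3| ≤ ε * m

/-- An integral matrix applied to a vector over a commutative ring. -/
def app {A : Type} [CommRing A] (M : Matrix (Fin 3) (Fin 3) ℤ) (v : Fin 3 → A) : Fin 3 → A :=
  fun i => ∑ k, (M i k : A) * v k

/-- The generic vector `a_h x_h + b_h x'_h + S_h e_{dir h}`; the variables are `a_h = X (h, 0)`,
`b_h = X (h, 1)`, `S_h = X (h, 2)`. -/
noncomputable def gv (x x' : Fin m → Fin 3 → ℤ) (dir : Fin m → Fin 3) (h : Fin m) (i : Fin 3) :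
    MvPolynomial (Fin m × Fin 3) ℤ :=
  C (x h i) * X (h, 0) + C (x' h i) * X (h, 1) + (if i = dir h then X (h, 2) else 0)

/-- Weight `∑_h a(h, 2) / r_h` of a monomial: its order in the variables `S`. -/
noncomputable def swt (r : Fin m → ℕ) (a : Fin m × Fin 3 →₀ ℕ) : ℝ := ∑ h, (a (h, 2) : ℝ) / r h

/-- Weighted `ℓ¹` norm of a polynomial with integer coefficients. -/
noncomputable def wl1 {σ : Type} [Fintype σ] (w : σ → ℝ) (f : MvPolynomial σ ℤ) : ℝ :=
  ∑ a ∈ f.support, |((coeff a f : ℤ) : ℝ)| * ∏ i, w i ^ a i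

/-- Rational independence of two integer vectors. -/
def Indep (x x' : Fin 3 → ℤ) : Prop :=
  LinearIndependent ℚ ![fun i => (x i : ℚ), fun i => (x' i : ℚ)]

/-- `u` is a primitive integer vector orthogonal to `x` and `x'`. -/
def Normal (x x' u : Fin 3 → ℤ) : Prop :=
  (∀ g : ℤ, (∀ i, g ∣ u i) → IsUnit g) ∧ ∑ i, u i * x i = 0 ∧ ∑ i, u i * x' i = 0

/-- Data at the scale `l`: two independent integer vectors, divisible by prescribed powers of `2`
and `3` and with prescribed sizes in the frame `M`, spanning a plane of large height. -/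
def HasDatum (M : Matrix (Fin 3) (Fin 3) ℤ) (c α β : Fin 3 → ℝ) (ε γ : ℝ) (l : ℕ) : Prop :=
  ∃ (A B : Fin 3 → ℕ) (x x' u : Fin 3 → ℤ),
    (∀ i, |(A i : ℝ) - α i * l| ≤ ε * l) ∧ (∀ i, |(B i : ℝ) - β i * l| ≤ ε * l) ∧
    (∀ i, (2 : ℤ) ^ A i ∣ x i ∧ (3 : ℤ) ^ B i ∣ x i ∧ (2 : ℤ) ^ A i ∣ x' i ∧ (3 : ℤ) ^ B i ∣ x' i) ∧
    (∀ i, |((app M x i : ℤ) : ℝ)| ≤ Real.exp ((c i + ε) * l) ∧
      |((app M x' i : ℤ) : ℝ)| ≤ Real.exp ((c i + ε) * l)) ∧
    Indep x x' ∧ Normal x x' u ∧ ∃ i, Real.exp (γ * l) ≤ |(u i : ℝ)|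

end Blocks

end MPcc0c1aSub
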