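import Pool.Agent.Lib.MP_cc0c1a_nt.Sub.SpecM

/-!
# MP_cc0c1a_nt / Sub: M10, dehomogenisation
-/

namespace MPcc0c1aSub

open MvPolynomial

theorem m10_univ : ∀ i₁ i₂ i₃ : Fin 3, i₁ ≠ i₂ → i₂ ≠ i₃ → i₁ ≠ i₃ →
    (Finset.univ : Finset (Fin 3)) = {i₁, i₂, i₃} := by decide

theorem m10_cases {i₁ i₂ i₃ : Fin 3} (h12 : i₁ ≠ i₂) (h23 : i₂ ≠ i₃) (h13 : i₁ ≠ i₃) (i : Fin 3) :
    i = i₁ ∨ i = i₂ ∨ i = i₃ := by
  have h := Finset.mem_univ i
  rw [m10_univ i₁ i₂ i₃ h12 h23 h13] at h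
  simpa using h

theorem m10_sum {A : Type} [AddCommMonoid A] {i₁ i₂ i₃ : Fin 3} (h12 : i₁ ≠ i₂) (h23 : i₂ ≠ i₃)
    (h13 : i₁ ≠ i₃) (f : Fin 3 → A) : ∑ i, f i = f i₁ + (f i₂ + f i₃) := by
  rw [m10_univ i₁ i₂ i₃ h12 h23 h13, Finset.sum_insert (by simp [h12, h13]),
    Finset.sum_insert (by simp [h23]), Finset.sum_singleton]

theorem m10_prod {A : Type} [CommMonoid A] {i₁ i₂ i₃ : Fin 3} (h12 : i₁ ≠ i₂) (h23 : i₂ ≠ i₃)
    (h13 : i₁ ≠ i₃) (f : Fin 3 → A) : ∏ i, f i = f i₁ * (f i₂ * f i₃) := by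
  rw [m10_univ i₁ i₂ i₃ h12 h23 h13, Finset.prod_insert (by simp [h12, h13]),
    Finset.prod_insert (by simp [h23]), Finset.prod_singleton]

/-- A vector orthogonal to `u` is a combination of `x` and `x'`. -/
theorem m10_plane {x x' u : Fin 3 → ℤ} {i₁ i₂ i₃ : Fin 3} (h12 : i₁ ≠ i₂) (h23 : i₂ ≠ i₃)
    (h13 : i₁ ≠ i₃) (hu : u i₁ ≠ 0) (hx : ∑ i, u i * x i = 0) (hx' : ∑ i, u i * x' i = 0)
    (hI : Indep x x') (w : Fin 3 → ℚ) (hw : ∑ i, (u i : ℚ) * w i = 0) :
    ∃ α β : ℚ, ∀ i, (x i : ℚ) * α + (x' i : ℚ) * β = w i := by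
  rw [m10_sum h12 h23 h13] at hx hx' hw
  have hxq : (u i₁ : ℚ) * x i₁ + ((u i₂ : ℚ) * x i₂ + (u i₃ : ℚ) * x i₃) = 0 := by exact_mod_cast hx
  have hxq' : (u i₁ : ℚ) * x' i₁ + ((u i₂ : ℚ) * x' i₂ + (u i₃ : ℚ) * x' i₃) = 0 := by
    exact_mod_cast hx'
  have huq : (u i₁ : ℚ) ≠ 0 := by exact_mod_cast hu
  unfold Indep at hI
  rw [LinearIndependent.pair_iff] at hI
  have hall : ∀ s t : ℚ, s * x i₂ + t * x' i₂ = 0 → s * x i₃ + t * x' i₃ = 0 → s = 0 ∧ t = 0 := by
    intro s t h2 h3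
    apply hI s t
    funext i
    simp only [Pi.add_apply, Pi.smul_apply, smul_eq_mul, Pi.zero_apply]
    rcases m10_cases h12 h23 h13 i with rfl | rfl | rfl
    · have : (u i : ℚ) * (s * x i + t * x' i) = 0 := by
        linear_combination s * hxq + t * hxq' - (u i₂ : ℚ) * h2 - (u i₃ : ℚ) * h3
      exact (mul_eq_zero.1 this).resolve_left huq
    · exact h2
    · exact h3
  have hD : (x i₂ : ℚ) * x' i₃ - (x i₃ : ℚ) * x' i₂ ≠ 0 := by
    intro hD
    have a1 := hall (x' i₂) (-(x i₂ : ℚ)) (by ring) (by linear_combination -hD)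
    have a2 := hall (x' i₃) (-(x i₃ : ℚ)) (by linear_combination hD) (by ring)
    have b1 : (x i₂ : ℚ) = 0 := neg_eq_zero.1 a1.2
    have b2 : (x i₃ : ℚ) = 0 := neg_eq_zero.1 a2.2
    have a3 := hall 1 0 (by rw [b1]; ring) (by rw [b2]; ring)
    exact one_ne_zero a3.1
  refine ⟨(w i₂ * x' i₃ - w i₃ * x' i₂) / ((x i₂ : ℚ) * x' i₃ - (x i₃ : ℚ) * x' i₂),
    (x i₂ * w i₃ - x i₃ * w i₂) / ((x i₂ : ℚ) * x' i₃ - (x i₃ : ℚ) * x' i₂), ?_⟩
  set D := (x i₂ : ℚ) * x' i₃ - (x i₃ : ℚ) * x' i₂ with hDdef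
  have e2 : (x i₂ : ℚ) * ((w i₂ * x' i₃ - w i₃ * x' i₂) / D) +
      (x' i₂ : ℚ) * ((x i₂ * w i₃ - x i₃ * w i₂) / D) = w i₂ := by
    field_simp
    rw [hDdef]
    ring
  have e3 : (x i₃ : ℚ) * ((w i₂ * x' i₃ - w i₃ * x' i₂) / D) +
      (x' i₃ : ℚ) * ((x i₂ * w i₃ - x i₃ * w i₂) / D) = w i₃ := by
    field_simp
    rw [hDdef]
    ring
  intro i
  rcases m10_cases h12 h23 h13 i with rfl | rfl | rfl
  · apply mul_left_cancel₀ huq
    linear_combination ((w i₂ * x' i₃ - w i₃ * x' i₂) / D) * hxq +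
      ((x i₂ * w i₃ - x i₃ * w i₂) / D) * hxq' - (u i₂ : ℚ) * e2 - (u i₃ : ℚ) * e3 - hw
  · exact e2
  · exact e3

/-- The ring map `X (h, 0) ↦ a_h`, `X (h, 1) ↦ b_h`, `X (h, 2) ↦ S_h`. -/
noncomputable def m10Φ {m : ℕ} {B : Type} [CommRing B] (a b : Fin m → B) :
    MvPolynomial (Fin m × Fin 3) ℤ →+* MvPolynomial (Fin m) B :=
  eval₂Hom (Int.castRingHom _)
    (fun s => if s.2 = 0 then C (a s.1) else if s.2 = 1 then C (b s.1) else X s.1)

theorem m10Φ_coeff {m : ℕ} {B : Type} [CommRing B] (a b : Fin m → B) (r : Fin m → ℕ) (σ : ℝ)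
    (F : MvPolynomial (Fin m × Fin 3) ℤ)
    (hF : ∀ d : Fin m × Fin 3 →₀ ℕ, swt r d ≤ σ → coeff d F = 0) (k : Fin m →₀ ℕ)
    (hk : wt r k ≤ σ) : coeff k (m10Φ a b F) = 0 := by
  unfold m10Φ
  rw [coe_eval₂Hom, eval₂_eq', coeff_sum]
  apply Finset.sum_eq_zero
  intro d hd
  have h1 : (∏ i : Fin m × Fin 3, (if i.2 = 0 then C (a i.1) else if i.2 = 1 then C (b i.1) else
      X i.1 : MvPolynomial (Fin m) B) ^ d i) =
      C (∏ h, (a h ^ d (h, 0) * b h ^ d (h, 1))) *
        monomial (Finsupp.equivFunOnFinite.symm fun h => d (h, 2)) 1 := by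
    rw [Fintype.prod_prod_type]
    simp only [Fin.prod_univ_three]
    rw [monomial_eq, C_1, one_mul, Finsupp.prod_fintype _ _ (fun i => pow_zero _), map_prod,
      ← Finset.prod_mul_distrib]
    apply Finset.prod_congr rfl
    intro h _
    simp [C_mul, C_pow]
  rw [h1]
  have h2 : ((Int.castRingHom (MvPolynomial (Fin m) B)) (coeff d F)) =
      C ((coeff d F : ℤ) : B) := by
    simp
  rw [h2, coeff_C_mul, coeff_C_mul, coeff_monomial]
  split_ifs with h3
  · exfalso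
    have h4 : swt r d ≤ σ := by
      refine le_trans (le_of_eq ?_) hk
      unfold swt wt
      apply Finset.sum_congr rfl
      intro h _
      rw [← h3]
      simp
    exact (MvPolynomial.mem_support_iff.1 hd) (hF d h4)
  · simp

theorem m10Φ_val {m : ℕ} {B : Type} [CommRing B] (a b : Fin m → B) (r : Fin m → ℕ)
    (p : (Fin m → Fin 3 → ℕ) → ℤ) (v : Fin m → Fin 3 → MvPolynomial (Fin m × Fin 3) ℤ) :
    m10Φ a b (val r p v) = val r p (fun h i => m10Φ a b (v h i)) := by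
  unfold val
  rw [map_sum]
  apply Finset.sum_congr rfl
  intro j _
  rw [map_mul, map_intCast, map_prod]
  congr 1
  apply Finset.prod_congr rfl
  intro h _
  rw [map_prod]
  apply Finset.prod_congr rfl
  intro i _
  rw [map_pow]

theorem m10Φ_gv {m : ℕ} {B : Type} [CommRing B] (a b : Fin m → B) (x x' : Fin m → Fin 3 → ℤ)
    (dir : Fin m → Fin 3) (h : Fin m) (i : Fin 3) :
    m10Φ a b (gv x x' dir h i) =
      C ((x h i : B) * a h + (x' h i : B) * b h) + (if i = dir h then X h else 0) := by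
  unfold gv m10Φ
  rw [map_add, map_add, map_mul, map_mul]
  by_cases h1 : i = dir h
  · rw [if_pos h1, if_pos h1]
    simp [C_mul]
  · rw [if_neg h1, if_neg h1]
    simp [C_mul]

theorem dehom : Dehom := by
  intro m r p x x' u i₁ i₂ i₃ σ hdist hu hxu hp hF
  classical
  -- the choice of the minimal `j`
  obtain ⟨js, hjs, hmin⟩ := Finset.exists_min_image ((JJ r).filter fun j => p j ≠ 0)
    (fun j => ∑ h, j h (i₃ h)) (by
      obtain ⟨j, hj, hpj⟩ := hp
      exact ⟨j, Finset.mem_filter.2 ⟨hj, hpj⟩⟩)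
  rw [Finset.mem_filter] at hjs
  set e : Fin m →₀ ℕ := Finsupp.equivFunOnFinite.symm (fun h => js h (i₃ h)) with he
  set J : Finset (Fin m → Fin 3 → ℕ) := (JJ r).filter (fun j => ∀ h, j h (i₃ h) = js h (i₃ h))
    with hJ
  set mo : (Fin m → Fin 3 → ℕ) → (Fin m →₀ ℕ) :=
    fun j => Finsupp.equivFunOnFinite.symm (fun h => j h (i₁ h)) with hmo
  have hmo_apply : ∀ j h, mo j h = j h (i₁ h) := fun j h => rfl
  have hsum : ∀ j ∈ JJ r, ∀ h, j h (i₁ h) + (j h (i₂ h) + j h (i₃ h)) = r h := by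
    intro j hj h
    unfold JJ at hj
    rw [Fintype.mem_piFinset] at hj
    have h1 := hj h
    rw [Finset.mem_piAntidiag] at h1
    rw [← h1.1]
    exact (m10_sum (hdist h).1 (hdist h).2.1 (hdist h).2.2 _).symm
  have hinj : ∀ j ∈ J, ∀ j' ∈ J, mo j = mo j' → j = j' := by
    intro j hj j' hj' hjj
    rw [hJ, Finset.mem_filter] at hj hj'
    funext h i
    have h1 : j h (i₁ h) = j' h (i₁ h) := by
      rw [← hmo_apply j h, ← hmo_apply j' h, hjj]
    have h2 := hj.2 h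
    have h3 := hj'.2 h
    have h4 := hsum j hj.1 h
    have h5 := hsum j' hj'.1 h
    rcases m10_cases (hdist h).1 (hdist h).2.1 (hdist h).2.2 i with rfl | rfl | rfl
    · exact h1
    · omega
    · omega
  set Q : MvPolynomial (Fin m) ℤ := ∑ j ∈ J, monomial (mo j) (p j) with hQ
  have hcoeff : ∀ j ∈ J, coeff (mo j) Q = p j := by
    intro j hj
    rw [hQ, coeff_sum, Finset.sum_eq_single j]
    · rw [coeff_monomial, if_pos rfl]
    · intro j' hj' hne
      rw [coeff_monomial, if_neg]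
      intro h
      exact hne (hinj j' hj' j hj h)
    · intro h
      exact absurd hj h
  have hjsJ : js ∈ J := by
    rw [hJ, Finset.mem_filter]
    exact ⟨hjs.1, fun _ => rfl⟩
  refine ⟨Q, ?_, ?_, ?_, ?_⟩
  · intro h0
    have h1 := hcoeff js hjsJ
    rw [h0, coeff_zero] at h1
    exact hjs.2 h1.symm
  · intro h
    rw [degreeOf_le_iff]
    intro d hd
    rw [MvPolynomial.mem_support_iff, hQ, coeff_sum] at hd
    obtain ⟨j, hj, hne⟩ := Finset.exists_ne_zero_of_sum_ne_zero hd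
    rw [coeff_monomial] at hne
    split_ifs at hne with h1
    · rw [← h1, hmo_apply]
      have h2 := hsum j (Finset.mem_filter.1 hj).1 h
      omega
    · exact absurd rfl hne
  · intro a
    by_cases h : ∃ j ∈ J, mo j = a
    · obtain ⟨j, hj, rfl⟩ := h
      exact Or.inr ⟨j, hcoeff j hj⟩
    · left
      rw [hQ, coeff_sum]
      apply Finset.sum_eq_zero
      intro j hj
      rw [coeff_monomial, if_neg]
      intro h1
      exact h ⟨j, hj, h1⟩
  · intro k hk
    set τ : Fin m → ℚ := fun h => -(u h (i₂ h) : ℚ) / u h (i₁ h) with hτ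
    set ν : Fin m → ℚ := fun h => (u h (i₃ h) : ℚ) / u h (i₁ h) with hν
    have huq : ∀ h, (u h (i₁ h) : ℚ) ≠ 0 := fun h => by exact_mod_cast hu h
    set w1 : Fin m → Fin 3 → ℚ :=
      fun h i => if i = i₁ h then τ h else if i = i₂ h then 1 else 0 with hw1
    set w2 : Fin m → Fin 3 → ℚ :=
      fun h i => if i = i₁ h then -ν h else if i = i₃ h then 1 else 0 with hw2
    have d1 := fun h => (hdist h).1
    have d2 := fun h => (hdist h).2.1
    have d3 := fun h => (hdist h).2.2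
    have hab : ∀ h, ∃ a b : MvPolynomial (Fin m) ℚ, ∀ i,
        ((x h i : ℤ) : MvPolynomial (Fin m) ℚ) * a + ((x' h i : ℤ) : MvPolynomial (Fin m) ℚ) * b =
          C (w1 h i) + C (w2 h i) * X h := by
      intro h
      obtain ⟨α₁, β₁, h1⟩ := m10_plane (d1 h) (d2 h) (d3 h) (hu h) (hxu h).1 (hxu h).2.1
        (hxu h).2.2 (w1 h) (by
          rw [m10_sum (d1 h) (d2 h) (d3 h)]
          simp only [hw1, if_true, (d1 h).symm, (d2 h).symm, (d3 h).symm, if_false, hτ]
          have := huq h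
          field_simp
          ring)
      obtain ⟨α₂, β₂, h2⟩ := m10_plane (d1 h) (d2 h) (d3 h) (hu h) (hxu h).1 (hxu h).2.1
        (hxu h).2.2 (w2 h) (by
          rw [m10_sum (d1 h) (d2 h) (d3 h)]
          simp only [hw2, if_true, (d1 h).symm, (d2 h), (d3 h).symm, if_false, hν]
          have := huq h
          field_simp
          ring)
      refine ⟨C α₁ + C α₂ * X h, C β₁ + C β₂ * X h, fun i => ?_⟩
      rw [← h1 i, ← h2 i]
      have e1 : ((x h i : ℤ) : MvPolynomial (Fin m) ℚ) = C ((x h i : ℤ) : ℚ) := by simp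
      have e2 : ((x' h i : ℤ) : MvPolynomial (Fin m) ℚ) = C ((x' h i : ℤ) : ℚ) := by simp
      rw [e1, e2]
      simp only [C_add, C_mul]
      ring
    choose a b hab using hab
    have hkey := m10Φ_coeff a b r σ _ hF k hk
    rw [m10Φ_val] at hkey
    have hV : ∀ h i, m10Φ a b (gv x x' i₁ h i) =
        C (C (w1 h i) + C (w2 h i) * X h) + (if i = i₁ h then X h else 0) := by
      intro h i
      rw [m10Φ_gv, hab h i]
    set G : (Fin m → Fin 3 → ℕ) → MvPolynomial (Fin m) (MvPolynomial (Fin m) ℚ) :=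
      fun j => ∏ h, (C (C (τ h) + C (-ν h) * X h) + X h) ^ j h (i₁ h) with hG
    set cz : (Fin m → Fin 3 → ℕ) → (Fin m →₀ ℕ) :=
      fun j => Finsupp.equivFunOnFinite.symm (fun h => j h (i₃ h)) with hcz
    have hprod : ∀ j : Fin m → Fin 3 → ℕ, ∏ h, ∏ i, m10Φ a b (gv x x' i₁ h i) ^ j h i =
        C (monomial (cz j) 1) * G j := by
      intro j
      rw [monomial_eq, C_1, one_mul, Finsupp.prod_fintype _ _ (fun i => pow_zero _), map_prod, hG,
        ← Finset.prod_mul_distrib]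
      apply Finset.prod_congr rfl
      intro h _
      rw [m10_prod (d1 h) (d2 h) (d3 h), hV, hV, hV]
      simp only [hw1, hw2, if_true, (d1 h).symm, (d2 h), (d2 h).symm, (d3 h).symm, if_false]
      simp only [hcz, Finsupp.equivFunOnFinite_symm_apply_apply]
      simp
      ring
    -- the coefficient at `S^k z^e`
    have hce : coeff e (coeff k (val r p fun h i => m10Φ a b (gv x x' i₁ h i))) = 0 := by
      rw [hkey, coeff_zero]
    unfold val at hce
    rw [coeff_sum, coeff_sum] at hce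
    have hterm : ∀ j ∈ JJ r, coeff e (coeff k (((p j : ℤ) : MvPolynomial (Fin m)
        (MvPolynomial (Fin m) ℚ)) * ∏ h, ∏ i, m10Φ a b (gv x x' i₁ h i) ^ j h i)) =
        if (∀ h, j h (i₃ h) = js h (i₃ h)) then
          (p j : ℚ) * coeff k (∏ h, (C (τ h) + X h) ^ j h (i₁ h)) else 0 := by
      intro j hj
      rw [hprod j]
      have e1 : ((p j : ℤ) : MvPolynomial (Fin m) (MvPolynomial (Fin m) ℚ)) =
          C (C ((p j : ℤ) : ℚ)) := by simp
      rw [e1, coeff_C_mul, coeff_C_mul, coeff_C_mul, coeff_monomial_mul']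
      by_cases hpj : p j = 0
      · rw [hpj]
        simp
      have hle := hmin j (Finset.mem_filter.2 ⟨hj, hpj⟩)
      by_cases hc : ∀ h, j h (i₃ h) = js h (i₃ h)
      · rw [if_pos hc]
        have hcze : cz j = e := by
          rw [hcz, he]
          simp only
          congr 1
          funext h
          exact hc h
        rw [hcze, if_pos le_rfl, tsub_self, one_mul]
        congr 1
        have e2 : coeff 0 (coeff k (G j)) = constantCoeff (coeff k (G j)) := rfl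
        rw [e2, ← coeff_map, hG]
        congr 1
        rw [map_prod]
        apply Finset.prod_congr rfl
        intro h _
        rw [map_pow]
        congr 1
        simp
      · rw [if_neg hc, if_neg, mul_zero]
        intro hle2
        apply hc
        have h1 : ∀ h, j h (i₃ h) ≤ js h (i₃ h) := fun h => hle2 h
        by_contra hcon
        push Not at hcon
        obtain ⟨h0, hne⟩ := hcon
        have h2 : ∑ h, j h (i₃ h) < ∑ h, js h (i₃ h) :=
          Finset.sum_lt_sum (fun h _ => h1 h) ⟨h0, Finset.mem_univ _, lt_of_le_of_ne (h1 h0) hne⟩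
        omega
    rw [Finset.sum_congr rfl hterm, ← Finset.sum_filter] at hce
    -- the shifted polynomial
    have hsh : sh τ (toQ Q) = ∑ j ∈ J, C (p j : ℚ) * ∏ h, (C (τ h) + X h) ^ j h (i₁ h) := by
      rw [hQ]
      unfold toQ sh
      rw [map_sum, map_sum]
      apply Finset.sum_congr rfl
      intro j _
      rw [map_monomial, aeval_monomial, Finsupp.prod_fintype _ _ (fun i => pow_zero _)]
      simp only [hmo_apply]
      simp [algebraMap_eq]
    rw [hsh, coeff_sum]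
    simp only [coeff_C_mul]
    exact hce

end MPcc0c1aSub
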