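import Pool.Agent.Lib.MP_cc0c1a_nt.Sub.SpecM

/-!
# MP_cc0c1a_nt / Sub: M11, the theorem on planes
-/

namespace MPcc0c1aSub

open MvPolynomial

/-- rapidly growing scales -/
theorem m11_scales {H : ℕ → Prop} (hH : ∀ l₀ : ℕ, ∃ l, l₀ ≤ l ∧ H l) (K : ℝ) (hK : 1 ≤ K)
    (L₁ : ℕ) :
    ∃ s : ℕ → ℕ, (∀ n, L₁ ≤ s n) ∧ (∀ n, H (s n)) ∧ ∀ a b, a < b → K * s a ≤ s b := by
  choose f hf1 hf2 using hH
  let s : ℕ → ℕ := fun n => Nat.rec (motive := fun _ => ℕ) (f L₁)
    (fun _ (x : ℕ) => f (⌈K * (x : ℝ)⌉₊ + L₁)) n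
  have hs1 : ∀ n : ℕ, s (n + 1) = f (⌈K * (s n : ℝ)⌉₊ + L₁) := fun n => rfl
  have hstep : ∀ n, K * s n ≤ s (n + 1) := by
    intro n
    have h1 : K * s n ≤ (⌈K * s n⌉₊ : ℝ) := Nat.le_ceil _
    have h2 : ⌈K * s n⌉₊ ≤ s (n + 1) := by
      rw [hs1]
      exact (Nat.le_add_right _ _).trans (hf1 _)
    exact h1.trans (by exact_mod_cast h2)
  have hmono : ∀ n, (s n : ℝ) ≤ s (n + 1) := by
    intro n
    have h0 : (0 : ℝ) ≤ s n := Nat.cast_nonneg _
    nlinarith [hstep n]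
  have hmono' : ∀ a b, a ≤ b → (s a : ℝ) ≤ s b := fun a b h =>
    monotone_nat_of_le_succ (f := fun n => (s n : ℝ)) hmono h
  refine ⟨s, ?_, ?_, ?_⟩
  · intro n
    cases n with
    | zero => exact hf1 _
    | succ n =>
      rw [hs1]
      exact (Nat.le_add_left _ _).trans (hf1 _)
  · intro n
    cases n with
    | zero => exact hf2 _
    | succ n =>
      rw [hs1]
      exact hf2 _
  · intro a b hab
    exact (hstep a).trans (hmono' _ _ hab)

theorem machine (h1 : Aux) (h2 : Vanish) (h3 : GcdChoice) (h4 : Dehom) (h5 : RothAll) :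
    Machine := by
  intro M c α β η γ hM hη hγ hα hβ hsum hall
  obtain ⟨ε₀, hε₀, hV⟩ := h2 M c α β η hM hη hα hβ hsum
  -- the parameter `ε`
  obtain ⟨ε, hε, hεε₀, hε1⟩ : ∃ ε : ℝ, 0 < ε ∧ ε ≤ ε₀ ∧ ε ≤ 1 :=
    ⟨min ε₀ 1, lt_min hε₀ one_pos, min_le_left _ _, min_le_right _ _⟩
  -- the number of variables
  obtain ⟨m, hm1, hm24⟩ : ∃ m : ℕ, 1 ≤ m ∧ 24 ≤ ε ^ 2 * m := by
    obtain ⟨n, hn⟩ := exists_nat_ge (24 / ε ^ 2)
    have hε2 : 0 < ε ^ 2 := by positivity
    refine ⟨n + 1, by omega, ?_⟩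
    have h24 : 24 ≤ ε ^ 2 * n := by
      rw [div_le_iff₀ hε2] at hn
      linarith
    push_cast
    nlinarith
  obtain ⟨C, hC1, hAux⟩ := h1 M
  obtain ⟨L₀, hL₀⟩ := hV ε hε hεε₀ C hC1
  obtain ⟨ω, C', hω, hC'1, hRoth⟩ := h5 m ε hε
  have hCC : 1 ≤ C * C' := one_le_mul_of_one_le_of_one_le hC1 hC'1
  have hCC0 : 0 < C * C' := by linarith
  have hlog : 0 ≤ Real.log (C * C') := Real.log_nonneg hCC
  have hγω : 0 < γ * ω := mul_pos hγ hω
  -- the lower bound for the scales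
  obtain ⟨L₁, hL₁0, hL₁1, hL₁log⟩ : ∃ L₁ : ℕ, L₀ ≤ L₁ ∧ 1 ≤ L₁ ∧
      4 * m * Real.log (C * C') ≤ γ * ω * L₁ := by
    obtain ⟨n, hn⟩ := exists_nat_ge (4 * m * Real.log (C * C') / (γ * ω))
    refine ⟨n + L₀ + 1, by omega, by omega, ?_⟩
    rw [div_le_iff₀ hγω] at hn
    push_cast
    have : (0 : ℝ) ≤ L₀ := Nat.cast_nonneg _
    nlinarith
  -- the scales
  have h2ω : 0 < 2 / ω := by positivity
  obtain ⟨s, hs1, hs2, hs3⟩ := m11_scales (H := fun l => HasDatum M c α β ε γ l)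
    (fun l₀ => hall ε hε l₀) (2 / ω + 1) (by linarith) L₁
  obtain ⟨l, hl⟩ : ∃ l : Fin m → ℕ, ∀ h, l h = s (m - 1 - h) := ⟨_, fun h => rfl⟩
  have hlL : ∀ h, L₁ ≤ l h := fun h => by rw [hl]; exact hs1 _
  have hldat : ∀ h, HasDatum M c α β ε γ (l h) := fun h => by rw [hl]; exact hs2 _
  have hlpos : ∀ h, (0 : ℝ) < l h := fun h => by
    have : 0 < l h := lt_of_lt_of_le (by omega) (hlL h)
    exact_mod_cast this
  have hlgrow : ∀ h h' : Fin m, h < h' → 2 / ω * l h' ≤ l h := by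
    intro h h' hh
    have h6 : m - 1 - (h' : ℕ) < m - 1 - (h : ℕ) := by
      have := h'.2
      have h7 : (h : ℕ) < (h' : ℕ) := hh
      omega
    have h8 := hs3 _ _ h6
    rw [← hl, ← hl] at h8
    have := hlpos h'
    linarith
  -- the real number `R`
  have hsumnn : (0 : ℝ) ≤ ∑ h, (l h : ℝ) := Finset.sum_nonneg fun h _ => (hlpos h).le
  obtain ⟨R, hR⟩ : ∃ R : ℝ, R = (1 + ∑ h, (l h : ℝ)) / ε := ⟨_, rfl⟩
  have hRε : ε * R = 1 + ∑ h, (l h : ℝ) := by
    rw [hR]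
    field_simp
  have hR1 : 1 / ε ≤ R := by
    rw [hR]
    exact div_le_div_of_nonneg_right (by linarith) hε.le
  have hR0 : 0 < R := lt_of_lt_of_le (by positivity) hR1
  have hRl : ∀ h, (l h : ℝ) ≤ ε * R := by
    intro h
    rw [hRε]
    have := Finset.single_le_sum (f := fun h => (l h : ℝ)) (fun h _ => (hlpos h).le)
      (Finset.mem_univ h)
    linarith
  have hRl' : ∀ h, (l h : ℝ) ≤ R := fun h => (hRl h).trans (by nlinarith)
  -- the degrees
  obtain ⟨r, hr⟩ : ∃ r : Fin m → ℕ, ∀ h, r h = ⌈R / l h⌉₊ := ⟨_, fun h => rfl⟩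
  have hrpos : ∀ h, 0 < r h := fun h => by
    rw [hr]
    exact Nat.ceil_pos.2 (div_pos hR0 (hlpos h))
  have hr1 : ∀ h, R / l h ≤ r h := fun h => by
    rw [hr]
    exact Nat.le_ceil _
  have hr2 : ∀ h, (r h : ℝ) ≤ R / l h + 1 := fun h => by
    rw [hr]
    exact (Nat.ceil_lt_add_one (div_pos hR0 (hlpos h)).le).le
  have hr3 : ∀ h, R ≤ r h * l h := fun h => (div_le_iff₀ (hlpos h)).1 (hr1 h)
  have hr4 : ∀ h, (r h * l h : ℝ) ≤ (1 + ε) * R := by
    intro h
    have h6 := mul_le_mul_of_nonneg_right (hr2 h) (hlpos h).le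
    have h7 : (R / l h + 1) * l h = R + l h := by
      have := (hlpos h).ne'
      field_simp
    have h8 := hRl h
    linarith
  have hr5 : ∀ h, (r h : ℝ) ≤ 2 * R / l h := by
    intro h
    have h6 : 1 ≤ R / l h := by
      rw [le_div_iff₀ (hlpos h), one_mul]
      exact hRl' h
    have h7 : 2 * R / l h = R / l h + R / l h := by ring
    have := hr2 h
    linarith
  have hrω : ∀ h h' : Fin m, h < h' → (r h : ℝ) ≤ ω * r h' := by
    intro h h' hh
    have h6 := hlgrow h h' hh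
    have h7 : 2 * R / l h ≤ ω * (R / l h') := by
      rw [div_le_iff₀ (hlpos h)]
      have h8 : ω * (R / l h') * l h = R / l h' * (ω * l h) := by ring
      have h9 : 2 * l h' ≤ ω * l h := by
        have h10 := mul_le_mul_of_nonneg_left h6 hω.le
        have h11 : ω * (2 / ω * l h') = 2 * l h' := by
          field_simp
        linarith
      rw [h8]
      calc 2 * R = R / l h' * (2 * l h') := by
            have := (hlpos h').ne'
            field_simp
        _ ≤ R / l h' * (ω * l h) :=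
            mul_le_mul_of_nonneg_left h9 (div_pos hR0 (hlpos h')).le
    exact (hr5 h).trans (h7.trans (mul_le_mul_of_nonneg_left (hr1 h') hω.le))
  have hrsum : ((∑ h, r h : ℕ) : ℝ) ≤ 2 * m * R / L₁ := by
    have hL₁pos : (0 : ℝ) < L₁ := by
      have : 0 < L₁ := by omega
      exact_mod_cast this
    push_cast
    calc ∑ h, (r h : ℝ) ≤ ∑ _h : Fin m, 2 * R / L₁ := by
          apply Finset.sum_le_sum
          intro h _
          refine (hr5 h).trans ?_
          apply div_le_div_of_nonneg_left (by positivity) hL₁pos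
          exact_mod_cast hlL h
      _ = 2 * m * R / L₁ := by
          rw [Finset.sum_const, Finset.card_univ, Fintype.card_fin, nsmul_eq_mul]
          ring
  -- the auxiliary polynomial
  obtain ⟨p, d, hp1, hp2, hp3, hd1, hd2, hid⟩ := hAux m r ε hε hm24 hrpos
  -- the data
  choose A B x x' u hA hB hdiv hsize hind hnorm hbig using hldat
  choose i₁ i₂ i₃ P q h12 h23 h13 hu0 hq0 hcop hPq huq using fun h => h3 (u h) (hnorm h).1
  -- vanishing
  have hvan := hL₀ m r l R hm1 hR1 (fun h => ⟨hL₁0.trans (hlL h), hrpos h, hr3 h, hr4 h⟩) p d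
    hp2 hd1 hd2 hid A B x x' i₁ (fun h i => ⟨hA h i, hB h i, (hdiv h i).1, (hdiv h i).2.1,
      (hdiv h i).2.2.1, (hdiv h i).2.2.2, (hsize h i).1, (hsize h i).2⟩)
  -- dehomogenisation
  obtain ⟨Q, hQ0, hQdeg, hQcoeff, hQvan⟩ := h4 m r p x x' u i₁ i₂ i₃ ε
    (fun h => ⟨h12 h, h23 h, h13 h⟩) hu0
    (fun h => ⟨(hnorm h).2.1, (hnorm h).2.2, hind h⟩) hp1 hvan
  -- Roth's lemma
  have hqexp : ∀ h, Real.exp (γ * l h / 2) ≤ (q h : ℝ) := by
    intro h
    obtain ⟨i, hi⟩ := hbig h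
    have h6 : (|(u h i : ℝ)|) ≤ (q h : ℝ) ^ 2 := by
      have := huq h i
      exact_mod_cast this
    have h7 : Real.exp (γ * l h / 2) ^ 2 ≤ (q h : ℝ) ^ 2 := by
      rw [← Real.exp_nat_mul]
      refine le_trans (le_of_eq ?_) (hi.trans h6)
      congr 1
      push_cast
      ring
    have hq : (0 : ℝ) ≤ q h := by
      exact_mod_cast (hq0 h).le
    exact (pow_le_pow_iff_left₀ (Real.exp_pos _).le hq two_ne_zero).1 h7
  have hR₀ : ∀ h, Real.exp (γ * R / 2) ≤ (q h : ℝ) ^ (r h) := by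
    intro h
    calc Real.exp (γ * R / 2) ≤ Real.exp (r h * (γ * l h / 2)) := by
          rw [Real.exp_le_exp]
          have := mul_le_mul_of_nonneg_left (hr3 h) hγ.le
          nlinarith
      _ = Real.exp (γ * l h / 2) ^ r h := by rw [Real.exp_nat_mul]
      _ ≤ (q h : ℝ) ^ (r h) := pow_le_pow_left₀ (Real.exp_pos _).le (hqexp h) _
  have hcoef : ∀ a, C' ^ (∑ h, r h) * |((coeff a Q : ℤ) : ℝ)| ≤ Real.exp (γ * R / 2) ^ ω := by
    intro a
    have h6 : |((coeff a Q : ℤ) : ℝ)| ≤ C ^ (∑ h, r h) := by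
      rcases hQcoeff a with h7 | ⟨j, h7⟩
      · rw [h7]
        simp only [Int.cast_zero, abs_zero]
        positivity
      · rw [h7]
        exact hp3 j
    calc C' ^ (∑ h, r h) * |((coeff a Q : ℤ) : ℝ)|
        ≤ C' ^ (∑ h, r h) * C ^ (∑ h, r h) :=
          mul_le_mul_of_nonneg_left h6 (by positivity)
      _ = (C * C') ^ (∑ h, r h) := by rw [mul_pow, mul_comm]
      _ = Real.exp (((∑ h, r h : ℕ) : ℝ) * Real.log (C * C')) := by
          rw [Real.exp_nat_mul, Real.exp_log hCC0]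
      _ ≤ Real.exp (γ * R / 2 * ω) := by
          rw [Real.exp_le_exp]
          have hL₁pos : (0 : ℝ) < L₁ := by
            have : 0 < L₁ := by omega
            exact_mod_cast this
          calc ((∑ h, r h : ℕ) : ℝ) * Real.log (C * C')
              ≤ 2 * m * R / L₁ * Real.log (C * C') :=
                mul_le_mul_of_nonneg_right hrsum hlog
            _ = R / (2 * L₁) * (4 * m * Real.log (C * C')) := by
                field_simp
                ring
            _ ≤ R / (2 * L₁) * (γ * ω * L₁) :=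
                mul_le_mul_of_nonneg_left hL₁log (by positivity)
            _ = γ * R / 2 * ω := by
                field_simp
      _ = Real.exp (γ * R / 2) ^ ω := by rw [Real.exp_mul]
  obtain ⟨k, hk1, hk2⟩ := hRoth r P q (Real.exp (γ * R / 2)) Q hrpos hrω
    (fun h => ⟨hq0 h, hcop h, hR₀ h⟩) (Real.one_le_exp (by positivity)) hQ0 hQdeg hcoef
  apply hk2
  have hτ : (fun h => (P h : ℚ) / q h) = fun h => -(u h (i₂ h) : ℚ) / u h (i₁ h) :=
    funext hPq
  rw [hτ]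
  exact hQvan k hk1

end MPcc0c1aSub
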