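import Pool.Agent.Lib.MP_cc0c1a_nt.Sub.SpecM

/-!
# MP_cc0c1a_nt / Sub: M2, the number of exponent arrays
-/

namespace MPcc0c1aSub

private lemma card_block (r : ℕ) :
    (Finset.piAntidiag (Finset.univ : Finset (Fin 3)) r).card ≤ 4 ^ r := by
  have h1 : (Finset.piAntidiag (Finset.univ : Finset (Fin 3)) r).card
      ≤ (Finset.range (r + 1) ×ˢ Finset.range (r + 1)).card := by
    apply Finset.card_le_card_of_injOn (fun j => (j 0, j 1))
    · intro j hj
      have hj' := (Finset.mem_piAntidiag.1 hj).1
      rw [Fin.sum_univ_three] at hj'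
      simp only [Finset.coe_product, Finset.coe_range, Set.mem_prod, Set.mem_Iio]
      omega
    · intro j hj j' hj' he
      have e1 := (Finset.mem_piAntidiag.1 hj).1
      have e2 := (Finset.mem_piAntidiag.1 hj').1
      rw [Fin.sum_univ_three] at e1 e2
      simp only [Prod.mk.injEq] at he
      obtain ⟨h0, h1⟩ := he
      funext i
      fin_cases i
      · exact h0
      · exact h1
      · change j 2 = j' 2
        omega
  refine le_trans h1 ?_
  rw [Finset.card_product, Finset.card_range]
  have h2 : r + 1 ≤ 2 ^ r := Nat.lt_two_pow_self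
  calc (r + 1) * (r + 1) ≤ 2 ^ r * 2 ^ r := Nat.mul_le_mul h2 h2
    _ = 4 ^ r := by rw [← Nat.mul_pow]

/-- **M2.** -/
theorem cardJ : CardJ := by
  intro m r
  constructor
  · rw [Finset.card_pos]
    refine ⟨fun h => ![r h, 0, 0], ?_⟩
    rw [JJ, Fintype.mem_piFinset]
    intro h
    rw [Finset.mem_piAntidiag]
    refine ⟨?_, fun i _ => Finset.mem_univ i⟩
    rw [Fin.sum_univ_three]
    simp
  · rw [JJ, Fintype.card_piFinset, ← Finset.prod_pow_eq_pow_sum]
    exact Finset.prod_le_prod' fun h _ => card_block (r h)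

end MPcc0c1aSub
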