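import Pool.Agent.Lib.MP_cc0c1a_nt.Sub.SpecM

/-!
# MP_cc0c1a_nt / Sub: M3, change of frame
-/

namespace MPcc0c1aSub

open MvPolynomial

namespace M3aux

/-- The linear form `∑ k, N i k Y_k`. -/
noncomputable def L (N : Matrix (Fin 3) (Fin 3) ℤ) (i : Fin 3) : MvPolynomial (Fin 3) ℤ :=
  ∑ k, C (N i k) * X k

/-- The product of powers of linear forms. -/
noncomputable def G (N : Matrix (Fin 3) (Fin 3) ℤ) (j' : Fin 3 → ℕ) : MvPolynomial (Fin 3) ℤ :=
  ∏ i, L N i ^ j' i

/-- The coefficients. -/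
noncomputable def t (N : Matrix (Fin 3) (Fin 3) ℤ) (j j' : Fin 3 → ℕ) : ℤ :=
  coeff (Finsupp.equivFunOnFinite.symm j) (G N j')

theorem L_hom (N : Matrix (Fin 3) (Fin 3) ℤ) (i : Fin 3) : (L N i).IsHomogeneous 1 := by
  unfold L
  exact IsHomogeneous.sum _ _ _ fun k _ => isHomogeneous_C_mul_X _ _

theorem G_hom (N : Matrix (Fin 3) (Fin 3) ℤ) (j' : Fin 3 → ℕ) :
    (G N j').IsHomogeneous (∑ i, j' i) := by
  unfold G
  have := IsHomogeneous.prod (Finset.univ : Finset (Fin 3)) (fun i => L N i ^ j' i)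
    (fun i => 1 * j' i) fun i _ => (L_hom N i).pow (j' i)
  simpa using this

/-- the bound for the entries -/
noncomputable def B (N : Matrix (Fin 3) (Fin 3) ℤ) : ℝ := 1 + ∑ i, ∑ k, |(N i k : ℝ)|

theorem one_le_B (N : Matrix (Fin 3) (Fin 3) ℤ) : 1 ≤ B N := by
  unfold B
  have : 0 ≤ ∑ i, ∑ k, |(N i k : ℝ)| :=
    Finset.sum_nonneg fun i _ => Finset.sum_nonneg fun k _ => abs_nonneg _
  linarith

section Norm

variable (h1 : NormCalc)

include h1

theorem wl1_L (N : Matrix (Fin 3) (Fin 3) ℤ) (i : Fin 3) : wl1 (fun _ => 1) (L N i) ≤ B N := by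
  obtain ⟨h0, hadd, hmul, hC, hX, -⟩ := h1 (Fin 3) (fun _ => 1) fun _ => zero_le_one
  have hk : ∀ k, wl1 (fun _ => 1) (C (N i k) * X k : MvPolynomial (Fin 3) ℤ) ≤ |(N i k : ℝ)| := by
    intro k
    have := hmul (C (N i k)) (X k)
    rwa [hC, hX, mul_one] at this
  have h3 : wl1 (fun _ => 1) (L N i) ≤ ∑ k, |(N i k : ℝ)| := by
    unfold L
    rw [Fin.sum_univ_three, Fin.sum_univ_three]
    have a1 := hadd (C (N i 0) * X 0 + C (N i 1) * X 1) (C (N i 2) * X 2)
    have a2 := hadd (C (N i 0) * X 0) (C (N i 1) * X 1)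
    have := hk 0
    have := hk 1
    have := hk 2
    linarith
  have h4 : ∑ k, |(N i k : ℝ)| ≤ ∑ i, ∑ k, |(N i k : ℝ)| :=
    Finset.single_le_sum (f := fun i => ∑ k, |(N i k : ℝ)|)
      (fun i _ => Finset.sum_nonneg fun k _ => abs_nonneg _) (Finset.mem_univ i)
  unfold B
  linarith

theorem wl1_pow (f : MvPolynomial (Fin 3) ℤ) (n : ℕ) :
    wl1 (fun _ => 1) (f ^ n) ≤ wl1 (fun _ => 1) f ^ n := by
  obtain ⟨h0, hadd, hmul, hC, hX, -⟩ := h1 (Fin 3) (fun _ => 1) fun _ => zero_le_one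
  induction n with
  | zero =>
    rw [pow_zero, pow_zero, ← C_1, hC]
    simp
  | succ n ih =>
    rw [pow_succ, pow_succ]
    exact (hmul _ _).trans (mul_le_mul_of_nonneg_right ih (h0 _))

theorem wl1_G (N : Matrix (Fin 3) (Fin 3) ℤ) (j' : Fin 3 → ℕ) :
    wl1 (fun _ => 1) (G N j') ≤ B N ^ (∑ i, j' i) := by
  obtain ⟨h0, hadd, hmul, hC, hX, -⟩ := h1 (Fin 3) (fun _ => 1) fun _ => zero_le_one
  have hi : ∀ i, wl1 (fun _ => 1) (L N i ^ j' i) ≤ B N ^ j' i := fun i =>
    (wl1_pow h1 _ _).trans (pow_le_pow_left₀ (h0 _) (wl1_L h1 N i) _)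
  unfold G
  rw [Fin.prod_univ_three, Fin.sum_univ_three, pow_add, pow_add]
  have hB : 0 ≤ B N := zero_le_one.trans (one_le_B N)
  refine (hmul _ _).trans (mul_le_mul ((hmul _ _).trans (mul_le_mul (hi 0) (hi 1) (h0 _) ?_))
    (hi 2) (h0 _) ?_) <;> positivity

theorem t_le (N : Matrix (Fin 3) (Fin 3) ℤ) (j j' : Fin 3 → ℕ) :
    |(t N j j' : ℝ)| ≤ B N ^ (∑ i, j' i) := by
  obtain ⟨-, -, -, -, -, hco⟩ := h1 (Fin 3) (fun _ => 1) fun _ => zero_le_one
  have := hco (G N j') (Finsupp.equivFunOnFinite.symm j)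
  simp only [one_pow, Finset.prod_const_one, mul_one] at this
  exact this.trans (wl1_G h1 N j')

end Norm

theorem block {A : Type} [CommRing A] (M : Matrix (Fin 3) (Fin 3) ℤ) (y : Fin 3 → A) (r : ℕ)
    (j' : Fin 3 → ℕ) (hj' : j' ∈ Finset.piAntidiag (Finset.univ : Finset (Fin 3)) r) :
    (M.det : A) ^ r * ∏ i, y i ^ j' i =
      ∑ j ∈ Finset.piAntidiag (Finset.univ : Finset (Fin 3)) r,
        (t M.adjugate j j' : A) * ∏ i, app M y i ^ j i := by
  rw [Finset.mem_piAntidiag] at hj'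
  have hr : ∑ i, j' i = r := hj'.1
  have hdet : ∀ i, ∑ k, (M.adjugate i k : A) * app M y k = (M.det : A) * y i := by
    intro i
    have h1 : ∀ l, ∑ k, (M.adjugate i k : A) * (M k l : A) = if i = l then (M.det : A) else 0 := by
      intro l
      have h2 := congrFun (congrFun (Matrix.adjugate_mul M) i) l
      rw [Matrix.mul_apply, Matrix.smul_apply, Matrix.one_apply] at h2
      have h3 := congrArg (Int.cast : ℤ → A) h2
      push_cast at h3
      rw [h3]
      split_ifs <;> simp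
    unfold app
    calc ∑ k, (M.adjugate i k : A) * ∑ l, (M k l : A) * y l
        = ∑ k, ∑ l, ((M.adjugate i k : A) * (M k l : A)) * y l := by
          refine Finset.sum_congr rfl fun k _ => ?_
          rw [Finset.mul_sum]
          exact Finset.sum_congr rfl fun l _ => (mul_assoc _ _ _).symm
      _ = ∑ l, (∑ k, (M.adjugate i k : A) * (M k l : A)) * y l := by
          rw [Finset.sum_comm]
          exact Finset.sum_congr rfl fun l _ => (Finset.sum_mul _ _ _).symm
      _ = (M.det : A) * y i := by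
          rw [Finset.sum_eq_single i]
          · rw [h1, if_pos rfl]
          · intro l _ hl
            rw [h1, if_neg (Ne.symm hl), zero_mul]
          · intro h
            exact absurd (Finset.mem_univ i) h
  have hev : eval₂ (Int.castRingHom A) (app M y) (G M.adjugate j') =
      (M.det : A) ^ r * ∏ i, y i ^ j' i := by
    unfold G
    rw [eval₂_prod]
    have : ∀ i, eval₂ (Int.castRingHom A) (app M y) (L M.adjugate i ^ j' i) =
        ((M.det : A) * y i) ^ j' i := by
      intro i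
      rw [eval₂_pow]
      congr 1
      rw [← hdet i]
      unfold L
      rw [eval₂_sum]
      refine Finset.sum_congr rfl fun k _ => ?_
      rw [eval₂_mul, eval₂_C, eval₂_X]
      rfl
    rw [Finset.prod_congr rfl fun i _ => this i]
    simp only [mul_pow]
    rw [Finset.prod_mul_distrib, Finset.prod_pow_eq_pow_sum, hr]
  rw [← hev, eval₂_eq']
  have hinj : Set.InjOn (Finsupp.equivFunOnFinite.symm : (Fin 3 → ℕ) → (Fin 3 →₀ ℕ))
      (Finset.piAntidiag (Finset.univ : Finset (Fin 3)) r) :=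
    Finsupp.equivFunOnFinite.symm.injective.injOn
  have hsub : (G M.adjugate j').support ⊆
      (Finset.piAntidiag (Finset.univ : Finset (Fin 3)) r).image
        (Finsupp.equivFunOnFinite.symm : (Fin 3 → ℕ) → (Fin 3 →₀ ℕ)) := by
    intro d hd
    have h2 := (G_hom M.adjugate j') (mem_support_iff.mp hd)
    rw [Finset.mem_image]
    refine ⟨Finsupp.equivFunOnFinite d, ?_, Equiv.symm_apply_apply _ _⟩
    rw [Finset.mem_piAntidiag]
    refine ⟨?_, fun i _ => Finset.mem_univ i⟩
    rw [← hr, ← h2, Finsupp.weight_apply, Finsupp.sum_fintype _ _ (by simp)]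
    simp
  rw [Finset.sum_subset hsub, Finset.sum_image hinj]
  · refine Finset.sum_congr rfl fun j _ => ?_
    rfl
  · intro d _ hd
    rw [notMem_support_iff.mp hd]
    simp

end M3aux

open M3aux in
theorem change (h1 : NormCalc) : Change := by
  intro M
  refine ⟨B M.adjugate, one_le_B _, fun m r => ⟨fun j j' => ∏ h, t M.adjugate (j h) (j' h), ?_, ?_⟩⟩
  · intro j _ j' hj'
    push_cast
    rw [Finset.abs_prod, ← Finset.prod_pow_eq_pow_sum]
    refine Finset.prod_le_prod (fun h _ => abs_nonneg _) fun h _ => ?_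
    have h2 := Fintype.mem_piFinset.mp hj' h
    rw [Finset.mem_piAntidiag] at h2
    rw [← h2.1]
    exact t_le h1 _ _ _
  · intro A _ p v
    unfold val
    have key : ∀ j' ∈ JJ r, (M.det : A) ^ (∑ h, r h) * ∏ h, ∏ i, v h i ^ j' h i =
        ∑ j ∈ JJ r, ((∏ h, t M.adjugate (j h) (j' h) : ℤ) : A) *
          ∏ h, ∏ i, app M (v h) i ^ j h i := by
      intro j' hj'
      rw [← Finset.prod_pow_eq_pow_sum, ← Finset.prod_mul_distrib,
        Finset.prod_congr rfl fun h _ => block M (v h) (r h) (j' h)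
          (Fintype.mem_piFinset.mp hj' h), Finset.prod_univ_sum]
      refine Finset.sum_congr rfl fun j _ => ?_
      rw [Finset.prod_mul_distrib]
      push_cast
      rfl
    rw [Finset.mul_sum]
    calc ∑ j' ∈ JJ r, (M.det : A) ^ (∑ h, r h) * ((p j' : A) * ∏ h, ∏ i, v h i ^ j' h i)
        = ∑ j' ∈ JJ r, ∑ j ∈ JJ r, (((∏ h, t M.adjugate (j h) (j' h)) * p j' : ℤ) : A) *
            ∏ h, ∏ i, app M (v h) i ^ j h i := by
          refine Finset.sum_congr rfl fun j' hj' => ?_
          rw [mul_left_comm, key j' hj', Finset.mul_sum]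
          refine Finset.sum_congr rfl fun j _ => ?_
          push_cast
          ring
      _ = _ := by
          rw [Finset.sum_comm]
          refine Finset.sum_congr rfl fun j _ => ?_
          rw [← Finset.sum_mul]
          push_cast
          rfl

end MPcc0c1aSub
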