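import Pool.Agent.Lib.MP_cc0c1a_nt.Sub.SpecM

/-!
# MP_cc0c1a_nt / Sub: M4, the auxiliary polynomial
-/

namespace MPcc0c1aSub

open MvPolynomial

namespace M4

open Classical in
/-- The final step: from a small vector of coefficients supported on balanced arrays and solving
the unbalanced equations. -/
lemma finish {m : ℕ} (M : Matrix (Fin 3) (Fin 3) ℤ) (r : Fin m → ℕ) (ε C₀ : ℝ) (hC₀ : 1 ≤ C₀)
    (hcard : ((JJ r).card : ℝ) ≤ 4 ^ (∑ h, r h))
    (T : (Fin m → Fin 3 → ℕ) → (Fin m → Fin 3 → ℕ) → ℤ)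
    (hT : ∀ j ∈ JJ r, ∀ j' ∈ JJ r, |(T j j' : ℝ)| ≤ C₀ ^ (∑ h, r h))
    (hid : ∀ (A : Type) [CommRing A] (p : (Fin m → Fin 3 → ℕ) → ℤ) (v : Fin m → Fin 3 → A),
        (M.det : A) ^ (∑ h, r h) * val r p v
          = val r (fun j => ∑ j' ∈ JJ r, T j j' * p j') (fun h => app M (v h)))
    (p : (Fin m → Fin 3 → ℕ) → ℤ) (hp0 : ∃ j ∈ JJ r, p j ≠ 0)
    (hpb : ∀ j ∈ JJ r, p j ≠ 0 → Balanced ε r j)
    (hpn : ∀ j, |(p j : ℝ)| ≤ (4 * C₀) ^ (∑ h, r h))
    (heq : ∀ j ∈ JJ r, ¬ Balanced ε r j → ∑ j' ∈ JJ r, T j j' * p j' = 0) :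
    ∃ p d : (Fin m → Fin 3 → ℕ) → ℤ, (∃ j ∈ JJ r, p j ≠ 0) ∧
      (∀ j ∈ JJ r, p j ≠ 0 → Balanced ε r j) ∧
      (∀ j, |(p j : ℝ)| ≤ (16 * C₀ ^ 2) ^ (∑ h, r h)) ∧
      (∀ j ∈ JJ r, d j ≠ 0 → Balanced ε r j) ∧
      (∀ j ∈ JJ r, |(d j : ℝ)| ≤ (16 * C₀ ^ 2) ^ (∑ h, r h)) ∧
      ∀ (A : Type) [CommRing A] (v : Fin m → Fin 3 → A),
        (M.det : A) ^ (∑ h, r h) * val r p v = val r d (fun h => app M (v h)) := by
  have hC0 : (0 : ℝ) ≤ C₀ := by linarith
  refine ⟨p, fun j => ∑ j' ∈ JJ r, T j j' * p j', hp0, hpb, ?_, ?_, ?_, ?_⟩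
  · intro j
    refine (hpn j).trans ?_
    refine pow_le_pow_left₀ (by positivity) ?_ _
    nlinarith
  · intro j hj hd
    by_contra hb
    exact hd (heq j hj hb)
  · intro j hj
    have h1 : |((∑ j' ∈ JJ r, T j j' * p j' : ℤ) : ℝ)| ≤
        ∑ j' ∈ JJ r, C₀ ^ (∑ h, r h) * (4 * C₀) ^ (∑ h, r h) := by
      push_cast
      refine (Finset.abs_sum_le_sum_abs _ _).trans (Finset.sum_le_sum fun j' hj' => ?_)
      rw [abs_mul]
      exact mul_le_mul (hT j hj j' hj') (hpn j') (abs_nonneg _) (by positivity)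
    refine h1.trans ?_
    rw [Finset.sum_const, nsmul_eq_mul]
    calc ((JJ r).card : ℝ) * (C₀ ^ (∑ h, r h) * (4 * C₀) ^ (∑ h, r h))
        ≤ 4 ^ (∑ h, r h) * (C₀ ^ (∑ h, r h) * (4 * C₀) ^ (∑ h, r h)) :=
          mul_le_mul_of_nonneg_right hcard (by positivity)
      _ = (16 * C₀ ^ 2) ^ (∑ h, r h) := by
          rw [← mul_pow, ← mul_pow]; congr 1; ring
  · intro A _ v
    exact hid A p v

end M4

open Classical in
theorem aux (h1 : CountJ) (h2 : CardJ) (h3 : Change) : Aux := by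
  intro M
  obtain ⟨C₀, hC₀, hT0⟩ := h3 M
  have hC0 : (0 : ℝ) < C₀ := by linarith
  refine ⟨16 * C₀ ^ 2, by nlinarith, ?_⟩
  intro m r ε hε hm hr
  obtain ⟨T, hT, hid⟩ := hT0 m r
  obtain ⟨hcpos, hcle⟩ := h2 m r
  have hcard : ((JJ r).card : ℝ) ≤ 4 ^ (∑ h, r h) := by exact_mod_cast hcle
  have hm1 : 1 ≤ m := by
    rcases Nat.eq_zero_or_pos m with h | h
    · exfalso
      subst h
      simp at hm
      linarith
    · exact h
  have hcount := h1 m r ε hε hm1 hr
  set J := JJ r with hJ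
  set U := J.filter fun j => ¬ Balanced ε r j with hU
  set Bl := J.filter fun j => Balanced ε r j with hBl
  have hpos : (0 : ℝ) < ε ^ 2 * m := by linarith
  have hUle : (U.card : ℝ) ≤ J.card / 8 := by
    refine hcount.trans ?_
    have h4 : 3 / (ε ^ 2 * m) ≤ 1 / 8 := by
      rw [div_le_div_iff₀ hpos (by norm_num)]
      linarith
    have h5 : (0 : ℝ) ≤ (J.card : ℝ) := by positivity
    calc 3 / (ε ^ 2 * m) * (J.card : ℝ) ≤ 1 / 8 * (J.card : ℝ) :=
          mul_le_mul_of_nonneg_right h4 h5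
      _ = J.card / 8 := by ring
  have hsum : Bl.card + U.card = J.card := by
    rw [hBl, hU]
    exact Finset.card_filter_add_card_filter_not (s := J) (fun j => Balanced ε r j)
  have hsumR : (Bl.card : ℝ) + U.card = J.card := by exact_mod_cast hsum
  have hJpos : (0 : ℝ) < J.card := by exact_mod_cast hcpos
  have h2U : 2 * (U.card : ℝ) ≤ Bl.card := by linarith
  have hltR : (U.card : ℝ) < Bl.card := by linarith
  have hlt : U.card < Bl.card := by exact_mod_cast hltR
  have hBlJ : (Bl.card : ℝ) ≤ J.card := by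
    have : (0 : ℝ) ≤ U.card := by positivity
    linarith
  rcases Nat.eq_zero_or_pos U.card with hU0 | hUpos
  · -- no equations
    have hUe : U = ∅ := Finset.card_eq_zero.1 hU0
    obtain ⟨j₀, hj₀⟩ := Finset.card_pos.1 hcpos
    refine M4.finish M r ε C₀ hC₀ hcard T hT hid (fun j => if j = j₀ then 1 else 0)
      ⟨j₀, hj₀, by simp⟩ ?_ ?_ ?_
    · intro j hj _
      by_contra hb
      have : j ∈ U := Finset.mem_filter.2 ⟨hj, hb⟩
      rw [hUe] at this
      exact absurd this (Finset.notMem_empty j)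
    · intro j
      have h4 : (1 : ℝ) ≤ (4 * C₀) ^ (∑ h, r h) := one_le_pow₀ (by linarith)
      by_cases hj : j = j₀
      · simpa [hj] using h4
      · simp only [hj, if_false, Int.cast_zero, abs_zero]
        linarith
    · intro j hj hb
      exfalso
      have : j ∈ U := Finset.mem_filter.2 ⟨hj, hb⟩
      rw [hUe] at this
      exact absurd this (Finset.notMem_empty j)
  · -- Siegel's lemma
    let A : Matrix U Bl ℤ := fun i j => T i.1 j.1
    have hcU : Fintype.card U = U.card := Fintype.card_coe U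
    have hcB : Fintype.card Bl = Bl.card := Fintype.card_coe Bl
    obtain ⟨t, ht0, hAt, htn⟩ := Int.Matrix.exists_ne_zero_int_vec_norm_le A
      (by rw [hcU, hcB]; exact hlt) (by rw [hcU]; exact hUpos)
    have hUJ : ∀ j ∈ U, j ∈ J := fun j hj => (Finset.mem_filter.1 hj).1
    have hBJ : ∀ j ∈ Bl, j ∈ J := fun j hj => (Finset.mem_filter.1 hj).1
    have hpow1 : (1 : ℝ) ≤ C₀ ^ (∑ h, r h) := one_le_pow₀ hC₀
    -- bound for the solution
    have hbound : ∀ x : Bl, |(t x : ℝ)| ≤ (4 * C₀) ^ (∑ h, r h) := by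
      have hA : max 1 (@norm _ Matrix.seminormedAddCommGroup.toNorm A) ≤ C₀ ^ (∑ h, r h) := by
        refine max_le hpow1 ?_
        let _ : SeminormedAddCommGroup (Matrix U Bl ℤ) := Matrix.seminormedAddCommGroup
        refine (Matrix.norm_le_iff (by positivity)).2 ?_
        intro i j
        rw [Int.norm_eq_abs, ← Int.cast_abs]
        have := hT i.1 (hUJ _ i.2) j.1 (hBJ _ j.2)
        rw [← Int.cast_abs] at this
        exact this
      have hbase1 : (1 : ℝ) ≤ (Fintype.card Bl : ℝ) *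
          max 1 (@norm _ Matrix.seminormedAddCommGroup.toNorm A) := by
        have h6 : (1 : ℝ) ≤ (Fintype.card Bl : ℝ) := by
          rw [hcB]
          have : 1 ≤ Bl.card := by omega
          exact_mod_cast this
        have h7 : (1 : ℝ) ≤ max 1 (@norm _ Matrix.seminormedAddCommGroup.toNorm A) :=
          le_max_left _ _
        nlinarith
      have hbase : (Fintype.card Bl : ℝ) *
          max 1 (@norm _ Matrix.seminormedAddCommGroup.toNorm A) ≤ (4 * C₀) ^ (∑ h, r h) := by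
        rw [mul_pow, hcB]
        refine mul_le_mul (hBlJ.trans hcard) hA (le_trans zero_le_one (le_max_left _ _))
          (by positivity)
      have hexp : ((Fintype.card U : ℝ)) / ((Fintype.card Bl : ℝ) - (Fintype.card U : ℝ)) ≤ 1 := by
        rw [hcU, hcB, div_le_one (by linarith)]
        linarith
      have hfin : ((Fintype.card Bl : ℝ) *
          max 1 (@norm _ Matrix.seminormedAddCommGroup.toNorm A)) ^
          ((Fintype.card U : ℝ) / ((Fintype.card Bl : ℝ) - (Fintype.card U : ℝ))) ≤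
          (4 * C₀) ^ (∑ h, r h) := by
        refine (Real.rpow_le_rpow_of_exponent_le hbase1 hexp).trans ?_
        rw [Real.rpow_one]
        exact hbase
      intro x
      have h8 : ‖t x‖ ≤ ‖t‖ := norm_le_pi_norm t x
      rw [Int.norm_eq_abs, ← Int.cast_abs] at h8
      rw [← Int.cast_abs]
      exact h8.trans (htn.trans hfin)
    obtain ⟨x₀, hx₀⟩ : ∃ x, t x ≠ 0 := by
      by_contra hcon
      push Not at hcon
      exact ht0 (funext hcon)
    have hval : ∀ x : Bl, (if h : x.1 ∈ Bl then t ⟨x.1, h⟩ else 0) = t x := by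
      intro x
      rw [dif_pos x.2]
    refine M4.finish M r ε C₀ hC₀ hcard T hT hid
      (fun j => if h : j ∈ Bl then t ⟨j, h⟩ else 0) ⟨x₀.1, hBJ _ x₀.2, ?_⟩ ?_ ?_ ?_
    · rw [hval]; exact hx₀
    · intro j hj hne
      by_contra hb
      have : j ∉ Bl := fun h => hb (Finset.mem_filter.1 h).2
      exact hne (dif_neg this)
    · intro j
      by_cases h : j ∈ Bl
      · simp only [dif_pos h]
        exact hbound ⟨j, h⟩
      · simp only [dif_neg h, Int.cast_zero, abs_zero]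
        positivity
    · intro j hj hb
      have hjU : j ∈ U := Finset.mem_filter.2 ⟨hj, hb⟩
      have h9 : ∑ j' ∈ J, T j j' * (if h : j' ∈ Bl then t ⟨j', h⟩ else 0) =
          ∑ j' ∈ Bl, T j j' * (if h : j' ∈ Bl then t ⟨j', h⟩ else 0) := by
        symm
        refine Finset.sum_subset (fun j' hj' => hBJ j' hj') ?_
        intro j' _ hnot
        rw [dif_neg hnot, mul_zero]
      have h10 : ∑ j' ∈ Bl, T j j' * (if h : j' ∈ Bl then t ⟨j', h⟩ else 0) =
          ∑ x : Bl, T j x.1 * t x := by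
        rw [← Finset.sum_coe_sort Bl (fun j' => T j j' * (if h : j' ∈ Bl then t ⟨j', h⟩ else 0))]
        refine Finset.sum_congr rfl fun x _ => ?_
        rw [hval]
      have h11 := congrFun hAt ⟨j, hjU⟩
      rw [h9, h10]
      simpa [A, Matrix.mulVec, dotProduct] using h11

end MPcc0c1aSub
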