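import Pool.Agent.Lib.MP_cc0c1a_nt.Sub.SpecM

/-!
# MP_cc0c1a_nt / Sub: M6, real bound for the coefficients of the generic value
-/

namespace MPcc0c1aSub

open MvPolynomial

namespace RB

lemma app_gv {m : ℕ} (M : Matrix (Fin 3) (Fin 3) ℤ) (x x' : Fin m → Fin 3 → ℤ)
    (dir : Fin m → Fin 3) (h : Fin m) (i : Fin 3) :
    app M (gv x x' dir h) i
      = C (app M (x h) i) * X (h, 0) + C (app M (x' h) i) * X (h, 1)
        + C (M i (dir h)) * X (h, 2) := by
  have hs : ∀ y : Fin 3 → ℤ, (C (app M y i) : MvPolynomial (Fin m × Fin 3) ℤ)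
      = ∑ k, C (M i k) * C (y k) := by
    intro y
    simp only [app, map_sum, Int.cast_id, map_mul]
  rw [hs, hs]
  simp only [app, gv]
  have h1 : ∀ k : Fin 3, ((M i k : ℤ) : MvPolynomial (Fin m × Fin 3) ℤ) = C (M i k) := by
    intro k
    simp
  simp only [h1, mul_add, Finset.sum_add_distrib, Finset.sum_mul]
  congr 1
  · congr 1
    · exact Finset.sum_congr rfl fun k _ => by ring
    · exact Finset.sum_congr rfl fun k _ => by ring
  · rw [Finset.sum_eq_single (dir h)]
    · simp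
    · intro b _ hb
      simp [hb]
    · intro hn
      exact absurd (Finset.mem_univ _) hn

end RB

theorem realBound (h1 : NormCalc) : RealBound := by
  intro m r p d M x x' dir Λ ρ T hdet hid hρ hΛ hM hT a
  set w : Fin m × Fin 3 → ℝ := fun q => if q.2 = 2 then ρ q.1 else 1 with hwdef
  have hw : ∀ i, 0 ≤ w i := by
    intro i
    simp only [hwdef]
    split_ifs
    · exact (hρ _).le
    · exact zero_le_one
  obtain ⟨n0, nadd, nmul, nC, nX, nc⟩ := h1 (Fin m × Fin 3) w hw
  -- sums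
  have nsum : ∀ (J : Finset (Fin m → Fin 3 → ℕ))
      (f : (Fin m → Fin 3 → ℕ) → MvPolynomial (Fin m × Fin 3) ℤ),
      wl1 w (∑ j ∈ J, f j) ≤ ∑ j ∈ J, wl1 w (f j) := by
    intro J f
    classical
    induction J using Finset.induction_on with
    | empty => simp [wl1]
    | insert b s hb ih =>
      rw [Finset.sum_insert hb, Finset.sum_insert hb]
      exact (nadd _ _).trans (add_le_add le_rfl ih)
  have n1 : wl1 w (1 : MvPolynomial (Fin m × Fin 3) ℤ) ≤ 1 := by
    have := nC 1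
    simp only [map_one, Int.cast_one, abs_one] at this
    exact this.le
  have nprod : ∀ (n : ℕ) (f : Fin n → MvPolynomial (Fin m × Fin 3) ℤ),
      wl1 w (∏ j, f j) ≤ ∏ j, wl1 w (f j) := by
    intro n f
    induction n with
    | zero => simpa using n1
    | succ n ih =>
      rw [Fin.prod_univ_succ, Fin.prod_univ_succ]
      exact (nmul _ _).trans (mul_le_mul_of_nonneg_left (ih _) (n0 _))
  have npow : ∀ (f : MvPolynomial (Fin m × Fin 3) ℤ) (n : ℕ), wl1 w (f ^ n) ≤ wl1 w f ^ n := by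
    intro f n
    induction n with
    | zero => simpa using n1
    | succ n ih =>
      rw [pow_succ, pow_succ]
      exact (nmul _ _).trans (mul_le_mul_of_nonneg_right ih (n0 _))
  -- norm of the coordinates
  have ncoord : ∀ h i, wl1 w (app M (gv x x' dir h) i) ≤ 3 * Λ h i := by
    intro h i
    obtain ⟨hx, hx', hd⟩ := hM h i
    rw [RB.app_gv]
    have e0 : wl1 w (C (app M (x h) i) * X (h, 0) : MvPolynomial (Fin m × Fin 3) ℤ) ≤ Λ h i := by
      refine (nmul _ _).trans ?_
      rw [nC, nX]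
      simpa [hwdef] using hx
    have e1 : wl1 w (C (app M (x' h) i) * X (h, 1) : MvPolynomial (Fin m × Fin 3) ℤ) ≤ Λ h i := by
      refine (nmul _ _).trans ?_
      rw [nC, nX]
      simpa [hwdef] using hx'
    have e2 : wl1 w (C (M i (dir h)) * X (h, 2) : MvPolynomial (Fin m × Fin 3) ℤ) ≤ Λ h i := by
      refine (nmul _ _).trans ?_
      rw [nC, nX]
      simpa [hwdef] using hd
    have := (nadd (C (app M (x h) i) * X (h, 0) + C (app M (x' h) i) * X (h, 1))
      (C (M i (dir h)) * X (h, 2)))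
    have h2 := nadd (C (app M (x h) i) * X (h, 0)) (C (app M (x' h) i) * X (h, 1))
    linarith
  -- norm of one term
  have nterm : ∀ j ∈ JJ r, wl1 w (((d j : ℤ) : MvPolynomial (Fin m × Fin 3) ℤ) *
      ∏ h, ∏ i, app M (gv x x' dir h) i ^ j h i) ≤ 3 ^ (∑ h, r h) * T := by
    intro j hj
    have hjr : ∀ h, ∑ i, j h i = r h := by
      intro h
      have := Fintype.mem_piFinset.1 hj h
      exact (Finset.mem_piAntidiag.1 this).1
    have hcast : ((d j : ℤ) : MvPolynomial (Fin m × Fin 3) ℤ) = C (d j) := by simp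
    rw [hcast]
    have hp : wl1 w (∏ h, ∏ i, app M (gv x x' dir h) i ^ j h i)
        ≤ ∏ h, ∏ i, (3 * Λ h i) ^ j h i := by
      refine (nprod m _).trans ?_
      refine Finset.prod_le_prod (fun h _ => n0 _) fun h _ => ?_
      refine (nprod 3 _).trans ?_
      refine Finset.prod_le_prod (fun i _ => n0 _) fun i _ => ?_
      exact (npow _ _).trans (pow_le_pow_left₀ (n0 _) (ncoord h i) _)
    have he : ∏ h, ∏ i, (3 * Λ h i) ^ j h i
        = (3 : ℝ) ^ (∑ h, r h) * ∏ h, ∏ i, Λ h i ^ j h i := by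
      rw [← Finset.prod_pow_eq_pow_sum, ← Finset.prod_mul_distrib]
      refine Finset.prod_congr rfl fun h _ => ?_
      rw [← hjr h, ← Finset.prod_pow_eq_pow_sum, ← Finset.prod_mul_distrib]
      exact Finset.prod_congr rfl fun i _ => mul_pow _ _ _
    calc wl1 w (C (d j) * ∏ h, ∏ i, app M (gv x x' dir h) i ^ j h i)
        ≤ wl1 w (C (d j) : MvPolynomial (Fin m × Fin 3) ℤ)
            * wl1 w (∏ h, ∏ i, app M (gv x x' dir h) i ^ j h i) := nmul _ _
      _ ≤ |(d j : ℝ)| * ((3 : ℝ) ^ (∑ h, r h) * ∏ h, ∏ i, Λ h i ^ j h i) := by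
          rw [nC, ← he]
          exact mul_le_mul_of_nonneg_left hp (abs_nonneg _)
      _ = 3 ^ (∑ h, r h) * (|(d j : ℝ)| * ∏ h, ∏ i, Λ h i ^ j h i) := by ring
      _ ≤ 3 ^ (∑ h, r h) * T := mul_le_mul_of_nonneg_left (hT j hj) (by positivity)
  -- norm of the value
  have nval : wl1 w (val r d (fun h => app M (gv x x' dir h)))
      ≤ (JJ r).card * (3 ^ (∑ h, r h) * T) := by
    unfold val
    refine (nsum _ _).trans ?_
    refine (Finset.sum_le_sum nterm).trans ?_
    rw [Finset.sum_const, nsmul_eq_mul]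
  rw [← hid] at nval
  -- the coefficient
  have hc := nc ((M.det : MvPolynomial (Fin m × Fin 3) ℤ) ^ (∑ h, r h)
    * val r p (gv x x' dir)) a
  have hcoef : coeff a ((M.det : MvPolynomial (Fin m × Fin 3) ℤ) ^ (∑ h, r h)
      * val r p (gv x x' dir)) = M.det ^ (∑ h, r h) * coeff a (val r p (gv x x' dir)) := by
    have : (M.det : MvPolynomial (Fin m × Fin 3) ℤ) ^ (∑ h, r h) = C (M.det ^ (∑ h, r h)) := by
      simp
    rw [this, coeff_C_mul]
  rw [hcoef] at hc
  have hprod : ∏ i, w i ^ a i = ∏ h, ρ h ^ a (h, 2) := by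
    rw [Fintype.prod_prod_type]
    refine Finset.prod_congr rfl fun h _ => ?_
    rw [Fin.prod_univ_three]
    simp [hwdef]
  rw [hprod] at hc
  have hdet1 : (1 : ℝ) ≤ |((M.det ^ (∑ h, r h) : ℤ) : ℝ)| := by
    rw [← Int.cast_abs]
    exact_mod_cast Int.one_le_abs (pow_ne_zero _ hdet)
  have hpos : 0 ≤ ∏ h, ρ h ^ a (h, 2) := Finset.prod_nonneg fun h _ => pow_nonneg (hρ h).le _
  calc |((coeff a (val r p (gv x x' dir)) : ℤ) : ℝ)| * ∏ h, ρ h ^ a (h, 2)
      ≤ |((M.det ^ (∑ h, r h) * coeff a (val r p (gv x x' dir)) : ℤ) : ℝ)|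
          * ∏ h, ρ h ^ a (h, 2) := by
        refine mul_le_mul_of_nonneg_right ?_ hpos
        rw [Int.cast_mul, abs_mul]
        exact le_mul_of_one_le_left (abs_nonneg _) hdet1
    _ ≤ (JJ r).card * (3 ^ (∑ h, r h) * T) := hc.trans nval
    _ = (JJ r).card * 3 ^ (∑ h, r h) * T := by ring

end MPcc0c1aSub
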