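import Pool.Agent.Lib.MP_cc0c1a_nt.Sub.SpecM

/-!
# MP_cc0c1a_nt / Sub / M7: divisibility of the coefficients of the generic value
-/

namespace MPcc0c1aSub

open MvPolynomial

namespace M7Aux

variable {m : ℕ}

/-- the weight of the variable `z` -/
def wz (b : ℤ) (A' : Fin m → ℕ) (z : Fin m × Fin 3) : ℤ := if z.2 = 2 then b ^ A' z.1 else 1

/-- the scaling of the variables `X (h, 2)` -/
noncomputable def Phi (b : ℤ) (A' : Fin m → ℕ) :
    MvPolynomial (Fin m × Fin 3) ℤ →ₐ[ℤ] MvPolynomial (Fin m × Fin 3) ℤ :=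
  aeval fun z => C (wz b A' z) * X z

theorem Phi_X (b : ℤ) (A' : Fin m → ℕ) (z : Fin m × Fin 3) :
    Phi b A' (X z) = C (wz b A' z) * X z := by
  unfold Phi
  rw [aeval_X]

theorem Phi_C (b : ℤ) (A' : Fin m → ℕ) (c : ℤ) : Phi b A' (C c) = C c := by
  unfold Phi
  rw [aeval_C]
  rfl

theorem prod_wz (b : ℤ) (A' : Fin m → ℕ) (s : Fin m × Fin 3 →₀ ℕ) :
    ∏ z, wz b A' z ^ s z = b ^ (∑ h, A' h * s (h, 2)) := by
  rw [Fintype.prod_prod_type, ← Finset.prod_pow_eq_pow_sum]
  apply Finset.prod_congr rfl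
  intro h _
  rw [Fin.prod_univ_three]
  have e0 : wz b A' (h, 0) = 1 := if_neg (show ¬ ((0 : Fin 3) = 2) by decide)
  have e1 : wz b A' (h, 1) = 1 := if_neg (show ¬ ((1 : Fin 3) = 2) by decide)
  have e2 : wz b A' (h, 2) = b ^ A' h := if_pos rfl
  rw [e0, e1, e2, one_pow, one_pow, one_mul, one_mul, ← pow_mul]

theorem Phi_monomial (b : ℤ) (A' : Fin m → ℕ) (s : Fin m × Fin 3 →₀ ℕ) (c : ℤ) :
    Phi b A' (monomial s c) = monomial s (b ^ (∑ h, A' h * s (h, 2)) * c) := by
  rw [monomial_eq, map_mul, Phi_C, ← prod_wz b A' s]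
  rw [Finsupp.prod_fintype _ _ (fun i => pow_zero _), map_prod]
  rw [monomial_eq, Finsupp.prod_fintype _ _ (fun i => pow_zero _)]
  rw [C_mul, map_prod]
  have h1 : ∏ z, (Phi b A') (X z ^ s z) =
      (∏ z, C (wz b A' z ^ s z)) * ∏ z, (X z : MvPolynomial (Fin m × Fin 3) ℤ) ^ s z := by
    rw [← Finset.prod_mul_distrib]
    apply Finset.prod_congr rfl
    intro z _
    rw [map_pow, Phi_X, mul_pow, C_pow]
  rw [h1]
  ring

theorem coeff_Phi (b : ℤ) (A' : Fin m → ℕ) (f : MvPolynomial (Fin m × Fin 3) ℤ)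
    (a : Fin m × Fin 3 →₀ ℕ) :
    coeff a (Phi b A' f) = b ^ (∑ h, A' h * a (h, 2)) * coeff a f := by
  classical
  induction f using MvPolynomial.induction_on' with
  | monomial s c =>
    rw [Phi_monomial, coeff_monomial, coeff_monomial]
    by_cases h : s = a
    · rw [if_pos h, if_pos h, h]
    · rw [if_neg h, if_neg h, mul_zero]
  | add p q hp hq =>
    rw [map_add, coeff_add, coeff_add, hp, hq, mul_add]

theorem map_val {A B : Type} [CommRing A] [CommRing B] (f : A →+* B) (r : Fin m → ℕ)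
    (p : (Fin m → Fin 3 → ℕ) → ℤ) (v : Fin m → Fin 3 → A) :
    f (val r p v) = val r p (fun h i => f (v h i)) := by
  unfold val
  rw [map_sum]
  apply Finset.sum_congr rfl
  intro j _
  rw [map_mul, map_intCast, map_prod]
  congr 1
  apply Finset.prod_congr rfl
  intro h _
  rw [map_prod]
  apply Finset.prod_congr rfl
  intro i _
  rw [map_pow]

theorem dvd_Phi_gv (x x' : Fin m → Fin 3 → ℤ) (dir : Fin m → Fin 3) (b : ℤ)
    (A : Fin m → Fin 3 → ℕ) (A' : Fin m → ℕ)
    (hx : ∀ h i, b ^ A h i ∣ x h i ∧ b ^ A h i ∣ x' h i) (hA : ∀ h i, A h i ≤ A' h)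
    (h : Fin m) (i : Fin 3) :
    (C (b ^ A h i) : MvPolynomial (Fin m × Fin 3) ℤ) ∣ Phi b A' (gv x x' dir h i) := by
  unfold gv
  rw [map_add, map_add, map_mul, map_mul, Phi_C, Phi_C]
  apply dvd_add
  · apply dvd_add
    · exact Dvd.dvd.mul_right (map_dvd C (hx h i).1) _
    · exact Dvd.dvd.mul_right (map_dvd C (hx h i).2) _
  · by_cases hi : i = dir h
    · rw [if_pos hi, Phi_X]
      apply Dvd.dvd.mul_right
      apply map_dvd C
      unfold wz
      rw [if_pos rfl]
      exact pow_dvd_pow b (hA h i)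
    · rw [if_neg hi, map_zero]
      exact dvd_zero _

end M7Aux

open M7Aux in
theorem divBound : DivBound := by
  intro m r p x x' dir b A A' E hx hA hE a
  rw [← coeff_Phi b A' (val r p (gv x x' dir)) a]
  have key : (C (b ^ E) : MvPolynomial (Fin m × Fin 3) ℤ) ∣ Phi b A' (val r p (gv x x' dir)) := by
    have h0 : Phi b A' (val r p (gv x x' dir)) =
        val r p (fun h i => Phi b A' (gv x x' dir h i)) :=
      map_val (Phi b A').toRingHom r p (gv x x' dir)
    rw [h0]
    unfold val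
    apply Finset.dvd_sum
    intro j hj
    by_cases hp : p j = 0
    · rw [hp, Int.cast_zero, zero_mul]
      exact dvd_zero _
    · apply Dvd.dvd.mul_left
      have h1 : (∏ h, ∏ i, (C (b ^ A h i) : MvPolynomial (Fin m × Fin 3) ℤ) ^ j h i) ∣
          ∏ h, ∏ i, (Phi b A' (gv x x' dir h i)) ^ j h i := by
        apply Finset.prod_dvd_prod_of_dvd
        intro h _
        apply Finset.prod_dvd_prod_of_dvd
        intro i _
        exact pow_dvd_pow_of_dvd (dvd_Phi_gv x x' dir b A A' hx hA h i) _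
      have h2 : (∏ h, ∏ i, (C (b ^ A h i) : MvPolynomial (Fin m × Fin 3) ℤ) ^ j h i) =
          C (b ^ (∑ h, ∑ i, A h i * j h i)) := by
        rw [← Finset.prod_pow_eq_pow_sum, map_prod]
        apply Finset.prod_congr rfl
        intro h _
        rw [← Finset.prod_pow_eq_pow_sum, map_prod]
        apply Finset.prod_congr rfl
        intro i _
        rw [pow_mul, C_pow (b ^ A h i)]
      rw [h2] at h1
      exact (map_dvd C (pow_dvd_pow b (hE j hj hp))).trans h1
  exact (C_dvd_iff_dvd_coeff _ _).1 key a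

end MPcc0c1aSub
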