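import Pool.Agent.Lib.MP_cc0c1a_nt.Sub.SpecM

set_option autoImplicit false

namespace MPcc0c1aSub

open MvPolynomial

lemma m8_Y {m : ℕ} {r l : Fin m → ℕ} {R ε : ℝ} (hε : 0 < ε) (hε' : ε ≤ 1 / 10) (hR : 0 < R)
    (H : ∀ h, 0 < r h ∧ R ≤ r h * l h ∧ (r h * l h : ℝ) ≤ (1 + ε) * R)
    {j : Fin m → Fin 3 → ℕ} (hj : Balanced ε r j) (i : Fin 3) :
    |∑ h, (l h : ℝ) * j h i - R * m / 3| ≤ 3 * ε * m * R := by
  have hS := hj i
  rw [abs_le] at hS
  set S := ∑ h, (j h i : ℝ) / r h with hSdef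
  have h1 : R * S ≤ ∑ h, (l h : ℝ) * j h i := by
    rw [hSdef, Finset.mul_sum]
    refine Finset.sum_le_sum fun h _ => ?_
    obtain ⟨hr, h2, h3⟩ := H h
    have hr' : (0 : ℝ) < r h := by exact_mod_cast hr
    have : (l h : ℝ) * j h i = (r h * l h) * (j h i / r h) := by field_simp
    rw [this]
    exact mul_le_mul_of_nonneg_right h2 (by positivity)
  have h2 : ∑ h, (l h : ℝ) * j h i ≤ (1 + ε) * R * S := by
    rw [hSdef, Finset.mul_sum]
    refine Finset.sum_le_sum fun h _ => ?_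
    obtain ⟨hr, h2, h3⟩ := H h
    have hr' : (0 : ℝ) < r h := by exact_mod_cast hr
    have : (l h : ℝ) * j h i = (r h * l h) * (j h i / r h) := by field_simp
    rw [this]
    exact mul_le_mul_of_nonneg_right h3 (by positivity)
  have hm : (0 : ℝ) ≤ m := by positivity
  have hmR : 0 ≤ (m : ℝ) * R := by positivity
  have hemR : 0 ≤ ε * (m * R) := by positivity
  have heemR : ε * (ε * (m * R)) ≤ 1 / 10 * (ε * (m * R)) :=
    mul_le_mul_of_nonneg_right hε' hemR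
  rw [abs_le]
  constructor
  · have h3 : R * (m / 3 - ε * m) ≤ R * S := mul_le_mul_of_nonneg_left (by linarith) hR.le
    nlinarith
  · have h3 : (1 + ε) * R * S ≤ (1 + ε) * R * (m / 3 + ε * m) :=
      mul_le_mul_of_nonneg_left (by linarith) (by positivity)
    nlinarith

lemma m8_up {c Y : Fin 3 → ℝ} {K ε m R : ℝ} (hε : 0 < ε) (hε' : ε ≤ 1 / 10) (hR : 0 < R)
    (hm : 0 ≤ m) (hK : 1 + ∑ i, |c i| ≤ K) (hY : ∀ i, |Y i - R * m / 3| ≤ 3 * ε * m * R) :
    ∑ i, (c i + ε) * Y i ≤ R * m * ((∑ i, c i) / 3 + 3 * K * ε) := by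
  have hmR : 0 ≤ R * m := by positivity
  have hemR : 0 ≤ ε * (R * m) := by positivity
  have heemR : ε * (ε * (R * m)) ≤ 1 / 10 * (ε * (R * m)) :=
    mul_le_mul_of_nonneg_right hε' hemR
  have h1 : ∀ i, (c i + ε) * Y i ≤ R * m * (c i / 3) + 3 * |c i| * (ε * (R * m)) +
      ε * (R * m) := by
    intro i
    have h2 : c i * (Y i - R * m / 3) ≤ |c i| * (3 * ε * m * R) :=
      (le_abs_self _).trans (by
        rw [abs_mul]; exact mul_le_mul_of_nonneg_left (hY i) (abs_nonneg _))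
    have h3 := (abs_le.1 (hY i)).2
    have h4 : ε * (Y i - R * m / 3) ≤ ε * (3 * ε * m * R) := mul_le_mul_of_nonneg_left h3 hε.le
    nlinarith
  calc ∑ i, (c i + ε) * Y i ≤ ∑ i, (R * m * (c i / 3) + 3 * |c i| * (ε * (R * m)) +
      ε * (R * m)) := Finset.sum_le_sum fun i _ => h1 i
    _ = R * m * ((∑ i, c i) / 3) + (3 * (∑ i, |c i|) + 3) * (ε * (R * m)) := by
        simp only [Fin.sum_univ_three]; ring
    _ ≤ R * m * ((∑ i, c i) / 3) + (3 * K) * (ε * (R * m)) := by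
        have : (3 * (∑ i, |c i|) + 3) * (ε * (R * m)) ≤ (3 * K) * (ε * (R * m)) :=
          mul_le_mul_of_nonneg_right (by linarith) hemR
        linarith
    _ = R * m * ((∑ i, c i) / 3 + 3 * K * ε) := by ring

lemma m8_low {α Y : Fin 3 → ℝ} {K ε m R : ℝ} (hε : 0 < ε) (hε' : ε ≤ 1 / 10) (hR : 0 < R)
    (hm : 0 ≤ m) (hα : ∀ i, 0 ≤ α i) (hK : 1 + ∑ i, α i ≤ K)
    (hY : ∀ i, |Y i - R * m / 3| ≤ 3 * ε * m * R) :
    R * m * ((∑ i, α i) / 3 - 3 * K * ε) ≤ ∑ i, (α i - ε) * Y i := by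
  have h := m8_up (c := fun i => -α i) (Y := Y) hε hε' hR hm (K := K) (by
    simpa [abs_neg, abs_of_nonneg (hα _)] using hK) hY
  have e1 : ∑ i, (-α i + ε) * Y i = -∑ i, (α i - ε) * Y i := by
    rw [← Finset.sum_neg_distrib]
    exact Finset.sum_congr rfl fun i _ => by ring
  have e2 : ∑ i : Fin 3, -α i = -∑ i, α i := Finset.sum_neg_distrib _
  rw [e1, e2] at h
  nlinarith

lemma m8_prod {m : ℕ} (l : Fin m → ℕ) (e : Fin 3 → ℝ) (j : Fin m → Fin 3 → ℕ) :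
    ∏ h, ∏ i, Real.exp (e i * l h) ^ j h i = Real.exp (∑ i, e i * ∑ h, (l h : ℝ) * j h i) := by
  have h1 : ∀ h i, Real.exp (e i * l h) ^ j h i = Real.exp (e i * ((l h : ℝ) * j h i)) := by
    intro h i
    rw [← Real.exp_nat_mul]
    congr 1
    ring
  simp_rw [h1, ← Real.exp_sum]
  congr 1
  rw [Finset.sum_comm]
  exact Finset.sum_congr rfl fun i _ => by rw [Finset.mul_sum]

lemma m8_wl {m : ℕ} {r l : Fin m → ℕ} {R ε : ℝ} (hε : 0 < ε) (hR : 0 < R)
    (H : ∀ h, 0 < r h ∧ R ≤ r h * l h ∧ (r h * l h : ℝ) ≤ (1 + ε) * R)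
    (a : Fin m × Fin 3 →₀ ℕ) (ha : swt r a ≤ ε) :
    ∑ h, (l h : ℝ) * a (h, 2) ≤ (1 + ε) * R * ε := by
  have h1 : ∑ h, (l h : ℝ) * a (h, 2) ≤ (1 + ε) * R * swt r a := by
    rw [swt, Finset.mul_sum]
    refine Finset.sum_le_sum fun h _ => ?_
    obtain ⟨hr, h2, h3⟩ := H h
    have hr' : (0 : ℝ) < r h := by exact_mod_cast hr
    have : (l h : ℝ) * a (h, 2) = (r h * l h) * (a (h, 2) / r h) := by field_simp
    rw [this]
    exact mul_le_mul_of_nonneg_right h3 (by positivity)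
  exact h1.trans (mul_le_mul_of_nonneg_left ha (by positivity))

lemma m8_pow {m : ℕ} {r l : Fin m → ℕ} {R ε D : ℝ} (L₀ : ℕ) (hε : 0 < ε) (hε' : ε ≤ 1 / 10)
    (hR : 0 < R) (hD : 1 ≤ D) (hL : 2 * Real.log D / ε ≤ L₀) (hL1 : 1 ≤ L₀)
    (H : ∀ h, L₀ ≤ l h ∧ 0 < r h ∧ R ≤ r h * l h ∧ (r h * l h : ℝ) ≤ (1 + ε) * R) :
    D ^ (∑ h, r h) ≤ Real.exp (ε * R * m) := by
  have hlog : 0 ≤ Real.log D := Real.log_nonneg hD
  have h1 : ∀ h, Real.log D * r h ≤ ε * R := by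
    intro h
    obtain ⟨h1, h2, h3, h4⟩ := H h
    have h5 : (L₀ : ℝ) ≤ l h := by exact_mod_cast h1
    have h6 : 2 * Real.log D ≤ ε * L₀ := by
      rw [div_le_iff₀ hε] at hL
      linarith
    have h7 : 2 * Real.log D * r h ≤ ε * L₀ * r h :=
      mul_le_mul_of_nonneg_right h6 (Nat.cast_nonneg _)
    have h8 : ε * L₀ * r h ≤ ε * (r h * l h) := by
      have : (L₀ : ℝ) * r h ≤ l h * r h := mul_le_mul_of_nonneg_right h5 (Nat.cast_nonneg _)
      nlinarith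
    have h9 : ε * (r h * l h) ≤ ε * ((1 + ε) * R) := mul_le_mul_of_nonneg_left h4 hε.le
    have h10 : ε * ((1 + ε) * R) ≤ 2 * (ε * R) := by
      have : 0 < ε * R := by positivity
      nlinarith
    linarith
  have h2 : Real.log D * (∑ h, r h : ℕ) ≤ ε * R * m := by
    push_cast
    rw [Finset.mul_sum]
    calc ∑ h, Real.log D * r h ≤ ∑ _h : Fin m, ε * R := Finset.sum_le_sum fun h _ => h1 h
      _ = ε * R * m := by rw [Finset.sum_const, Finset.card_univ, Fintype.card_fin, nsmul_eq_mul]; ring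
  calc D ^ (∑ h, r h) = Real.exp (Real.log D * (∑ h, r h : ℕ)) := by
        rw [mul_comm, Real.exp_nat_mul, Real.exp_log (by linarith)]
    _ ≤ _ := Real.exp_le_exp.2 h2

/-- the consequence of the divisibility bound for the prime `b` -/
lemma m8_div {m : ℕ} (h3 : DivBound) {r l : Fin m → ℕ} {R ε K : ℝ} (hε : 0 < ε)
    (hε' : ε ≤ 1 / 10) (hR : 0 < R) {α : Fin 3 → ℝ} (hα : ∀ i, 0 ≤ α i) (hK : 1 + ∑ i, α i ≤ K)
    (H : ∀ h, 0 < r h ∧ R ≤ r h * l h ∧ (r h * l h : ℝ) ≤ (1 + ε) * R)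
    (p : (Fin m → Fin 3 → ℕ) → ℤ) (hp : ∀ j ∈ JJ r, p j ≠ 0 → Balanced ε r j)
    (A : Fin m → Fin 3 → ℕ) (x x' : Fin m → Fin 3 → ℤ) (dir : Fin m → Fin 3) (b : ℤ)
    (hA : ∀ h i, |(A h i : ℝ) - α i * l h| ≤ ε * l h) (hx : ∀ h i, b ^ A h i ∣ x h i ∧ b ^ A h i ∣ x' h i)
    (a : Fin m × Fin 3 →₀ ℕ) (ha : swt r a ≤ ε) :
    ∃ E s : ℕ, b ^ E ∣ b ^ s * coeff a (val r p (gv x x' dir)) ∧
      R * m * ((∑ i, α i) / 3 - 3 * K * ε) - 1 ≤ E ∧ (s : ℝ) ≤ 2 * K * R * ε := by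
  refine ⟨⌊R * m * ((∑ i, α i) / 3 - 3 * K * ε)⌋₊, ∑ h, (∑ i, A h i) * a (h, 2),
    h3 m r p x x' dir b A (fun h => ∑ i, A h i) _ hx ?_ ?_ a, ?_, ?_⟩
  · intro h i
    exact Finset.single_le_sum (f := fun i => A h i) (fun _ _ => Nat.zero_le _) (Finset.mem_univ i)
  · intro j hj hpj
    apply Nat.floor_le_of_le
    have h4 := m8_low hε hε' hR (Nat.cast_nonneg m) hα hK
      (Y := fun i => ∑ h, (l h : ℝ) * j h i) (fun i => m8_Y hε hε' hR H (hp j hj hpj) i)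
    refine h4.trans ?_
    push_cast
    rw [Finset.sum_comm]
    refine Finset.sum_le_sum fun i _ => ?_
    rw [Finset.mul_sum]
    refine Finset.sum_le_sum fun h _ => ?_
    have h5 := (abs_le.1 (hA h i)).1
    have h6 : (0 : ℝ) ≤ j h i := Nat.cast_nonneg _
    nlinarith
  · exact (Nat.sub_one_lt_floor _).le
  · have hK1 : 1 ≤ K := by
      have : 0 ≤ ∑ i, α i := Finset.sum_nonneg fun i _ => hα i
      linarith
    have h5 : ∀ h, ((∑ i, A h i : ℕ) : ℝ) ≤ K * l h := by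
      intro h
      push_cast
      have h6 : ∀ i, (A h i : ℝ) ≤ α i * l h + ε * l h := fun i => by
        have := (abs_le.1 (hA h i)).2
        linarith
      calc ∑ i, (A h i : ℝ) ≤ ∑ i, (α i * l h + ε * l h) := Finset.sum_le_sum fun i _ => h6 i
        _ = ((∑ i, α i) + 3 * ε) * l h := by simp only [Fin.sum_univ_three]; ring
        _ ≤ K * l h := mul_le_mul_of_nonneg_right (by linarith) (Nat.cast_nonneg _)
    push_cast
    calc ∑ h, (∑ i, (A h i : ℝ)) * (a (h, 2) : ℝ) ≤ ∑ h, K * ((l h : ℝ) * a (h, 2)) := by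
          refine Finset.sum_le_sum fun h _ => ?_
          have := h5 h
          push_cast at this
          have h7 : (0 : ℝ) ≤ a (h, 2) := Nat.cast_nonneg _
          nlinarith
      _ = K * ∑ h, (l h : ℝ) * a (h, 2) := by rw [Finset.mul_sum]
      _ ≤ K * ((1 + ε) * R * ε) := mul_le_mul_of_nonneg_left (m8_wl hε hR H a ha) (by linarith)
      _ ≤ 2 * K * R * ε := by
          have : 0 < K * (R * ε) := by positivity
          nlinarith

/-- the consequence of the real bound -/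
lemma m8_real {m : ℕ} (h1 : CardJ) (h2 : RealBound) {r l : Fin m → ℕ} {R ε K C : ℝ} (hm : 1 ≤ m)
    (hε : 0 < ε) (hε' : ε ≤ 1 / 10) (hR : 0 < R) {c : Fin 3 → ℝ} (hK : 1 + ∑ i, |c i| ≤ K)
    (L₀ : ℕ) (hC : 1 ≤ C) (hL : 2 * Real.log (12 * C) / ε ≤ L₀) (hL1 : 1 ≤ L₀)
    (M : Matrix (Fin 3) (Fin 3) ℤ) (hM : M.det ≠ 0)
    (hML : ∀ i k, |(M i k : ℝ)| ≤ Real.exp L₀)
    (H : ∀ h, L₀ ≤ l h ∧ 0 < r h ∧ R ≤ r h * l h ∧ (r h * l h : ℝ) ≤ (1 + ε) * R)
    (p d : (Fin m → Fin 3 → ℕ) → ℤ) (hd : ∀ j ∈ JJ r, d j ≠ 0 → Balanced ε r j)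
    (hdC : ∀ j ∈ JJ r, |(d j : ℝ)| ≤ C ^ (∑ h, r h))
    (hid : ∀ (A : Type) [CommRing A] (v : Fin m → Fin 3 → A),
            (M.det : A) ^ (∑ h, r h) * val r p v = val r d (fun h => app M (v h)))
    (x x' : Fin m → Fin 3 → ℤ) (dir : Fin m → Fin 3)
    (hx : ∀ h i, |((app M (x h) i : ℤ) : ℝ)| ≤ Real.exp ((c i + ε) * l h) ∧
              |((app M (x' h) i : ℤ) : ℝ)| ≤ Real.exp ((c i + ε) * l h))
    (a : Fin m × Fin 3 →₀ ℕ) (ha : swt r a ≤ ε) :
    |((coeff a (val r p (gv x x' dir)) : ℤ) : ℝ)| ≤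
      Real.exp (R * m * ((∑ i, c i) / 3 + 8 * K * ε)) := by
  have hK1 : 1 ≤ K := by
    have : 0 ≤ ∑ i, |c i| := Finset.sum_nonneg fun i _ => abs_nonneg _
    linarith
  have hm' : (1 : ℝ) ≤ m := by exact_mod_cast hm
  have H' : ∀ h, 0 < r h ∧ R ≤ r h * l h ∧ (r h * l h : ℝ) ≤ (1 + ε) * R := fun h => (H h).2
  have hb := h2 m r p d M x x' dir (fun h i => Real.exp ((c i + ε) * l h))
    (fun h => Real.exp (-((K + 1) * l h)))
    (C ^ (∑ h, r h) * Real.exp (R * m * ((∑ i, c i) / 3 + 3 * K * ε))) hM hid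
    (fun h => Real.exp_pos _) (fun h i => (Real.exp_pos _).le) (by
      intro h i
      refine ⟨(hx h i).1, (hx h i).2, ?_⟩
      have h5 : (L₀ : ℝ) ≤ l h := by exact_mod_cast (H h).1
      have h6 : |(M i (dir h) : ℝ)| ≤ Real.exp (l h) :=
        (hML i (dir h)).trans (Real.exp_le_exp.2 h5)
      calc |(M i (dir h) : ℝ)| * Real.exp (-((K + 1) * l h))
          ≤ Real.exp (l h) * Real.exp (-((K + 1) * l h)) :=
            mul_le_mul_of_nonneg_right h6 (Real.exp_pos _).le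
        _ = Real.exp (-K * l h) := by rw [← Real.exp_add]; congr 1; ring
        _ ≤ Real.exp ((c i + ε) * l h) := by
            apply Real.exp_le_exp.2
            apply mul_le_mul_of_nonneg_right _ (Nat.cast_nonneg _)
            have h7 : |c i| ≤ ∑ i, |c i| :=
              Finset.single_le_sum (f := fun i => |c i|) (fun _ _ => abs_nonneg _)
                (Finset.mem_univ i)
            have h8 := neg_abs_le (c i)
            linarith)
    (by
      intro j hj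
      by_cases hdj : d j = 0
      · rw [hdj]
        simp only [Int.cast_zero, abs_zero, zero_mul]
        positivity
      · refine mul_le_mul (hdC j hj) ?_ (by positivity) (by positivity)
        rw [m8_prod l (fun i => c i + ε) j]
        apply Real.exp_le_exp.2
        exact m8_up hε hε' hR (Nat.cast_nonneg m) hK
          (fun i => m8_Y hε hε' hR H' (hd j hj hdj) i)) a
  have hwl := m8_wl hε hR H' a ha
  have hprod : ∏ h, Real.exp (-((K + 1) * l h)) ^ a (h, 2) =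
      Real.exp (-((K + 1) * ∑ h, (l h : ℝ) * a (h, 2))) := by
    have : ∀ h, Real.exp (-((K + 1) * l h)) ^ a (h, 2) =
        Real.exp (-((K + 1) * ((l h : ℝ) * a (h, 2)))) := by
      intro h
      rw [← Real.exp_nat_mul]
      congr 1
      ring
    simp_rw [this, ← Real.exp_sum]
    congr 1
    rw [Finset.mul_sum, ← Finset.sum_neg_distrib]
  rw [hprod] at hb
  set F := |((coeff a (val r p (gv x x' dir)) : ℤ) : ℝ)| with hF
  have hcard : ((JJ r).card : ℝ) ≤ 4 ^ (∑ h, r h) := by exact_mod_cast (h1 m r).2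
  have hpow := m8_pow (m := m) L₀ hε hε' hR (D := 12 * C) (by linarith) hL hL1 H
  have h5 : F ≤ ((JJ r).card * 3 ^ (∑ h, r h) *
      (C ^ (∑ h, r h) * Real.exp (R * m * ((∑ i, c i) / 3 + 3 * K * ε)))) *
      Real.exp ((K + 1) * ∑ h, (l h : ℝ) * a (h, 2)) := by
    have h6 : F = F * Real.exp (-((K + 1) * ∑ h, (l h : ℝ) * a (h, 2))) *
        Real.exp ((K + 1) * ∑ h, (l h : ℝ) * a (h, 2)) := by
      rw [mul_assoc, ← Real.exp_add, neg_add_cancel, Real.exp_zero, mul_one]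
    rw [h6]
    exact mul_le_mul_of_nonneg_right hb (Real.exp_pos _).le
  refine h5.trans ?_
  have h7 : ((JJ r).card * 3 ^ (∑ h, r h) *
      (C ^ (∑ h, r h) * Real.exp (R * m * ((∑ i, c i) / 3 + 3 * K * ε)))) ≤
      Real.exp (ε * R * m) * Real.exp (R * m * ((∑ i, c i) / 3 + 3 * K * ε)) := by
    rw [← mul_assoc]
    apply mul_le_mul_of_nonneg_right _ (Real.exp_pos _).le
    calc ((JJ r).card : ℝ) * 3 ^ (∑ h, r h) * C ^ (∑ h, r h)
        ≤ 4 ^ (∑ h, r h) * 3 ^ (∑ h, r h) * C ^ (∑ h, r h) := by gcongr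
      _ = (12 * C) ^ (∑ h, r h) := by
          rw [← mul_pow, ← mul_pow]; norm_num
      _ ≤ _ := hpow
  calc _ ≤ Real.exp (ε * R * m) * Real.exp (R * m * ((∑ i, c i) / 3 + 3 * K * ε)) *
        Real.exp ((K + 1) * ((1 + ε) * R * ε)) := by
        refine mul_le_mul h7 ?_ (Real.exp_pos _).le (by positivity)
        apply Real.exp_le_exp.2
        exact mul_le_mul_of_nonneg_left hwl (by linarith)
    _ = Real.exp (ε * R * m + R * m * ((∑ i, c i) / 3 + 3 * K * ε) +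
        (K + 1) * ((1 + ε) * R * ε)) := by rw [Real.exp_add, Real.exp_add]
    _ ≤ _ := by
        apply Real.exp_le_exp.2
        have hRe : 0 < R * ε := by positivity
        have e1 : ε * R * m ≤ K * (R * m * ε) := by
          have : 0 < R * m * ε := by positivity
          nlinarith
        have e2 : (K + 1) * ((1 + ε) * R * ε) ≤ 4 * (K * (R * ε)) := by
          have : (K + 1) * (1 + ε) ≤ 4 * K := by nlinarith
          nlinarith
        have e3 : K * (R * ε) ≤ K * (R * m * ε) := by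
          have : R * ε ≤ R * m * ε := by nlinarith
          exact mul_le_mul_of_nonneg_left this (by linarith)
        nlinarith

theorem vanish (h1 : CardJ) (h2 : RealBound) (h3 : DivBound) : Vanish := by
  intro M c α β η hM hη hα hβ hcη
  set K : ℝ := 1 + ∑ i, |c i| + ∑ i, α i + ∑ i, β i with hKdef
  have hc0 : 0 ≤ ∑ i, |c i| := Finset.sum_nonneg fun i _ => abs_nonneg _
  have hα0 : 0 ≤ ∑ i, α i := Finset.sum_nonneg fun i _ => hα i
  have hβ0 : 0 ≤ ∑ i, β i := Finset.sum_nonneg fun i _ => hβ i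
  have hK1 : 1 ≤ K := by linarith
  refine ⟨min (1 / 10) (η / (100 * K)), by positivity, ?_⟩
  intro ε hε hε0 C hC
  have hε' : ε ≤ 1 / 10 := hε0.trans (min_le_left _ _)
  have hεη : 100 * K * ε ≤ η := by
    have := hε0.trans (min_le_right _ _)
    rw [le_div_iff₀ (by positivity)] at this
    linarith
  obtain ⟨L₁, hL₁⟩ := exists_nat_ge (2 * Real.log (12 * C) / ε)
  obtain ⟨L₂, hL₂⟩ := exists_nat_ge (∑ i, ∑ k, |(M i k : ℝ)|)
  refine ⟨L₁ + L₂ + 1, ?_⟩
  intro m r l R hm hR1 H p d hp hd hdC hid A B x x' dir hx a ha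
  by_contra hf
  have hR : 0 < R := lt_of_lt_of_le (by positivity) hR1
  have hRε : 1 ≤ R * ε := by
    rw [div_le_iff₀ hε] at hR1
    exact hR1
  have hm' : (1 : ℝ) ≤ m := by exact_mod_cast hm
  have H' : ∀ h, 0 < r h ∧ R ≤ r h * l h ∧ (r h * l h : ℝ) ≤ (1 + ε) * R := fun h => (H h).2
  have hreal := m8_real h1 h2 (K := K) (c := c) hm hε hε' hR (by linarith) (L₁ + L₂ + 1) hC
    (hL₁.trans (by push_cast; linarith [Nat.cast_nonneg (α := ℝ) L₂])) (by omega) M hM (by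
      intro i k
      have e1 : |(M i k : ℝ)| ≤ ∑ k, |(M i k : ℝ)| :=
        Finset.single_le_sum (f := fun k => |(M i k : ℝ)|) (fun _ _ => abs_nonneg _)
          (Finset.mem_univ k)
      have e2 : ∑ k, |(M i k : ℝ)| ≤ ∑ i, ∑ k, |(M i k : ℝ)| :=
        Finset.single_le_sum (f := fun i => ∑ k, |(M i k : ℝ)|)
          (fun _ _ => Finset.sum_nonneg fun _ _ => abs_nonneg _) (Finset.mem_univ i)
      have e3 := Real.add_one_le_exp ((L₁ + L₂ + 1 : ℕ) : ℝ)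
      push_cast at e3 ⊢
      linarith [Nat.cast_nonneg (α := ℝ) L₁]) H p d hd hdC hid x x' dir
      (fun h i => ⟨(hx h i).2.2.2.2.2.2.1, (hx h i).2.2.2.2.2.2.2⟩) a ha
  obtain ⟨E₂, s₂, hd2, hE2, hs2⟩ := m8_div h3 (K := K) hε hε' hR hα (by linarith) H' p hp A x x' dir 2
    (fun h i => (hx h i).1) (fun h i => ⟨(hx h i).2.2.1, (hx h i).2.2.2.2.1⟩) a ha
  obtain ⟨E₃, s₃, hd3, hE3, hs3⟩ := m8_div h3 (K := K) hε hε' hR hβ (by linarith) H' p hp B x x' dir 3
    (fun h i => (hx h i).2.1) (fun h i => ⟨(hx h i).2.2.2.1, (hx h i).2.2.2.2.2.1⟩) a ha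
  set f : ℤ := coeff a (val r p (gv x x' dir)) with hfdef
  have hcop : IsCoprime ((2 : ℤ) ^ E₂) ((3 : ℤ) ^ E₃) :=
    IsCoprime.pow (by norm_num [Int.isCoprime_iff_gcd_eq_one])
  have hdiv : (2 : ℤ) ^ E₂ * 3 ^ E₃ ∣ 2 ^ s₂ * 3 ^ s₃ * f := by
    apply hcop.mul_dvd
    · have : (2 : ℤ) ^ s₂ * 3 ^ s₃ * f = 2 ^ s₂ * f * 3 ^ s₃ := by ring
      rw [this]
      exact hd2.mul_right _
    · have : (2 : ℤ) ^ s₂ * 3 ^ s₃ * f = 3 ^ s₃ * f * 2 ^ s₂ := by ring
      rw [this]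
      exact hd3.mul_right _
  have hne : (2 : ℤ) ^ s₂ * 3 ^ s₃ * f ≠ 0 := by positivity
  have hle := Int.le_of_dvd (abs_pos.2 hne) ((dvd_abs _ _).2 hdiv)
  have hle' : (2 : ℝ) ^ E₂ * 3 ^ E₃ ≤ 2 ^ s₂ * 3 ^ s₃ * |(f : ℝ)| := by
    have h5 : ((2 ^ E₂ * 3 ^ E₃ : ℤ) : ℝ) ≤ ((|2 ^ s₂ * 3 ^ s₃ * f| : ℤ) : ℝ) := by
      exact_mod_cast hle
    have h6 : (|(2 : ℝ) ^ s₂ * 3 ^ s₃ * (f : ℝ)|) = 2 ^ s₂ * 3 ^ s₃ * |(f : ℝ)| := by
      rw [abs_mul, abs_of_pos (by positivity : (0 : ℝ) < 2 ^ s₂ * 3 ^ s₃)]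
    rw [← h6]
    push_cast at h5
    exact h5
  have hle2 := hle'.trans (mul_le_mul_of_nonneg_left hreal
    (by positivity : (0 : ℝ) ≤ 2 ^ s₂ * 3 ^ s₃))
  have hlog := Real.log_le_log (by positivity) hle2
  rw [Real.log_mul (by positivity) (by positivity), Real.log_pow, Real.log_pow,
    Real.log_mul (by positivity) (Real.exp_pos _).ne', Real.log_mul (by positivity) (by positivity),
    Real.log_pow, Real.log_pow, Real.log_exp] at hlog
  have hl2 : 0 < Real.log 2 := Real.log_pos (by norm_num)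
  have hl3 : 0 < Real.log 3 := Real.log_pos (by norm_num)
  have hl6 : Real.log 2 + Real.log 3 ≤ 2 := by
    rw [← Real.log_mul (by norm_num) (by norm_num)]
    rw [Real.log_le_iff_le_exp (by norm_num)]
    have := Real.exp_one_gt_d9
    have h5 : Real.exp 2 = Real.exp 1 * Real.exp 1 := by rw [← Real.exp_add]; norm_num
    rw [h5]
    nlinarith
  have hsum : ∑ i, (α i * Real.log 2 + β i * Real.log 3) =
      (∑ i, α i) * Real.log 2 + (∑ i, β i) * Real.log 3 := by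
    rw [Finset.sum_add_distrib, Finset.sum_mul, Finset.sum_mul]
  rw [hsum] at hcη
  have g1 := mul_le_mul_of_nonneg_right hE2 hl2.le
  have g2 := mul_le_mul_of_nonneg_right hE3 hl3.le
  have g3 := mul_le_mul_of_nonneg_right hs2 hl2.le
  have g4 := mul_le_mul_of_nonneg_right hs3 hl3.le
  have hKR : 0 < K * (R * ε) := by positivity
  have hRm : 0 < R * m := by positivity
  have q1 : 2 * K * R * ε * (Real.log 2 + Real.log 3) ≤ 4 * (K * (R * ε)) := by nlinarith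
  have q2 : K * (R * ε) ≤ K * (R * m * ε) := by
    have : R * ε ≤ R * m * ε := by nlinarith
    exact mul_le_mul_of_nonneg_left this (by linarith)
  have q3 : 3 * K * ε * (R * m) * (Real.log 2 + Real.log 3) ≤ 6 * (K * (R * m * ε)) := by
    have : 0 < K * (R * m * ε) := by positivity
    nlinarith
  have q4 : R * m * (((∑ i, α i) * Real.log 2 + (∑ i, β i) * Real.log 3) / 3) ≥
      R * m * ((∑ i, c i + η) / 3) := mul_le_mul_of_nonneg_left (by linarith) hRm.le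
  have q5 : R * m * (η / 3) ≥ R * m * (33 * K * ε) := mul_le_mul_of_nonneg_left (by linarith) hRm.le
  have q6 : 1 ≤ K * (R * m * ε) := by
    have : 1 ≤ R * m * ε := by nlinarith
    nlinarith
  nlinarith

end MPcc0c1aSub
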