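import Pool.Agent.Lib.MP_cc0c1a_nt.Sub.SpecM

/-!
# MP_cc0c1a_nt / Sub: M9, choice of coordinates
-/

namespace MPcc0c1aSub

theorem M9_core (u : Fin 3 → ℤ) (i₁ i₂ i₃ : Fin 3) (h12 : i₁ ≠ i₂) (h23 : i₂ ≠ i₃)
    (h13 : i₁ ≠ i₃) (h0 : u i₁ ≠ 0) (hmax : ∀ k, |u k| ≤ |u i₁|)
    (hg : ((Int.gcd (u i₁) (u i₂) : ℤ)) ^ 2 ≤ |u i₁|) :
    ∃ (i₁ i₂ i₃ : Fin 3) (p q : ℤ), i₁ ≠ i₂ ∧ i₂ ≠ i₃ ∧ i₁ ≠ i₃ ∧ u i₁ ≠ 0 ∧ 0 < q ∧
      IsCoprime p q ∧ (p : ℚ) / q = -(u i₂ : ℚ) / u i₁ ∧ ∀ k, |u k| ≤ q ^ 2 := by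
  have hgpos : 0 < Int.gcd (u i₁) (u i₂) := Int.gcd_pos_of_ne_zero_left _ h0
  obtain ⟨a, b, hab, ha, hb⟩ := Int.exists_gcd_one hgpos
  set g := Int.gcd (u i₁) (u i₂) with hgdef
  have hgZ : (0 : ℤ) < (g : ℤ) := by exact_mod_cast hgpos
  have ha0 : a ≠ 0 := by
    rintro rfl
    rw [zero_mul] at ha
    exact h0 ha
  have haa : 0 < |a| := abs_pos.2 ha0
  have hcop : IsCoprime a b := Int.isCoprime_iff_gcd_eq_one.2 hab
  have hsq : |u i₁| = |a| * g := by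
    rw [ha, abs_mul, abs_of_pos hgZ]
  have hga : (g : ℤ) ≤ |a| := by
    rw [hsq] at hg
    by_contra hlt
    have hlt' : |a| < (g : ℤ) := not_le.1 hlt
    nlinarith
  have hk : ∀ k, |u k| ≤ |a| ^ 2 := by
    intro k
    calc |u k| ≤ |u i₁| := hmax k
      _ = |a| * g := hsq
      _ ≤ |a| * |a| := mul_le_mul_of_nonneg_left hga haa.le
      _ = |a| ^ 2 := by ring
  have haQ : (a : ℚ) ≠ 0 := by exact_mod_cast ha0
  have hgQ : (g : ℚ) ≠ 0 := by exact_mod_cast hgpos.ne'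
  have h1 : (u i₁ : ℚ) = a * g := by
    rw [ha]
    push_cast
    rfl
  have h2 : (u i₂ : ℚ) = b * g := by
    rw [hb]
    push_cast
    rfl
  rcases lt_or_gt_of_ne ha0 with hneg | hpos
  · refine ⟨i₁, i₂, i₃, b, |a|, h12, h23, h13, h0, haa, ?_, ?_, hk⟩
    · rw [abs_of_neg hneg]
      exact hcop.symm.neg_right
    · rw [abs_of_neg hneg, h1, h2]
      push_cast
      field_simp
  · refine ⟨i₁, i₂, i₃, -b, |a|, h12, h23, h13, h0, haa, ?_, ?_, hk⟩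
    · rw [abs_of_pos hpos]
      exact hcop.symm.neg_left
    · rw [abs_of_pos hpos, h1, h2]
      push_cast
      field_simp

theorem gcdChoice : GcdChoice := by
  intro u hu
  obtain ⟨i₁, hmax⟩ := Finite.exists_max (fun i => |u i|)
  have h0 : u i₁ ≠ 0 := by
    intro h
    have hz : ∀ k, u k = 0 := by
      intro k
      have := hmax k
      simp only [h, abs_zero] at this
      exact abs_nonpos_iff.1 this
    have h2 := hu 2 (fun i => by rw [hz i]; exact dvd_zero 2)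
    rw [Int.isUnit_iff] at h2
    omega
  obtain ⟨j, k, hj, hk, hjk, hall⟩ : ∃ j k : Fin 3, i₁ ≠ j ∧ i₁ ≠ k ∧ j ≠ k ∧
      ∀ i, i = i₁ ∨ i = j ∨ i = k := by
    fin_cases i₁
    · exact ⟨1, 2, by decide, by decide, by decide, by decide⟩
    · exact ⟨0, 2, by decide, by decide, by decide, by decide⟩
    · exact ⟨0, 1, by decide, by decide, by decide, by decide⟩
  set gj : ℤ := (Int.gcd (u i₁) (u j) : ℤ) with hgj
  set gk : ℤ := (Int.gcd (u i₁) (u k) : ℤ) with hgk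
  have hj1 : gj ∣ u i₁ := Int.gcd_dvd_left _ _
  have hj2 : gj ∣ u j := Int.gcd_dvd_right _ _
  have hk1 : gk ∣ u i₁ := Int.gcd_dvd_left _ _
  have hk2 : gk ∣ u k := Int.gcd_dvd_right _ _
  have hjpos : 0 < gj := by
    rw [hgj]
    exact Int.natCast_pos.2 (Int.gcd_pos_of_ne_zero_left (u j) h0)
  have hkpos : 0 < gk := by
    rw [hgk]
    exact Int.natCast_pos.2 (Int.gcd_pos_of_ne_zero_left (u k) h0)
  have hcop : IsCoprime gj gk := by
    rw [Int.isCoprime_iff_gcd_eq_one]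
    have h1 := hu (Int.gcd gj gk : ℤ) (by
      intro i
      rcases hall i with rfl | rfl | rfl
      · exact (Int.gcd_dvd_left _ _).trans hj1
      · exact (Int.gcd_dvd_left _ _).trans hj2
      · exact (Int.gcd_dvd_right _ _).trans hk2)
    rw [Int.isUnit_iff] at h1
    omega
  have hprod : gj * gk ≤ |u i₁| := by
    have h1 : gj * gk ∣ |u i₁| := (dvd_abs _ _).2 (hcop.mul_dvd hj1 hk1)
    exact Int.le_of_dvd (abs_pos.2 h0) h1
  rcases le_total gj gk with h | h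
  · apply M9_core u i₁ j k hj hjk hk h0 hmax
    calc gj ^ 2 = gj * gj := by ring
      _ ≤ gj * gk := mul_le_mul_of_nonneg_left h hjpos.le
      _ ≤ |u i₁| := hprod
  · apply M9_core u i₁ k j hk hjk.symm hj h0 hmax
    calc gk ^ 2 = gk * gk := by ring
      _ ≤ gj * gk := mul_le_mul_of_nonneg_right h hkpos.le
      _ ≤ |u i₁| := hprod

end MPcc0c1aSub
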