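import Pool.Agent.Lib.MP_cc0c1a_nt.Sub.SpecR

/-!
# R1: coefficients of the Hasse derivative
-/

namespace MPcc0c1aSub

open MvPolynomial

namespace R1

variable {m : ℕ} {R : Type} [CommRing R]

theorem coeff_hasse (k : Fin m →₀ ℕ) (P : MvPolynomial (Fin m) R) (b : Fin m →₀ ℕ) :
    coeff b (hasse k P) = (∏ i, ((b i + k i).choose (k i) : R)) * coeff (b + k) P := by
  classical
  unfold hasse
  rw [coeff_sum]
  simp only [coeff_monomial]
  rw [Finset.sum_eq_single (b + k)]
  · rw [if_pos (add_tsub_cancel_right b k), mul_comm]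
    rfl
  · intro a _ ha
    by_cases h : a - k = b
    · rw [if_pos h]
      have hk : ¬ k ≤ a := by
        intro hk
        apply ha
        rw [← h]
        exact (tsub_add_cancel_of_le hk).symm
      have hex : ∃ i, a i < k i := by
        by_contra hcon
        push Not at hcon
        exact hk fun i => hcon i
      obtain ⟨i, hi⟩ := hex
      have h0 : (∏ i, ((a i).choose (k i) : R)) = 0 :=
        Finset.prod_eq_zero (Finset.mem_univ i) (by rw [Nat.choose_eq_zero_of_lt hi, Nat.cast_zero])
      rw [h0, mul_zero]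
    · rw [if_neg h]
  · intro h
    rw [if_pos (add_tsub_cancel_right b k), notMem_support_iff.mp h, zero_mul]

end R1

open R1 in
theorem hasseCoeff : HasseCoeff := by
  intro m R _ k P Q
  refine ⟨coeff_hasse k P, ?_, ?_, ?_, ?_⟩
  · ext b
    rw [coeff_add, coeff_hasse, coeff_hasse, coeff_hasse, coeff_add]
    ring
  · intro c
    ext b
    rw [coeff_C_mul, coeff_hasse, coeff_hasse, coeff_C_mul]
    ring
  · intro S _ f
    ext b
    rw [coeff_map, coeff_hasse, coeff_hasse, coeff_map, map_mul, map_prod]
    simp only [map_natCast]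
  · intro h
    rw [degreeOf_le_iff]
    intro b hb
    have h1 := mem_support_iff.mp hb
    rw [coeff_hasse] at h1
    have h2 : coeff (b + k) P ≠ 0 := right_ne_zero_of_mul h1
    have h3 := (degreeOf_le_iff (n := h) (f := P) (d := P.degreeOf h)).mp le_rfl (b + k)
      (mem_support_iff.mpr h2)
    have h4 : (b + k) h = b h + k h := rfl
    omega

end MPcc0c1aSub
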