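import Pool.Agent.Lib.MP_cc0c1a_nt.Sub.SpecR

/-!
# MP_cc0c1a_nt / Sub: R10, rank factorisation
-/

namespace MPcc0c1aSub

open MvPolynomial

theorem finSuccEquiv_iota1 {m : ℕ} (φ : MvPolynomial (Fin m) ℚ) :
    finSuccEquiv ℚ m (ι₁ φ) = Polynomial.C φ := by
  have h : ((finSuccEquiv ℚ m : MvPolynomial (Fin (m + 1)) ℚ →ₐ[ℚ] _).comp
      (rename Fin.succ)) = (Algebra.ofId (MvPolynomial (Fin m) ℚ)
        (Polynomial (MvPolynomial (Fin m) ℚ))).restrictScalars ℚ := by
    apply MvPolynomial.algHom_ext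
    intro i
    simp [Algebra.ofId_apply, finSuccEquiv_X_succ]
  have h2 := DFunLike.congr_fun h φ
  simpa [ι₁, Algebra.ofId_apply] using h2

theorem finSuccEquiv_iota0 {m : ℕ} (ψ : Polynomial ℚ) :
    finSuccEquiv ℚ m (ι₀ ψ) = ψ.map (algebraMap ℚ (MvPolynomial (Fin m) ℚ)) := by
  unfold ι₀
  rw [← AlgEquiv.coe_algHom, ← Polynomial.aeval_algHom_apply]
  simp only [AlgEquiv.coe_algHom, finSuccEquiv_X_zero]
  ext1 n
  induction ψ using Polynomial.induction_on' with
  | add p q hp hq => simp only [map_add, Polynomial.map_add, Polynomial.coeff_add, hp, hq]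
  | monomial k a =>
    rw [Polynomial.aeval_monomial, Polynomial.map_monomial, ← Polynomial.C_mul_X_pow_eq_monomial]
    rfl

theorem rankFactor : RankFactor := by
  classical
  intro m P hP
  set F := finSuccEquiv ℚ m P with hF
  have hN : F.natDegree = P.degreeOf 0 := natDegree_finSuccEquiv P
  have hF0 : F ≠ 0 := by
    rw [hF]
    exact (map_ne_zero_iff _ (finSuccEquiv ℚ m).injective).2 hP
  set N := P.degreeOf 0 with hNdef
  let g : Fin (N + 1) → MvPolynomial (Fin m) ℚ := fun b => F.coeff b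
  let W : Submodule ℚ (MvPolynomial (Fin m) ℚ) := Submodule.span ℚ (Set.range g)
  haveI : FiniteDimensional ℚ W := FiniteDimensional.span_of_finite ℚ (Set.finite_range g)
  have hg : ∀ b, g b ∈ W := fun b => Submodule.subset_span (Set.mem_range_self b)
  let B := Module.finBasis ℚ W
  set k := Module.finrank ℚ W with hk
  let c : Fin (N + 1) → Fin k → ℚ := fun b j => B.repr ⟨g b, hg b⟩ j
  let φ : Fin k → MvPolynomial (Fin m) ℚ := fun j => (B j : MvPolynomial (Fin m) ℚ)
  let ψ : Fin k → Polynomial ℚ := fun j => ∑ b : Fin (N + 1), Polynomial.monomial (b : ℕ) (c b j)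
  have hψc : ∀ j (b : Fin (N + 1)), (ψ j).coeff (b : ℕ) = c b j := by
    intro j b
    simp only [ψ, Polynomial.finset_sum_coeff, Polynomial.coeff_monomial]
    rw [Finset.sum_eq_single b]
    · simp
    · intro b' _ hb'
      rw [if_neg]
      exact fun h => hb' (Fin.ext h)
    · intro h
      exact absurd (Finset.mem_univ _) h
  have hψ0 : ∀ j (n : ℕ), N < n → (ψ j).coeff n = 0 := by
    intro j n hn
    simp only [ψ, Polynomial.finset_sum_coeff, Polynomial.coeff_monomial]
    apply Finset.sum_eq_zero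
    intro b _
    rw [if_neg]
    have := b.2
    omega
  refine ⟨k, φ, ψ, ?_, ?_, ?_, ?_, ?_⟩
  · rw [hk, Submodule.one_le_finrank_iff]
    intro hW
    have h1 : g ⟨N, Nat.lt_succ_self N⟩ ∈ W := hg _
    rw [hW, Submodule.mem_bot] at h1
    have h2 : F.leadingCoeff = 0 := by
      rw [Polynomial.leadingCoeff, hN]
      exact h1
    exact hF0 (Polynomial.leadingCoeff_eq_zero.1 h2)
  · have h1 := finrank_range_le_card (R := ℚ) g
    rw [Fintype.card_fin] at h1
    exact h1
  · have h1 := B.linearIndependent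
    exact h1.map' W.subtype (Submodule.ker_subtype W)
  · rw [Fintype.linearIndependent_iff]
    intro e he
    let L : W →ₗ[ℚ] ℚ := ∑ j, e j • B.coord j
    have hL : ∀ w, L w = ∑ j, e j * B.repr w j := by
      intro w
      simp [L]
    have hLg : ∀ b, L ⟨g b, hg b⟩ = 0 := by
      intro b
      rw [hL]
      have h1 : (∑ j, e j • ψ j).coeff (b : ℕ) = 0 := by rw [he, Polynomial.coeff_zero]
      rw [Polynomial.finset_sum_coeff] at h1
      simp only [Polynomial.coeff_smul, hψc, smul_eq_mul] at h1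
      exact h1
    have hL0 : ∀ x (hx : x ∈ W), L ⟨x, hx⟩ = 0 := by
      intro x hx
      induction hx using Submodule.span_induction with
      | mem x h =>
        obtain ⟨b, rfl⟩ := h
        exact hLg b
      | zero => exact map_zero L
      | add x y hx hy h1 h2 =>
        have : (⟨x + y, W.add_mem hx hy⟩ : W) = ⟨x, hx⟩ + ⟨y, hy⟩ := rfl
        rw [this, map_add, h1, h2, add_zero]
      | smul a x hx h =>
        have : (⟨a • x, W.smul_mem a hx⟩ : W) = a • ⟨x, hx⟩ := rfl
        rw [this, map_smul, h, smul_zero]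
    intro i
    have h1 := hL0 (B i) (B i).2
    rw [hL] at h1
    rw [← h1]
    rw [Finset.sum_eq_single i]
    · simp
    · intro j _ hj
      simp [Finsupp.single_apply, hj.symm]
    · intro h
      exact absurd (Finset.mem_univ _) h
  · apply (finSuccEquiv ℚ m).injective
    rw [map_sum]
    rw [← hF]
    ext1 n
    rw [Polynomial.finset_sum_coeff]
    have h1 : ∀ j, (finSuccEquiv ℚ m (ι₀ (ψ j) * ι₁ (φ j))).coeff n = (ψ j).coeff n • φ j := by
      intro j
      rw [map_mul, finSuccEquiv_iota0, finSuccEquiv_iota1, Polynomial.coeff_mul_C,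
        Polynomial.coeff_map, Algebra.smul_def]
    rw [Finset.sum_congr rfl (fun j _ => h1 j)]
    rcases Nat.lt_or_ge N n with hn | hn
    · rw [Polynomial.coeff_eq_zero_of_natDegree_lt (by rw [hN]; exact hn)]
      symm
      apply Finset.sum_eq_zero
      intro j _
      rw [hψ0 j n hn, zero_smul]
    · have h2 : ∀ j, (ψ j).coeff n = c ⟨n, Nat.lt_succ_of_le hn⟩ j :=
        fun j => hψc j ⟨n, Nat.lt_succ_of_le hn⟩
      simp only [h2]
      have h3 := B.sum_repr ⟨g ⟨n, Nat.lt_succ_of_le hn⟩, hg _⟩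
      have h4 := congrArg (fun w : W => (w : MvPolynomial (Fin m) ℚ)) h3
      simp only [Submodule.coe_sum, Submodule.coe_smul] at h4
      exact h4.symm

end MPcc0c1aSub
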