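import Pool.Agent.Lib.MP_cc0c1a_nt.Sub.SpecR

/-!
# R11: separated variables
-/

namespace MPcc0c1aSub

open MvPolynomial

namespace R11

variable {m : ℕ}

theorem finSuccEquiv_const (a : ℚ) :
    finSuccEquiv ℚ m (C a) = Polynomial.C (C a) := by
  have h := RingHom.congr_fun (finSuccEquiv_comp_C_eq_C (R := ℚ) m) a
  have h2 : (finSuccEquiv ℚ m).symm (Polynomial.C (C a)) = C a := by
    simpa using h
  rw [← h2, AlgEquiv.apply_symm_apply]

theorem finSuccEquiv_iota1 (φ : MvPolynomial (Fin m) ℚ) :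
    finSuccEquiv ℚ m (ι₁ φ) = Polynomial.C φ := by
  unfold ι₁
  induction φ using MvPolynomial.induction_on with
  | C a =>
    rw [rename_C, finSuccEquiv_const]
  | add p q hp hq => rw [map_add, map_add, hp, hq, Polynomial.C_add]
  | mul_X p i hp =>
    rw [map_mul, map_mul, hp, rename_X, finSuccEquiv_X_succ, Polynomial.C_mul]

theorem finSuccEquiv_iota0 (ψ : Polynomial ℚ) :
    finSuccEquiv ℚ m (ι₀ ψ) = ψ.map C := by
  unfold ι₀
  induction ψ using Polynomial.induction_on' with
  | add p q hp hq => rw [map_add, map_add, hp, hq, Polynomial.map_add]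
  | monomial n a =>
    rw [Polynomial.aeval_monomial, map_mul, map_pow, finSuccEquiv_X_zero, Polynomial.map_monomial]
    rw [← Polynomial.C_mul_X_pow_eq_monomial]
    rw [MvPolynomial.algebraMap_eq, finSuccEquiv_const]

theorem coeff_sep (ψ : Polynomial ℚ) (φ : MvPolynomial (Fin m) ℚ) (b : ℕ) (s : Fin m →₀ ℕ) :
    coeff (Finsupp.cons b s) (ι₀ ψ * ι₁ φ) = ψ.coeff b * coeff s φ := by
  rw [← finSuccEquiv_coeff_coeff, map_mul, finSuccEquiv_iota0, finSuccEquiv_iota1,
    Polynomial.coeff_mul_C, Polynomial.coeff_map, coeff_C_mul]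

end R11

open R11 in
theorem separated (h1 : HasseCoeff) : Separated := by
  intro m ψ φ
  refine ⟨coeff_sep ψ φ, ?_, ?_⟩
  · intro j n
    ext a
    rw [← Finsupp.cons_tail a]
    generalize a 0 = b
    generalize a.tail = s
    rw [(h1 (m + 1) ℚ _ _ 0).1, coeff_sep, Polynomial.hasseDeriv_coeff, (h1 m ℚ n φ 0).1]
    have hadd : Finsupp.cons b s + Finsupp.cons j n = Finsupp.cons (b + j) (s + n) := by
      ext i
      refine Fin.cases ?_ (fun i => ?_) i
      · simp
      · simp
    rw [hadd, coeff_sep, Fin.prod_univ_succ]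
    simp only [Finsupp.cons_zero, Finsupp.cons_succ]
    ring
  · intro τ
    rw [map_mul]
    congr 1
    · have h : ((sh τ).comp (Polynomial.aeval (X 0 : MvPolynomial (Fin (m + 1)) ℚ)))
          = (Polynomial.aeval (X 0 : MvPolynomial (Fin (m + 1)) ℚ)).comp
            (Polynomial.taylorAlgHom (τ 0)) := by
        apply Polynomial.algHom_ext
        simp [sh, MvPolynomial.algebraMap_eq, add_comm]
      exact AlgHom.congr_fun h ψ
    · have h : ((sh τ).comp (rename Fin.succ : MvPolynomial (Fin m) ℚ →ₐ[ℚ] _))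
          = (rename Fin.succ : MvPolynomial (Fin m) ℚ →ₐ[ℚ] _).comp
            (sh (fun h => τ h.succ)) := by
        apply MvPolynomial.algHom_ext
        intro i
        simp [sh]
      exact AlgHom.congr_fun h φ

end MPcc0c1aSub
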