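import Pool.Agent.Lib.MP_cc0c1a_nt.Sub.SpecR

/-!
# MP_cc0c1a_nt / Sub: R12, factorisation of the determinant
-/

namespace MPcc0c1aSub

open MvPolynomial

namespace R12

lemma hasse_sum (h1 : HasseCoeff) {m : ℕ} (k : Fin m →₀ ℕ) {ι : Type} (s : Finset ι)
    (f : ι → MvPolynomial (Fin m) ℚ) : hasse k (∑ i ∈ s, f i) = ∑ i ∈ s, hasse k (f i) := by
  have hadd : ∀ P Q : MvPolynomial (Fin m) ℚ, hasse k (P + Q) = hasse k P + hasse k Q :=
    fun P Q => (h1 m ℚ k P Q).2.1
  have h0 : hasse k (0 : MvPolynomial (Fin m) ℚ) = 0 := by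
    have := hadd 0 0
    rw [add_zero] at this
    exact left_eq_add.1 this
  let F : MvPolynomial (Fin m) ℚ →+ MvPolynomial (Fin m) ℚ :=
    { toFun := hasse k, map_zero' := h0, map_add' := hadd }
  exact map_sum F f s

end R12

theorem detFactor (h1 : HasseCoeff) (h2 : Separated) : DetFactor := by
  intro m k φ ψ n
  have hA : (Matrix.of fun i s : Fin k => (ι₁ (hasse (n i) (φ s)) : MvPolynomial (Fin (m + 1)) ℚ)).det
      = ι₁ (Matrix.of fun i j : Fin k => hasse (n i) (φ j)).det := by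
    unfold ι₁
    rw [AlgHom.map_det]
    rfl
  have hB : (Matrix.of fun j s : Fin k =>
      (ι₀ (Polynomial.hasseDeriv (j : ℕ) (ψ s)) : MvPolynomial (Fin (m + 1)) ℚ)).det
      = ι₀ (Matrix.of fun i j : Fin k => Polynomial.hasseDeriv (i : ℕ) (ψ j)).det := by
    unfold ι₀
    rw [AlgHom.map_det]
    rfl
  have hM : (Matrix.of fun i j : Fin k =>
      hasse (Finsupp.cons (j : ℕ) (n i)) (∑ s, ι₀ (ψ s) * ι₁ (φ s)))
      = (Matrix.of fun i s : Fin k => (ι₁ (hasse (n i) (φ s)) : MvPolynomial (Fin (m + 1)) ℚ)) *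
        (Matrix.of fun j s : Fin k =>
          (ι₀ (Polynomial.hasseDeriv (j : ℕ) (ψ s)) : MvPolynomial (Fin (m + 1)) ℚ)).transpose := by
    ext1 i j
    rw [Matrix.mul_apply, Matrix.of_apply, R12.hasse_sum h1]
    apply Finset.sum_congr rfl
    intro s _
    rw [(h2 m (ψ s) (φ s)).2.1, Matrix.transpose_apply, Matrix.of_apply, Matrix.of_apply, mul_comm]
  rw [hM, Matrix.det_mul, Matrix.det_transpose, hA, hB, mul_comm]

end MPcc0c1aSub
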