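import Pool.Agent.Lib.MP_cc0c1a_nt.Sub.SpecM

/-!
# MP_cc0c1a_nt / Sub: R13, height and degree of the determinant
-/

namespace MPcc0c1aSub

open MvPolynomial

private lemma r13_hasse (h1 : HasseCoeff) {m : ℕ} (r : Fin m → ℕ) (P : MvPolynomial (Fin m) ℤ)
    (hP : ∀ h, P.degreeOf h ≤ r h) (κ : Fin m →₀ ℕ) :
    wl1 (fun _ => 1) (hasse κ P) ≤ 2 ^ (∑ h, r h) * wl1 (fun _ => 1) P := by
  classical
  unfold wl1
  simp only [one_pow, Finset.prod_const_one, mul_one]
  have hc : ∀ b, coeff b (hasse κ P) = (∏ i, ((b i + κ i).choose (κ i) : ℤ)) * coeff (b + κ) P :=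
    (h1 m ℤ κ P P).1
  have hsub : (hasse κ P).support.image (fun b => b + κ) ⊆ P.support := by
    intro a ha
    rw [Finset.mem_image] at ha
    obtain ⟨b, hb, rfl⟩ := ha
    rw [mem_support_iff] at hb ⊢
    intro h0
    apply hb
    rw [hc b, h0, mul_zero]
  calc ∑ b ∈ (hasse κ P).support, |((coeff b (hasse κ P) : ℤ) : ℝ)|
      ≤ ∑ b ∈ (hasse κ P).support, 2 ^ (∑ h, r h) * |((coeff (b + κ) P : ℤ) : ℝ)| := by
        apply Finset.sum_le_sum
        intro b hb
        have hb' : b + κ ∈ P.support := hsub (Finset.mem_image_of_mem _ hb)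
        rw [hc b]
        push_cast
        rw [abs_mul]
        apply mul_le_mul_of_nonneg_right _ (abs_nonneg _)
        rw [Finset.abs_prod, ← Finset.prod_pow_eq_pow_sum]
        apply Finset.prod_le_prod (fun i _ => abs_nonneg _)
        intro i _
        have hle : b i + κ i ≤ r i := by
          have := monomial_le_degreeOf i hb'
          simp only [Finsupp.coe_add, Pi.add_apply] at this
          exact this.trans (hP i)
        rw [abs_of_nonneg (by positivity)]
        calc (((b i + κ i).choose (κ i) : ℕ) : ℝ) ≤ ((2 ^ (b i + κ i) : ℕ) : ℝ) := by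
              exact_mod_cast Nat.choose_le_two_pow _ _
          _ = 2 ^ (b i + κ i) := by push_cast; ring
          _ ≤ 2 ^ r i := pow_le_pow_right₀ (by norm_num) hle
    _ = 2 ^ (∑ h, r h) * ∑ b ∈ (hasse κ P).support, |((coeff (b + κ) P : ℤ) : ℝ)| := by
        rw [Finset.mul_sum]
    _ = 2 ^ (∑ h, r h) * ∑ a ∈ (hasse κ P).support.image (fun b => b + κ),
          |((coeff a P : ℤ) : ℝ)| := by
        rw [Finset.sum_image]
        intro x _ y _ hxy
        exact add_right_cancel hxy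
    _ ≤ 2 ^ (∑ h, r h) * ∑ a ∈ P.support, |((coeff a P : ℤ) : ℝ)| := by
        apply mul_le_mul_of_nonneg_left _ (by positivity)
        exact Finset.sum_le_sum_of_subset_of_nonneg hsub (fun _ _ _ => abs_nonneg _)

private lemma r13_base {m : ℕ} (r : Fin m → ℕ) (P : MvPolynomial (Fin m) ℤ)
    (hP : ∀ h, P.degreeOf h ≤ r h) (B : ℝ) (hB : 0 ≤ B)
    (hco : ∀ a, |((coeff a P : ℤ) : ℝ)| ≤ B) :
    wl1 (fun _ => 1) P ≤ 2 ^ (∑ h, r h) * B := by
  classical
  unfold wl1
  simp only [one_pow, Finset.prod_const_one, mul_one]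
  have hcard : P.support.card ≤ 2 ^ (∑ h, r h) := by
    calc P.support.card ≤ (Fintype.piFinset fun h => Finset.range (r h + 1)).card := by
          apply Finset.card_le_card_of_injOn (fun a : Fin m →₀ ℕ => (⇑a : Fin m → ℕ))
          · intro a ha
            simp only [Finset.mem_coe] at ha
            simp only [Finset.mem_coe, Fintype.mem_piFinset, Finset.mem_range]
            intro h
            exact Nat.lt_succ_of_le ((monomial_le_degreeOf h ha).trans (hP h))
          · intro a _ b _ hab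
            exact DFunLike.coe_injective hab
      _ = ∏ h, (r h + 1) := by simp
      _ ≤ ∏ h, 2 ^ r h := by
          apply Finset.prod_le_prod' (fun h _ => ?_)
          exact Nat.lt_two_pow_self
      _ = 2 ^ (∑ h, r h) := Finset.prod_pow_eq_pow_sum _ _ _
  calc ∑ a ∈ P.support, |((coeff a P : ℤ) : ℝ)| ≤ ∑ a ∈ P.support, B :=
        Finset.sum_le_sum fun a _ => hco a
    _ = P.support.card * B := by simp
    _ ≤ 2 ^ (∑ h, r h) * B := by
        apply mul_le_mul_of_nonneg_right _ hB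
        exact_mod_cast hcard

private lemma r13_sum (h2 : NormCalc) {m : ℕ} {ι : Type} (s : Finset ι)
    (f : ι → MvPolynomial (Fin m) ℤ) :
    wl1 (fun _ => 1) (∑ i ∈ s, f i) ≤ ∑ i ∈ s, wl1 (fun _ => 1) (f i) := by
  classical
  obtain ⟨_, hadd, _, hC, _, _⟩ := h2 (Fin m) (fun _ => 1) (fun _ => zero_le_one)
  induction s using Finset.induction_on with
  | empty =>
    have := hC 0
    simp only [map_zero, Int.cast_zero, abs_zero] at this
    simp [this]
  | insert a s ha ih =>
    rw [Finset.sum_insert ha, Finset.sum_insert ha]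
    exact (hadd _ _).trans (by linarith)

private lemma r13_prod (h2 : NormCalc) {m : ℕ} {ι : Type} (s : Finset ι)
    (f : ι → MvPolynomial (Fin m) ℤ) :
    wl1 (fun _ => 1) (∏ i ∈ s, f i) ≤ ∏ i ∈ s, wl1 (fun _ => 1) (f i) := by
  classical
  obtain ⟨h0, _, hmul, hC, _, _⟩ := h2 (Fin m) (fun _ => 1) (fun _ => zero_le_one)
  induction s using Finset.induction_on with
  | empty =>
    have := hC 1
    simp only [map_one, Int.cast_one, abs_one] at this
    simp [this]
  | insert a s ha ih =>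
    rw [Finset.prod_insert ha, Finset.prod_insert ha]
    exact (hmul _ _).trans (mul_le_mul_of_nonneg_left ih (h0 _))

private lemma r13_det (h2 : NormCalc) {m k : ℕ}
    (A : Matrix (Fin k) (Fin k) (MvPolynomial (Fin m) ℤ)) (E : ℝ)
    (hA : ∀ i j, wl1 (fun _ => 1) (A i j) ≤ E) :
    wl1 (fun _ => 1) A.det ≤ (k.factorial : ℝ) * E ^ k := by
  classical
  obtain ⟨h0, _, hmul, hC, _, _⟩ := h2 (Fin m) (fun _ => 1) (fun _ => zero_le_one)
  rw [Matrix.det_apply']
  calc wl1 (fun _ => 1) (∑ σ : Equiv.Perm (Fin k),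
          (((Equiv.Perm.sign σ : ℤˣ) : ℤ) : MvPolynomial (Fin m) ℤ) * ∏ i, A (σ i) i)
      ≤ ∑ σ : Equiv.Perm (Fin k), wl1 (fun _ => 1)
          ((((Equiv.Perm.sign σ : ℤˣ) : ℤ) : MvPolynomial (Fin m) ℤ) * ∏ i, A (σ i) i) :=
        r13_sum h2 _ _
    _ ≤ ∑ σ : Equiv.Perm (Fin k), E ^ k := by
        apply Finset.sum_le_sum
        intro σ _
        have hs : wl1 (fun _ => 1) ((((Equiv.Perm.sign σ : ℤˣ) : ℤ) : MvPolynomial (Fin m) ℤ)) = 1 := by
          have := hC ((Equiv.Perm.sign σ : ℤˣ) : ℤ)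
          rw [← map_intCast (C : ℤ →+* MvPolynomial (Fin m) ℤ)]
          rw [Int.cast_id, this]
          rcases Int.units_eq_one_or (Equiv.Perm.sign σ) with h | h <;> simp [h]
        refine (hmul _ _).trans ?_
        rw [hs, one_mul]
        refine (r13_prod h2 _ _).trans ?_
        calc ∏ i, wl1 (fun _ => 1) (A (σ i) i) ≤ ∏ _i : Fin k, E :=
              Finset.prod_le_prod (fun i _ => h0 _) (fun i _ => hA _ _)
          _ = E ^ k := by simp
    _ = (k.factorial : ℝ) * E ^ k := by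
        simp [Fintype.card_perm]

private lemma r13_deg {m k : ℕ}
    (A : Matrix (Fin k) (Fin k) (MvPolynomial (Fin m) ℤ)) (h : Fin m) (d : ℕ)
    (hA : ∀ i j, (A i j).degreeOf h ≤ d) : A.det.degreeOf h ≤ k * d := by
  classical
  rw [Matrix.det_apply']
  refine (degreeOf_sum_le _ _ _).trans ?_
  apply Finset.sup_le
  intro σ _
  refine (degreeOf_mul_le _ _ _).trans ?_
  have hs : ((((Equiv.Perm.sign σ : ℤˣ) : ℤ) : MvPolynomial (Fin m) ℤ)).degreeOf h = 0 := by
    rw [← map_intCast (C : ℤ →+* MvPolynomial (Fin m) ℤ)]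
    exact degreeOf_C _ _
  rw [hs, zero_add]
  refine (degreeOf_prod_le _ _ _).trans ?_
  calc ∑ i : Fin k, (A (σ i) i).degreeOf h ≤ ∑ _i : Fin k, d := Finset.sum_le_sum fun i _ => hA _ _
    _ = k * d := by simp

/-- **R13, height and degree of the determinant.** -/
theorem detHeight (h1 : HasseCoeff) (h2 : NormCalc) : DetHeight := by
  classical
  intro m k r B P n hB hk hdeg hco
  refine ⟨?_, ?_⟩
  · intro a
    obtain ⟨h0, _, _, _, _, hlast⟩ := h2 (Fin (m + 1)) (fun _ => 1) (fun _ => zero_le_one)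
    set S : ℕ := ∑ h, r h with hS
    have hE : ∀ i j : Fin k, wl1 (fun _ => 1)
        ((Matrix.of fun i j : Fin k => hasse (Finsupp.cons (j : ℕ) (n i)) P) i j)
          ≤ 4 ^ S * B := by
      intro i j
      rw [Matrix.of_apply]
      refine (r13_hasse h1 r P hdeg _).trans ?_
      calc (2 : ℝ) ^ (∑ h, r h) * wl1 (fun _ => 1) P ≤ 2 ^ (∑ h, r h) * (2 ^ (∑ h, r h) * B) :=
            mul_le_mul_of_nonneg_left (r13_base r P hdeg B hB hco) (by positivity)
        _ = 4 ^ S * B := by
            rw [← mul_assoc, ← mul_pow, hS]; norm_num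
    have hdet := r13_det h2 _ _ hE
    have hkS : (k : ℝ) ≤ 2 ^ S := by
      have h3 : r 0 ≤ S := by
        rw [hS]; exact Finset.single_le_sum (fun i _ => Nat.zero_le (r i)) (Finset.mem_univ 0)
      have h4 : k ≤ 2 ^ S := by
        calc k ≤ r 0 + 1 := hk
          _ ≤ 2 ^ r 0 := Nat.lt_two_pow_self
          _ ≤ 2 ^ S := Nat.pow_le_pow_right (by norm_num) h3
      exact_mod_cast h4
    have hfac : (k.factorial : ℝ) ≤ (2 ^ S) ^ k := by
      calc (k.factorial : ℝ) ≤ (k : ℝ) ^ k := by exact_mod_cast Nat.factorial_le_pow k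
        _ ≤ (2 ^ S) ^ k := pow_le_pow_left₀ (by positivity) hkS k
    have h5 := hlast (Matrix.of fun i j : Fin k => hasse (Finsupp.cons (j : ℕ) (n i)) P).det a
    simp only [one_pow, Finset.prod_const_one, mul_one] at h5
    refine h5.trans (hdet.trans ?_)
    calc (k.factorial : ℝ) * (4 ^ S * B) ^ k ≤ (2 ^ S) ^ k * (4 ^ S * B) ^ k :=
          mul_le_mul_of_nonneg_right hfac (by positivity)
      _ = (8 ^ S * B) ^ k := by
          rw [← mul_pow, ← mul_assoc, ← mul_pow]; norm_num
  · intro h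
    apply r13_deg
    intro i j
    rw [Matrix.of_apply]
    exact ((h1 (m + 1) ℤ _ P P).2.2.2.2 h).trans (hdeg h)

end MPcc0c1aSub
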