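import Pool.Agent.Lib.MP_cc0c1a_nt.Sub.SpecR

/-!
# MP_cc0c1a_nt / Sub: R14, a numerical inequality
-/

namespace MPcc0c1aSub

open Finset

theorem numSum : NumSum := by
  intro k r θ hr hk h0 h1
  have hr' : (1 : ℝ) ≤ r := by exact_mod_cast hr
  have hk' : (k : ℝ) ≤ 2 * r := by
    have : (k : ℝ) ≤ r + 1 := by exact_mod_cast hk
    linarith
  have hr0 : (0 : ℝ) < r := by linarith
  rw [Fin.sum_univ_eq_sum_range (fun j : ℕ => max 0 (θ - (j : ℝ) / r)) k]
  set m : ℕ := min k (⌊θ * r / 2⌋₊ + 1) with hm
  have hm1 : (k : ℝ) * θ / 4 ≤ m := by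
    rcases le_total k (⌊θ * r / 2⌋₊ + 1) with h | h
    · rw [hm, min_eq_left h]
      have hk0 : (0 : ℝ) ≤ k := Nat.cast_nonneg k
      nlinarith
    · rw [hm, min_eq_right h]
      have h2 := Nat.lt_floor_add_one (θ * r / 2)
      push_cast
      nlinarith
  have h2 : ∑ j ∈ range m, θ / 2 ≤ ∑ j ∈ range k, max 0 (θ - (j : ℝ) / r) := by
    calc ∑ j ∈ range m, θ / 2 ≤ ∑ j ∈ range m, max 0 (θ - (j : ℝ) / r) := by
          apply Finset.sum_le_sum
          intro j hj
          rw [Finset.mem_range] at hj
          have hj' : j ≤ ⌊θ * r / 2⌋₊ := by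
            have := lt_of_lt_of_le hj (min_le_right _ _)
            omega
          have hj2 : (j : ℝ) ≤ θ * r / 2 :=
            (Nat.le_floor_iff (by positivity)).1 hj'
          have hj3 : (j : ℝ) / r ≤ θ / 2 := by
            rw [div_le_iff₀ hr0]
            linarith
          refine le_trans ?_ (le_max_right _ _)
          linarith
      _ ≤ _ := by
          apply Finset.sum_le_sum_of_subset_of_nonneg
          · exact Finset.range_subset_range.2 (min_le_left _ _)
          · intro j _ _
            exact le_max_left _ _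
  rw [Finset.sum_const, Finset.card_range, nsmul_eq_mul] at h2
  nlinarith

end MPcc0c1aSub
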