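import Pool.Agent.Lib.MP_cc0c1a_nt.Sub.SpecR

/-!
# MP_cc0c1a_nt / Sub: R15, the induction step of Roth's lemma
-/

namespace MPcc0c1aSub

open MvPolynomial

namespace R15

lemma wt_cons {m : ℕ} (r : Fin (m + 1) → ℕ) (j : ℕ) (n : Fin m →₀ ℕ) :
    wt r (Finsupp.cons j n) = (j : ℝ) / r 0 + ∑ h : Fin m, (n h : ℝ) / r h.succ := by
  unfold wt
  rw [Fin.sum_univ_succ]
  simp

lemma wt_nonneg {m : ℕ} (r : Fin m → ℕ) (k : Fin m →₀ ℕ) : 0 ≤ wt r k :=
  Finset.sum_nonneg fun h _ => by positivity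

lemma IndexGE.mono {m : ℕ} {r : Fin m → ℕ} {τ : Fin m → ℚ} {θ θ' : ℝ}
    {P : MvPolynomial (Fin m) ℚ} (h : IndexGE r τ θ P) (hle : θ' ≤ θ) : IndexGE r τ θ' P :=
  fun k hk => h k (lt_of_lt_of_le hk hle)

lemma IndexGE.zero {m : ℕ} {r : Fin m → ℕ} {τ : Fin m → ℚ} {θ : ℝ}
    {P : MvPolynomial (Fin m) ℚ} (h : θ ≤ 0) : IndexGE r τ θ P :=
  fun k hk => absurd (lt_of_lt_of_le hk h) (not_lt.2 (wt_nonneg r k))

lemma toQ_ne_zero {σ : Type} {P : MvPolynomial σ ℤ} (h : P ≠ 0) : toQ P ≠ 0 := by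
  intro h0
  apply h
  have := (map_injective (σ := σ) (Int.castRingHom ℚ) (RingHom.injective_int _))
  apply this
  rw [map_zero]
  exact h0

lemma coeff_toQ {σ : Type} (P : MvPolynomial σ ℤ) (a : σ →₀ ℕ) :
    coeff a (toQ P) = ((coeff a P : ℤ) : ℚ) := by
  unfold toQ
  rw [coeff_map]
  rfl

lemma degreeOf_toQ_le {σ : Type} (P : MvPolynomial σ ℤ) (i : σ) :
    (toQ P).degreeOf i ≤ P.degreeOf i := by
  rw [degreeOf_le_iff]
  intro d hd
  exact (degreeOf_le_iff.1 le_rfl) d (support_map_subset _ _ hd)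

/-- The integral univariate slice. -/
lemma exists_slice {m : ℕ} (F : Polynomial (MvPolynomial (Fin m) ℤ)) (s : Fin m →₀ ℕ) :
    ∃ U : Polynomial ℤ, ∀ b, U.coeff b = coeff s (F.coeff b) := by
  refine ⟨∑ b ∈ Finset.range (F.natDegree + 1), Polynomial.monomial b (coeff s (F.coeff b)), ?_⟩
  intro b
  rw [Polynomial.finsetSum_coeff]
  simp only [Polynomial.coeff_monomial]
  by_cases hb : b < F.natDegree + 1
  · rw [Finset.sum_eq_single b]
    · simp
    · intro c _ hc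
      simp [hc]
    · intro h
      exact absurd (Finset.mem_range.2 hb) h
  · rw [Finset.sum_eq_zero]
    · rw [Polynomial.coeff_eq_zero_of_natDegree_lt (by omega)]
      simp
    · intro c hc
      have := Finset.mem_range.1 hc
      rw [if_neg (by omega)]

/-- The numerical part: `(8^S B)^k ≤ R^(ω k)`. -/
lemma num_bound {C' : ℝ} (hC' : 1 ≤ C') {S k : ℕ} {R ω B : ℝ} (hR : 1 ≤ R)
    (hB : B = R ^ ω / (8 * C') ^ S) :
    C' ^ (k * S) * (8 ^ S * B) ^ k = (R ^ k) ^ ω := by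
  have h1 : C' ^ S * (8 ^ S * B) = R ^ ω := by
    rw [hB, mul_pow]
    have : C' ^ S ≠ 0 := by positivity
    field_simp
  rw [mul_comm k S, pow_mul, ← mul_pow, h1]
  rw [← Real.rpow_natCast, ← Real.rpow_mul (by linarith), ← Real.rpow_natCast R k,
    ← Real.rpow_mul (by linarith), mul_comm]

end R15

open R15

theorem rothStep (h1 : HasseCoeff) (h2 : HasseShift) (h3 : IndexCalc) (h4 : IndexDet)
    (h5 : UniMult) (h6 : UniWronskian) (h9 : GenWronskian) (h10 : RankFactor) (h11 : Separated)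
    (h12 : DetFactor) (h13 : DetHeight) (h14 : NumSum) : RothStep := by
  intro m ih ε₀ hε₀
  -- reduction to `ε ≤ 1`
  obtain ⟨ε, hε, hε1, hεε⟩ : ∃ ε : ℝ, 0 < ε ∧ ε ≤ 1 ∧ ε ≤ ε₀ :=
    ⟨min ε₀ 1, lt_min hε₀ one_pos, min_le_right _ _, min_le_left _ _⟩
  have hε' : 0 < ε ^ 2 / 128 := by positivity
  obtain ⟨ω', C', hω', hC', H⟩ := ih (ε ^ 2 / 128) hε'
  obtain ⟨ω, hω, hω1, hω2, hω3⟩ : ∃ ω : ℝ, 0 < ω ∧ ω ≤ ω' ∧ ω ≤ ε / 2 ∧ ω ≤ ε ^ 2 / 128 / 2 :=
    ⟨min ω' (min (ε / 2) (ε ^ 2 / 128 / 2)), by positivity, min_le_left _ _,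
      (min_le_right _ _).trans (min_le_left _ _), (min_le_right _ _).trans (min_le_right _ _)⟩
  refine ⟨ω, 8 * C', hω, by linarith, ?_⟩
  intro r p q R P hr hrr hq hR hP hdeg hcoef
  by_contra hcon
  push Not at hcon
  set τ : Fin (m + 1) → ℚ := fun h => (p h : ℚ) / q h with hτ
  have hvan : ∀ k : Fin (m + 1) →₀ ℕ, wt r k ≤ ε → coeff k (sh τ (toQ P)) = 0 :=
    fun k hk => hcon k (hk.trans hεε)
  set S : ℕ := ∑ h, r h with hS
  have hC0 : 0 < C' := by linarith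
  obtain ⟨B, hB⟩ : ∃ B : ℝ, B = R ^ ω / (8 * C') ^ S := ⟨_, rfl⟩
  have hR0 : 0 < R := by linarith
  have hB0 : 0 ≤ B := by rw [hB]; positivity
  have hPB : ∀ a, |((coeff a P : ℤ) : ℝ)| ≤ B := by
    intro a
    rw [hB, le_div_iff₀ (by positivity), mul_comm]
    exact hcoef a
  -- `R > 1`
  have hR1 : 1 < R := by
    obtain ⟨a, ha⟩ := MvPolynomial.ne_zero_iff.1 hP
    have h1' : (1 : ℝ) ≤ |((coeff a P : ℤ) : ℝ)| := by
      rw [← Int.cast_abs]
      exact_mod_cast Int.one_le_abs ha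
    have h2' : (8 * C') ^ S ≤ R ^ ω := by
      refine le_trans ?_ (hcoef a)
      exact le_mul_of_one_le_right (by positivity) h1'
    have h3' : 1 ≤ S := by
      have : r 0 ≤ S := Finset.single_le_sum (f := r) (fun _ _ => Nat.zero_le _) (Finset.mem_univ 0)
      exact le_trans (hr 0) this
    have h4' : (8 : ℝ) ≤ (8 * C') ^ S := by
      calc (8 : ℝ) ≤ 8 * C' := by linarith
        _ = (8 * C') ^ 1 := (pow_one _).symm
        _ ≤ (8 * C') ^ S := pow_le_pow_right₀ (by linarith) h3'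
    by_contra hR'
    have : R = 1 := le_antisymm (not_lt.1 hR') hR
    rw [this, Real.one_rpow] at h2'
    linarith
  -- rank factorisation
  obtain ⟨k, φ, ψ, hk1, hk2, hφ, hψ, hfac⟩ := h10 m (toQ P) (toQ_ne_zero hP)
  have hk3 : k ≤ r 0 + 1 := hk2.trans (by
    have := (degreeOf_toQ_le P 0).trans (hdeg 0)
    omega)
  obtain ⟨n, hn, hV⟩ := h9 m k φ hφ
  have hU := h6 k ψ hψ
  set V : MvPolynomial (Fin m) ℚ := (Matrix.of fun i j : Fin k => hasse (n i) (φ j)).det with hVdef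
  set U : Polynomial ℚ :=
    (Matrix.of fun i j : Fin k => Polynomial.hasseDeriv (i : ℕ) (ψ j)).det with hUdef
  set Dz : MvPolynomial (Fin (m + 1)) ℤ :=
    (Matrix.of fun i j : Fin k => hasse (Finsupp.cons (j : ℕ) (n i)) P).det with hDz
  have hDq : toQ Dz = (Matrix.of fun i j : Fin k =>
      hasse (Finsupp.cons (j : ℕ) (n i)) (toQ P)).det := by
    unfold toQ
    rw [hDz, RingHom.map_det]
    congr 1
    ext1 i j
    simp only [RingHom.mapMatrix_apply, Matrix.map_apply, Matrix.of_apply]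
    exact (h1 (m + 1) ℤ _ P P).2.2.2.1 ℚ (Int.castRingHom ℚ)
  have hDUV : toQ Dz = ι₀ U * ι₁ V := by
    rw [hDq, hfac]
    exact h12 m k φ ψ n
  -- (a) the index of `Dz`
  have hr0 : (0 : ℝ) < r 0 := by exact_mod_cast hr 0
  have hIndP : IndexGE r τ ε (toQ P) := fun k hk => hvan k hk.le
  have hwt : ∀ i j : Fin k, wt r (Finsupp.cons (j : ℕ) (n i)) ≤ (j : ℕ) / (r 0 : ℝ) + ω := by
    intro i j
    rw [wt_cons]
    have h1' : ∑ h : Fin m, ((n i) h : ℝ) / r h.succ ≤ ∑ h : Fin m, ((n i) h : ℝ) * (ω / r 0) := by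
      apply Finset.sum_le_sum
      intro h _
      rw [div_eq_mul_inv]
      apply mul_le_mul_of_nonneg_left _ (Nat.cast_nonneg _)
      have hrs : (0 : ℝ) < r h.succ := by exact_mod_cast hr h.succ
      rw [inv_eq_one_div, div_le_div_iff₀ hrs hr0, one_mul]
      exact hrr 0 h.succ (Fin.succ_pos h)
    have h2' : ∑ h : Fin m, ((n i) h : ℝ) * (ω / r 0) = ((n i).degree : ℝ) * (ω / r 0) := by
      rw [← Finset.sum_mul, Finsupp.degree_eq_sum]
      push_cast
      rfl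
    have h3' : ((n i).degree : ℝ) ≤ r 0 := by
      have : (n i).degree ≤ r 0 := by
        have := hn i
        have := i.2
        omega
      exact_mod_cast this
    have h4' : ((n i).degree : ℝ) * (ω / r 0) ≤ r 0 * (ω / r 0) :=
      mul_le_mul_of_nonneg_right h3' (by positivity)
    have h5' : (r 0 : ℝ) * (ω / r 0) = ω := by field_simp
    linarith
  have hIndE : ∀ i j : Fin k, IndexGE r τ (max 0 (ε / 2 - (j : ℕ) / (r 0 : ℝ)))
      (hasse (Finsupp.cons (j : ℕ) (n i)) (toQ P)) := by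
    intro i j
    rcases le_total (ε / 2 - (j : ℕ) / (r 0 : ℝ)) 0 with h | h
    · rw [max_eq_left h]
      exact IndexGE.zero le_rfl
    · rw [max_eq_right h]
      refine IndexGE.mono ((h3 (m + 1) r τ).2.2.2 (Finsupp.cons (j : ℕ) (n i)) ε (toQ P) hIndP) ?_
      have := hwt i j
      linarith
  have hIndD : IndexGE r τ (k * ε ^ 2 / 32) (toQ Dz) := by
    rw [hDq]
    refine IndexGE.mono (h4 (m + 1) k r τ (fun j => max 0 (ε / 2 - (j : ℕ) / (r 0 : ℝ)))
      (Matrix.of fun i j : Fin k => hasse (Finsupp.cons (j : ℕ) (n i)) (toQ P)) ?_) ?_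
    · intro i j
      exact hIndE i j
    · have := h14 k (r 0) (ε / 2) (hr 0) hk3 (by positivity) (by linarith)
      refine le_trans (le_of_eq ?_) this
      ring
  -- (b) the integral slices
  obtain ⟨b₀, hb₀⟩ : ∃ b, U.coeff b ≠ 0 := by
    by_contra hno
    push Not at hno
    exact hU (Polynomial.ext hno)
  obtain ⟨s₀, hs₀⟩ := MvPolynomial.ne_zero_iff.1 hV
  have hDcoef : ∀ b s, ((coeff (Finsupp.cons b s) Dz : ℤ) : ℚ) = U.coeff b * coeff s V := by
    intro b s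
    rw [← coeff_toQ, hDUV]
    exact (h11 m U V).1 b s
  obtain ⟨hH1, hH2⟩ := h13 m k r B P n hB0 hk3 hdeg hPB
  set Vz : MvPolynomial (Fin m) ℤ := Polynomial.coeff (finSuccEquiv ℤ m Dz) b₀ with hVz
  have hVzc : ∀ s, coeff s Vz = coeff (Finsupp.cons b₀ s) Dz :=
    fun s => finSuccEquiv_coeff_coeff s Dz b₀
  have hVzQ : toQ Vz = C (U.coeff b₀) * V := by
    ext s
    rw [coeff_toQ, hVzc, hDcoef, coeff_C_mul]
  have hVz0 : Vz ≠ 0 := by
    intro h0
    rw [h0] at hVzQ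
    unfold toQ at hVzQ
    rw [map_zero] at hVzQ
    rcases mul_eq_zero.1 hVzQ.symm with h | h
    · rw [C_eq_zero] at h
      exact hb₀ h
    · exact hV h
  obtain ⟨Uz, hUz⟩ := exists_slice (finSuccEquiv ℤ m Dz) s₀
  have hUzc : ∀ b, Uz.coeff b = coeff (Finsupp.cons b s₀) Dz := by
    intro b
    rw [hUz, finSuccEquiv_coeff_coeff]
  have hUzQ : Uz.map (Int.castRingHom ℚ) = Polynomial.C (coeff s₀ V) * U := by
    ext b
    rw [Polynomial.coeff_map, Polynomial.coeff_C_mul, hUzc]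
    have := hDcoef b s₀
    rw [mul_comm]
    exact this
  have hUz0 : Uz ≠ 0 := by
    intro h0
    rw [h0, Polynomial.map_zero] at hUzQ
    rcases mul_eq_zero.1 hUzQ.symm with h | h
    · rw [Polynomial.C_eq_zero] at h
      exact hs₀ h
    · exact hU h
  -- (c) Roth's lemma for `Vz`
  have hk0 : 0 < k := hk1
  have hkr : (0 : ℝ) < k := by exact_mod_cast hk0
  have hnum := num_bound (k := k) hC' hR hB
  obtain ⟨κ, hκ1, hκ2⟩ : ∃ κ : Fin m →₀ ℕ, wt (fun h : Fin m => k * r h.succ) κ ≤ ε ^ 2 / 128 ∧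
      coeff κ (sh (fun h : Fin m => (p h.succ : ℚ) / q h.succ) (toQ Vz)) ≠ 0 := by
    refine H (fun h => k * r h.succ) (fun h => p h.succ) (fun h => q h.succ) (R ^ k) Vz ?_ ?_ ?_ ?_
      hVz0 ?_ ?_
    · intro h
      exact Nat.mul_pos hk0 (hr _)
    · intro h h' hh
      have h1' := hrr h.succ h'.succ (Fin.succ_lt_succ_iff.2 hh)
      push_cast
      have h2' : (r h.succ : ℝ) ≤ ω' * r h'.succ :=
        h1'.trans (mul_le_mul_of_nonneg_right hω1 (Nat.cast_nonneg _))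
      calc (k : ℝ) * r h.succ ≤ k * (ω' * r h'.succ) := mul_le_mul_of_nonneg_left h2' hkr.le
        _ = ω' * (k * r h'.succ) := by ring
    · intro h
      obtain ⟨h1', h2', h3'⟩ := hq h.succ
      refine ⟨h1', h2', ?_⟩
      rw [mul_comm, pow_mul]
      exact pow_le_pow_left₀ hR0.le h3' k
    · exact one_le_pow₀ hR
    · intro h
      calc Vz.degreeOf h ≤ Dz.degreeOf h.succ := degreeOf_coeff_finSuccEquiv Dz h b₀
        _ ≤ k * r h.succ := hH2 h.succ
    · intro a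
      have h1' : |((coeff a Vz : ℤ) : ℝ)| ≤ (8 ^ S * B) ^ k := by
        rw [hVzc]
        exact hH1 _
      have h2' : C' ^ (∑ h : Fin m, k * r h.succ) ≤ C' ^ (k * S) := by
        apply pow_le_pow_right₀ hC'
        rw [← Finset.mul_sum]
        apply Nat.mul_le_mul_left
        rw [hS, Fin.sum_univ_succ]
        omega
      calc C' ^ (∑ h : Fin m, k * r h.succ) * |((coeff a Vz : ℤ) : ℝ)|
          ≤ C' ^ (k * S) * (8 ^ S * B) ^ k := by
            apply mul_le_mul h2' h1' (abs_nonneg _) (by positivity)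
        _ = (R ^ k) ^ ω := hnum
        _ ≤ (R ^ k) ^ ω' := Real.rpow_le_rpow_of_exponent_le (one_le_pow₀ hR) hω1
  have hκV : coeff κ (sh (fun h : Fin m => (p h.succ : ℚ) / q h.succ) V) ≠ 0 := by
    intro h0
    apply hκ2
    rw [hVzQ, map_mul]
    have : sh (fun h : Fin m => (p h.succ : ℚ) / q h.succ) (C (U.coeff b₀)) = C (U.coeff b₀) := by
      unfold sh
      rw [aeval_C, MvPolynomial.algebraMap_eq]
    rw [this, coeff_C_mul, h0, mul_zero]
  -- (d) one variable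
  obtain ⟨hq0, hpq0, hRq0⟩ := hq 0
  have hq1 : (1 : ℝ) ≤ q 0 := by exact_mod_cast hq0
  obtain ⟨κ₀, hκ₀1, hκ₀2⟩ : ∃ κ₀ : ℕ, (κ₀ : ℝ) ≤ ε ^ 2 / 128 * k * r 0 ∧
      (Polynomial.taylor (τ 0) U).coeff κ₀ ≠ 0 := by
    by_contra hno
    push Not at hno
    have hK := h5 Uz (p 0) (q 0) (⌊ε ^ 2 / 128 * k * r 0⌋₊ + 1) hUz0 hq0 hpq0 (by
      intro j hj
      rw [hUzQ, Polynomial.taylor_mul, Polynomial.taylor_C, Polynomial.coeff_C_mul]
      rw [hno j, mul_zero]
      have : j ≤ ⌊ε ^ 2 / 128 * k * r 0⌋₊ := by omega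
      exact (Nat.le_floor_iff (by positivity)).1 this)
    have hlc : (|Uz.leadingCoeff| : ℝ) ≤ (8 ^ S * B) ^ k := by
      rw [Polynomial.leadingCoeff, hUzc]
      exact hH1 _
    have hK' : (q 0 : ℝ) ^ (⌊ε ^ 2 / 128 * k * r 0⌋₊ + 1) ≤ (8 ^ S * B) ^ k := by
      refine le_trans ?_ hlc
      exact_mod_cast hK
    have hup : (8 ^ S * B) ^ k ≤ (R ^ k) ^ ω := by
      rw [← hnum]
      exact le_mul_of_one_le_left (by positivity) (one_le_pow₀ hC')
    have hlow : R ^ (ε ^ 2 / 128 * k) ≤ (q 0 : ℝ) ^ (⌊ε ^ 2 / 128 * k * r 0⌋₊ + 1) := by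
      calc R ^ (ε ^ 2 / 128 * k) ≤ ((q 0 : ℝ) ^ (r 0)) ^ (ε ^ 2 / 128 * k) :=
            Real.rpow_le_rpow hR0.le hRq0 (by positivity)
        _ = (q 0 : ℝ) ^ (ε ^ 2 / 128 * k * r 0) := by
            rw [← Real.rpow_natCast, ← Real.rpow_mul (by linarith)]
            congr 1
            ring
        _ ≤ (q 0 : ℝ) ^ ((⌊ε ^ 2 / 128 * k * r 0⌋₊ + 1 : ℕ) : ℝ) := by
            apply Real.rpow_le_rpow_of_exponent_le hq1
            push_cast
            exact (Nat.lt_floor_add_one _).le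
        _ = _ := Real.rpow_natCast _ _
    have hlt : (R ^ k) ^ ω < R ^ (ε ^ 2 / 128 * k) := by
      rw [← Real.rpow_natCast, ← Real.rpow_mul hR0.le]
      apply Real.rpow_lt_rpow_of_exponent_lt hR1
      rw [mul_comm]
      apply mul_lt_mul_of_pos_right _ hkr
      linarith
    linarith
  -- (e) conclusion
  have hfin : coeff (Finsupp.cons κ₀ κ) (sh τ (toQ Dz)) ≠ 0 := by
    rw [hDUV, (h11 m U V).2.2 τ]
    have := (h11 m (Polynomial.taylor (τ 0) U) (sh (fun h => τ h.succ) V)).1 κ₀ κ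
    rw [this]
    exact mul_ne_zero hκ₀2 hκV
  apply hfin
  apply hIndD
  rw [wt_cons]
  have e1 : (κ₀ : ℝ) / r 0 ≤ ε ^ 2 / 128 * k := by
    rw [div_le_iff₀ hr0]
    exact hκ₀1
  have e2 : ∑ h : Fin m, (κ h : ℝ) / r h.succ ≤ k * (ε ^ 2 / 128) := by
    have : ∑ h : Fin m, (κ h : ℝ) / r h.succ = k * wt (fun h : Fin m => k * r h.succ) κ := by
      unfold wt
      rw [Finset.mul_sum]
      apply Finset.sum_congr rfl
      intro h _
      have hrs : (r h.succ : ℝ) ≠ 0 := by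
        have := hr h.succ
        positivity
      push_cast
      field_simp
    rw [this]
    exact mul_le_mul_of_nonneg_left hκ1 hkr.le
  have e3 : 0 < k * ε ^ 2 := by positivity
  calc (κ₀ : ℝ) / r 0 + ∑ h : Fin m, (κ h : ℝ) / r h.succ
      ≤ ε ^ 2 / 128 * k + k * (ε ^ 2 / 128) := add_le_add e1 e2
    _ = k * ε ^ 2 / 64 := by ring
    _ < k * ε ^ 2 / 32 := by linarith

end MPcc0c1aSub
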