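import Pool.Agent.Lib.MP_cc0c1a_nt.Sub.SpecR

/-!
# R2: the Hasse derivative commutes with shifts
-/

namespace MPcc0c1aSub

open MvPolynomial

namespace R2

variable {m : ℕ} {R : Type} [CommRing R]

theorem prod_split (f g : Fin m → R) (i : Fin m) (h : ∀ j, j ≠ i → f j = g j) :
    ∏ j, f j = f i * ∏ j ∈ Finset.univ.erase i, g j := by
  rw [← Finset.mul_prod_erase Finset.univ f (Finset.mem_univ i)]
  congr 1
  refine Finset.prod_congr rfl fun j hj => ?_
  exact h j (Finset.ne_of_mem_erase hj)

theorem hasse_mul_X (h1 : HasseCoeff) (k : Fin m →₀ ℕ) (P : MvPolynomial (Fin m) R) (i : Fin m) :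
    hasse k (P * X i) = hasse k P * X i +
      if i ∈ k.support then hasse (k - Finsupp.single i 1) P else 0 := by
  classical
  have hc : ∀ (k : Fin m →₀ ℕ) (P : MvPolynomial (Fin m) R) (b : Fin m →₀ ℕ),
      coeff b (hasse k P) = (∏ i, ((b i + k i).choose (k i) : R)) * coeff (b + k) P :=
    fun k P b => (h1 m R k P P).1 b
  ext b
  rw [hc, coeff_mul_X', coeff_add, coeff_mul_X']
  have hA : ∏ j, ((b j + k j).choose (k j) : R) = ((b i + k i).choose (k i) : R) *
      ∏ j ∈ Finset.univ.erase i, ((b j + k j).choose (k j) : R) :=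
    prod_split _ _ i fun j _ => rfl
  have hB : b i ≠ 0 → coeff (b - Finsupp.single i 1) (hasse k P) =
      ((b i - 1 + k i).choose (k i) : R) *
        (∏ j ∈ Finset.univ.erase i, ((b j + k j).choose (k j) : R)) *
        coeff (b + k - Finsupp.single i 1) P := by
    intro hb
    rw [hc]
    have e1 : b - Finsupp.single i 1 + k = b + k - Finsupp.single i 1 := by
      ext j
      simp only [Finsupp.coe_add, Finsupp.coe_tsub, Pi.add_apply, Pi.sub_apply]
      by_cases hj : j = i
      · subst hj
        rw [Finsupp.single_eq_same]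
        omega
      · rw [Finsupp.single_eq_of_ne hj]
        omega
    rw [e1]
    congr 1
    have e2 := prod_split
      (fun j => ((((b - Finsupp.single i 1 : Fin m →₀ ℕ) j) + k j).choose (k j) : R))
      (fun j => ((b j + k j).choose (k j) : R)) i (by
        intro j hj
        simp only [Finsupp.coe_tsub, Pi.sub_apply]
        rw [Finsupp.single_eq_of_ne hj, Nat.sub_zero])
    rw [e2]
    simp only [Finsupp.coe_tsub, Pi.sub_apply, Finsupp.single_eq_same]
  have hC : k i ≠ 0 → coeff b (hasse (k - Finsupp.single i 1) P) =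
      ((b i + (k i - 1)).choose (k i - 1) : R) *
        (∏ j ∈ Finset.univ.erase i, ((b j + k j).choose (k j) : R)) *
        coeff (b + k - Finsupp.single i 1) P := by
    intro hk
    rw [hc]
    have e1 : b + (k - Finsupp.single i 1) = b + k - Finsupp.single i 1 := by
      ext j
      simp only [Finsupp.coe_add, Finsupp.coe_tsub, Pi.add_apply, Pi.sub_apply]
      by_cases hj : j = i
      · subst hj
        rw [Finsupp.single_eq_same]
        omega
      · rw [Finsupp.single_eq_of_ne hj]
        omega
    rw [e1]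
    congr 1
    have e2 := prod_split
      (fun j => ((b j + ((k - Finsupp.single i 1 : Fin m →₀ ℕ) j)).choose
        ((k - Finsupp.single i 1 : Fin m →₀ ℕ) j) : R))
      (fun j => ((b j + k j).choose (k j) : R)) i (by
        intro j hj
        simp only [Finsupp.coe_tsub, Pi.sub_apply]
        rw [Finsupp.single_eq_of_ne hj, Nat.sub_zero])
    rw [e2]
    simp only [Finsupp.coe_tsub, Pi.sub_apply, Finsupp.single_eq_same]
  rw [hA]
  simp only [Finsupp.mem_support_iff, Finsupp.coe_add, Pi.add_apply]
  by_cases hb : b i = 0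
  · by_cases hk : k i = 0
    · simp [hb, hk]
    · have hbk : b i + k i ≠ 0 := by omega
      rw [if_pos hbk, if_neg (by simpa using hb), if_pos hk, hC hk, hb]
      simp
  · have hbk : b i + k i ≠ 0 := by omega
    rw [if_pos hbk, if_pos hb, hB hb]
    by_cases hk : k i = 0
    · rw [if_neg (by simpa using hk), coeff_zero, hk]
      simp
    · rw [if_pos hk, hC hk]
      obtain ⟨b', hb'⟩ : ∃ b', b i = b' + 1 := ⟨b i - 1, by omega⟩
      obtain ⟨k', hk'⟩ : ∃ k', k i = k' + 1 := ⟨k i - 1, by omega⟩
      have hp : ((b i + k i).choose (k i) : R) =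
          ((b i - 1 + k i).choose (k i) : R) + ((b i + (k i - 1)).choose (k i - 1) : R) := by
        rw [hb', hk', ← Nat.cast_add]
        congr 1
        have e1 : b' + 1 + (k' + 1) = (b' + k' + 1) + 1 := by ring
        have e2 : b' + 1 - 1 + (k' + 1) = b' + k' + 1 := by omega
        have e3 : b' + 1 + (k' + 1 - 1) = b' + k' + 1 := by omega
        have e4 : k' + 1 - 1 = k' := by omega
        rw [e3, e2, e1, e4, Nat.choose_succ_succ, Nat.add_comm]
      rw [hp]
      ring

end R2

open R2 in
theorem hasseShift (h1 : HasseCoeff) : HasseShift := by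
  intro m R _ k τ P
  have hadd : ∀ (k : Fin m →₀ ℕ) (P Q : MvPolynomial (Fin m) R),
      hasse k (P + Q) = hasse k P + hasse k Q := fun k P Q => (h1 m R k P Q).2.1
  have hCm : ∀ (k : Fin m →₀ ℕ) (c : R) (P : MvPolynomial (Fin m) R),
      hasse k (C c * P) = C c * hasse k P := fun k c P => (h1 m R k P P).2.2.1 c
  have hc : ∀ (k : Fin m →₀ ℕ) (P : MvPolynomial (Fin m) R) (b : Fin m →₀ ℕ),
      coeff b (hasse k P) = (∏ i, ((b i + k i).choose (k i) : R)) * coeff (b + k) P :=
    fun k P b => (h1 m R k P P).1 b
  have hone : ∀ k : Fin m →₀ ℕ, hasse k (1 : MvPolynomial (Fin m) R) = if k = 0 then 1 else 0 := by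
    classical
    intro k
    ext b
    rw [hc, coeff_one]
    by_cases hk : k = 0
    · subst hk
      rw [if_pos rfl, coeff_one, add_zero]
      simp
    · rw [if_neg hk, coeff_zero, if_neg, mul_zero]
      intro h
      apply hk
      ext j
      have h2 := congrArg (fun f : Fin m →₀ ℕ => f j) h
      simp only [Finsupp.coe_zero, Pi.zero_apply, Finsupp.coe_add, Pi.add_apply] at h2
      simp only [Finsupp.coe_zero, Pi.zero_apply]
      omega
  induction P using MvPolynomial.induction_on generalizing k with
  | C a =>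
    have e1 : (C a : MvPolynomial (Fin m) R) = C a * 1 := by rw [mul_one]
    have e2 : sh τ (C a : MvPolynomial (Fin m) R) = C a := by
      unfold sh
      rw [aeval_C]
      rfl
    rw [e2, e1, hCm, hone, map_mul, e2]
    split_ifs
    · rw [map_one]
    · rw [map_zero]
  | add P Q hP hQ => rw [hadd, map_add, map_add, hadd, hP, hQ]
  | mul_X P i hP =>
    have e3 : sh τ (X i : MvPolynomial (Fin m) R) = C (τ i) + X i := by
      unfold sh
      rw [aeval_X]
    have e4 : sh τ (P * X i) = C (τ i) * sh τ P + sh τ P * X i := by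
      rw [map_mul, e3]
      ring
    rw [e4, hadd, hCm, hasse_mul_X h1 k (sh τ P) i, hasse_mul_X h1 k P i, map_add, map_mul, e3,
      ← hP k]
    by_cases hk : i ∈ k.support
    · rw [if_pos hk, if_pos hk, hP (k - Finsupp.single i 1)]
      ring
    · rw [if_neg hk, if_neg hk, map_zero]
      ring

end MPcc0c1aSub
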