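import Pool.Agent.Lib.MP_cc0c1a_nt.Sub.SpecR

/-!
# MP_cc0c1a_nt / Sub: index calculus
-/

namespace MPcc0c1aSub

open MvPolynomial

theorem r3_wt_add {m : ℕ} (r : Fin m → ℕ) (k k' : Fin m →₀ ℕ) :
    wt r (k + k') = wt r k + wt r k' := by
  unfold wt
  rw [← Finset.sum_add_distrib]
  apply Finset.sum_congr rfl
  intro h _
  rw [Finsupp.add_apply, Nat.cast_add, add_div]

theorem indexCalc (h1 : HasseCoeff) (h2 : HasseShift) : IndexCalc := by
  intro m r τ
  refine ⟨?_, ?_, ?_, ?_⟩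
  · intro θ θ' P Q hP hQ k hk
    rw [map_mul, coeff_mul]
    apply Finset.sum_eq_zero
    rintro ⟨a, b⟩ hab
    rw [Finset.HasAntidiagonal.mem_antidiagonal] at hab
    simp only at hab ⊢
    subst hab
    rw [r3_wt_add] at hk
    by_cases ha : wt r a < θ
    · rw [hP a ha, zero_mul]
    · rw [hQ b (by linarith), mul_zero]
  · intro θ P Q hP hQ k hk
    rw [map_add, coeff_add, hP k hk, hQ k hk, add_zero]
  · intro θ c P hP k hk
    have hc : sh τ (C c) = C c := by
      rw [← MvPolynomial.algebraMap_eq]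
      exact AlgHom.commutes (sh τ) c
    rw [map_mul, hc, coeff_C_mul, hP k hk, mul_zero]
  · intro k θ P hP b hb
    rw [h2 m ℚ k τ P, (h1 m ℚ k (sh τ P) 0).1 b, hP (b + k) ?_, mul_zero]
    rw [r3_wt_add]
    linarith

end MPcc0c1aSub
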