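import Pool.Agent.Lib.MP_cc0c1a_nt.Sub.SpecR

/-!
# MP_cc0c1a_nt / Sub: R4, index of a determinant
-/

namespace MPcc0c1aSub

open MvPolynomial

namespace R4aux

theorem wt_nonneg {m : ℕ} (r : Fin m → ℕ) (k : Fin m →₀ ℕ) : 0 ≤ wt r k :=
  Finset.sum_nonneg fun _ _ => div_nonneg (Nat.cast_nonneg _) (Nat.cast_nonneg _)

theorem indexGE_zero {m : ℕ} (r : Fin m → ℕ) (τ : Fin m → ℚ) (P : MvPolynomial (Fin m) ℚ) :
    IndexGE r τ 0 P := fun k hk => absurd hk (not_lt.mpr (wt_nonneg r k))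

theorem indexGE_prod (h1 : IndexCalc) {m : ℕ} {ι : Type} (s : Finset ι) (r : Fin m → ℕ)
    (τ : Fin m → ℚ) (θ : ι → ℝ) (P : ι → MvPolynomial (Fin m) ℚ)
    (h : ∀ j ∈ s, IndexGE r τ (θ j) (P j)) : IndexGE r τ (∑ j ∈ s, θ j) (∏ j ∈ s, P j) := by
  classical
  induction s using Finset.induction_on with
  | empty =>
    rw [Finset.sum_empty, Finset.prod_empty]
    exact indexGE_zero r τ 1
  | insert a s ha ih =>
    rw [Finset.sum_insert ha, Finset.prod_insert ha]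
    exact (h1 m r τ).1 _ _ _ _ (h a (Finset.mem_insert_self a s))
      (ih fun j hj => h j (Finset.mem_insert_of_mem hj))

theorem indexGE_sum (h1 : IndexCalc) {m : ℕ} {ι : Type} (s : Finset ι) (r : Fin m → ℕ)
    (τ : Fin m → ℚ) (θ : ℝ) (P : ι → MvPolynomial (Fin m) ℚ)
    (h : ∀ j ∈ s, IndexGE r τ θ (P j)) : IndexGE r τ θ (∑ j ∈ s, P j) := by
  classical
  induction s using Finset.induction_on with
  | empty =>
    intro k _
    rw [Finset.sum_empty, map_zero, coeff_zero]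
  | insert a s ha ih =>
    rw [Finset.sum_insert ha]
    exact (h1 m r τ).2.1 _ _ _ (h a (Finset.mem_insert_self a s))
      (ih fun j hj => h j (Finset.mem_insert_of_mem hj))

end R4aux

theorem indexDet (h1 : IndexCalc) : IndexDet := by
  intro m k r τ θ E hE
  rw [Matrix.det_apply']
  refine R4aux.indexGE_sum h1 _ r τ _ _ fun σ _ => ?_
  have h2 : ((Equiv.Perm.sign σ : ℤ) : MvPolynomial (Fin m) ℚ) =
      C (((Equiv.Perm.sign σ : ℤ) : ℚ)) := by simp
  rw [h2]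
  exact (h1 m r τ).2.2.1 _ _ _ (R4aux.indexGE_prod h1 _ r τ θ _ fun j _ => hE _ _)

end MPcc0c1aSub
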