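import Pool.Agent.Lib.MP_cc0c1a_nt.Sub.SpecR

/-!
# MP_cc0c1a_nt / Sub: R5, one variable
-/

namespace MPcc0c1aSub

open Polynomial in
/-- The polynomial `q X - p` is primitive for coprime `p`, `q`. -/
lemma R5_prim (p q : ℤ) (h : IsCoprime p q) : (C q * X - C p : ℤ[X]).IsPrimitive := by
  intro r hr
  rw [C_dvd_iff_dvd_coeff] at hr
  have h0 := hr 0
  have h1 := hr 1
  simp only [coeff_sub, coeff_C_mul, coeff_X_zero, mul_zero, coeff_C_zero, zero_sub,
    dvd_neg] at h0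
  simp only [coeff_sub, coeff_C_mul, coeff_X_one, mul_one, coeff_C_succ, sub_zero] at h1
  exact h.isUnit_of_dvd' h0 h1

open Polynomial in
/-- Powers of primitive polynomials are primitive. -/
lemma R5_pow (L : ℤ[X]) (h : L.IsPrimitive) (K : ℕ) : (L ^ K).IsPrimitive := by
  induction K with
  | zero => rw [pow_zero]; exact isPrimitive_one
  | succ K ih => rw [pow_succ]; exact ih.mul h

open Polynomial in
theorem uniMult : UniMult := by
  intro U p q K hU hq hpq hT
  have hqQ : (q : ℚ) ≠ 0 := by exact_mod_cast hq.ne'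
  -- divisibility over `ℚ`
  have h1 : (X : ℚ[X]) ^ K ∣ taylor ((p : ℚ) / q) (U.map (Int.castRingHom ℚ)) :=
    X_pow_dvd_iff.2 hT
  obtain ⟨g, hg⟩ := h1
  have h2 : U.map (Int.castRingHom ℚ) =
      (X + C (-((p : ℚ) / q))) ^ K * taylor (-((p : ℚ) / q)) g := by
    have h3 := congrArg (taylor (-((p : ℚ) / q))) hg
    rw [taylor_taylor, taylor_mul, taylor_X_pow, neg_add_cancel, taylor_zero] at h3
    exact h3
  have h4 : (C q * X - C p : ℤ[X]).map (Int.castRingHom ℚ) =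
      C (q : ℚ) * (X + C (-((p : ℚ) / q))) := by
    rw [Polynomial.map_sub, Polynomial.map_mul, map_C, map_C, map_X, mul_add, ← C_mul]
    have h5 : (q : ℚ) * -((p : ℚ) / q) = -(p : ℚ) := by field_simp
    rw [h5, C_neg, ← sub_eq_add_neg]
    rfl
  have h5 : ((C q * X - C p : ℤ[X]) ^ K).map (Int.castRingHom ℚ) ∣ U.map (Int.castRingHom ℚ) := by
    rw [Polynomial.map_pow, h4, mul_pow, h2]
    have h6 : IsUnit (C (q : ℚ) ^ K : ℚ[X]) := (isUnit_C.2 (isUnit_iff_ne_zero.2 hqQ)).pow K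
    rw [h6.mul_left_dvd]
    exact Dvd.intro _ rfl
  have h6 := (IsPrimitive.Int.dvd_iff_map_cast_dvd_map_cast _ U
    (R5_pow _ (R5_prim p q hpq) K)).2 h5
  obtain ⟨G, hG⟩ := h6
  have h7 : (C q * X - C p : ℤ[X]).leadingCoeff = q := by
    rw [sub_eq_add_neg, ← C_neg]
    exact leadingCoeff_linear hq.ne'
  have hG0 : G ≠ 0 := by
    intro h0
    rw [h0, mul_zero] at hG
    exact hU hG
  have h8 : U.leadingCoeff = q ^ K * G.leadingCoeff := by
    rw [hG, leadingCoeff_mul, leadingCoeff_pow, h7]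
  rw [h8, abs_mul, abs_of_nonneg (pow_nonneg hq.le K)]
  have h9 : 1 ≤ |G.leadingCoeff| := Int.one_le_abs (leadingCoeff_ne_zero.2 hG0)
  exact le_mul_of_one_le_right (pow_nonneg hq.le K) h9

end MPcc0c1aSub
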