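import Pool.Agent.Lib.MP_cc0c1a_nt.Sub.SpecR

/-!
# MP_cc0c1a_nt / Sub: R6, Wronskians of polynomials in one variable
-/

namespace MPcc0c1aSub

namespace UniWAux

open Polynomial

lemma coeff_prod_sum {ι : Type} (s : Finset ι) (f : ι → ℚ[X]) (d : ι → ℕ)
    (h : ∀ i ∈ s, (f i).natDegree ≤ d i) :
    (∏ i ∈ s, f i).coeff (∑ i ∈ s, d i) = ∏ i ∈ s, (f i).coeff (d i) := by
  classical
  induction s using Finset.induction_on with
  | empty => simp
  | insert a s ha ih =>
    rw [Finset.prod_insert ha, Finset.sum_insert ha, Finset.prod_insert ha]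
    have h1 : (f a).natDegree ≤ d a := h a (Finset.mem_insert_self a s)
    have h2 : ∀ i ∈ s, (f i).natDegree ≤ d i := fun i hi => h i (Finset.mem_insert_of_mem hi)
    have h3 : (∏ i ∈ s, f i).natDegree ≤ ∑ i ∈ s, d i :=
      (natDegree_prod_le s f).trans (Finset.sum_le_sum h2)
    rw [coeff_mul_add_eq_of_natDegree_le h1 h3, ih h2]

lemma natDegree_le (i : ℕ) (p : ℚ[X]) : (X ^ i * hasseDeriv i p).natDegree ≤ p.natDegree := by
  rcases lt_or_ge p.natDegree i with h | h
  · rw [hasseDeriv_eq_zero_of_lt_natDegree p i h, mul_zero, natDegree_zero]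
    exact Nat.zero_le _
  · calc (X ^ i * hasseDeriv i p).natDegree ≤ (X ^ i : ℚ[X]).natDegree + (hasseDeriv i p).natDegree :=
        natDegree_mul_le
      _ ≤ i + (p.natDegree - i) := by
        apply Nat.add_le_add
        · rw [natDegree_X_pow]
        · exact natDegree_hasseDeriv_le p i
      _ = p.natDegree := by omega

lemma coeff_top (i : ℕ) (p : ℚ[X]) :
    (X ^ i * hasseDeriv i p).coeff p.natDegree = (p.natDegree.choose i : ℚ) * p.leadingCoeff := by
  rw [coeff_X_pow_mul']
  split_ifs with h
  · rw [hasseDeriv_coeff, Nat.sub_add_cancel h]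
    rfl
  · rw [Nat.choose_eq_zero_of_lt (by omega)]; simp

lemma det_choose_ne {k : ℕ} (d : Fin k → ℕ) (hd : Function.Injective d) :
    (Matrix.of fun i j : Fin k => ((d j).choose (i : ℕ) : ℚ)).det ≠ 0 := by
  have h1 := Matrix.det_eval_matrixOfPolynomials_eq_det_vandermonde (fun i => (d i : ℚ))
    (fun j : Fin k => descPochhammer ℚ (j : ℕ)) (fun i => descPochhammer_natDegree ℚ (i : ℕ))
    (fun i => monic_descPochhammer ℚ (i : ℕ))
  have h2 : (Matrix.vandermonde (fun i => (d i : ℚ))).det ≠ 0 := by
    rw [Matrix.det_vandermonde_ne_zero_iff]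
    intro a b hab
    have hab' : ((d a : ℕ) : ℚ) = ((d b : ℕ) : ℚ) := hab
    exact hd (by exact_mod_cast hab')
  rw [h1] at h2
  intro h0
  apply h2
  have h3 : (Matrix.of fun i j : Fin k => ((descPochhammer ℚ (j : ℕ)).eval ((d i : ℕ) : ℚ))) =
      Matrix.of fun i j : Fin k => ((Nat.factorial (j : ℕ) : ℕ) : ℚ) *
        (Matrix.of (fun i j : Fin k => ((d j).choose (i : ℕ) : ℚ))).transpose i j := by
    ext i j
    simp only [Matrix.of_apply, Matrix.transpose_apply]
    rw [descPochhammer_eval_eq_descFactorial, Nat.descFactorial_eq_factorial_mul_choose]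
    push_cast
    ring
  rw [h3, Matrix.det_mul_row, Matrix.det_transpose, h0, mul_zero]

lemma det_ne_of_injective {k : ℕ} (ψ : Fin k → ℚ[X]) (h0 : ∀ j, ψ j ≠ 0)
    (hd : Function.Injective fun j => (ψ j).natDegree) :
    (Matrix.of fun i j : Fin k => hasseDeriv (i : ℕ) (ψ j)).det ≠ 0 := by
  intro hz
  have h1 : (Matrix.of fun i j : Fin k => (X : ℚ[X]) ^ (i : ℕ) *
      (Matrix.of fun i j : Fin k => hasseDeriv (i : ℕ) (ψ j)) i j).det = 0 := by
    rw [Matrix.det_mul_column, hz, mul_zero]
  have h2 := congrArg (fun p : ℚ[X] => p.coeff (∑ j, (ψ j).natDegree)) h1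
  simp only [coeff_zero] at h2
  rw [Matrix.det_apply, finsetSum_coeff] at h2
  have h3 : ∀ σ : Equiv.Perm (Fin k), (Equiv.Perm.sign σ • ∏ i, (Matrix.of fun i j : Fin k =>
      (X : ℚ[X]) ^ (i : ℕ) * (Matrix.of fun i j : Fin k => hasseDeriv (i : ℕ) (ψ j)) i j) (σ i) i).coeff
        (∑ j, (ψ j).natDegree) =
      Equiv.Perm.sign σ • ∏ i, (Matrix.of fun i j : Fin k => (ψ j).leadingCoeff *
        (Matrix.of fun i j : Fin k => ((ψ j).natDegree.choose (i : ℕ) : ℚ)) i j) (σ i) i := by
    intro σ
    rw [coeff_smul]
    congr 1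
    rw [coeff_prod_sum]
    · apply Finset.prod_congr rfl
      intro i _
      simp only [Matrix.of_apply]
      rw [coeff_top, mul_comm]
    · intro i _
      simp only [Matrix.of_apply]
      exact natDegree_le _ _
  rw [Finset.sum_congr rfl fun σ _ => h3 σ, ← Matrix.det_apply, Matrix.det_mul_row] at h2
  rcases mul_eq_zero.1 h2 with h4 | h4
  · rw [Finset.prod_eq_zero_iff] at h4
    obtain ⟨j, _, hj⟩ := h4
    exact h0 j (leadingCoeff_eq_zero.1 hj)
  · exact det_choose_ne _ hd h4

lemma main (n : ℕ) : ∀ (k : ℕ) (ψ : Fin k → ℚ[X]), (∑ j, (ψ j).natDegree) = n →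
    LinearIndependent ℚ ψ →
    (Matrix.of fun i j : Fin k => hasseDeriv (i : ℕ) (ψ j)).det ≠ 0 := by
  classical
  induction n using Nat.strong_induction_on with
  | _ n ih =>
    intro k ψ hn hψ
    by_cases hd : Function.Injective fun j => (ψ j).natDegree
    · exact det_ne_of_injective ψ (fun j => hψ.ne_zero j) hd
    · rw [Function.not_injective_iff] at hd
      obtain ⟨a, b, hab, hne⟩ := hd
      have hab : (ψ a).natDegree = (ψ b).natDegree := hab
      have ha0 : ψ a ≠ 0 := hψ.ne_zero a
      have hb0 : ψ b ≠ 0 := hψ.ne_zero b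
      set c : ℚ := (ψ b).leadingCoeff / (ψ a).leadingCoeff with hc
      have hla : (ψ a).leadingCoeff ≠ 0 := leadingCoeff_ne_zero.2 ha0
      have hlb : (ψ b).leadingCoeff ≠ 0 := leadingCoeff_ne_zero.2 hb0
      have hc0 : c ≠ 0 := div_ne_zero hlb hla
      set ψ' : Fin k → ℚ[X] := Function.update ψ b (ψ b - C c * ψ a) with hψ'
      have e1 : ψ' b = ψ b - C c * ψ a := by rw [hψ', Function.update_self]
      have e2 : ∀ j, j ≠ b → ψ' j = ψ j := fun j hj => by
        rw [hψ', Function.update_of_ne hj]
      -- independence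
      have hind : LinearIndependent ℚ ψ' := by
        rw [Fintype.linearIndependent_iff] at hψ ⊢
        intro g hg
        have hsum : ∑ i, (g i - if i = a then c * g b else 0) • ψ i = 0 := by
          have e3 : ∀ i, (g i - if i = a then c * g b else 0) • ψ i =
              g i • ψ' i + ((if i = b then (g b * c) • ψ a else 0) -
                (if i = a then (c * g b) • ψ a else 0)) := by
            intro i
            by_cases hib : i = b
            · subst hib
              rw [if_neg (Ne.symm hne), if_neg (Ne.symm hne), if_pos rfl, e1]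
              simp only [sub_zero, smul_eq_C_mul, C_mul]
              ring
            · rw [e2 i hib, if_neg hib]
              by_cases hia : i = a
              · subst hia
                rw [if_pos rfl, if_pos rfl]
                simp only [smul_eq_C_mul, C_mul, C_sub]
                ring
              · rw [if_neg hia, if_neg hia]
                simp
          rw [Finset.sum_congr rfl fun i _ => e3 i, Finset.sum_add_distrib, hg,
            Finset.sum_sub_distrib, Finset.sum_ite_eq' Finset.univ b,
            Finset.sum_ite_eq' Finset.univ a, if_pos (Finset.mem_univ b),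
            if_pos (Finset.mem_univ a), mul_comm c (g b)]
          simp
        have h5 := hψ _ hsum
        have h6 : g b = 0 := by
          have := h5 b
          rw [if_neg (Ne.symm hne)] at this
          simpa using this
        intro i
        have := h5 i
        rw [h6] at this
        simpa using this
      have hb' : ψ' b ≠ 0 := hind.ne_zero b
      -- the degree drops
      have hdeg : (ψ' b).natDegree < (ψ b).natDegree := by
        apply natDegree_lt_natDegree hb'
        rw [e1]
        apply degree_sub_lt_left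
        · rw [degree_C_mul hc0, degree_eq_natDegree ha0, degree_eq_natDegree hb0, hab]
        · exact hb0
        · rw [leadingCoeff_mul, leadingCoeff_C, hc, div_mul_cancel₀ _ hla]
      have hlt : (∑ j, (ψ' j).natDegree) < n := by
        rw [← hn]
        apply Finset.sum_lt_sum
        · intro j _
          by_cases hj : j = b
          · subst hj; exact hdeg.le
          · rw [e2 j hj]
        · exact ⟨b, Finset.mem_univ b, hdeg⟩
      have hres := ih _ hlt k ψ' rfl hind
      -- the determinant is the same
      have hdet : (Matrix.of fun i j : Fin k => hasseDeriv (i : ℕ) (ψ' j)).det =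
          (Matrix.of fun i j : Fin k => hasseDeriv (i : ℕ) (ψ j)).det := by
        rw [← Matrix.det_updateCol_add_smul_self
          (Matrix.of fun i j : Fin k => hasseDeriv (i : ℕ) (ψ j)) (Ne.symm hne) (-C c)]
        congr 1
        ext1 i j
        rw [Matrix.updateCol_apply]
        simp only [Matrix.of_apply]
        split_ifs with hj
        · subst hj
          rw [e1, map_sub, ← smul_eq_C_mul, map_smul, smul_eq_C_mul, smul_eq_mul]
          ring
        · rw [e2 j hj]
      rw [← hdet]
      exact hres

end UniWAux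

theorem uniWronskian : UniWronskian := by
  intro k ψ hψ
  exact UniWAux.main _ k ψ rfl hψ

end MPcc0c1aSub
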