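import Pool.Agent.Lib.MP_cc0c1a_nt.Sub.SpecR

/-!
# MP_cc0c1a_nt / Sub: R7, Kronecker substitution
-/

namespace MPcc0c1aSub

open MvPolynomial

private lemma r7_inj (D : ℕ) : ∀ (m : ℕ) (a b : Fin m → ℕ), (∀ h, a h < D) → (∀ h, b h < D) →
    ∑ h : Fin m, D ^ (h : ℕ) * a h = ∑ h : Fin m, D ^ (h : ℕ) * b h → a = b := by
  intro m
  induction m with
  | zero => intro a b _ _ _; exact Subsingleton.elim _ _
  | succ m ih =>
    intro a b ha hb hab
    rw [Fin.sum_univ_succ, Fin.sum_univ_succ] at hab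
    simp only [Fin.val_zero, pow_zero, one_mul, Fin.val_succ, pow_succ'] at hab
    have e1 : ∑ x : Fin m, D * D ^ (x : ℕ) * a x.succ
        = D * ∑ x : Fin m, D ^ (x : ℕ) * a x.succ := by
      rw [Finset.mul_sum]; exact Finset.sum_congr rfl fun x _ => by ring
    have e2 : ∑ x : Fin m, D * D ^ (x : ℕ) * b x.succ
        = D * ∑ x : Fin m, D ^ (x : ℕ) * b x.succ := by
      rw [Finset.mul_sum]; exact Finset.sum_congr rfl fun x _ => by ring
    rw [e1, e2] at hab
    have hD : 0 < D := lt_of_le_of_lt (Nat.zero_le _) (ha 0)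
    have h0 : a 0 = b 0 := by
      have := congrArg (· % D) hab
      simp only [Nat.add_mul_mod_self_left] at this
      rwa [Nat.mod_eq_of_lt (ha 0), Nat.mod_eq_of_lt (hb 0)] at this
    have h1 : ∑ x : Fin m, D ^ (x : ℕ) * a x.succ = ∑ x : Fin m, D ^ (x : ℕ) * b x.succ := by
      rw [h0] at hab
      exact Nat.eq_of_mul_eq_mul_left hD (Nat.add_left_cancel hab)
    have h2 := ih (fun x => a x.succ) (fun x => b x.succ) (fun x => ha _) (fun x => hb _) h1
    funext h
    refine Fin.cases h0 (fun x => congrFun h2 x) h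

/-- **R7, Kronecker substitution.** -/
theorem kronecker : Kronecker := by
  classical
  intro m D P hdeg hP
  have hval : aeval (fun h : Fin m => (Polynomial.X : Polynomial ℚ) ^ D ^ (h : ℕ)) P
      = ∑ a ∈ P.support, Polynomial.monomial (∑ h : Fin m, D ^ (h : ℕ) * a h) (coeff a P) := by
    rw [aeval_def, eval₂_eq']
    apply Finset.sum_congr rfl
    intro a _
    have : ∏ i : Fin m, ((Polynomial.X : Polynomial ℚ) ^ D ^ (i : ℕ)) ^ a i
        = Polynomial.X ^ (∑ h : Fin m, D ^ (h : ℕ) * a h) := by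
      rw [← Finset.prod_pow_eq_pow_sum]
      exact Finset.prod_congr rfl fun i _ => by rw [← pow_mul]
    rw [this, ← Polynomial.C_mul_X_pow_eq_monomial]
    rfl
  obtain ⟨a₀, ha₀⟩ := Finset.nonempty_iff_ne_empty.mpr (fun h => hP (support_eq_empty.mp h))
  intro h0
  rw [hval] at h0
  have hc := congrArg (fun q => Polynomial.coeff q (∑ h : Fin m, D ^ (h : ℕ) * a₀ h)) h0
  simp only [Polynomial.finsetSum_coeff, Polynomial.coeff_monomial, Polynomial.coeff_zero] at hc
  rw [Finset.sum_eq_single a₀] at hc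
  · rw [if_pos rfl] at hc
    exact (mem_support_iff.mp ha₀) hc
  · intro b hb hne
    rw [if_neg]
    intro heq
    apply hne
    have := r7_inj D m (⇑b) (⇑a₀) (fun h => lt_of_le_of_lt (monomial_le_degreeOf h hb) (hdeg h))
      (fun h => lt_of_le_of_lt (monomial_le_degreeOf h ha₀) (hdeg h)) heq
    exact DFunLike.coe_injective this
  · intro h; exact absurd ha₀ h

end MPcc0c1aSub
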