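import Pool.Agent.Lib.MP_cc0c1a_nt.Sub.R1

/-!
# MP_cc0c1a_nt / Sub: R8, Hasse derivatives along a curve
-/

namespace MPcc0c1aSub

open MvPolynomial

namespace R8

/-- The Hasse derivative is the coefficient of the Taylor expansion with variable centre. -/
lemma hasseDeriv_eq_coeff (i : ℕ) (f : Polynomial ℚ) :
    Polynomial.hasseDeriv i f
      = (Polynomial.taylor (Polynomial.X : Polynomial ℚ) (f.map Polynomial.C)).coeff i := by
  rw [Polynomial.taylor_coeff]
  induction f using Polynomial.induction_on' with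
  | add p q hp hq =>
    rw [map_add, hp, hq, Polynomial.map_add, map_add, Polynomial.eval_add]
  | monomial n a =>
    rw [Polynomial.map_monomial, Polynomial.hasseDeriv_monomial, Polynomial.hasseDeriv_monomial,
      Polynomial.eval_monomial, ← Polynomial.C_mul_X_pow_eq_monomial]
    simp

/-- The increment `γ(T + S) - γ(T)`. -/
noncomputable def del (g : Polynomial ℚ) : Polynomial (Polynomial ℚ) :=
  Polynomial.taylor (Polynomial.X : Polynomial ℚ) (g.map Polynomial.C) - Polynomial.C g

lemma X_dvd_del (g : Polynomial ℚ) : (Polynomial.X : Polynomial (Polynomial ℚ)) ∣ del g := by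
  rw [Polynomial.X_dvd_iff]
  unfold del
  rw [Polynomial.coeff_sub, ← hasseDeriv_eq_coeff, Polynomial.hasseDeriv_zero',
    Polynomial.coeff_C_zero, sub_self]

/-- The summand. -/
noncomputable def G {m : ℕ} (γ : Fin m → Polynomial ℚ) (i : ℕ) (a : Fin m → ℕ) (n : Fin m → ℕ) :
    Polynomial ℚ :=
  (∏ h, del (γ h) ^ n h).coeff i * ∏ h, (γ h ^ (a h - n h) * ((a h).choose (n h) : Polynomial ℚ))

lemma coeff_prod_del_eq_zero {m : ℕ} (γ : Fin m → Polynomial ℚ) (i : ℕ) (n : Fin m → ℕ)
    (h : i < ∑ h, n h) : (∏ h, del (γ h) ^ n h).coeff i = 0 := by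
  have h1 : (Polynomial.X : Polynomial (Polynomial ℚ)) ^ (∑ h, n h) ∣ ∏ h, del (γ h) ^ n h := by
    rw [← Finset.prod_pow_eq_pow_sum]
    exact Finset.prod_dvd_prod_of_dvd _ _ fun h _ => pow_dvd_pow_of_dvd (X_dvd_del (γ h)) _
  rw [Polynomial.X_pow_dvd_iff] at h1
  exact h1 i h

/-- The formula for a monomial, summed over the box below the exponent. -/
lemma monomial_box {m : ℕ} (γ : Fin m → Polynomial ℚ) (i : ℕ) (a : Fin m → ℕ) :
    Polynomial.hasseDeriv i (∏ h, γ h ^ a h)
      = ∑ n ∈ Fintype.piFinset (fun h => Finset.range (a h + 1)), G γ i a n := by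
  have h1 : Polynomial.taylor (Polynomial.X : Polynomial ℚ)
      ((∏ h, γ h ^ a h).map Polynomial.C)
      = ∏ h, (del (γ h) + Polynomial.C (γ h)) ^ a h := by
    have : ∀ f : Polynomial ℚ, Polynomial.taylor (Polynomial.X : Polynomial ℚ)
        (f.map Polynomial.C) = (Polynomial.taylorAlgHom (Polynomial.X : Polynomial ℚ)).toRingHom
          (Polynomial.mapRingHom Polynomial.C f) := fun f => rfl
    rw [this, map_prod, map_prod]
    apply Finset.prod_congr rfl
    intro h _
    rw [map_pow, map_pow, ← this]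
    unfold del
    rw [sub_add_cancel]
  rw [hasseDeriv_eq_coeff, h1]
  simp_rw [add_pow]
  rw [Finset.prod_univ_sum, Polynomial.finsetSum_coeff]
  apply Finset.sum_congr rfl
  intro n _
  unfold G
  have h2 : (∏ h, (del (γ h) ^ n h * Polynomial.C (γ h) ^ (a h - n h)
      * ((a h).choose (n h) : Polynomial (Polynomial ℚ))))
      = (∏ h, del (γ h) ^ n h) * Polynomial.C (∏ h, (γ h ^ (a h - n h)
        * ((a h).choose (n h) : Polynomial ℚ))) := by
    rw [map_prod, ← Finset.prod_mul_distrib]
    apply Finset.prod_congr rfl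
    intro h _
    rw [map_mul, map_pow, map_natCast, mul_assoc]
  rw [h2, Polynomial.coeff_mul_C]

/-- The finset of all `n` with `|n| ≤ i`, as functions. -/
def box (m i : ℕ) : Finset (Fin m → ℕ) :=
  (Fintype.piFinset fun _ : Fin m => Finset.range (i + 1)).filter fun n => ∑ h, n h ≤ i

lemma mem_box {m i : ℕ} (n : Fin m → ℕ) : n ∈ box m i ↔ ∑ h, n h ≤ i := by
  unfold box
  rw [Finset.mem_filter, Fintype.mem_piFinset]
  constructor
  · exact fun h => h.2
  · intro h
    refine ⟨fun x => ?_, h⟩
    have : n x ≤ ∑ h, n h := Finset.single_le_sum (f := n) (fun _ _ => Nat.zero_le _)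
      (Finset.mem_univ x)
    rw [Finset.mem_range]
    omega

lemma G_zero_left {m : ℕ} (γ : Fin m → Polynomial ℚ) (i : ℕ) (a n : Fin m → ℕ)
    (h : n ∉ box m i) : G γ i a n = 0 := by
  unfold G
  rw [coeff_prod_del_eq_zero, zero_mul]
  rw [mem_box] at h
  omega

lemma G_zero_right {m : ℕ} (γ : Fin m → Polynomial ℚ) (i : ℕ) (a n : Fin m → ℕ)
    (h : n ∉ Fintype.piFinset (fun h => Finset.range (a h + 1))) : G γ i a n = 0 := by
  unfold G
  rw [Fintype.mem_piFinset] at h
  push Not at h
  obtain ⟨x, hx⟩ := h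
  rw [Finset.mem_range] at hx
  have : (∏ h, (γ h ^ (a h - n h) * ((a h).choose (n h) : Polynomial ℚ))) = 0 := by
    apply Finset.prod_eq_zero (Finset.mem_univ x)
    rw [Nat.choose_eq_zero_of_lt (by omega), Nat.cast_zero, mul_zero]
  rw [this, mul_zero]

lemma monomial_N {m : ℕ} (γ : Fin m → Polynomial ℚ) (i : ℕ) (a : Fin m → ℕ) :
    Polynomial.hasseDeriv i (∏ h, γ h ^ a h) = ∑ n ∈ box m i, G γ i a n := by
  classical
  rw [monomial_box]
  rw [← Finset.sum_subset (Finset.inter_subset_left (s₂ := box m i))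
    (fun x hx hx' => G_zero_left γ i a x fun h => hx' (Finset.mem_inter.2 ⟨hx, h⟩))]
  exact Finset.sum_subset Finset.inter_subset_right
    (fun x hx hx' => G_zero_right γ i a x fun h => hx' (Finset.mem_inter.2 ⟨h, hx⟩))

end R8

open R8

theorem curveDeriv : CurveDeriv := by
  classical
  intro m γ i
  refine ⟨(box m i).map (Finsupp.equivFunOnFinite (M := ℕ)).symm.toEmbedding,
    fun n => (∏ h, del (γ h) ^ n h).coeff i, ?_, ?_⟩
  · intro n hn
    rw [Finset.mem_map] at hn
    obtain ⟨f, hf, rfl⟩ := hn
    rw [mem_box] at hf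
    rw [Finsupp.degree_eq_sum]
    simpa using hf
  · intro φ
    induction φ using MvPolynomial.induction_on' with
    | add p q hp hq =>
      rw [map_add, map_add, hp, hq, ← Finset.sum_add_distrib]
      apply Finset.sum_congr rfl
      intro n _
      rw [(hasseCoeff m ℚ n p q).2.1, map_add, mul_add]
    | monomial a c =>
      have h1 : (aeval γ) (monomial a c) = Polynomial.C c * ∏ h, γ h ^ a h := by
        rw [aeval_monomial]
        congr 1
        rw [Finsupp.prod_fintype]
        intro i
        exact pow_zero _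
      rw [h1, ← Polynomial.smul_eq_C_mul, map_smul, monomial_N, Finset.sum_map, Finset.smul_sum]
      apply Finset.sum_congr rfl
      intro f _
      have h2 : hasse (Finsupp.equivFunOnFinite.symm f) (monomial a c)
          = monomial (a - Finsupp.equivFunOnFinite.symm f) (c * ∏ h, ((a h).choose (f h) : ℚ)) := by
        unfold hasse
        by_cases hc : c = 0
        · subst hc
          simp
        · rw [support_monomial, if_neg hc, Finset.sum_singleton, coeff_monomial, if_pos rfl]
          rfl
      have h3 : aeval γ (hasse (Finsupp.equivFunOnFinite.symm f) (monomial a c))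
          = Polynomial.C c * ∏ h, (γ h ^ (a h - f h) * ((a h).choose (f h) : Polynomial ℚ)) := by
        rw [h2, aeval_monomial, Finsupp.prod_fintype _ _ (fun i => pow_zero _)]
        rw [Finset.prod_mul_distrib, map_mul, map_prod]
        simp only [map_natCast]
        have : (algebraMap ℚ (Polynomial ℚ)) c = Polynomial.C c := rfl
        rw [this]
        have h4 : ∀ h, (a - Finsupp.equivFunOnFinite.symm f) h = a h - f h := fun h => rfl
        simp only [h4]
        ring
      have h5 : (Finsupp.equivFunOnFinite (M := ℕ)).symm.toEmbedding f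
          = Finsupp.equivFunOnFinite.symm f := rfl
      rw [h5, h3]
      unfold G
      rw [Polynomial.smul_eq_C_mul]
      have h6 : ∀ h, (Finsupp.equivFunOnFinite.symm f : Fin m →₀ ℕ) h = f h := fun h => rfl
      simp only [h6]
      ring

end MPcc0c1aSub
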