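import Pool.Agent.Lib.MP_cc0c1a_nt.Sub.SpecR

/-!
# MP_cc0c1a_nt / Sub: R9, generalised Wronskians
-/

namespace MPcc0c1aSub

open MvPolynomial

namespace R9

/-- A common bound for the degrees of finitely many polynomials. -/
lemma exists_bound {m k : ℕ} (φ : Fin k → MvPolynomial (Fin m) ℚ) :
    ∃ D : ℕ, ∀ (c : Fin k → ℚ) (h : Fin m), (∑ j, c j • φ j).degreeOf h < D := by
  refine ⟨(∑ j, (φ j).totalDegree) + 1, fun c h => ?_⟩
  rw [Nat.lt_succ_iff]
  refine (degreeOf_le_totalDegree _ _).trans ?_
  refine (totalDegree_finsetSum _ _).trans ?_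
  apply Finset.sup_le
  intro j _
  refine (totalDegree_smul_le _ _).trans ?_
  exact Finset.single_le_sum (f := fun j => (φ j).totalDegree) (fun _ _ => Nat.zero_le _)
    (Finset.mem_univ j)

end R9

open R9

theorem genWronskian (h1 : HasseCoeff) (h6 : UniWronskian) (h7 : Kronecker) (h8 : CurveDeriv) :
    GenWronskian := by
  classical
  intro m k φ hφ
  obtain ⟨D, hD⟩ := exists_bound φ
  set γ : Fin m → Polynomial ℚ := fun h => (Polynomial.X : Polynomial ℚ) ^ D ^ (h : ℕ) with hγ
  have hind : LinearIndependent ℚ (fun j => aeval γ (φ j)) := by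
    rw [Fintype.linearIndependent_iff] at hφ ⊢
    intro c hc
    apply hφ c
    by_contra hne
    apply h7 m D (∑ j, c j • φ j) (hD c) hne
    rw [map_sum]
    simp only [map_smul]
    exact hc
  have hW := h6 k _ hind
  choose N A hN1 hN2 using fun i : Fin k => h8 m γ (i : ℕ)
  -- row expansion
  have hrow : (Matrix.of fun i j : Fin k => Polynomial.hasseDeriv (i : ℕ) (aeval γ (φ j)))
      = fun i => ∑ n ∈ N i, A i n • (fun j => aeval γ (hasse n (φ j))) := by
    funext i j
    rw [Matrix.of_apply, hN2, Finset.sum_apply]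
    rfl
  have hdet : (Matrix.of fun i j : Fin k =>
      Polynomial.hasseDeriv (i : ℕ) (aeval γ (φ j))).det
      = ∑ n ∈ Fintype.piFinset N, (Matrix.of fun i j : Fin k =>
        A i (n i) * aeval γ (hasse (n i) (φ j))).det := by
    have := (Matrix.detRowAlternating (n := Fin k) (R := Polynomial ℚ)).toMultilinearMap.map_sum_finset
      (fun i n => A i n • (fun j => aeval γ (hasse n (φ j)))) N
    rw [hrow]
    exact this
  rw [hdet] at hW
  obtain ⟨n, hn, hne⟩ := Finset.exists_ne_zero_of_sum_ne_zero hW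
  rw [Fintype.mem_piFinset] at hn
  refine ⟨n, fun i => hN1 i _ (hn i), ?_⟩
  intro h0
  apply hne
  have h2 := Matrix.det_mul_column (fun i => A i (n i))
    (Matrix.of fun i j : Fin k => aeval γ (hasse (n i) (φ j)))
  have h3 : (Matrix.of fun i j : Fin k => aeval γ (hasse (n i) (φ j))).det
      = aeval γ (Matrix.of fun i j : Fin k => hasse (n i) (φ j)).det := by
    rw [AlgHom.map_det]
    rfl
  rw [h3, h0, map_zero, mul_zero] at h2
  exact h2

end MPcc0c1aSub
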