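import Pool.Agent.Lib.MP_cc0c1a_nt.Sub.SpecM

/-!
# MP_cc0c1a_nt / Sub: statements D (the two-power theorem and the automaton)

Notation in the proofs: `D₁ = 3^M`, `D₂ = 3^N 2^(M-N)`, `D₃ = 2^(M+κ)`, `e = (D₁, D₂, D₃ c)`,
`θ = (a₁/b)(3/2)^M/2^κ`, so `a₁ D₁ s - b D₃ t = b D₃ (θ s - t)`.
-/

namespace MPcc0c1aSub

/-- The forms `X, Y, a₁ X - a₂ Y - b Z`. -/
def Mp (a₁ a₂ b : ℤ) : Matrix (Fin 3) (Fin 3) ℤ := !![1, 0, 0; 0, 1, 0; a₁, -a₂, -b]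

/-- The dual forms (up to factors) `b p + a₁ r, b q - a₂ r, r`. -/
def Md (a₁ a₂ b : ℤ) : Matrix (Fin 3) (Fin 3) ℤ := !![b, 0, a₁; 0, b, -a₂; 0, 0, 1]

/-- Exceptional quadruples. -/
def Exc (a₁ a₂ b : ℤ) (ε : ℝ) (M N κ : ℕ) (c : ℤ) : Prop :=
  N ≤ M ∧ c ≠ 0 ∧
    |(a₁ / b : ℝ) * (3 / 2) ^ M - (a₂ / b : ℝ) * (3 / 2) ^ N - 2 ^ κ * c|
      < 2 ^ κ * Real.exp (-ε * M)

/-- The number `θ`. -/
noncomputable def thet (a₁ b : ℤ) (M κ : ℕ) : ℝ := (a₁ / b : ℝ) * (3 / 2) ^ M / 2 ^ κ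

/-- **D1, dichotomy for a plane lattice.**

Proof.  Let `s₁` be the least positive integer for which some integer `t₁` satisfies
`|θ s₁ - t₁| ≤ 1/T`; by Dirichlet (`Real.exists_nat_abs_mul_sub_round_le` with `n = ⌊T⌋`,
`1/(n+1) < 1/T`) `s₁ ≤ T`.  If `s₁ ≤ S` we are in the first case.  Otherwise `s₁ ≥ 2`, and Dirichlet
with `n = s₁ - 1` gives `1 ≤ s₀ ≤ s₁ - 1` and `t₀` with `|θ s₀ - t₀| ≤ 1/s₁`; and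
`|θ s₁ - t₁| ≤ 1/T ≤ 1/s₁`.  If `s₀ t₁ = s₁ t₀`, let `g = gcd(s₁, t₁)`; then `s₁/g` divides `s₀`
(`s₀ (t₁/g) = (s₁/g) t₀`, coprimality), so `g ≥ 2`, and `|θ (s₁/g) - t₁/g| ≤ 1/(g T) ≤ 1/T`
contradicts minimality. -/
def Dichotomy : Prop :=
  ∀ θ S T : ℝ, 1 ≤ S → S ≤ T →
    (∃ s t : ℤ, 1 ≤ s ∧ (s : ℝ) ≤ S ∧ |θ * s - t| ≤ 1 / T) ∨
    ∃ s₀ t₀ s₁ t₁ : ℤ, 1 ≤ s₀ ∧ s₀ < s₁ ∧ S < s₁ ∧ (s₁ : ℝ) ≤ T ∧ |θ * s₀ - t₀| ≤ 1 / s₁ ∧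
      |θ * s₁ - t₁| ≤ 1 / s₁ ∧ s₀ * t₁ ≠ s₁ * t₀

/-- **D2, bound for `κ`.**

Proof.  `2^κ ≤ 2^κ |c| ≤ ((|a₁| + |a₂|)/b)(3/2)^M + 2^κ exp(-ε M)` and `exp(-ε M) ≤ 1/2` for large
`M`; so `2^κ ≤ K (3/2)^M` with `K = 2(|a₁| + |a₂|)/b > 0`, which is `≤ 2^M` for large `M`. -/
def KappaBound : Prop :=
  ∀ (a₁ a₂ b : ℤ) (ε : ℝ), a₁ ≠ 0 → 0 < b → 0 < ε → ∃ (K : ℝ) (M₀ : ℕ), 0 < K ∧
    ∀ M ≥ M₀, ∀ (N κ : ℕ) (c : ℤ), Exc a₁ a₂ b ε M N κ c → (2 : ℝ) ^ κ ≤ K * (3 / 2) ^ M ∧ κ ≤ M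

/-- **D3, primitive normals.**

Proof.  `w = x × x'` (cross product) is a nonzero integer vector orthogonal to `x` and `x'`;
`g` = gcd of its coordinates, `u = w / g`. -/
def ExistsNormal : Prop :=
  ∀ x x' : Fin 3 → ℤ, Indep x x' → ∃ (u : Fin 3 → ℤ) (g : ℤ), Normal x x' u ∧ g ≠ 0 ∧
    x 1 * x' 2 - x 2 * x' 1 = g * u 0 ∧ x 2 * x' 0 - x 0 * x' 2 = g * u 1 ∧
    x 0 * x' 1 - x 1 * x' 0 = g * u 2

/-- **D4, the case of a small vector** (from D2, D3).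

Proof.  `x = e = (D₁, D₂, D₃ c)`, `x' = f = (D₁ s, 0, D₃ t)`; `A = (0, M-N, M+κ)`, `B = (M, N, 0)`.
Divisibility clear.  Sizes: `|e_1| = 3^M`, `|f_1| = 3^M s ≤ exp((log 3 + ε/3) M)`;
`|e_2| = exp(N log 3 + (M-N) log 2) ≤ exp((ν log 3 + (1-ν) log 2 + ε') M)`, `f_2 = 0`;
`|a₁ e_1 - a₂ e_2 - b e_3| = b 2^M |(a₁/b)(3/2)^M - (a₂/b)(3/2)^N - 2^κ c| < b D₃ exp(-ε M)` and
`|a₁ f_1 - b f_3| = b D₃ |θ s - t| ≤ b D₃ exp(-(2ε/3) M)`, and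
`b D₃ = exp(log b + (M+κ) log 2) ≤ exp(((1+λ) log 2 + ε') M)` when `log b ≤ (ε'/4) M`.
Exponents: `|N - ν M| ≤ (ε'/2) M` etc.  Independence: second and first coordinates.
Height: with `u, g` from D3: `g u_0 = e_2 f_3 - e_3 f_2 = D₂ D₃ t`, `g u_2 = -D₁ D₂ s`.  `t ≠ 0`, because
`|θ| s ≥ |θ| ≥ (|a₁|/b)/K > exp(-(2ε/3)M)` (D2) for large `M`.  `g` divides `D₂ (2^(M+κ) t)` and
`D₂ (3^M s)`; with `v 2^(M+κ) + w 3^M = 1`: `s t = v s (2^(M+κ) t) + w t (3^M s)`, so `g ∣ D₂ s t ≠ 0`,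
`|g| ≤ D₂ s |t|` and `|u_0| ≥ D₃/s ≥ 2^M exp(-(ε/3)M) ≥ exp((log 2 - 1/3) M) ≥ exp((log 2 / 2) M)`
(`log 2 > 2/3`, `ε ≤ 1`). -/
def CaseTwo : Prop :=
  ∀ (a₁ a₂ b : ℤ) (ε ε' : ℝ), a₁ ≠ 0 → 0 < b → 0 < ε → ε ≤ 1 → 0 < ε' → ∃ M₀ : ℕ, ∀ M ≥ M₀,
    ∀ (N κ : ℕ) (c s t : ℤ) (ν lam : ℝ), Exc a₁ a₂ b ε M N κ c → 1 ≤ s →
      (s : ℝ) ≤ Real.exp (ε / 3 * M) → |thet a₁ b M κ * s - t| ≤ 1 / Real.exp (2 * (ε / 3) * M) →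
      |(N : ℝ) - ν * M| ≤ ε' / 2 * M → |(κ : ℝ) - lam * M| ≤ ε' / 2 * M →
      HasDatum (Mp a₁ a₂ b)
        ![Real.log 3 + ε / 3, ν * Real.log 3 + (1 - ν) * Real.log 2,
          (1 + lam) * Real.log 2 - 2 * (ε / 3)]
        ![0, 1 - ν, 1 + lam] ![1, ν, 0] ε' (Real.log 2 / 2) M

/-- **D5, the balanced case** (from D3).

Proof.  For `(s, t) = (s₀, t₀), (s₁, t₁)` let `f = (D₁ s, 0, D₃ t)` and `y = e × f =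
(D₂ D₃ t, D₁ D₃ (c s - t), -D₁ D₂ s)`.  `x = y` for `(s₀, t₀)`, `x' = y` for `(s₁, t₁)`;
`A = ((M-N)+(M+κ), M+κ, M-N)`, `B = (N, M, M+N)`.  Sizes, with
`δ = (a₁/b)(3/2)^M - (a₂/b)(3/2)^N - 2^κ c`, `|δ| < 2^κ exp(-εM)`:
`b y_1 + a₁ y_3 = -b D₂ D₃ (θ s - t)`, of size `≤ b D₂ D₃ / s₁`;
`b y_2 - a₂ y_3 = b D₁ (D₃ (θ s - t) - 2^M δ s)` (check with `a₂ D₂ = a₁ D₁ - b D₃ c - b 2^M δ`), of size
`≤ b D₁ D₃ (1/s₁ + exp(-εM) s₁) ≤ 2 b D₁ D₃ exp(-(ε/3)M)`;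
`|y_3| = D₁ D₂ s ≤ D₁ D₂ s₁`.  `D₁ D₂ D₃` and `s₁ = exp(log s₁)` are compared with the exponents by
`|N - νM|, |κ - λM|, |log s₁ - z M| ≤ (ε'/4) M`; `log(2b) ≤ (ε'/4) M`.
Independence: `s₀ t₁ ≠ s₁ t₀` (first and third coordinates).
Normal: `u = e / g`, `g` = gcd of the coordinates of `e`; `e · y = 0`.  `g` divides `3^M` and
`2^(M+κ) c`, so it divides `c` (Bezout), and `|u_3| = D₃ |c| / g ≥ D₃ ≥ 2^M`. -/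
def CaseOne : Prop :=
  ∀ (a₁ a₂ b : ℤ) (ε ε' : ℝ), a₁ ≠ 0 → 0 < b → 0 < ε → ε ≤ 1 → 0 < ε' → ∃ M₀ : ℕ, ∀ M ≥ M₀,
    ∀ (N κ : ℕ) (c s₀ t₀ s₁ t₁ : ℤ) (ν lam z : ℝ), Exc a₁ a₂ b ε M N κ c → 1 ≤ s₀ → s₀ < s₁ →
      Real.exp (ε / 3 * M) < s₁ → (s₁ : ℝ) ≤ Real.exp (2 * (ε / 3) * M) →
      |thet a₁ b M κ * s₀ - t₀| ≤ 1 / s₁ → |thet a₁ b M κ * s₁ - t₁| ≤ 1 / s₁ →
      s₀ * t₁ ≠ s₁ * t₀ →
      |(N : ℝ) - ν * M| ≤ ε' / 4 * M → |(κ : ℝ) - lam * M| ≤ ε' / 4 * M →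
      |Real.log s₁ - z * M| ≤ ε' / 4 * M →
      HasDatum (Md a₁ a₂ b)
        ![(1 - ν) * Real.log 2 + ν * Real.log 3 + (1 + lam) * Real.log 2 - z,
          Real.log 3 + (1 + lam) * Real.log 2 - ε / 3,
          Real.log 3 + (1 - ν) * Real.log 2 + ν * Real.log 3 + z]
        ![(1 - ν) + (1 + lam), 1 + lam, 1 - ν] ![ν, 1, 1 + ν] ε' (Real.log 2 / 2) M

/-- **D6, the two-power theorem** (from `Machine`, D1, D2, D4, D5).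

Proof.  We may assume `ε ≤ 1`.  Suppose there are exceptional quadruples `(M, N, κ, c)` with `M`
arbitrarily large (the negation of the inequality is `Exc`); by D2 `N, κ ≤ M`.  For each of them D1
with `S = exp((ε/3)M)`, `T = exp(2(ε/3)M)` and `θ = thet` gives case two or case one.  Choose a
sequence with `M → ∞` along which always the same case occurs and `N/M → ν`, `κ/M → λ` (and
`log s₁ / M → z` in case one) in `[0, 1]` (compactness).  So for every `ε' > 0` and every `l₀`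
there is `M ≥ l₀` with `HasDatum ..` by D4 or D5.  The sum of the `c_i` is the sum of the
`α_i log 2 + β_i log 3` minus `ε/3` in both cases, `det (Mp) = -b`, `det (Md) = b²`: this contradicts
`Machine` with `η = ε/3`, `γ = log 2 / 2`. -/
def TwoPow : Prop :=
  ∀ (a₁ a₂ b : ℤ) (ε : ℝ), a₁ ≠ 0 → 0 < b → 0 < ε → ∃ M₀ : ℕ, ∀ M ≥ M₀, ∀ N ≤ M, ∀ (κ : ℕ) (c : ℤ),
    c ≠ 0 → 2 ^ κ * Real.exp (-ε * M)
      ≤ |(a₁ / b : ℝ) * (3 / 2) ^ M - (a₂ / b : ℝ) * (3 / 2) ^ N - 2 ^ κ * c|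

/-! ## The automaton -/

/-- A configuration: a two-sided infinite word over the alphabet `{0,...,5}`. -/
abbrev Config : Type := ℤ → Fin 6

/-- The local rule `f(s,t) = (3 s mod 6) + ⌊3 t / 6⌋`. -/
def localRule (s t : Fin 6) : Fin 6 :=
  ⟨(3 * s.val) % 6 + (3 * t.val) / 6, by omega⟩

/-- The automaton `F_{×3}`. -/
def Fx3 (x : Config) : Config := fun i => localRule (x i) (x (i + 1))

/-- The right shift `σ⁻¹`. -/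
def rightShift (x : Config) : Config := fun i => x (i - 1)

/-- The automaton `F = F_{×3} ∘ F_{×3} ∘ σ⁻¹`. -/
def F (x : Config) : Config := Fx3 (Fx3 (rightShift x))

/-- Finite configurations: only finitely many nonzero digits. -/
def IsFin (x : Config) : Prop := {i : ℤ | x i ≠ 0}.Finite

/-- The word of length `l` shown at the position `j` by `F^n(x)`. -/
def rowWord (x : Config) (j : ℤ) (l n : ℕ) : Fin l → Fin 6 := fun i => F^[n] x (j + (i : ℕ))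

/-- The word of length `l` formed by the digits at the position `j` of
`F^n(x), F^(n+1)(x), …, F^(n+l-1)(x)`. -/
def colWord (x : Config) (j : ℤ) (l n : ℕ) : Fin l → Fin 6 := fun i => F^[n + (i : ℕ)] x j

/-- **D7, digits.**

Proof.  The lemmas `rightShift_dig`, `Fx3_dig`, `F_dig`, `iter_F_dig`, `exists_digits`,
`floor_zpow_neg`, `fin_eq_dig` of Pool/Agent/Results/MP_cc0c1a_nt/DensityOnePositions.lean (copy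
them, private, into your file): `x = dig (n₀ / 6^r₀)` and `F^[n] (dig z) = dig (z (3/2)^n)`,
`dig z i = ⌊6^i z⌋₊ % 6`.  `n₀ > 0` because `x ≠ 0`. -/
def Digits : Prop :=
  ∀ x : Config, IsFin x → x ≠ 0 → ∃ n₀ r₀ : ℕ, 0 < n₀ ∧ ∀ (n : ℕ) (j : ℤ),
    ((F^[n] x j : Fin 6) : ℕ) = ⌊(6 : ℝ) ^ j * ((n₀ : ℝ) / 6 ^ r₀ * (3 / 2) ^ n)⌋₊ % 6

/-- **D8, equal rows.**

Proof.  `⌊6^(i+1) y⌋ = 6 ⌊6^i y⌋ + (⌊6^(i+1) y⌋ % 6)` (`Nat.floor_div_natCast`), so by induction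
`⌊6^l y⌋ - 6^l ⌊y⌋` depends only on the digits `i < l` and is the same for `y'`.  With
`|6^l y - ⌊6^l y⌋ - (6^l y' - ⌊6^l y'⌋)| < 1` divide by `6^l`. -/
def RowEq : Prop :=
  ∀ (y y' : ℝ) (l : ℕ), 0 ≤ y → 0 ≤ y' →
    (∀ i < l, ⌊(6 : ℝ) ^ (i + 1) * y⌋₊ % 6 = ⌊(6 : ℝ) ^ (i + 1) * y'⌋₊ % 6) →
    |y - y' - ((⌊y⌋₊ : ℝ) - ⌊y'⌋₊)| < 1 / 6 ^ l

/-- **D9, equal columns.**

Proof.  `M_k = ⌊y (3/2)^k⌋`, `M'_k` likewise; `c_k = 2 M_{k+1} - 3 M_k = 3 {y_k} - 2 {y_{k+1}}` is an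
integer in `(-2, 3)`, and so is `c'_k`; `c_k ≡ c'_k` mod `6` for `k < l`, so `c_k = c'_k`.  Hence
`2 (M_{k+1} - M'_{k+1}) = 3 (M_k - M'_k)`, so `2^l (M_l - M'_l) = 3^l (M_0 - M'_0)` and
`2^l ∣ M_0 - M'_0`; and `(y_l - y'_l) - (M_l - M'_l) = (3/2)^l ((y - y') - (M_0 - M'_0))` has absolute
value `< 1`. -/
def ColEq : Prop :=
  ∀ (y y' : ℝ) (l : ℕ), 0 ≤ y → 0 ≤ y' →
    (∀ k ≤ l, ⌊y * (3 / 2) ^ k⌋₊ % 6 = ⌊y' * (3 / 2) ^ k⌋₊ % 6) →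
    ∃ c : ℤ, (⌊y⌋₊ : ℤ) - ⌊y'⌋₊ = 2 ^ l * c ∧ |y - y' - 2 ^ l * c| < (2 / 3) ^ l

/-- **D10, separation of rows** (from D6, D7, D8).

Proof.  `ξ = 6^(j-1) n₀/6^(r₀) = a/b` with `a, b > 0` integers, `y_n = ξ (3/2)^n`; the digit of `F^n(x)` at
the position `j + i` is `⌊6^(i+1) y_n⌋ % 6`.  If the words agree, D8 gives
`|y_m - y_n - c| < 6^(-l) ≤ exp(-ε (log 6) m)`, `c = ⌊y_m⌋ - ⌊y_n⌋`, and `c ≠ 0` for `m ≥ N₀` because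
`y_m - y_n ≥ y_m / 3 ≥ 2`.  This contradicts D6 with `a₁ = a₂ = a`, `κ = 0`, and `ε log 6` for `ε`. -/
def RowSep : Prop :=
  ∀ x : Config, IsFin x → x ≠ 0 → ∀ (j : ℤ) (ε : ℝ), 0 < ε → ∃ N₀ : ℕ, ∀ m ≥ N₀, ∀ n < m,
    ∀ l : ℕ, ε * m ≤ l → rowWord x j l n ≠ rowWord x j l m

/-- **D11, separation of columns** (from D6, D7, D9).

Proof.  `ξ = 6^j n₀/6^(r₀) = a/b`, `y_n = ξ (3/2)^n`, the digit of `F^n(x)` at `j` is `⌊y_n⌋ % 6`.  If the words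
of length `l + 1` agree, D9 gives `|y_m - y_n - 2^l c| < (2/3)^l = 2^l 3^(-l) ≤ 2^l exp(-ε (log 3) m)`,
and `2^l c = ⌊y_m⌋ - ⌊y_n⌋ ≠ 0` for large `m`.  Contradiction with D6. -/
def ColSep : Prop :=
  ∀ x : Config, IsFin x → x ≠ 0 → ∀ (j : ℤ) (ε : ℝ), 0 < ε → ∃ N₀ : ℕ, ∀ m ≥ N₀, ∀ n < m,
    ∀ l : ℕ, ε * m ≤ l → colWord x j (l + 1) n ≠ colWord x j (l + 1) m

/-- **D12, superlinear complexity from separation.**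

Proof.  Let `C > 0` (otherwise replace `C` by `1`), `ε = 1/(C + 2)`, `N₀` from the hypothesis.  For
`l ≥ N₀ + 1` the words `w l n`, `N₀ ≤ n ≤ (C + 2) l`, are pairwise different (`ε m ≤ l`), so their number
is at least `(C + 2) l - N₀ - 1 ≥ C l`. -/
def Count : Prop :=
  ∀ (w : (l : ℕ) → ℕ → (Fin l → Fin 6)),
    (∀ ε : ℝ, 0 < ε → ∃ N₀ : ℕ, ∀ m ≥ N₀, ∀ n < m, ∀ l : ℕ, ε * m ≤ l → w l n ≠ w l m) →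
    ∀ C : ℝ, ∃ l₀ : ℕ, ∀ l ≥ l₀, C * l ≤ ((Set.range (w l)).ncard : ℝ)

/-- **The final theorem** (from D10, D11, D12; for columns apply D12 with `ε` for words of length `l`,
`l ≥ 1`: `l - 1 ≥ (ε/2) m` if `l ≥ ε m` and `l ≥ 2`). -/
def Final : Prop :=
  ∀ x : Config, IsFin x → x ≠ 0 → ∀ j : ℤ,
    (∀ ε : ℝ, 0 < ε → ∃ N₀ : ℕ, ∀ m ≥ N₀, ∀ n < m, ∀ l : ℕ, ε * m ≤ l →
      rowWord x j l n ≠ rowWord x j l m ∧ colWord x j l n ≠ colWord x j l m) ∧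
    ∀ C : ℝ, ∃ l₀ : ℕ, ∀ l ≥ l₀, C * l ≤ ((Set.range (rowWord x j l)).ncard : ℝ) ∧
      C * l ≤ ((Set.range (colWord x j l)).ncard : ℝ)

end MPcc0c1aSub
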