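import Pool.Agent.Lib.MP_cc0c1a_nt.Sub.SpecR

/-!
# MP_cc0c1a_nt / Sub: statements M (the auxiliary polynomial, the theorem on planes)
-/

namespace MPcc0c1aSub

open MvPolynomial

open Classical in
/-- **M1, most exponent arrays are balanced.**

Proof.  Fix `i`.  On the set `piAntidiag univ r` (`r ≥ 1`) the mean of `f = j_i / r - 1/3` is `0`
(by symmetry the sums of `j_0, j_1, j_2` are equal, and `∑_i j_i = r`), and `|f| ≤ 1`.  `JJ r` is a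
product; for `f_h` of mean `0` depending on the block `h` only,
`∑_{j ∈ JJ r} (∑_h f_h)² = ∑_h ∑_j f_h² ≤ m #(JJ r)` (cross terms `h ≠ h'` vanish: sum over the
block `h` first).  Chebyshev: the number of `j` with `|∑_h f_h| > ε m` is at most
`m #(JJ r) / (ε m)² = #(JJ r) / (ε² m)`.  Sum over `i`. -/
def CountJ : Prop :=
  ∀ (m : ℕ) (r : Fin m → ℕ) (ε : ℝ), 0 < ε → 1 ≤ m → (∀ h, 0 < r h) →
    (((JJ r).filter fun j => ¬ Balanced ε r j).card : ℝ) ≤ 3 / (ε ^ 2 * m) * (JJ r).card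

/-- **M2, number of exponent arrays.**

Proof.  `#(piAntidiag univ r) = binom(r + 2, 2) = (r + 2)(r + 1)/2 ≤ 4^r` for all `r ≥ 0` (induction;
or inject the triples into pairs `(j_0, j_1) ∈ (range (r+1))²`, `(r + 1)² ≤ 4^r`), and
`Fintype.card_piFinset`.  Nonempty: `j_h = (r_h, 0, 0)`. -/
def CardJ : Prop :=
  ∀ (m : ℕ) (r : Fin m → ℕ), 0 < (JJ r).card ∧ (JJ r).card ≤ 4 ^ (∑ h, r h)

/-- **M3, change of frame.**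

Proof.  Let `N = M.adjugate`, `N * M = det M • 1`; so `det M * v_i = ∑_k N_{ik} (M v)_k` for
every vector `v` over a commutative ring.  For `j' ∈ piAntidiag univ r` let
`G_{j'} = ∏_i (∑_k N_{ik} Y_k)^(j'_i) ∈ ℤ[Y_0, Y_1, Y_2]`, homogeneous of degree `r`, and let
`t_r(j, j')` be its coefficient at `Y^j`; then `det M^r ∏ v_i^(j'_i) = G_{j'}(M v) =
∑_{j ∈ piAntidiag univ r} t_r(j, j') ∏ (M v)_i^(j_i)`.  `T j j' = ∏_h t_{r_h}(j_h, j'_h)`.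
Bound: the sum of the absolute values of the coefficients is submultiplicative (`NormCalc`, `w = 1`),
so `|t_r| ≤ (3 max |N|)^r`; `C = 3 max|N| + 1`. -/
def Change : Prop :=
  ∀ M : Matrix (Fin 3) (Fin 3) ℤ, ∃ C : ℝ, 1 ≤ C ∧ ∀ (m : ℕ) (r : Fin m → ℕ),
    ∃ T : (Fin m → Fin 3 → ℕ) → (Fin m → Fin 3 → ℕ) → ℤ,
      (∀ j ∈ JJ r, ∀ j' ∈ JJ r, |(T j j' : ℝ)| ≤ C ^ (∑ h, r h)) ∧
      ∀ (A : Type) [CommRing A] (p : (Fin m → Fin 3 → ℕ) → ℤ) (v : Fin m → Fin 3 → A),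
        (M.det : A) ^ (∑ h, r h) * val r p v
          = val r (fun j => ∑ j' ∈ JJ r, T j j' * p j') (fun h => app M (v h))

/-- **M4, the auxiliary polynomial** (from M1, M2, M3).

Proof.  `C₀` the constant of M3.  Unknowns: `p j` for the balanced `j ∈ JJ r` (at least
`(1 - 3/(ε² m)) #JJ ≥ 7/8 #JJ` many); equations: `∑_{j'} T j j' p j' = 0` for the unbalanced
`j ∈ JJ r` (at most `#JJ / 8` many).  Siegel's lemma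
(`Int.Matrix.exists_ne_zero_int_vec_norm_le`; the norm is the sup norm): a nonzero integer solution
with `|p| ≤ (#JJ · max 1 ‖T‖)^(e)`, `e = eqs / (unknowns - eqs) ≤ (1/8)/(6/8) ≤ 1`, so
`|p| ≤ (4 C₀)^(∑ r)`.  (If there are no equations take `p = 1` at one array.)  `p j = 0` for all
other `j`; `d j = ∑_{j'} T j j' p j'`, `|d j| ≤ 4^(∑ r) C₀^(∑ r) (4 C₀)^(∑ r)`; `C = 16 C₀²`. -/
def Aux : Prop :=
  ∀ M : Matrix (Fin 3) (Fin 3) ℤ, ∃ C : ℝ, 1 ≤ C ∧ ∀ (m : ℕ) (r : Fin m → ℕ) (ε : ℝ),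
    0 < ε → 24 ≤ ε ^ 2 * m → (∀ h, 0 < r h) →
    ∃ p d : (Fin m → Fin 3 → ℕ) → ℤ, (∃ j ∈ JJ r, p j ≠ 0) ∧
      (∀ j ∈ JJ r, p j ≠ 0 → Balanced ε r j) ∧ (∀ j, |(p j : ℝ)| ≤ C ^ (∑ h, r h)) ∧
      (∀ j ∈ JJ r, d j ≠ 0 → Balanced ε r j) ∧ (∀ j ∈ JJ r, |(d j : ℝ)| ≤ C ^ (∑ h, r h)) ∧
      ∀ (A : Type) [CommRing A] (v : Fin m → Fin 3 → A),
        (M.det : A) ^ (∑ h, r h) * val r p v = val r d (fun h => app M (v h))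

/-- **M5, the weighted `ℓ¹` norm.**

Proof.  The sum may be extended to any finset containing the support.  Additivity: coefficientwise
triangle inequality.  Products: `f * g = ∑_a ∑_b monomial (a + b) (f_a g_b)` (`MvPolynomial.mul_def`),
and `wl1 w (monomial a c) = |c| ∏ w^a`; use subadditivity. -/
def NormCalc : Prop :=
  ∀ (σ : Type) [Fintype σ] (w : σ → ℝ), (∀ i, 0 ≤ w i) →
    (∀ f, 0 ≤ wl1 w f) ∧ (∀ f g, wl1 w (f + g) ≤ wl1 w f + wl1 w g) ∧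
    (∀ f g, wl1 w (f * g) ≤ wl1 w f * wl1 w g) ∧ (∀ c : ℤ, wl1 w (C c) = |(c : ℝ)|) ∧
    (∀ i, wl1 w (X i) = w i) ∧
    ∀ f a, |((coeff a f : ℤ) : ℝ)| * ∏ i, w i ^ a i ≤ wl1 w f

/-- **M6, real bound for the coefficients of the generic value** (from M5).

Proof.  Let `w (h, 0) = w (h, 1) = 1`, `w (h, 2) = ρ h`.  `app M (gv x x' dir h) i
= (M x_h)_i X(h,0) + (M x'_h)_i X(h,1) + M_{i, dir h} X(h,2)` has norm `≤ 3 Λ h i`.  So the norm of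
`val r d (app M gv)` is at most `∑_{j ∈ JJ r} |d j| ∏ (3 Λ)^(j) = 3^(∑ r) ∑ |d j| ∏ Λ^j
≤ #JJ 3^(∑ r) T`.  It equals the norm of `det M^(∑ r) * val r p gv` (identity for
`A = MvPolynomial (Fin m × Fin 3) ℤ`), which is `|det M|^(∑ r) wl1 (val r p gv) ≥ wl1 (val r p gv)`
(coefficients are multiplied by the integer `det M^(∑ r) ≠ 0`).  Last item of M5. -/
def RealBound : Prop :=
  ∀ (m : ℕ) (r : Fin m → ℕ) (p d : (Fin m → Fin 3 → ℕ) → ℤ) (M : Matrix (Fin 3) (Fin 3) ℤ)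
    (x x' : Fin m → Fin 3 → ℤ) (dir : Fin m → Fin 3) (Λ : Fin m → Fin 3 → ℝ) (ρ : Fin m → ℝ)
    (T : ℝ), M.det ≠ 0 →
    (∀ (A : Type) [CommRing A] (v : Fin m → Fin 3 → A),
      (M.det : A) ^ (∑ h, r h) * val r p v = val r d (fun h => app M (v h))) →
    (∀ h, 0 < ρ h) → (∀ h i, 0 ≤ Λ h i) →
    (∀ h i, |((app M (x h) i : ℤ) : ℝ)| ≤ Λ h i ∧ |((app M (x' h) i : ℤ) : ℝ)| ≤ Λ h i ∧
      |(M i (dir h) : ℝ)| * ρ h ≤ Λ h i) →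
    (∀ j ∈ JJ r, |(d j : ℝ)| * ∏ h, ∏ i, Λ h i ^ j h i ≤ T) →
    ∀ a : Fin m × Fin 3 →₀ ℕ,
      |((coeff a (val r p (gv x x' dir)) : ℤ) : ℝ)| * ∏ h, ρ h ^ a (h, 2)
        ≤ (JJ r).card * 3 ^ (∑ h, r h) * T

/-- **M7, divisibility of the coefficients of the generic value.**

Proof.  Let `Φ` be the algebra endomorphism of `ℤ[X]` with `X(h,0), X(h,1)` fixed and
`X(h,2) ↦ b^(A' h) X(h,2)`; `coeff a (Φ f) = b^(∑ A' h a(h,2)) coeff a f` (check on monomials).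
`Φ (gv h i)` is divisible by `b^(A h i)` (`A h i ≤ A' h`), so every term of
`Φ (val r p gv) = val r p (Φ gv)` with `p j ≠ 0` is divisible by `b^(∑ A h i j h i)`, hence by `b^E`;
a polynomial divisible by the integer `b^E` has all coefficients divisible by it. -/
def DivBound : Prop :=
  ∀ (m : ℕ) (r : Fin m → ℕ) (p : (Fin m → Fin 3 → ℕ) → ℤ) (x x' : Fin m → Fin 3 → ℤ)
    (dir : Fin m → Fin 3) (b : ℤ) (A : Fin m → Fin 3 → ℕ) (A' : Fin m → ℕ) (E : ℕ),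
    (∀ h i, b ^ A h i ∣ x h i ∧ b ^ A h i ∣ x' h i) → (∀ h i, A h i ≤ A' h) →
    (∀ j ∈ JJ r, p j ≠ 0 → E ≤ ∑ h, ∑ i, A h i * j h i) →
    ∀ a : Fin m × Fin 3 →₀ ℕ,
      b ^ E ∣ b ^ (∑ h, A' h * a (h, 2)) * coeff a (val r p (gv x x' dir))

/-- **M8, vanishing** (from M2, M6, M7).  `1 ≤ m`; scales `l h ≥ L₀`, degrees `r h` with
`R ≤ r h * l h ≤ (1 + ε) R`.

Proof.  `K = 1 + ∑ |c_i| + ∑ (α_i + β_i)`, `ε₀ = min (1/10) (η/(100 K))`,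
`L₀ ≥ 1, log(1 + max |M|), 2 log(12 C)/ε`.  Let `f = coeff a (..)`, `k_h = a(h,2)`, and suppose `f ≠ 0`.
(0) `∑_h l_h k_h = ∑ (l_h r_h)(k_h/r_h) ≤ (1 + ε) R ε`.  `∑ r_h ≤ 2 m R / L₀` so
`(12 C)^(∑ r) ≤ exp(ε R m)`.  For balanced `j ∈ JJ r` let `y_i = ∑_h l_h j_{hi} / R`; as
`R ≤ l_h r_h ≤ (1+ε) R` it lies between `∑ j_{hi}/r_h` and `(1 + ε)` times that, so
`|y_i - m/3| ≤ 3 ε m`; `∑_i y_i ≤ (1+ε) m ≤ 2 m`.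
(1) M6 with `Λ h i = exp((c_i + ε) l_h)`, `ρ h = exp(-(K+1) l_h)` (`|M| exp(-(K+1) l) ≤ exp(-K l)
≤ Λ`): for balanced `j`, `∏ Λ^j = exp(R ∑_i (c_i + ε) y_i) ≤ exp(R m (∑ c_i/3 + 3 K ε))`, so
`|f| ≤ 4^(∑ r) 3^(∑ r) C^(∑ r) exp(R m (∑ c_i /3 + 3Kε)) exp((K + 1) ∑ l_h k_h)
≤ exp(R m (∑ c_i/3 + 8 K ε))` (`(K+1)(1+ε) ≤ 4K`, `m ≥ 1`).
(2) M7 with `b = 2`, `E₂ = ⌊R m (∑ α_i / 3 - 3 K ε)⌋₊`:
`∑ A_{hi} j_{hi} ≥ R ∑ (α_i - ε) y_i ≥ R m (∑ α_i/3 - 3Kε)`; `A'_h = max_i A_{hi} ≤ K l_h`; so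
`2^(E₂) ∣ 2^(s₂) f`, `s₂ = ∑ A'_h k_h ≤ 2 K R ε`.  The same for `b = 3`: `3^(E₃) ∣ 3^(s₃) f`.
Hence `2^(E₂) 3^(E₃) ∣ 2^(s₂) 3^(s₃) f ≠ 0` (coprime), so `2^(E₂) 3^(E₃) ≤ 2^(s₂) 3^(s₃) |f|`.
(3) Logarithms, `log 6 ≤ 2`: `R m (∑ (α_i log 2 + β_i log 3)/3 - 6Kε) - 2
≤ R m (∑ c_i/3 + 8Kε) + 4 K R ε`, so `R m η/3 ≤ 18 K ε R m + 2`; but `η/3 ≥ 33 K ε` and
`K ε R m ≥ 1`: contradiction. -/
def Vanish : Prop :=
  ∀ (M : Matrix (Fin 3) (Fin 3) ℤ) (c α β : Fin 3 → ℝ) (η : ℝ), M.det ≠ 0 → 0 < η →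
    (∀ i, 0 ≤ α i) → (∀ i, 0 ≤ β i) →
    ∑ i, c i + η ≤ ∑ i, (α i * Real.log 2 + β i * Real.log 3) →
    ∃ ε₀ : ℝ, 0 < ε₀ ∧ ∀ ε : ℝ, 0 < ε → ε ≤ ε₀ → ∀ C : ℝ, 1 ≤ C → ∃ L₀ : ℕ,
      ∀ (m : ℕ) (r l : Fin m → ℕ) (R : ℝ), 1 ≤ m → 1 / ε ≤ R →
        (∀ h, L₀ ≤ l h ∧ 0 < r h ∧ R ≤ r h * l h ∧ (r h * l h : ℝ) ≤ (1 + ε) * R) →
        ∀ p d : (Fin m → Fin 3 → ℕ) → ℤ,
          (∀ j ∈ JJ r, p j ≠ 0 → Balanced ε r j) → (∀ j ∈ JJ r, d j ≠ 0 → Balanced ε r j) →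
          (∀ j ∈ JJ r, |(d j : ℝ)| ≤ C ^ (∑ h, r h)) →
          (∀ (A : Type) [CommRing A] (v : Fin m → Fin 3 → A),
            (M.det : A) ^ (∑ h, r h) * val r p v = val r d (fun h => app M (v h))) →
          ∀ (A B : Fin m → Fin 3 → ℕ) (x x' : Fin m → Fin 3 → ℤ) (dir : Fin m → Fin 3),
            (∀ h i, |(A h i : ℝ) - α i * l h| ≤ ε * l h ∧ |(B h i : ℝ) - β i * l h| ≤ ε * l h ∧
              (2 : ℤ) ^ A h i ∣ x h i ∧ (3 : ℤ) ^ B h i ∣ x h i ∧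
              (2 : ℤ) ^ A h i ∣ x' h i ∧ (3 : ℤ) ^ B h i ∣ x' h i ∧
              |((app M (x h) i : ℤ) : ℝ)| ≤ Real.exp ((c i + ε) * l h) ∧
              |((app M (x' h) i : ℤ) : ℝ)| ≤ Real.exp ((c i + ε) * l h)) →
            ∀ a : Fin m × Fin 3 →₀ ℕ, swt r a ≤ ε → coeff a (val r p (gv x x' dir)) = 0

/-- **M9, choice of coordinates.**

Proof.  Let `i₁` maximise `|u i|`; `u i₁ ≠ 0` (otherwise `2` divides all `u i`).  For the two other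
indices `j, k` let `d_j = gcd(u i₁, u j)`, `d_k = gcd(u i₁, u k)`; they are coprime (a common divisor
divides all `u i`) and divide `u i₁`, so `d_j d_k ≤ |u i₁|` and the smaller one, say
`d = d_{i₂}`, satisfies `d² ≤ |u i₁|`.  `q = |u i₁| / d`, `p = ∓ u i₂ / d`: `q² ≥ |u i₁| ≥ |u k|`. -/
def GcdChoice : Prop :=
  ∀ u : Fin 3 → ℤ, (∀ g : ℤ, (∀ i, g ∣ u i) → IsUnit g) →
    ∃ (i₁ i₂ i₃ : Fin 3) (p q : ℤ), i₁ ≠ i₂ ∧ i₂ ≠ i₃ ∧ i₁ ≠ i₃ ∧ u i₁ ≠ 0 ∧ 0 < q ∧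
      IsCoprime p q ∧ (p : ℚ) / q = -(u i₂ : ℚ) / u i₁ ∧ ∀ k, |u k| ≤ q ^ 2

/-- **M10, dehomogenisation.**

Proof.  `τ_h = -u_h(i₂)/u_h(i₁)`, `ν_h = u_h(i₃)/u_h(i₁)`.  Over `ℚ[z, S]` (variables
`z_h = X (h, 0)`, `S_h = X (h, 1)` in `MvPolynomial (Fin m × Fin 2) ℚ`) let `v_h` be the vector with
coordinates `τ_h - ν_h z_h` at `i₁`, `1` at `i₂`, `z_h` at `i₃`: it is orthogonal to `u_h`, so
`v_h = a_h x_h + b_h x'_h` with `a_h, b_h` polynomials in `z_h` of degree `≤ 1` (`x_h, x'_h` is a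
basis of the plane `u_h^⊥ ⊂ ℚ³`; apply this to the two vectors `(τ, 1, 0)` and `(-ν, 0, 1)`).  The
ring map `ℤ[X] → ℚ[z, S]`, `X(h,0) ↦ a_h`, `X(h,1) ↦ b_h`, `X(h,2) ↦ S_h` maps `val r p gv` to
`F' = ∑_j p_j ∏_h (τ_h - ν_h z_h + S_h)^(j_{h i₁}) z_h^(j_{h i₃})`; a monomial with `S`-exponents `k` is
mapped to `S^k` times a polynomial in `z`; so the coefficient of `F'` at `S^k z^e` is `0` for all `e`
if `wt r k ≤ σ`.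
Let `j* ∈ JJ r` with `p j* ≠ 0` minimise `∑_h j_{h i₃}`, `e_h = j*_{h i₃}`, and
`Q = ∑_{j ∈ JJ r, j_{h i₃} = e_h ∀ h} p_j ∏_h t_h^(j_{h i₁})`.  `Q ≠ 0`: an array `j ∈ JJ r` is
determined by `(j_{h i₁})_h` and `(j_{h i₃})_h`, so the coefficients of `Q` are values of `p` or `0`,
and the one at `(j*_{h i₁})` is `p j*`.  Degrees `≤ r_h`.
The coefficient of `F'` at `S^k z^e`: the term `j` contributes only if `j_{h i₃} ≤ e_h` for all `h`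
(factor `z^(j_{h i₃})`), and then by minimality of `∑ e_h` (for `p j ≠ 0`) `j_{h i₃} = e_h` for all `h`;
the contribution is then the coefficient of `S^k z^0` in `∏ (τ_h - ν_h z_h + S_h)^(j_{h i₁})`, i.e. of
`S^k` in `∏ (τ_h + S_h)^(j_{h i₁})`.  So the coefficient is `coeff k (sh τ (toQ Q))`. -/
def Dehom : Prop :=
  ∀ (m : ℕ) (r : Fin m → ℕ) (p : (Fin m → Fin 3 → ℕ) → ℤ) (x x' u : Fin m → Fin 3 → ℤ)
    (i₁ i₂ i₃ : Fin m → Fin 3) (σ : ℝ),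
    (∀ h, i₁ h ≠ i₂ h ∧ i₂ h ≠ i₃ h ∧ i₁ h ≠ i₃ h) → (∀ h, u h (i₁ h) ≠ 0) →
    (∀ h, ∑ i, u h i * x h i = 0 ∧ ∑ i, u h i * x' h i = 0 ∧ Indep (x h) (x' h)) →
    (∃ j ∈ JJ r, p j ≠ 0) →
    (∀ a : Fin m × Fin 3 →₀ ℕ, swt r a ≤ σ → coeff a (val r p (gv x x' i₁)) = 0) →
    ∃ Q : MvPolynomial (Fin m) ℤ, Q ≠ 0 ∧ (∀ h, Q.degreeOf h ≤ r h) ∧
      (∀ a, coeff a Q = 0 ∨ ∃ j, coeff a Q = p j) ∧
      ∀ k : Fin m →₀ ℕ, wt r k ≤ σ →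
        coeff k (sh (fun h => -(u h (i₂ h) : ℚ) / u h (i₁ h)) (toQ Q)) = 0

/-- **M11, the theorem on planes** (from M4, M8, M9, M10, Roth's lemma).

Proof.  Suppose the data exist.  `ε₀` from M8; `ε = min ε₀ 1`; `m ≥ 1` with `24 ≤ ε² m`; `C` from M4;
`L₀` from M8 for `ε, C`; `ω, C'` from `RothLemma m` for `ε`.  Let
`L₁ = max(L₀, 1, ⌈4 m log(C C')/(γ ω)⌉)` (`C C' ≥ 1`).  Choose scales `s_0 < s_1 < … < s_{m-1}`, all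
`≥ L₁`, with `HasDatum .. ε γ (s_n)` and `s_{n+1} ≥ (2/ω + 1) s_n`, and let `l_h = s_{m-1-h}`
(decreasing in `h`): `l_h ≥ (2/ω) l_{h'}` for `h < h'`.  `R` a real number `≥ 1/ε` and
`≥ l_h/ε` for all `h`, `r_h = ⌈R / l_h⌉₊`: `R ≤ r_h l_h ≤ R + l_h ≤ (1+ε) R`; for `h < h'`:
`r_h ≤ R/l_h + 1 ≤ 2R/l_h ≤ ω R / l_{h'} ≤ ω r_{h'}`.  `∑ r_h ≤ 2 m R / L₁`.
Auxiliary polynomial `p, d` (M4); coordinates `i₁, i₂, i₃, p_h, q_h` (M9 for `u_h`); `M8` gives the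
vanishing with `dir = i₁`; M10 gives `Q`, with `σ = ε`.
Roth's lemma for `Q`, `r`, `p_h, q_h`, `R₀ = exp(γ R / 2) ≥ 1`: `q_h² ≥ max |u_h| ≥ exp(γ l_h)`, so
`q_h^(r_h) ≥ exp(γ l_h r_h/2) ≥ R₀`; `C'^(∑ r) |coeff Q| ≤ (C C')^(∑ r) ≤ exp(2 m R log(C C')/L₁)
≤ exp(γ ω R/2) = R₀^ω`.  It yields `k` with `wt r k ≤ ε` and a nonzero coefficient, contradicting
M10. -/
def Machine : Prop :=
  ∀ (M : Matrix (Fin 3) (Fin 3) ℤ) (c α β : Fin 3 → ℝ) (η γ : ℝ), M.det ≠ 0 → 0 < η → 0 < γ →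
    (∀ i, 0 ≤ α i) → (∀ i, 0 ≤ β i) →
    ∑ i, c i + η ≤ ∑ i, (α i * Real.log 2 + β i * Real.log 3) →
    ¬ ∀ ε : ℝ, 0 < ε → ∀ l₀ : ℕ, ∃ l : ℕ, l₀ ≤ l ∧ HasDatum M c α β ε γ l

end MPcc0c1aSub
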