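import Pool.Agent.Lib.MP_cc0c1a_nt.Sub.Defs

/-!
# MP_cc0c1a_nt / Sub: statements R (Roth's lemma)
-/

namespace MPcc0c1aSub

open MvPolynomial

/-- **R1, coefficients of the Hasse derivative.**

Proof.  `coeff b (monomial (a - k) c) = if a - k = b then c else 0`; the product of binomials
vanishes unless `k ≤ a`, and for `k ≤ a`, `a - k = b` iff `a = b + k`.  (Terms with
`a ∉ P.support` vanish because `P.coeff a = 0`.)  Additivity and compatibility with ring maps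
follow by comparing coefficients. -/
def HasseCoeff : Prop :=
  ∀ (m : ℕ) (R : Type) [CommRing R] (k : Fin m →₀ ℕ) (P Q : MvPolynomial (Fin m) R),
    (∀ b, coeff b (hasse k P) = (∏ i, ((b i + k i).choose (k i) : R)) * coeff (b + k) P) ∧
    hasse k (P + Q) = hasse k P + hasse k Q ∧ (∀ c : R, hasse k (C c * P) = C c * hasse k P) ∧
    (∀ (S : Type) [CommRing S] (f : R →+* S), map f (hasse k P) = hasse k (map f P)) ∧
    ∀ h, (hasse k P).degreeOf h ≤ P.degreeOf h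

/-- **R2, the Hasse derivative commutes with shifts, and gives the Taylor coefficients.**

Proof.  By linearity (R1, `MvPolynomial.induction_on` or `P.as_sum`) let `P = monomial a c`.
`sh τ P = c ∏ (τ_i + X_i)^(a_i)`, whose coefficient at `b` is
`c ∏ binom(a_i, b_i) τ_i^(a_i - b_i)` (binomial theorem in every variable; a product over `i` of
polynomials in the single variable `X i`; one may prove the formula for coefficients by induction
on `m` or on the finset of the product).  Then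
`coeff b (hasse k (sh τ P)) = ∏ binom(b_i + k_i, k_i) · c ∏ binom(a_i, b_i + k_i) τ^(a - b - k)` and
`coeff b (sh τ (hasse k P)) = c ∏ binom(a_i, k_i) ∏ binom(a_i - k_i, b_i) τ^(a - k - b)`, equal by
`Nat.choose_mul` / `binom(a, k) binom(a - k, b) = binom(a, b + k) binom(b + k, k)`. -/
def HasseShift : Prop :=
  ∀ (m : ℕ) (R : Type) [CommRing R] (k : Fin m →₀ ℕ) (τ : Fin m → R)
    (P : MvPolynomial (Fin m) R), sh τ (hasse k P) = hasse k (sh τ P)

/-- **R3, index calculus.**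

Proof.  `sh τ` is a ring homomorphism; the coefficient of a product at `k` is the sum over
`a + b = k` of products, and `wt r` is additive, so `wt r a < θ` or `wt r b < θ'` if
`wt r k < θ + θ'`.  Sums and products over finsets: induction (index `≥ 0` always holds, and
`IndexGE r τ 0 P` is trivially true as `wt ≥ 0`).  Derivative: R2 and R1:
`coeff b (sh τ (hasse k P)) = (..) * coeff (b + k) (sh τ P)` and `wt (b + k) = wt b + wt k`. -/
def IndexCalc : Prop :=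
  ∀ (m : ℕ) (r : Fin m → ℕ) (τ : Fin m → ℚ),
    (∀ (θ θ' : ℝ) (P Q : MvPolynomial (Fin m) ℚ), IndexGE r τ θ P → IndexGE r τ θ' Q →
      IndexGE r τ (θ + θ') (P * Q)) ∧
    (∀ (θ : ℝ) (P Q : MvPolynomial (Fin m) ℚ), IndexGE r τ θ P → IndexGE r τ θ Q →
      IndexGE r τ θ (P + Q)) ∧
    (∀ (θ : ℝ) (c : ℚ) (P : MvPolynomial (Fin m) ℚ), IndexGE r τ θ P → IndexGE r τ θ (C c * P)) ∧
    (∀ (k : Fin m →₀ ℕ) (θ : ℝ) (P : MvPolynomial (Fin m) ℚ), IndexGE r τ θ P →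
      IndexGE r τ (θ - wt r k) (hasse k P))

/-- **R4, index of a determinant.**  `θ j` may be any real numbers; the entries of column `j` have
index `≥ θ j`.

Proof (from R3).  `det = ∑_σ sign(σ) ∏_j E (σ j) j` (`Matrix.det_apply`), each product has index
`≥ ∑ θ j`. -/
def IndexDet : Prop :=
  ∀ (m k : ℕ) (r : Fin m → ℕ) (τ : Fin m → ℚ) (θ : Fin k → ℝ)
    (E : Matrix (Fin k) (Fin k) (MvPolynomial (Fin m) ℚ)),
    (∀ i j, IndexGE r τ (θ j) (E i j)) → IndexGE r τ (∑ j, θ j) E.det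

/-- **R5, one variable.**

Proof.  By `Polynomial.taylor` (`taylor_coeff`, `taylor_injective`, `taylor_mul`) the condition says
`X^K ∣ taylor (p/q) U`, i.e. `(X - C (p/q))^K ∣ U` over `ℚ`.  The polynomial `C q * X - C p` is
primitive (`p`, `q` coprime), so is its `K`-th power, and it divides `U` over `ℚ` (`q ≠ 0`), hence
over `ℤ` by Gauss (`Polynomial.IsPrimitive.Int.dvd_iff_map_cast_dvd_map_cast`).  Compare leading
coefficients: `q^K ∣ U.leadingCoeff ≠ 0`. -/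
def UniMult : Prop :=
  ∀ (U : Polynomial ℤ) (p q : ℤ) (K : ℕ), U ≠ 0 → 0 < q → IsCoprime p q →
    (∀ k < K, (Polynomial.taylor ((p : ℚ) / q) (U.map (Int.castRingHom ℚ))).coeff k = 0) →
    q ^ K ≤ |U.leadingCoeff|

/-- **R6, Wronskians of polynomials in one variable.**

Proof.  Strong induction on `∑_j natDegree (ψ j)`.  (i) If the degrees are pairwise different: the
entry `(i, j)` times `X^i` has degree `≤ d_j` and coefficient `binom(d_j, i) lc_j` at `X^(d_j)`.  So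
the coefficient of `X^(∑ d_j)` in `det (X^i · hasseDeriv i ψ_j) = X^(∑ i) · det(..)` is
`∏ lc_j · det (binom(d_j, i))` (expand with `Matrix.det_apply`;
`Polynomial.coeff_prod_of_natDegree_le`-type lemma), and `det (binom(d_j, i)) ≠ 0` for distinct
`d_j`: `∏ i! · det binom(d_j, i) = det vandermonde(d)`
(see `Matrix.det_eval_matrixOfPolynomials_eq_det_vandermonde` with `descPochhammer`, monic of degree
`i`, value `i! binom(d, i)` at `d`).  All `ψ_j ≠ 0` by independence.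
(ii) If `natDegree ψ_a = natDegree ψ_b`, `a ≠ b`: replace `ψ_b` by
`ψ_b' = ψ_b - (lc_b/lc_a) ψ_a`, of smaller degree or of degree `0`... precisely: if the common degree
is `0` then `ψ_b' = 0` contradicts independence, otherwise `natDegree ψ_b' < natDegree ψ_b`.
Independence is preserved and the determinant does not change (a multiple of column `a` is
subtracted from column `b`: `Matrix.det_updateCol_add_smul_self` or similar;
`hasseDeriv` is linear). -/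
def UniWronskian : Prop :=
  ∀ (k : ℕ) (ψ : Fin k → Polynomial ℚ), LinearIndependent ℚ ψ →
    (Matrix.of fun i j : Fin k => Polynomial.hasseDeriv (i : ℕ) (ψ j)).det ≠ 0

/-- **R7, Kronecker substitution.**

Proof.  `κ : X_h ↦ T^(D^h)`.  Two monomials with exponents `< D` have different images (base `D`
expansions: `∑ a_h D^h` determines `a`; `Nat.ofDigits` or induction on `m`), so `κ` is injective on
polynomials of degrees `< D` in all variables. -/
def Kronecker : Prop :=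
  ∀ (m D : ℕ) (P : MvPolynomial (Fin m) ℚ), (∀ h, P.degreeOf h < D) → P ≠ 0 →
    aeval (fun h : Fin m => (Polynomial.X : Polynomial ℚ) ^ D ^ (h : ℕ)) P ≠ 0

/-- **R8, derivatives along a curve.**

Proof.  Let `γ_h ∈ ℚ[T]`, and for `φ ∈ ℚ[t_1, …, t_m]` let `φ(γ) = aeval γ φ ∈ ℚ[T]`.  Claim: for every
`i` there are polynomials `A_n ∈ ℚ[T]`, one for every multi-index `n` with `|n| ≤ i`, only finitely
many nonzero, with `hasseDeriv i (φ(γ)) = ∑_n A_n · (hasse n φ)(γ)` for all `φ`.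
Quick proof by Taylor expansion: `taylor`: `φ(γ(T + S)) = ∑_n (hasse n φ)(γ(T)) · (γ(T+S) - γ(T))^n`
in `ℚ[T][S]`, and `γ_h(T+S) - γ_h(T)` is divisible by `S`; so the coefficient of `S^i` involves only
`|n| ≤ i`, and `A_n` is the coefficient of `S^i` in `∏_h (γ_h(T+S) - γ_h(T))^(n_h)`.  (Alternatively,
induction on `i` with ordinary derivatives, the chain rule
`d/dT (φ(γ)) = ∑_h γ_h' (∂_h φ)(γ)` and `n! · hasse n = ∂^n`.)  The finset `N` may be taken to be all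
multi-indices with `|n| ≤ i`. -/
def CurveDeriv : Prop :=
  ∀ (m : ℕ) (γ : Fin m → Polynomial ℚ) (i : ℕ),
    ∃ (N : Finset (Fin m →₀ ℕ)) (A : (Fin m →₀ ℕ) → Polynomial ℚ), (∀ n ∈ N, n.degree ≤ i) ∧
      ∀ φ : MvPolynomial (Fin m) ℚ,
        Polynomial.hasseDeriv i (aeval γ φ) = ∑ n ∈ N, A n * aeval γ (hasse n φ)

/-- **R9, generalised Wronskians.**

Proof (from R6, R7, R8).  Let `D` be larger than all degrees, `γ_h = T^(D^h)`.  The polynomials
`φ_j(γ)` are linearly independent (R7 applied to linear combinations).  By R6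
`det (hasseDeriv i (φ_j(γ))) ≠ 0`.  By R8 row `i` of this matrix is
`∑_{n ∈ N_i} A_{i,n} · (row of the hasse n φ_j (γ))`; expand the determinant by multilinearity in
the rows (`MultilinearMap.map_sum_finset` for `Matrix.detRowAlternating`): it is a sum over choices
`n_i ∈ N_i` of `(∏ A_{i, n_i}) · det (hasse (n_i) φ_j)(γ)`; so for some choice
`det ((hasse (n_i) φ_j)(γ)) ≠ 0`, and this is the image of `det (hasse (n_i) φ_j)` under `aeval γ`
(`AlgHom.map_det`). -/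
def GenWronskian : Prop :=
  ∀ (m k : ℕ) (φ : Fin k → MvPolynomial (Fin m) ℚ), LinearIndependent ℚ φ →
    ∃ n : Fin k → (Fin m →₀ ℕ), (∀ i, (n i).degree ≤ i) ∧
      (Matrix.of fun i j : Fin k => hasse (n i) (φ j)).det ≠ 0

/-- **R10, rank factorisation.**

Proof.  Let `F = finSuccEquiv ℚ m P`, a polynomial in one variable over `ℚ[t_1, …, t_m]`, of degree
`P.degreeOf 0` (`natDegree_finSuccEquiv`), with coefficients `F_b`, `b ≤ P.degreeOf 0`.  Let `W` be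
the span of the `F_b`, `k = dim W ≥ 1` (`P ≠ 0`), `k ≤ P.degreeOf 0 + 1` (spanned by so many
elements), `φ` a basis of `W`, `F_b = ∑_j c_{b j} φ_j`, `ψ_j = ∑_b c_{b j} T^b`.  Then
`P = ∑_j ι₀ ψ_j ι₁ φ_j`.  If `∑_j e_j ψ_j = 0` then `∑_j e_j c_{bj} = 0` for all `b`; the linear form
`∑ e_j φ_j^*` on `W` vanishes on all `F_b`, hence on `W`, so `e = 0`. -/
def RankFactor : Prop :=
  ∀ (m : ℕ) (P : MvPolynomial (Fin (m + 1)) ℚ), P ≠ 0 →
    ∃ (k : ℕ) (φ : Fin k → MvPolynomial (Fin m) ℚ) (ψ : Fin k → Polynomial ℚ),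
      1 ≤ k ∧ k ≤ P.degreeOf 0 + 1 ∧ LinearIndependent ℚ φ ∧ LinearIndependent ℚ ψ ∧
      P = ∑ j, ι₀ (ψ j) * ι₁ (φ j)

/-- **R11, separated variables.**

Proof.  `coeff (cons b s) (ι₀ ψ * ι₁ φ) = ψ_b φ_s`: e.g. via `finSuccEquiv` (`finSuccEquiv_coeff_coeff`;
the image of `ι₁ φ` is `C φ` (`finSuccEquiv_rename_finSuccEquiv` or `finSuccEquiv_comp_C..`), that of
`ι₀ ψ` is `ψ.map C`).  The formula for `hasse (cons j n)`: compare coefficients with R1 and
`Polynomial.hasseDeriv_coeff` (`Fin.prod_univ_succ`).  The formula for `sh`: both sides are algebra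
maps in `ψ`, `φ`; `sh τ` maps `X 0` to `C (τ 0) + X 0`, and `taylor` maps `X` to `X + C (τ 0)`. -/
def Separated : Prop :=
  ∀ (m : ℕ) (ψ : Polynomial ℚ) (φ : MvPolynomial (Fin m) ℚ),
    (∀ b s, coeff (Finsupp.cons b s) (ι₀ ψ * ι₁ φ) = ψ.coeff b * coeff s φ) ∧
    (∀ j n, hasse (Finsupp.cons j n) (ι₀ ψ * ι₁ φ)
      = ι₀ (Polynomial.hasseDeriv j ψ) * ι₁ (hasse n φ)) ∧
    ∀ τ : Fin (m + 1) → ℚ, sh τ (ι₀ ψ * ι₁ φ)
      = ι₀ (Polynomial.taylor (τ 0) ψ) * ι₁ (sh (fun h => τ h.succ) φ)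

/-- **R12, factorisation of the determinant.**

Proof (from R11, R1).  The entry `(i, j)` is `∑_s ι₀ (hasseDeriv j (ψ_s)) ι₁ (hasse (n_i) (φ_s))`, so the
matrix is the product `A * Bᵀ` with `A i s = ι₁ (hasse (n_i) φ_s)`, `B j s = ι₀ (hasseDeriv j ψ_s)`;
`ι₀`, `ι₁` are (values of) ring homomorphisms (`RingHom.map_det`). -/
def DetFactor : Prop :=
  ∀ (m k : ℕ) (φ : Fin k → MvPolynomial (Fin m) ℚ) (ψ : Fin k → Polynomial ℚ)
    (n : Fin k → (Fin m →₀ ℕ)),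
    (Matrix.of fun i j : Fin k =>
      hasse (Finsupp.cons (j : ℕ) (n i)) (∑ s, ι₀ (ψ s) * ι₁ (φ s))).det
      = ι₀ (Matrix.of fun i j : Fin k => Polynomial.hasseDeriv (i : ℕ) (ψ j)).det
        * ι₁ (Matrix.of fun i j : Fin k => hasse (n i) (φ j)).det

/-- **R13, height and degree of the determinant.**

Proof.  Use the norm `wl1 1` (`w = 1`), i.e. the sum `‖f‖` of the absolute values of the
coefficients; it is subadditive and submultiplicative, and `|coeff a f| ≤ ‖f‖`.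
`‖P‖ ≤ ∏ (r_h + 1) · B ≤ 2^(∑ r) B`; `‖hasse n P‖ ≤ 2^(∑ r) ‖P‖` (`binom(a_h, n_h) ≤ 2^(a_h) ≤ 2^(r_h)`,
distinct `a` with nonzero factor give distinct `a - n`; or use R1 and sum over coefficients).  The
determinant is a sum of `k! ≤ k^k ≤ (2^(r_0))^k` products of `k` entries (`k ≤ r_0 + 1 ≤ 2^(r_0)`).
So `‖det‖ ≤ (2^(∑ r) · 2^(∑ r) · 2^(∑ r) B)^k = (8^(∑ r) B)^k`.  Degrees: every entry has degree
`≤ r_h` in `t_h` (R1), products of `k` entries degree `≤ k r_h` (`degreeOf_mul_le`,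
`degreeOf_sum_le`). -/
def DetHeight : Prop :=
  ∀ (m k : ℕ) (r : Fin (m + 1) → ℕ) (B : ℝ) (P : MvPolynomial (Fin (m + 1)) ℤ)
    (n : Fin k → (Fin m →₀ ℕ)), 0 ≤ B → k ≤ r 0 + 1 → (∀ h, P.degreeOf h ≤ r h) →
    (∀ a, |((coeff a P : ℤ) : ℝ)| ≤ B) →
    (∀ a, |((coeff a (Matrix.of fun i j : Fin k => hasse (Finsupp.cons (j : ℕ) (n i)) P).det : ℤ) : ℝ)|
      ≤ (8 ^ (∑ h, r h) * B) ^ k) ∧
    ∀ h, (Matrix.of fun i j : Fin k => hasse (Finsupp.cons (j : ℕ) (n i)) P).det.degreeOf h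
      ≤ k * r h

/-- **R14, a numerical inequality.**

Proof.  For the `j < k` with `j ≤ θ r / 2` the term is `≥ θ / 2`.  Their number is
`min(k, ⌊θ r / 2⌋ + 1) ≥ min(k, θ r / 2) ≥ k θ / 4`, because `k ≤ r + 1 ≤ 2 r` and `θ ≤ 1`.  So the
sum is `≥ (θ / 2)(k θ / 4)`. -/
def NumSum : Prop :=
  ∀ (k r : ℕ) (θ : ℝ), 1 ≤ r → k ≤ r + 1 → 0 < θ → θ ≤ 1 →
    k * θ ^ 2 / 8 ≤ ∑ j : Fin k, max 0 (θ - (j : ℕ) / r)

/-- **Roth's lemma** in `m` variables. -/
def RothLemma (m : ℕ) : Prop :=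
  ∀ ε : ℝ, 0 < ε → ∃ ω C : ℝ, 0 < ω ∧ 1 ≤ C ∧
    ∀ (r : Fin m → ℕ) (p q : Fin m → ℤ) (R : ℝ) (P : MvPolynomial (Fin m) ℤ),
      (∀ h, 0 < r h) → (∀ h h' : Fin m, h < h' → (r h : ℝ) ≤ ω * r h') →
      (∀ h, 0 < q h ∧ IsCoprime (p h) (q h) ∧ R ≤ (q h : ℝ) ^ (r h)) → 1 ≤ R → P ≠ 0 →
      (∀ h, P.degreeOf h ≤ r h) →
      (∀ a, C ^ (∑ h, r h) * |((coeff a P : ℤ) : ℝ)| ≤ R ^ ω) →
      ∃ k : Fin m →₀ ℕ, wt r k ≤ ε ∧ coeff k (sh (fun h => (p h : ℚ) / q h) (toQ P)) ≠ 0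

/-- **R15, induction step of Roth's lemma** (from R1-R14 and `RothLemma m`).

Proof.  We may assume `ε ≤ 1`.  Let `ε' = ε²/128`, `ω', C'` from `RothLemma m` for `ε'`, and
`ω = min(ω', ε/2, ε'/2)`, `C = 8 C'`.  Let `r, p, q, R, P` be given, `τ = p/q`, and suppose that
`coeff k (sh τ (toQ P)) = 0` whenever `wt r k ≤ ε`; so `IndexGE r τ ε (toQ P)`.  `B = R^ω / C^(∑ r)`
bounds the coefficients of `P`; as some coefficient is a nonzero integer, `8 ≤ C^(∑ r) ≤ R^ω`, so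
`R > 1`.
R10 for `toQ P`: `k, φ, ψ`, `1 ≤ k ≤ r_0 + 1`.  R9: `n_i`, `|n_i| ≤ i ≤ k - 1 ≤ r_0`,
`V = det (hasse (n_i) φ_j) ≠ 0`; R6: `U = det (hasseDeriv i ψ_j) ≠ 0`.
`Dz = det (hasse (cons j n_i) P)` over `ℤ`; `toQ Dz = ι₀ U * ι₁ V` (R1: `map` commutes with `hasse`;
R12).
(a) `wt r (cons j n_i) = j/r_0 + ∑_h (n_i)_h / r_{h+1} ≤ j/r_0 + ω |n_i| / r_0 ≤ j/r_0 + ω`, because
`r_0 ≤ ω r_{h+1}`.  So the entries of column `j` have index `≥ max(0, ε/2 - j/r_0)` (R3; index `≥ 0`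
is trivial), and by R4, R14: `IndexGE r τ (k ε²/32) (toQ Dz)`.
(b) Choose `b₀`, `s₀` with `U_{b₀} ≠ 0`, `V_{s₀} ≠ 0`.  `Vz ∈ ℤ[t_1..t_m]`: the coefficient of `t_0^(b₀)`
in `Dz` (`finSuccEquiv ℤ m Dz`), `toQ Vz = C U_{b₀} * V`; `Uz ∈ ℤ[T]`: `∑_b coeff (cons b s₀) Dz T^b`,
image `C V_{s₀} * U`.  Their coefficients are coefficients of `Dz`, so `≤ (8^(∑ r) B)^k` (R13), and
`degreeOf h Vz ≤ k r_{h+1}`.
(c) `RothLemma m` for `k r_{h+1}, p_{h+1}, q_{h+1}, R^k, Vz`: the hypotheses hold: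
`C'^(∑ k r_{h+1}) (8^(∑ r) B)^k ≤ ((8 C')^(∑ r) B)^k ≤ R^(ω k) ≤ (R^k)^(ω')`.  So there is `κ` with
`∑ κ_h/(k r_{h+1}) ≤ ε'` and `coeff κ (sh τ' V) ≠ 0`.
(d) Let `K = ⌊ε' k r_0⌋ + 1`.  If all Taylor coefficients of order `< K` of `U` at `τ_0` vanished, then by
R5 `q_0^K ≤ (8^(∑ r) B)^k ≤ R^(ω k)`, but `q_0^K ≥ q_0^(ε' k r_0) ≥ R^(ε' k) > R^(ω k)`.  So there is
`κ_0 ≤ ε' k r_0` with nonzero Taylor coefficient.
(e) By R11 `coeff (cons κ_0 κ) (sh τ (toQ Dz)) ≠ 0` and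
`wt r (cons κ_0 κ) ≤ 2 k ε' = k ε²/64 < k ε²/32`, contradicting (a). -/
def RothStep : Prop := ∀ m : ℕ, RothLemma m → RothLemma (m + 1)

/-- **R16, Roth's lemma** (from R15).  For `m = 0` the polynomial is a nonzero constant: `k = 0`. -/
def RothAll : Prop := ∀ m : ℕ, RothLemma m

end MPcc0c1aSub
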